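import Pool.Agent.Lib.MP_5d3e93_al.Lq.Defs

/-! Flats, covers, cusps, transfer data, groups. -/

open Matrix Set

namespace Pool.Agent.Lib.MP_5d3e93_al.Lq

universe w w'

variable {m : ℕ}

/-- Translation of functions. -/
def fa {Γ T : Type} [Group Γ] [MulAction Γ T] (g : Γ) (z : T → ℝ) : T → ℝ := fun t => z (g⁻¹ • t)

/-- Long covers of bounded order. -/
structure Cov (Γ : Type) [Group Γ] {T : Type} [MulAction Γ T] (len : Γ → ℝ) (Z : Set (T → ℝ))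
    (α : ℝ) (n : ℕ) where
  I : Type
  [act : MulAction Γ I]
  mem : I → Γ → (T → ℝ) → Prop
  smul : ∀ (h : Γ) U g z, mem U g z → mem (h • U) (h * g) (fa h z)
  ord : ∀ g z, fa g⁻¹ z ∈ Z → ∀ s : Finset I, (∀ U ∈ s, mem U g z) → s.card ≤ n
  stab : ∀ U : I, ∃ z ∈ Z, ∃ h : Γ, ∀ g : Γ, g • U = U → fa (h⁻¹ * g * h) z = z
  long : ∃ (T₀ : Finset T) (ε : ℝ), 0 < ε ∧ ∀ z ∈ Z, ∃ U, ∀ z', (∀ t ∈ T₀, |z' t - z t| < ε) →
    ∀ g, len g ≤ α → mem U g z'

section Flat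

variable {ι : Type} {v : ι → Pl} {Γ : Type} [Group Γ] (r : ∀ i, Γ →* GL (Fin (m + 1)) (v i).K)

/-- Families of norms. -/
def Xr (_r : ∀ i, Γ →* GL (Fin (m + 1)) (v i).K) : Type := ∀ i, Nm (v i) (m + 1)

/-- The coordinates of the space of flats. -/
def Tc (_r : ∀ i, Γ →* GL (Fin (m + 1)) (v i).K) : Type :=
  Σ i : ι, Fin (m + 1) × Γ × (Fin (m + 1) → (v i).K)

noncomputable instance [Fintype ι] : PseudoMetricSpace (Xr r) :=
  inferInstanceAs (PseudoMetricSpace (∀ i, Nm (v i) (m + 1)))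

instance : MulAction Γ (Xr r) where
  smul g x i := r i g • x i
  one_smul x := funext fun i => show r i 1 • x i = _ by rw [map_one, one_smul]
  mul_smul g h x := funext fun i => show r i (g * h) • x i = r i g • r i h • x i by
    rw [map_mul, mul_smul]

instance : MulAction Γ (Tc r) where
  smul g c := ⟨c.1, c.2.1, g * c.2.2.1, (r c.1 g).1 *ᵥ c.2.2.2⟩
  one_smul c := show (⟨c.1, c.2.1, 1 * c.2.2.1, (r c.1 1).1 *ᵥ c.2.2.2⟩ : Tc r) = c by
    rw [map_one, one_mul, Units.val_one, one_mulVec]; rfl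
  mul_smul g h c := show (⟨c.1, c.2.1, g * h * c.2.2.1, (r c.1 (g * h)).1 *ᵥ c.2.2.2⟩ : Tc r) =
      ⟨c.1, c.2.1, g * (h * c.2.2.1), (r c.1 g).1 *ᵥ ((r c.1 h).1 *ᵥ c.2.2.2)⟩ by
    rw [map_mul, mul_assoc, Units.val_mul, mulVec_mulVec]

/-- The class of a family of seminorms up to scalars. -/
noncomputable def cls (s : ∀ i, Fin (m + 1) → (Fin (m + 1) → (v i).K) → ℝ) : Tc r → ℝ :=
  fun c => s c.1 c.2.1 c.2.2.2 / ∑ k, s c.1 c.2.1 ((r c.1 c.2.2.1).1 *ᵥ Pi.single k 1)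

/-- The base point. -/
noncomputable def x0 : Xr r := fun i => Nm.std (v i) (m + 1)

/-- The displacement of the base point. -/
noncomputable def len [Fintype ι] (g : Γ) : ℝ := dist (g • x0 r) (x0 r)

/-- Flats that pass near the base point. -/
def Zf (J : ι → Finset (Fin m)) (C D : ℝ) : Set (Tc r → ℝ) :=
  {z | ∃ (f : ∀ i, Matrix (Fin (m + 1)) (Fin (m + 1)) (v i).K) (w : ι → _) (u : ι → _),
    (∀ i, Ad (J i) C (w i) (u i) ∧ Cl D (nm (f i) (u i)) (Nm.std (v i) (m + 1)).1) ∧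
      z = cls r fun i k => nm (f i) (w i k)}

variable (v m) in
/-- The space of parameters. -/
abbrev Pm : Type := ∀ i, (Fin (m + 1) → Fin (m + 1) → (v i).K) ×
  (Fin (m + 1) → Fin (m + 1) → ℝ) × (Fin (m + 1) → ℝ)

variable (v) in
/-- Normalised parameters of the flats near the base point. -/
def Pp (J : ι → Finset (Fin m)) (κ D : ℝ) : Set (Pm m v) :=
  {p | ∀ i, Ad (J i) 1 (p i).2.1 (p i).2.2 ∧ (∀ k, 1 ≤ (p i).2.2 k ∧ (p i).2.2 k ≤ κ) ∧
    Cl D (nm (Matrix.of (p i).1) (p i).2.2) (Nm.std (v i) (m + 1)).1}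

/-- The flat of a parameter. -/
noncomputable def psi (p : Pm m v) : Tc r → ℝ :=
  cls r fun i k => nm (Matrix.of (p i).1) ((p i).2.1 k)

/-- Cusp labels and the thick part. -/
structure Cu [Fintype ι] (W : Type) [MulAction Γ W] (c : ℕ) where
  nz : Xr r → Xr r
  L : ℝ
  lab : Fin c → Xr r → W → Prop
  sc : ∀ y i, ∃ θ, 0 < θ ∧ ∀ t, (nz y i).1 t = θ * (y i).1 t
  eqv : ∀ (g : Γ) y, nz (g • y) = g • nz y
  lip : ∀ y y', dist (nz y) (nz y') ≤ L * dist y y'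
  uniq : ∀ k y U U', lab k y U → lab k y U' → U = U'
  smul : ∀ k (g : Γ) y U, lab k y U → lab k (g • y) (g • U)
  thick : ∀ β, ∃ D, ∀ y, (∃ k U, ∀ y', dist y y' ≤ β → lab k y' U) ∨
    ∃ g : Γ, dist (nz y) (g • x0 r) ≤ D

end Flat

/-- Transfer data: an invariant based complex that is contractible and dominated, with
control, by a finite subcomplex. -/
structure Tf (G : Type w) [Group G] {Y : Type w'} [MulAction G Y] (ρ : Y → Y → Prop) (F : Set G)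
    (N : ℕ) where
  B : Type w'
  [act : MulAction G B]
  deg : B → ℕ
  loc : B → Y
  d : (B →₀ ℤ) →ₗ[ℤ] (B →₀ ℤ)
  η : (B →₀ ℤ) →ₗ[ℤ] (B →₀ ℤ)
  κ : (B →₀ ℤ) →ₗ[ℤ] (B →₀ ℤ)
  ε : (B →₀ ℤ) →ₗ[ℤ] ℤ
  b : B →₀ ℤ
  T : Finset B
  deg_smul : ∀ (g : G) p, deg (g • p) = deg p
  dd : ∀ c, d (d c) = 0
  d_smul : ∀ (g : G) c, d (c.mapDomain (g • ·)) = (d c).mapDomain (g • ·)
  ε_smul : ∀ (g : G) c, ε (c.mapDomain (g • ·)) = ε c
  deg_d : ∀ p, ∀ q ∈ (d (.single p 1)).support, deg q + 1 = deg p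
  deg_η : ∀ p, ∀ q ∈ (η (.single p 1)).support, deg q = deg p + 1
  deg_κ : ∀ p, ∀ q ∈ (κ (.single p 1)).support, deg q = deg p + 1
  deg_ε : ∀ p, deg p ≠ 0 → ε (.single p 1) = 0
  deg_b : ∀ q ∈ b.support, deg q = 0
  εd : ∀ c, ε (d c) = 0
  εb : ε b = 1
  con : ∀ c, c - ε c • b = d (κ c) + κ (d c)
  dom : ∀ c, (c - d (η c) - η (d c)).support ⊆ T
  T_d : ∀ p ∈ T, (d (.single p 1)).support ⊆ T
  T_deg : ∀ p ∈ T, deg p < N
  cd : ∀ p, ∀ q ∈ (d (.single p 1)).support, ρ (loc p) (loc q)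
  cη : ∀ p, ∀ q ∈ (η (.single p 1)).support, ρ (loc p) (loc q)
  cg : ∀ g ∈ F, ∀ p, ρ (loc (g • p)) (g • loc p)

/-- Paths of a given length. -/
def Pa {Y : Type*} (ρ : Y → Y → Prop) : ℕ → Y → Y → Prop
  | 0, x, y => x = y
  | k + 1, x, y => ∃ z, ρ x z ∧ Pa ρ k z y

/-- Series of normal subgroups with finite or commutative factors. -/
def PL : ℕ → (D : Type w) → [Group D] → Prop
  | 0, D, _ => Finite D
  | n + 1, D, _ => ∃ (A : Subgroup D) (_ : A.Normal),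
      (Finite A ∨ ∀ a ∈ A, ∀ b ∈ A, a * b = b * a) ∧ PL n (D ⧸ A)

/-- Matrices over the ring of integers with `N` inverted. -/
def Gn (M N : ℕ) : Subgroup (GL (Fin M) ℚ) where
  carrier := {g | ∃ k : ℕ, ∀ i j, (∃ z : ℤ, (N : ℚ) ^ k * g.1 i j = z) ∧
    ∃ z : ℤ, (N : ℚ) ^ k * (g⁻¹).1 i j = z}
  one_mem' := ⟨0, fun i j => by
    have : ∃ z : ℤ, (1 : Matrix (Fin M) (Fin M) ℚ) i j = z :=
      ⟨if i = j then 1 else 0, by simp [Matrix.one_apply]⟩
    simpa using this⟩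
  inv_mem' := fun ⟨k, h⟩ => ⟨k, fun i j => ⟨(h i j).2, by simpa using (h i j).1⟩⟩
  mul_mem' := fun {g g'} ⟨k, h⟩ ⟨k', h'⟩ => ⟨k + k', fun i j => by
    have e (A B : Matrix (Fin M) (Fin M) ℚ) (a b : ℕ) (p : ∀ i j, ∃ z : ℤ, (N : ℚ) ^ a * A i j = z)
        (q : ∀ i j, ∃ z : ℤ, (N : ℚ) ^ b * B i j = z) :
        ∃ z : ℤ, (N : ℚ) ^ (a + b) * (A * B) i j = z := by
      choose p1 p2 using p
      choose q1 q2 using q
      refine ⟨∑ l, p1 i l * q1 l j, ?_⟩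
      rw [Matrix.mul_apply, Finset.mul_sum]
      push_cast
      exact Finset.sum_congr rfl fun l _ => by rw [← p2, ← q2]; ring
    refine ⟨e _ _ _ _ (fun i j => (h i j).1) fun i j => (h' i j).1, ?_⟩
    rw [_root_.mul_inv_rev, Units.val_mul, add_comm]
    exact e _ _ _ _ (fun i j => (h' i j).2) fun i j => (h i j).2⟩

/-- The places at infinity and at the primes of `N`. -/
noncomputable def pv (N : ℕ) : Option N.primeFactors → Pl
  | none => .real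
  | some p => @Pl.padic p ⟨Nat.prime_of_mem_primeFactors p.2⟩

/-- The representations at the places. -/
noncomputable def pr (M N : ℕ) (i : Option N.primeFactors) : Gn M N →* GL (Fin M) (pv N i).K :=
  (GeneralLinearGroup.map (Rat.castHom _)).comp (Gn M N).subtype

/-- Proper nonzero subspaces. -/
def Sb (M : ℕ) : Type := {W : Submodule ℚ (Fin M → ℚ) // W ≠ ⊥ ∧ W ≠ ⊤}

/-- Groups with a subgroup of finite index whose commutator subgroup is finite. -/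
def VF (D : Type w) [Group D] : Prop :=
  ∃ H : Subgroup D, H.FiniteIndex ∧ Finite (⁅H, H⁆ : Subgroup D)

/-- Long coloured covers with transfer data. -/
structure Geo (Γ : Type) [Group Γ] (κ : Type) (N : ℕ) (𝒮 : Subgroup Γ → Prop) (F : Set Γ)
    (R : ℕ) where
  Y : Type
  I : Type
  [ay : MulAction Γ Y]
  [ai : MulAction Γ I]
  ρ : Y → Y → Prop
  lab : κ → Y → I → Prop
  refl : ∀ y, ρ y y
  symm : ∀ x y, ρ x y → ρ y x
  inv : ∀ (g : Γ) x y, ρ x y → ρ (g • x) (g • y)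
  uniq : ∀ k y U U', lab k y U → lab k y U' → U = U'
  smul : ∀ k (g : Γ) y U, lab k y U → lab k (g • y) (g • U)
  long : ∀ y, ∃ k U, ∀ y', Pa ρ R y y' → lab k y' U
  stab : ∀ U : I, 𝒮 (MulAction.stabilizer Γ U)
  tf : Tf Γ ρ F N

end Pool.Agent.Lib.MP_5d3e93_al.Lq
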