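import Pool.Agent.Lib.MP_5d3e93_al.Lq.Defs

/-! Elementary properties of the aggregated norms and of the distance of norms. -/

open Matrix Set Filter Topology MulAction MeasureTheory

namespace Pool.Agent.Lib.MP_5d3e93_al.Lq

universe w w'

section Ag
variable {e : Bool} {M : ℕ} {P : Pl}

theorem ag_true (u : Fin M → ℝ) :
    ag true u = ‖(WithLp.toLp 2 u : EuclideanSpace ℝ (Fin M))‖ := by
  rw [EuclideanSpace.norm_eq]
  simp [ag]

theorem ag_false (u : Fin M → ℝ) : ag false u = ‖u‖ := rfl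

theorem ag_sq (u : Fin M → ℝ) : ag true u ^ 2 = ∑ k, u k ^ 2 :=
  Real.sq_sqrt (Finset.sum_nonneg fun _ _ => sq_nonneg _)

theorem ag_mono {u u' : Fin M → ℝ} (h : ∀ k, |u k| ≤ |u' k|) : ag e u ≤ ag e u' := by
  cases e
  · exact (pi_norm_le_iff_of_nonneg (norm_nonneg _)).2 fun k => (h k).trans (norm_le_pi_norm u' k)
  · exact Real.sqrt_le_sqrt (Finset.sum_le_sum fun k _ => sq_le_sq.2 (h k))

theorem ag_smul {c : ℝ} (hc : 0 ≤ c) (u : Fin M → ℝ) : ag e (fun k => c * u k) = c * ag e u := by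
  cases e
  · exact (norm_smul c u).trans (by rw [Real.norm_of_nonneg hc]; rfl)
  · rw [ag_true, ag_true]
    exact (norm_smul c (WithLp.toLp 2 u : EuclideanSpace ℝ (Fin M))).trans
      (by rw [Real.norm_of_nonneg hc])

theorem ag_add (u u' : Fin M → ℝ) : ag e (fun k => u k + u' k) ≤ ag e u + ag e u' := by
  cases e
  · exact norm_add_le u u'
  · rw [ag_true, ag_true, ag_true]
    exact norm_add_le (WithLp.toLp 2 u : EuclideanSpace ℝ (Fin M)) (WithLp.toLp 2 u')

theorem ag_single {u : Fin M → ℝ} (k : Fin M) (h : ∀ l, l ≠ k → u l = 0) : ag e u = |u k| :=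
  le_antisymm ((ag_le e u).trans (Finset.sum_eq_single k (fun l _ a => by rw [h l a, abs_zero])
    fun a => (a (Finset.mem_univ k)).elim).le) (le_ag e u k)

theorem ag_perm (σ : Equiv.Perm (Fin M)) (u : Fin M → ℝ) : ag e (fun k => u (σ k)) = ag e u := by
  cases e
  · refine le_antisymm ((pi_norm_le_iff_of_nonneg (norm_nonneg _)).2 fun k =>
      norm_le_pi_norm u (σ k)) ((pi_norm_le_iff_of_nonneg (norm_nonneg _)).2 fun k => ?_)
    simpa using norm_le_pi_norm (fun k => u (σ k)) (σ.symm k)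
  · exact congrArg (√·) (Equiv.sum_comp σ fun k => u k ^ 2)

theorem ag_op {u u' : Fin M → ℝ} (h : ∀ k, 0 ≤ u k) (h' : ∀ k, 0 ≤ u' k) :
    ag e (fun k => op e (u k) (u' k)) = op e (ag e u) (ag e u') := by
  cases e
  · refine le_antisymm ((pi_norm_le_iff_of_nonneg (le_max_of_le_left (norm_nonneg _))).2
      fun k => ?_) (max_le (ag_mono fun k => ?_) (ag_mono fun k => ?_))
    · refine (Real.norm_of_nonneg (le_max_of_le_left (h k))).trans_le (max_le_max ?_ ?_)
      · exact (le_abs_self _).trans (le_ag false u k)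
      · exact (le_abs_self _).trans (le_ag false u' k)
    · exact abs_le_abs_of_nonneg (h k) (le_max_left _ _)
    · exact abs_le_abs_of_nonneg (h' k) (le_max_right _ _)
  · change √(∑ k, √(u k ^ 2 + u' k ^ 2) ^ 2) = √(ag true u ^ 2 + ag true u' ^ 2)
    rw [ag_sq, ag_sq, ← Finset.sum_add_distrib]
    exact congrArg (√·) (Finset.sum_congr rfl fun k _ => Real.sq_sqrt (by positivity))

theorem continuous_ag : Continuous (ag e : (Fin M → ℝ) → ℝ) := by
  cases e
  · exact continuous_norm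
  · change Continuous fun u : Fin M → ℝ => √(∑ k, u k ^ 2)
    fun_prop

theorem ag_tel {m : ℕ} (g Θ : Fin (m + 1) → ℝ) (h0 : g 0 = Θ 0)
    (h : ∀ l : Fin m, Θ l.castSucc + g l.succ = Θ l.succ) (k : Fin (m + 1)) :
    ∑ i, (if i ≤ k then g i else 0) = Θ k := by
  induction k using Fin.induction with
  | zero => simp [h0]
  | succ l ih =>
    have e : ∀ i, (if i ≤ l.succ then g i else 0) =
        (if i ≤ l.castSucc then g i else 0) + if i = l.succ then g i else 0 := fun i => by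
      by_cases a : i = l.succ
      · subst a
        simp [Fin.castSucc_lt_succ.not_ge]
      · have : i ≤ l.succ ↔ i ≤ l.castSucc := by
          rw [Fin.le_def, Fin.le_def]
          have := Fin.val_ne_of_ne a
          simp only [Fin.val_succ, Fin.val_castSucc] at this ⊢
          omega
        simp [a, this]
    rw [Finset.sum_congr rfl fun i _ => e i, Finset.sum_add_distrib, ih, Finset.sum_ite_eq', ← h]
    simp

/-- Euclidean: `ν k = √(Θ k ^ 2 - Θ (k - 1) ^ 2)`; maximum: `ν k = Θ k` at the jumps and at `0`. -/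
theorem abel {m : ℕ} {Θ : Fin (m + 1) → ℝ} (h0 : 0 ≤ Θ 0) (h : Monotone Θ) :
    ∃ ν : Fin (m + 1) → ℝ, (∀ k, 0 ≤ ν k ∧ ν k ≤ Θ k) ∧
      (∀ l : Fin m, Θ l.castSucc = Θ l.succ → ν l.succ = 0) ∧ ∀ c : Fin (m + 1) → ℝ,
        (∀ k, 0 ≤ c k) → ag e (fun k => Θ k * c k) = ag e fun i => ν i * ag e (ct i c) := by
  have p : ∀ k, 0 ≤ Θ k := fun k => h0.trans (h (Fin.zero_le k))
  cases e
  · let ν : Fin (m + 1) → ℝ :=
      Fin.cases (Θ 0) fun l => if Θ l.castSucc = Θ l.succ then 0 else Θ l.succ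
    have a : ∀ k, 0 ≤ ν k ∧ ν k ≤ Θ k := fun k => by
      induction k using Fin.cases with
      | zero => exact ⟨h0, le_rfl⟩
      | succ l =>
        change 0 ≤ ite _ _ _ ∧ ite _ _ _ ≤ _
        split_ifs
        exacts [⟨le_rfl, p _⟩, ⟨p _, le_rfl⟩]
    have b : ∀ k, ∃ i ≤ k, ν i = Θ k := fun k => by
      induction k using Fin.induction with
      | zero => exact ⟨0, le_rfl, rfl⟩
      | succ l ih =>
        by_cases q : Θ l.castSucc = Θ l.succ
        · obtain ⟨i, r, s⟩ := ih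
          exact ⟨i, r.trans Fin.castSucc_lt_succ.le, s.trans q⟩
        · exact ⟨_, le_rfl, if_neg q⟩
    refine ⟨ν, a, fun l q => if_pos q, fun c hc => le_antisymm
      ((pi_norm_le_iff_of_nonneg (ag_nonneg ..)).2 fun k => ?_)
      ((pi_norm_le_iff_of_nonneg (ag_nonneg ..)).2 fun i => ?_)⟩
    · obtain ⟨i, r, s⟩ := b k
      have t := le_ag false (ct i c) k
      rw [ct, if_pos r, abs_of_nonneg (hc k)] at t
      refine (Real.norm_of_nonneg (mul_nonneg (p k) (hc k))).trans_le (le_trans ?_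
        ((le_abs_self _).trans (le_ag false (fun i => ν i * ag false (ct i c)) i)))
      rw [s]
      exact mul_le_mul_of_nonneg_left t (p k)
    · rw [Real.norm_of_nonneg (mul_nonneg (a i).1 (ag_nonneg ..)), ← ag_smul (a i).1]
      refine ag_mono fun k => ?_
      rw [ct]
      split_ifs with r
      · exact abs_le_abs_of_nonneg (mul_nonneg (a i).1 (hc k))
          (mul_le_mul_of_nonneg_right ((a i).2.trans (h r)) (hc k))
      · rw [mul_zero, abs_zero]
        exact abs_nonneg _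
  · let g : Fin (m + 1) → ℝ := Fin.cases (Θ 0 ^ 2) fun l => Θ l.succ ^ 2 - Θ l.castSucc ^ 2
    have a : ∀ k, 0 ≤ g k ∧ g k ≤ Θ k ^ 2 := fun k => by
      induction k using Fin.cases with
      | zero => exact ⟨sq_nonneg _, le_rfl⟩
      | succ l => exact ⟨sub_nonneg.2 (pow_le_pow_left₀ (p _) (h Fin.castSucc_lt_succ.le) 2),
          sub_le_self _ (sq_nonneg _)⟩
    refine ⟨fun k => √(g k), fun k => ⟨Real.sqrt_nonneg _, Real.sqrt_le_iff.2 ⟨p k, (a k).2⟩⟩,
      fun l q => ?_, fun c _ => congrArg (√·) ?_⟩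
    · change √(Θ l.succ ^ 2 - Θ l.castSucc ^ 2) = 0
      rw [q, sub_self, Real.sqrt_zero]
    · have t := ag_tel g (fun k => Θ k ^ 2) rfl fun l => add_sub_cancel _ _
      simp only [mul_pow, ag_sq, Real.sq_sqrt (a _).1, Finset.mul_sum, ← t, Finset.sum_mul]
      rw [Finset.sum_comm]
      refine Finset.sum_congr rfl fun i _ => Finset.sum_congr rfl fun k _ => ?_
      rw [ct]
      split_ifs <;> simp

variable {f : Matrix (Fin M) (Fin M) P.K} {a b : Fin M → ℝ}

theorem nm_nonneg (t) : 0 ≤ nm f a t := ag_nonneg ..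

theorem nm_add (ha : ∀ k, 0 ≤ a k) (t t') : nm f a (t + t') ≤ nm f a t + nm f a t' := by
  refine le_trans (ag_mono fun k => ?_) (ag_add _ _)
  refine abs_le_abs_of_nonneg (mul_nonneg (ha k) (norm_nonneg _)) ?_
  rw [← mul_add, mulVec_add]
  exact mul_le_mul_of_nonneg_left (norm_add_le _ _) (ha k)

theorem nm_smul (c : P.K) (t) : nm f a (c • t) = ‖c‖ * nm f a t := by
  rw [nm, nm, ← ag_smul (norm_nonneg c)]
  congr 1
  funext k
  rw [mulVec_smul, Pi.smul_apply, norm_smul]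
  ring

theorem nm_zero : nm f a 0 = 0 := by simpa using nm_smul (f := f) (a := a) 0 0

theorem nm_sum (ha : ∀ k, 0 ≤ a k) {I : Type*} (s : Finset I) (t : I → Fin M → P.K) :
    nm f a (∑ i ∈ s, t i) ≤ ∑ i ∈ s, nm f a (t i) :=
  Finset.le_sum_of_subadditive _ nm_zero.le (nm_add ha) s t

theorem nm_le (ha : ∀ k, 0 ≤ a k) {c : ℝ} (hc : 0 ≤ c) {t}
    (h : ∀ k, (f *ᵥ t) k ≠ 0 → a k ≤ c * b k) : nm f a t ≤ c * nm f b t := by
  rw [nm, nm, ← ag_smul hc]
  refine ag_mono fun k => ?_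
  by_cases z : (f *ᵥ t) k = 0
  · simp [z]
  · refine abs_le_abs_of_nonneg (mul_nonneg (ha k) (norm_nonneg _)) ?_
    rw [← mul_assoc]
    exact mul_le_mul_of_nonneg_right (h k z) (norm_nonneg _)

theorem nm_proj (ha : ∀ k, 0 ≤ a k) {t t'} (h : ∀ k, ‖(f *ᵥ t) k‖ ≤ ‖(f *ᵥ t') k‖ ∨ a k = 0) :
    nm f a t ≤ nm f a t' := ag_mono fun k => by
  obtain l | l := h k
  · exact abs_le_abs_of_nonneg (mul_nonneg (ha k) (norm_nonneg _))
      (mul_le_mul_of_nonneg_left l (ha k))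
  · simp [l]

theorem nm_sub (ha : ∀ k, 0 ≤ a k) (hb : ∀ k, 0 ≤ b k) {u : Fin M → ℝ} {c : ℝ} (hc : 0 ≤ c)
    (h : ∀ k, |a k - b k| ≤ c * u k) (t) : |nm f a t - nm f b t| ≤ c * nm f u t := by
  have k : ∀ {a b : Fin M → ℝ}, (∀ k, 0 ≤ a k) → (∀ k, |a k - b k| ≤ c * u k) →
      nm f a t - nm f b t ≤ c * nm f u t := fun {a b} ha h => by
    rw [sub_le_iff_le_add, nm, nm, nm, ← ag_smul hc]
    refine le_trans (ag_mono fun k => ?_) (ag_add _ _)
    refine abs_le_abs_of_nonneg (mul_nonneg (ha k) (norm_nonneg _)) ?_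
    rw [← mul_assoc, ← add_mul]
    exact mul_le_mul_of_nonneg_right (sub_le_iff_le_add.1 ((le_abs_self _).trans (h k)))
      (norm_nonneg _)
  exact abs_sub_le_iff.2 ⟨k ha h, k hb fun l => (abs_sub_comm _ _).trans_le (h l)⟩

theorem le_nm (k : Fin M) (t) : a k * ‖(f *ᵥ t) k‖ ≤ nm f a t :=
  (le_abs_self _).trans (le_ag P.e (fun k => a k * ‖(f *ᵥ t) k‖) k)

theorem nm_single {t} (k : Fin M) (ha : 0 ≤ a k) (h : f *ᵥ t = Pi.single k 1) :
    nm f a t = a k := by
  rw [nm, h, ag_single k fun l q => by simp [q]]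
  simp [abs_of_nonneg ha]

theorem nm_mul (g : Matrix (Fin M) (Fin M) P.K) (t) : nm (f * g) a t = nm f a (g *ᵥ t) := by
  simp only [nm, mulVec_mulVec]

theorem Cl.symm {V : Type*} {r : ℝ} {α β : V → ℝ} (h : Cl r α β) : Cl r β α :=
  fun t => (h t).symm

theorem Cl.trans {V : Type*} {r s : ℝ} {α β γ : V → ℝ} (h : Cl r α β) (k : Cl s β γ) :
    Cl (r + s) α γ := fun t => by
  constructor
  · rw [Real.exp_add, mul_assoc]
    exact (h t).1.trans (mul_le_mul_of_nonneg_left (k t).1 (Real.exp_pos _).le)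
  · rw [add_comm, Real.exp_add, mul_assoc]
    exact (k t).2.trans (mul_le_mul_of_nonneg_left (h t).2 (Real.exp_pos _).le)

theorem Cl.mono {V : Type*} {r s : ℝ} {α β : V → ℝ} (h : Cl r α β) (k : r ≤ s) (ha : ∀ t, 0 ≤ α t)
    (hb : ∀ t, 0 ≤ β t) : Cl s α β := fun t =>
  ⟨(h t).1.trans (mul_le_mul_of_nonneg_right (Real.exp_le_exp.2 k) (hb t)),
    (h t).2.trans (mul_le_mul_of_nonneg_right (Real.exp_le_exp.2 k) (ha t))⟩

theorem Nm.dist_le {r : ℝ} (hr : 0 ≤ r) {α β : Nm P M} : dist α β ≤ r ↔ Cl r α.1 β.1 := by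
  refine ⟨fun h => ?_, fun h => csInf_le (Nm.bdd α β) ⟨hr, h⟩⟩
  have c : IsClosed {r | 0 ≤ r ∧ Cl r α.1 β.1} := by
    simp only [Cl, ofPred_and, ofPred_forall]
    exact isClosed_Ici.inter (isClosed_iInter fun t =>
      (isClosed_le (by fun_prop) (by fun_prop)).inter (isClosed_le (by fun_prop) (by fun_prop)))
  exact (c.csInf_mem (Nm.ex_cl α β) (Nm.bdd α β)).2.mono h α.nonneg β.nonneg

theorem Nm.dist_smul (g : GL (Fin M) P.K) (α β : Nm P M) : dist (g • α) (g • β) = dist α β := by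
  have k : ∀ (g : GL (Fin M) P.K) (α β : Nm P M), dist (g • α) (g • β) ≤ dist α β :=
    fun g α β => by
      have c : Cl (dist α β) α.1 β.1 := (Nm.dist_le dist_nonneg).1 le_rfl
      exact (Nm.dist_le dist_nonneg).2 fun t => c ((g⁻¹).1 *ᵥ t)
  exact le_antisymm (k g α β) (by simpa using k g⁻¹ (g • α) (g • β))

theorem Nm.pos (α : Nm P M) {t} (h : t ≠ 0) : 0 < α.1 t := by
  obtain ⟨f, a, u, ha, e⟩ := α.2
  obtain ⟨k, l⟩ := Function.ne_iff.1 fun z : f *ᵥ t = 0 =>
    h (Matrix.mulVec_injective_iff_isUnit.2 u (z.trans (mulVec_zero f).symm))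
  rw [e]
  exact (mul_pos (ha k) (norm_pos_iff.2 l)).trans_le (le_nm k t)

theorem isUnit_of_cl {D : ℝ} {α : Nm P M} (h : Cl D (nm f a) α.1) : IsUnit f := by
  refine Matrix.mulVec_injective_iff_isUnit.1 fun t t' e => sub_eq_zero.1 (by_contra fun z => ?_)
  have k : nm f a (t - t') = 0 := by
    rw [← Matrix.mul_one f, nm_mul, one_mulVec, nm, mulVec_sub, e, sub_self]
    simpa [nm] using nm_zero (f := f) (a := a)
  have l := (h (t - t')).2
  rw [k, mul_zero] at l
  exact (α.pos z).not_ge l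

end Ag

end Pool.Agent.Lib.MP_5d3e93_al.Lq
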