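import Pool.Agent.Lib.MP_5d3e93_al.Lq.KeyA

/-! Scaling factors, cones and close frames. -/

open Matrix Set

namespace Pool.Agent.Lib.MP_5d3e93_al.Lq

variable {P : Pl} {m : ℕ} {d δ τ σ : ℝ}

theorem kb_sum (J : Finset (Fin m)) (c : Fin m → ℝ) (l : Fin m) :
    ∑ j ∈ J with j.succ ≤ l.succ, c j =
      (∑ j ∈ J with j.succ ≤ l.castSucc, c j) + if l ∈ J then c l else 0 := by
  rw [Finset.sum_filter, Finset.sum_filter, ← Finset.sum_ite_eq' J l c, ← Finset.sum_add_distrib]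
  refine Finset.sum_congr rfl fun j _ => ?_
  simp only [Fin.le_def, Fin.val_succ, Fin.val_castSucc, Fin.ext_iff]
  split_ifs <;> first | omega | simp

theorem kb_add {M : ℕ} (f : Matrix (Fin M) (Fin M) P.K) {a b u : Fin M → ℝ} {c : ℝ}
    (ha : ∀ k, 0 ≤ a k) (hb : ∀ k, 0 ≤ b k) (hu : ∀ k, 0 ≤ u k) (hc : 0 ≤ c)
    (h : ∀ k, a k ≤ b k + c * u k) (t) : nm f a t ≤ nm f b t + c * nm f u t := by
  have N := ab_ag (M := M) P.e
  have p : ∀ {w : Fin M → ℝ}, (∀ k, 0 ≤ w k) → 0 ≤ fun k => w k * ‖(f *ᵥ t) k‖ :=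
    fun h k => mul_nonneg (h k) (norm_nonneg _)
  refine (N.mono (p ha) (y := (fun k => b k * ‖(f *ᵥ t) k‖) + fun k => c * (u k * ‖(f *ᵥ t) k‖))
    fun k => ?_).trans ((N.add (p hb) fun k => mul_nonneg hc (p hu k)).trans_eq ?_)
  · exact (mul_le_mul_of_nonneg_right (h k) (norm_nonneg _)).trans_eq
      (by simp only [Pi.add_apply]; ring)
  · rw [N.smul hc (p hu)]
    rfl

theorem kb_le {M : ℕ} (f : Matrix (Fin M) (Fin M) P.K) {a u : Fin M → ℝ} {c : ℝ}
    (ha : ∀ k, 0 ≤ a k) (hu : ∀ k, 0 ≤ u k) (hc : 0 ≤ c) (h : ∀ k, a k ≤ c * u k) (t) :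
    nm f a t ≤ c * nm f u t := by
  have := kb_add f (b := 0) ha (fun _ => le_rfl) hu hc (fun k => by simpa using h k) t
  have z : nm f 0 t = 0 := (congrArg (ag P.e) (funext fun _ => zero_mul _)).trans (ab_ag P.e).zero
  rwa [z, zero_add] at this

theorem kb_sub {M : ℕ} (f : Matrix (Fin M) (Fin M) P.K) {a b u : Fin M → ℝ} {c : ℝ}
    (ha : ∀ k, 0 ≤ a k) (hb : ∀ k, 0 ≤ b k) (hu : ∀ k, 0 ≤ u k) (hc : 0 ≤ c)
    (h : ∀ k, |a k - b k| ≤ c * u k) (t) : |nm f a t - nm f b t| ≤ c * nm f u t := by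
  have x := kb_add f ha hb hu hc (fun k => by linarith [(abs_le.1 (h k)).2]) t
  have y := kb_add f hb ha hu hc (fun k => by linarith [(abs_le.1 (h k)).1]) t
  exact abs_le.2 ⟨by linarith, by linarith⟩

namespace Dt

theorem mu_pos (D : Dt P m) (J τ k) : 0 < D.mu J τ k := Real.exp_pos _

theorem mu_zero (D : Dt P m) (J τ) : D.mu J τ 0 = Real.exp (-D.lam 0) := by
  rw [mu, Finset.sum_eq_zero fun l h => absurd (Finset.mem_filter.1 h).2 l.succ_pos.not_ge,
    add_zero]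

theorem mu_succ (D : Dt P m) (J τ) (l : Fin m) : D.mu J τ l.succ =
    Real.exp (if l ∈ J then D.gam l - τ else 0) * D.mu J τ l.castSucc := by
  rw [mu, mu, kb_sum, ← Real.exp_add]
  congr 1
  ring

theorem mu_mono (D : Dt P m) {J} (h : ∀ l ∈ J, τ ≤ D.gam l) : Monotone (D.mu J τ) :=
  mono_of fun l => by
    rw [mu_succ]
    refine le_mul_of_one_le_left (D.mu_pos ..).le (Real.one_le_exp ?_)
    split_ifs with c
    exacts [sub_nonneg.2 (h l c), le_rfl]

theorem u_pos (D : Dt P m) (J τ k) : 0 < D.u J τ k := mul_pos (D.mu_pos ..) (D.hb k)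

theorem w_nn (D : Dt P m) (J τ i k) : 0 ≤ D.w J τ i k := by
  unfold w
  split_ifs
  · unfold ct
    split_ifs
    exacts [(mul_pos (D.mu_pos ..) (D.hb k)).le, le_rfl]
  · exact le_rfl

theorem w_of (D : Dt P m) {J} (τ) {i k} (h : St J i) (c : i ≤ k) :
    D.w J τ i k = D.mu J τ i * D.b k := by
  rw [w, if_pos h, ct, if_pos c]

theorem w_zero (D : Dt P m) {J} (τ) {i k} (h : k < i ∨ ¬ St J i) : D.w J τ i k = 0 := by
  unfold w
  split_ifs with c
  · rw [ct, if_neg (h.resolve_right fun a => a c).not_ge]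
  · rfl

theorem gam_nonneg (D : Dt P m) (l) : 0 ≤ D.gam l := D.gam_nn l

theorem ad (D : Dt P m) {J} (h : ∀ l ∈ J, τ ≤ D.gam l) : Ad J 1 (D.w J τ) (D.u J τ) where
  pos := D.u_pos J τ
  zero _ _ := D.w_zero τ
  nn := D.w_nn J τ
  le i k := by
    rw [one_mul]
    by_cases c : k < i ∨ ¬ St J i
    · exact (D.w_zero τ c).trans_le (D.u_pos ..).le
    · push Not at c
      rw [D.w_of τ c.2 c.1]
      exact mul_le_mul_of_nonneg_right (D.mu_mono h c.1) (D.hb k).le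
  eq i k a b c := by
    rw [D.w_of τ a b, u, mu, mu, Finset.filter_congr fun l hl =>
      (⟨fun e => e.trans b, c _ (.inr ⟨l, hl, rfl⟩)⟩ : l.succ ≤ i ↔ l.succ ≤ k)]

theorem x_act (D : Dt P m) (g) : (D.act g).x = g • D.x ∧ (D.act g).ξ = g • D.ξ :=
  ⟨Subtype.ext (funext fun t => show nm (D.f * (g⁻¹).1) D.a t = nm D.f D.a ((g⁻¹).1 *ᵥ t) by
      simp only [nm, mulVec_mulVec]),
    Subtype.ext (funext fun t => show nm (D.f * (g⁻¹).1) D.b t = nm D.f D.b ((g⁻¹).1 *ᵥ t) by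
      simp only [nm, mulVec_mulVec])⟩

theorem y_act (D : Dt P m) (g J) : (D.act g).y J τ = g • D.y J τ ∧
    ∀ i t, (D.act g).s J τ i t = D.s J τ i ((g⁻¹).1 *ᵥ t) :=
  ⟨Subtype.ext (funext fun t =>
      show nm (D.f * (g⁻¹).1) (D.u J τ) t = nm D.f (D.u J τ) ((g⁻¹).1 *ᵥ t) by
        simp only [nm, mulVec_mulVec]),
    fun i t => show nm (D.f * (g⁻¹).1) (D.w J τ i) t = nm D.f (D.w J τ i) ((g⁻¹).1 *ᵥ t) by
      simp only [nm, mulVec_mulVec]⟩

theorem xi_mem (D : Dt P m) : D.ξ ∈ D.Kc σ :=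
  ⟨fun _ => 1, fun _ => one_pos, fun _ => ⟨le_rfl, by
    rw [mul_one]
    exact Real.one_le_exp (le_max_right _ _)⟩, by simp only [one_mul]; rfl⟩

open Classical in
theorem rho_succ (D : Dt P m) (σ) (l : Fin m) :
    D.mu (Finset.univ.filter fun l => σ < D.gam l) σ l.succ = Real.exp (max (D.gam l - σ) 0) *
      D.mu (Finset.univ.filter fun l => σ < D.gam l) σ l.castSucc := by
  rw [mu_succ]
  congr 2
  simp only [Finset.mem_filter, Finset.mem_univ, true_and]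
  split_ifs with c
  exacts [(max_eq_left (sub_nonneg.2 c.le)).symm, (max_eq_right (sub_nonpos.2 (not_lt.1 c))).symm]

theorem rho_mem (D : Dt P m) : D.rho σ ∈ D.Kc σ :=
  ⟨D.mu _ σ, D.mu_pos _ σ, fun l => ⟨by
    rw [rho_succ]
    exact le_mul_of_one_le_left (D.mu_pos ..).le (Real.one_le_exp (le_max_right _ _)),
    (D.rho_succ σ l).le⟩, rfl⟩

theorem rho_near (D : Dt P m) (h : 0 ≤ σ) : dist (D.rho σ) D.x ≤ m * σ := by
  classical
  obtain ⟨J, hJ⟩ : ∃ J, J = Finset.univ.filter fun l => σ < D.gam l := ⟨_, rfl⟩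
  have key : ∀ k : Fin (m + 1), ∃ r, -(k * σ) ≤ r ∧ r ≤ 0 ∧ D.u J σ k = Real.exp r * D.a k := by
    intro k
    induction k using Fin.induction with
    | zero => exact ⟨0, by simp, le_rfl, by
        rw [u, mu_zero, b_eq, ← mul_assoc, ← Real.exp_add, neg_add_cancel]⟩
    | succ l ih =>
      obtain ⟨r, a, b, c⟩ := ih
      have g := D.gam_nn l
      rw [u, b_eq, ← mul_assoc] at c
      have c' := mul_right_cancel₀ (D.ha _).ne' c
      refine ⟨r + (max (D.gam l - σ) 0 - D.gam l), ?_, ?_, ?_⟩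
      · rw [Fin.val_castSucc] at a
        rw [Fin.val_succ, Nat.cast_succ]
        linarith [le_max_left (D.gam l - σ) 0]
      · linarith [max_le (sub_le_self (D.gam l) h) g]
      · rw [u, b_eq, ← mul_assoc, hJ, rho_succ, ← hJ, Real.exp_add, ← c', Real.exp_sub,
          show D.lam l.castSucc = D.gam l + D.lam l.succ by rw [gam, sub_add_cancel], Real.exp_add]
        field_simp
  have p : (0 : ℝ) ≤ m * σ := by positivity
  have e : (D.rho σ).1 = nm D.f (D.u J σ) := hJ ▸ rfl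
  refine csInf_le (Nm.bdd _ _) ⟨p, fun t => ?_⟩
  rw [e]
  refine ⟨kb_le D.f (fun k => (D.u_pos ..).le) (fun k => (D.ha k).le) (Real.exp_pos _).le
    (fun k => ?_) t, kb_le D.f (fun k => (D.ha k).le) (fun k => (D.u_pos ..).le)
      (Real.exp_pos _).le (fun k => ?_) t⟩ <;> obtain ⟨r, a, b, c⟩ := key k <;> rw [c]
  · exact mul_le_mul_of_nonneg_right (Real.exp_le_exp.2 (b.trans p)) (D.ha k).le
  · have : (k : ℝ) * σ ≤ m * σ :=
      mul_le_mul_of_nonneg_right (Nat.cast_le.2 (Nat.le_of_lt_succ k.2)) h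
    rw [← mul_assoc, ← Real.exp_add]
    exact le_mul_of_one_le_left (D.ha k).le (Real.one_le_exp (by linarith))

theorem cone (D : Dt P m) (h : 0 ≤ σ) {α} (k : α ∈ D.Kc σ) : ∃ D' : Dt P m, D'.x = D.x ∧ D'.ξ = α ∧
    (∀ l, min (D'.gam l) σ = min (D.gam l) σ) ∧ ∀ J τ, τ ≤ σ → (∀ l ∈ J, τ ≤ D.gam l) →
      (∀ l ∉ J, D.gam l ≤ σ) →
      Rel 0 (Real.exp (τ - σ)) (D.y J τ).1 (D'.y J τ).1 (D.s J τ) (D'.s J τ) ∧
      Rel 0 (Real.exp (τ - σ)) (D'.y J τ).1 (D.y J τ).1 (D'.s J τ) (D.s J τ) := by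
  obtain ⟨Θ, h0, h1, h2⟩ := k
  obtain ⟨θ, rfl⟩ : ∃ θ : Fin (m + 1) → ℝ, Θ = fun k => Real.exp (θ k) :=
    ⟨fun k => Real.log (Θ k), funext fun k => (Real.exp_log (h0 k)).symm⟩
  simp only [← Real.exp_add, Real.exp_le_exp] at h1
  have lg : ∀ k, Real.log (Real.exp (θ k) * D.b k / D.a k) = θ k + D.lam k := fun k => by
    rw [mul_div_assoc, ← exp_lam, ← Real.exp_add, Real.log_exp]
  have mx : ∀ l, max (D.gam l - σ) 0 ≤ D.gam l := fun l => max_le (sub_le_self _ h) (D.gam_nn l)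
  let D' : Dt P m := ⟨D.f, D.a, fun k => Real.exp (θ k) * D.b k, D.unit, D.ha,
    fun k => mul_pos (h0 k) (D.hb k), Fin.antitone_iff_succ_le.2 fun l => by
      rw [lg, lg]
      have : D.gam l = D.lam l.castSucc - D.lam l.succ := rfl
      linarith [(h1 l).2, mx l]⟩
  have l1 : ∀ k, D'.lam k = θ k + D.lam k := lg
  have g1 : ∀ l, D'.gam l = D.gam l - (θ l.succ - θ l.castSucc) := fun l => by
    rw [gam, gam, l1, l1]
    ring
  have g2 : ∀ l, D.gam l ≤ σ → θ l.succ = θ l.castSucc := fun l c => by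
    have := h1 l
    rw [max_eq_right (sub_nonpos.2 c), zero_add] at this
    exact le_antisymm this.2 this.1
  have g3 : ∀ l, σ ≤ D.gam l → σ ≤ D'.gam l := fun l c => by
    have := h1 l
    rw [max_eq_left (sub_nonneg.2 c)] at this
    linarith [g1 l]
  refine ⟨D', rfl, Subtype.ext h2.symm, fun l => ?_, fun J τ a b c => ?_⟩
  · rcases le_total (D.gam l) σ with e | e
    · rw [g1, g2 l e, sub_self, sub_zero]
    · rw [min_eq_right e, min_eq_right (g3 l e)]
  have b' : ∀ l ∈ J, τ ≤ D'.gam l := fun l hl => by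
    rcases le_total (D.gam l) σ with e | e
    · rw [g1, g2 l e, sub_self, sub_zero]
      exact b l hl
    · exact a.trans (g3 l e)
  have m1 : ∀ k, D.mu J τ k = D'.mu J τ k * Real.exp (θ k) := fun k => by
    induction k using Fin.induction with
    | zero => rw [mu_zero, mu_zero, l1, ← Real.exp_add]; congr 1; ring
    | succ l ih =>
      rw [mu_succ, mu_succ, ih, mul_left_comm, ← Real.exp_add, mul_right_comm, ← Real.exp_add,
        mul_comm]
      congr 2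
      split_ifs with e
      · rw [g1]; ring
      · rw [g2 l (c l e)]
  have u1 : D'.u J τ = D.u J τ := funext fun k => by
    rw [u, u, m1, mul_assoc]
  have m2 : ∀ i k : Fin (m + 1), i ≤ k →
      θ k = θ i ∨ D'.mu J τ i ≤ Real.exp (τ - σ) * D'.mu J τ k := fun i k => by
    induction k using Fin.induction with
    | zero => exact fun e => .inl (by rw [Fin.le_zero_iff.1 e])
    | succ l ih =>
      intro e
      rcases e.eq_or_lt with rfl | e
      · exact .inl rfl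
      have e' := Fin.le_castSucc_iff.2 e
      rcases ih e' with f | f
      · rcases le_or_gt (D.gam l) σ with g | g
        · exact .inl ((g2 l g).trans f)
        · have j : l ∈ J := by_contra fun j => (c l j).not_gt g
          rw [mu_succ, if_pos j, ← mul_assoc, ← Real.exp_add]
          exact .inr ((D'.mu_mono b' e').trans (le_mul_of_one_le_left (D'.mu_pos ..).le
            (Real.one_le_exp (by linarith [g3 l g.le]))))
      · exact .inr (f.trans (mul_le_mul_of_nonneg_left (D'.mu_mono b' l.castSucc_lt_succ.le)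
          (Real.exp_pos _).le))
  have mt : Monotone θ := Fin.monotone_iff_le_succ.2 fun l => (h1 l).1
  have w1 : ∀ i k, |D'.w J τ i k - D.w J τ i k| ≤ Real.exp (τ - σ) * D.u J τ k := fun i k => by
    have p : 0 ≤ Real.exp (τ - σ) * D.u J τ k := (mul_pos (Real.exp_pos _) (D.u_pos ..)).le
    by_cases e : k < i ∨ ¬ St J i
    · rwa [D.w_zero τ e, D'.w_zero τ e, sub_self, abs_zero]
    push Not at e
    rw [D.w_of τ e.2 e.1, D'.w_of τ e.2 e.1, m1 i, mul_assoc]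
    change |D'.mu J τ i * (Real.exp (θ k) * D.b k) - _| ≤ _
    rcases m2 i k e.1 with f | f
    · rwa [f, sub_self, abs_zero]
    · have q1 := mul_pos (D'.mu_pos J τ i) (mul_pos (h0 i) (D.hb k))
      have q2 := mul_le_mul_of_nonneg_left (mul_le_mul_of_nonneg_right
        (Real.exp_le_exp.2 (mt e.1)) (D.hb k).le) (D'.mu_pos J τ i).le
      have q3 := mul_le_mul_of_nonneg_right f (mul_pos (h0 k) (D.hb k)).le
      rw [abs_of_nonneg (sub_nonneg.2 q2), u, m1 k, mul_assoc, ← mul_assoc (Real.exp _)]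
      linarith
  have y1 : (D'.y J τ).1 = (D.y J τ).1 := congrArg (nm D.f) u1
  have s1 : ∀ i t, |D'.s J τ i t - D.s J τ i t| ≤ Real.exp (τ - σ) * (D.y J τ).1 t := fun i t =>
    kb_sub D.f (D'.w_nn J τ i) (D.w_nn J τ i) (fun k => (D.u_pos ..).le) (Real.exp_pos _).le
      (w1 i) t
  rw [y1]
  have cl : Cl 0 (D.y J τ).1 (D.y J τ).1 := fun t => by
    rw [Real.exp_zero, one_mul]
    exact ⟨le_rfl, le_rfl⟩
  exact ⟨⟨cl, fun i => ⟨1, one_pos, Real.exp_zero.ge, fun t => by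
      rw [one_mul]
      exact s1 i t⟩⟩, cl, fun i => ⟨1, one_pos, Real.exp_zero.ge, fun t => by
      rw [one_mul, abs_sub_comm]
      exact s1 i t⟩⟩

end Dt

theorem Rel.mono {V I : Type*} {β β' ε ε' : ℝ} {y y' : V → ℝ} {s s' : I → V → ℝ}
    (h : Rel β ε y y' s s') (a : β ≤ β') (b : ε ≤ ε') (hy : ∀ t, 0 ≤ y t) (hy' : ∀ t, 0 ≤ y' t) :
    Rel β' ε' y y' s s' := by
  have e := Real.exp_le_exp.2 a
  refine ⟨fun t => ⟨(h.1 t).1.trans (mul_le_mul_of_nonneg_right e (hy' t)),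
    (h.1 t).2.trans (mul_le_mul_of_nonneg_right e (hy t))⟩, fun i => ?_⟩
  obtain ⟨ν, p, q, r⟩ := h.2 i
  exact ⟨ν, p, q.trans e, fun t => (r t).trans (mul_le_mul_of_nonneg_right b (hy t))⟩

theorem Rel.trans {V I : Type*} {β β' ε ε' : ℝ} {y y' y'' : V → ℝ} {s s' s'' : I → V → ℝ}
    (h : Rel β ε y y' s s') (k : Rel β' ε' y' y'' s' s'') (b : 0 ≤ ε') (hy : ∀ t, 0 ≤ y' t) :
    Rel (β + β') (ε + Real.exp (2 * β) * ε') y y'' s s'' := by
  refine ⟨fun t => ⟨?_, ?_⟩, fun i => ?_⟩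
  · rw [Real.exp_add, mul_assoc]
    exact (h.1 t).1.trans (mul_le_mul_of_nonneg_left (k.1 t).1 (Real.exp_pos _).le)
  · rw [add_comm, Real.exp_add, mul_assoc]
    exact (k.1 t).2.trans (mul_le_mul_of_nonneg_left (h.1 t).2 (Real.exp_pos _).le)
  obtain ⟨ν, p, q, r⟩ := h.2 i
  obtain ⟨ν', p', q', r'⟩ := k.2 i
  refine ⟨ν * ν', mul_pos p p', ?_, fun t => ?_⟩
  · rw [Real.exp_add]
    exact mul_le_mul q q' p'.le (Real.exp_pos _).le
  · have e : ν * ν' * s'' i t - s i t = (ν * s' i t - s i t) + ν * (ν' * s'' i t - s' i t) := by ring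
    have x : ν * |ν' * s'' i t - s' i t| ≤ Real.exp β * (ε' * (Real.exp β * y t)) :=
      mul_le_mul q ((r' t).trans (mul_le_mul_of_nonneg_left (h.1 t).2 b)) (abs_nonneg _)
        (Real.exp_pos _).le
    have _ := hy
    rw [e, two_mul, Real.exp_add]
    refine (abs_add_le _ _).trans ?_
    rw [abs_mul, abs_of_pos p]
    linarith [r t]

end Pool.Agent.Lib.MP_5d3e93_al.Lq
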