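import Pool.Agent.Lib.MP_5d3e93_al.Lq.Def2
import Pool.Agent.Lib.MP_5d3e93_al.Lq.Ag
import Pool.Agent.Lib.MP_5d3e93_al.Lq.KeyB

/-! Points with a datum at every place, the step relation, paths. -/

open Matrix Set MulAction

namespace Pool.Agent.Lib.MP_5d3e93_al.Lq

theorem Pa.refl {Y : Type*} {ρ : Y → Y → Prop} (h : ∀ y, ρ y y) : ∀ k y, Pa ρ k y y
  | 0, _ => rfl
  | k + 1, y => ⟨y, h y, Pa.refl h k y⟩

theorem Rel.refl {V I : Type*} {β ε : ℝ} (a : 0 ≤ β) (b : 0 ≤ ε) {y : V → ℝ} (hy : ∀ t, 0 ≤ y t)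
    (s : I → V → ℝ) : Rel β ε y y s s :=
  Rel.mono (β := 0) (ε := 0) ⟨fun t => by simp, fun i => ⟨1, one_pos, by simp, fun t => by simp⟩⟩
    a b hy hy

theorem Rel.comp {V I : Type*} {β ε : ℝ} {y y' : V → ℝ} {s s' : I → V → ℝ}
    (h : Rel β ε y y' s s') (φ : V → V) : Rel β ε (fun t => y (φ t)) (fun t => y' (φ t))
      (fun i t => s i (φ t)) fun i t => s' i (φ t) :=
  ⟨fun t => h.1 _, fun i => (h.2 i).imp fun _ k => ⟨k.1, k.2.1, fun _ => k.2.2 _⟩⟩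

theorem Dt.act_mul {P : Pl} {m : ℕ} (D : Dt P m) (g h) : D.act (g * h) = (D.act h).act g := by
  simp only [Dt.act, _root_.mul_inv_rev, Units.val_mul, Matrix.mul_assoc]

theorem Dt.gam_lip {P : Pl} {m : ℕ} {d δ : ℝ} (D D' : Dt P m) (h : Cl d D.x.1 D'.x.1)
    (k : Cl δ D.ξ.1 D'.ξ.1) (σ : ℝ) (l) :
    |min (D.gam l) σ - min (D'.gam l) σ| ≤ 2 * (d + δ) := by
  have a := abs_le.1 (D.minmax D' h k l.castSucc)
  have b := abs_le.1 (D.minmax D' h k l.succ)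
  refine (abs_min_sub_min_le_max ..).trans (max_le (abs_le.2 ?_) ?_)
  · unfold Dt.gam; constructor <;> linarith
  · rw [sub_self, abs_zero]; linarith

variable {m : ℕ} {ι : Type} {v : ι → Pl} {Γ : Type} [Group Γ]
  (r : ∀ i, Γ →* GL (Fin (m + 1)) (v i).K)

/-- Pairs of a group element and a family of norms. -/
@[ext] structure Yp where
  g : Γ
  x : Xr r

instance : MulAction Γ (Yp r) where
  smul h p := ⟨h * p.g, p.x⟩
  one_smul p := Yp.ext (one_mul _) rfl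
  mul_smul a b p := Yp.ext (mul_assoc ..) rfl

/-- The constants and the chosen data. -/
structure Cs where
  dt : Xr r → ∀ i, Dt (v i) m
  hx : ∀ z i, (dt z i).x = Nm.std _ _
  hξ : ∀ z i, (dt z i).ξ = z i
  τ : ℝ
  σ : ℝ
  a : ℝ
  β : ℝ
  ε : ℝ
  K : ℕ
  ha : 0 ≤ a
  hβ : 0 ≤ β
  hε : 0 ≤ ε
  hσ : τ + 3 * (K * a) < σ

variable {r}

namespace Cs

variable (c : Cs r) {J : ι → Finset (Fin m)} {p q : Yp r}

/-- The datum of a point. -/
def D (p : Yp r) (i : ι) : Dt (v i) m := (c.dt p.x i).act (r i p.g)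

theorem D_smul (h : Γ) (p : Yp r) (i) : c.D (h • p) i = (c.D p i).act (r i h) := by
  show (c.dt p.x i).act (r i (h * p.g)) = _
  rw [map_mul, Dt.act_mul]; rfl

theorem gam_smul (h : Γ) (p : Yp r) (i l) : (c.D (h • p) i).gam l = (c.D p i).gam l := rfl

theorem D_x (p : Yp r) (i) : (c.D p i).x = r i p.g • Nm.std _ _ := by
  rw [D, (Dt.x_act ..).1, c.hx]

theorem D_xi (p : Yp r) (i) : (c.D p i).ξ = r i p.g • p.x i := by
  rw [D, (Dt.x_act ..).2, c.hξ]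

/-- The regions. -/
def RJ (J : ι → Finset (Fin m)) (p : Yp r) : Prop := ∀ i,
  (∀ l ∈ J i, c.τ + c.K * c.a ≤ (c.D p i).gam l) ∧
    ∀ l ∉ J i, (c.D p i).gam l ≤ c.τ + 3 * (c.K * c.a)

/-- The intermediate norms. -/
noncomputable def y (J : ι → Finset (Fin m)) (p : Yp r) : Xr r := fun i => (c.D p i).y (J i) c.τ

/-- The seminorms. -/
noncomputable def s (J : ι → Finset (Fin m)) (p : Yp r) (i : ι) := (c.D p i).s (J i) c.τ

/-- Close frames at all places. -/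
def Rl (J : ι → Finset (Fin m)) (β ε : ℝ) (p q : Yp r) : Prop :=
  ∀ i, Rel β ε (c.y J p i).1 (c.y J q i).1 (c.s J p i) (c.s J q i)

/-- The step relation. -/
def St (p q : Yp r) : Prop :=
  (∀ i l, |min ((c.D p i).gam l) c.σ - min ((c.D q i).gam l) c.σ| ≤ c.a) ∧
    ∀ J, c.RJ J p → c.RJ J q → c.Rl J c.β c.ε p q ∧ c.Rl J c.β c.ε q p

theorem y_smul (h : Γ) (p : Yp r) : c.y J (h • p) = h • c.y J p := funext fun i => by
  show (c.D (h • p) i).y _ _ = r i h • (c.D p i).y _ _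
  rw [D_smul, (Dt.y_act ..).1]

theorem s_smul (h : Γ) (p : Yp r) (i k t) :
    c.s J (h • p) i k t = c.s J p i k ((r i h⁻¹).1 *ᵥ t) := by
  rw [s, D_smul, (Dt.y_act ..).2, map_inv]; rfl

theorem Rl.smul {β ε : ℝ} (k : c.Rl J β ε p q) (h : Γ) : c.Rl J β ε (h • p) (h • q) := fun i => by
  have := (k i).comp fun t => (r i h⁻¹).1 *ᵥ t
  rw [y_smul, y_smul, funext₂ (c.s_smul h p i), funext₂ (c.s_smul h q i)]
  rw [map_inv] at this ⊢
  exact this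

theorem st_refl (p : Yp r) : c.St p p :=
  ⟨fun _ _ => by simpa using c.ha, fun _ _ _ =>
    ⟨fun _ => .refl c.hβ c.hε (Nm.nonneg _) _, fun _ => .refl c.hβ c.hε (Nm.nonneg _) _⟩⟩

theorem st_symm (p q : Yp r) (h : c.St p q) : c.St q p :=
  ⟨fun i l => abs_sub_comm (_ : ℝ) _ ▸ h.1 i l, fun J a b => (h.2 J b a).symm⟩

theorem st_smul (g : Γ) (p q : Yp r) (h : c.St p q) : c.St (g • p) (g • q) :=
  ⟨h.1, fun J a b => ⟨(h.2 J a b).1.smul c g, (h.2 J a b).2.smul c g⟩⟩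

theorem pa_gam : ∀ {k : ℕ} {p q : Yp r}, Pa c.St k p q → ∀ i l,
    |min ((c.D p i).gam l) c.σ - min ((c.D q i).gam l) c.σ| ≤ k * c.a
  | 0, _, _, h, i, l => by cases h; simp
  | k + 1, _, _, ⟨z, a, b⟩, i, l => by
    have := abs_sub_le (min ((c.D _ i).gam l) c.σ) (min ((c.D z i).gam l) c.σ) _ |>.trans
      (add_le_add (a.1 i l) (pa_gam b i l))
    push_cast; linarith

theorem ex_J (p : Yp r) : ∃ J, ∀ q, Pa c.St c.K p q → c.RJ J q := by
  classical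
  refine ⟨fun i => Finset.univ.filter fun l => c.τ + 2 * (c.K * c.a) ≤ (c.D p i).gam l,
    fun q h i => ⟨fun l k => ?_, fun l k => ?_⟩⟩
  all_goals
    have a := abs_le.1 (c.pa_gam h i l)
    have b := c.hσ
    have e : 0 ≤ c.K * c.a := mul_nonneg (Nat.cast_nonneg _) c.ha
    simp only [Finset.mem_filter, Finset.mem_univ, true_and, not_le] at k
  · have := le_min k (by linarith : c.τ + 2 * (c.K * c.a) ≤ c.σ)
    linarith [min_le_left ((c.D q i).gam l) c.σ]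
  · have := min_le_left ((c.D p i).gam l) c.σ
    rcases min_cases ((c.D q i).gam l) c.σ with f | f <;> linarith [f.1]

theorem pa_rl : ∀ {k : ℕ} {p q : Yp r}, (∀ z, Pa c.St k p z → c.RJ J z) → Pa c.St k p q →
    c.Rl J (k * c.β) (c.ε * (1 + Real.exp (2 * c.β)) ^ k) p q
  | 0, _, _, _, h => by
    cases h; exact fun _ => .refl (by simp) (by simpa using c.hε) (Nm.nonneg _) _
  | k + 1, p, q, h, ⟨z, a, b⟩ => fun i => by
    have e : ∀ u, Pa c.St k z u → c.RJ J u := fun u l => h u ⟨z, a, l⟩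
    have g := Real.exp_pos (2 * c.β)
    have o : 1 ≤ (1 + Real.exp (2 * c.β)) ^ k := one_le_pow₀ (by linarith)
    refine (((a.2 J (h p (.refl c.st_refl _ _)) (e z (.refl c.st_refl _ _))).1 i).trans
      (pa_rl e b i) (mul_nonneg c.hε (by positivity)) (Nm.nonneg _)).mono
      (by push_cast; linarith) ?_ (Nm.nonneg _) (Nm.nonneg _)
    rw [pow_succ]
    nlinarith [mul_le_mul_of_nonneg_left o c.hε]

theorem Rl.dist [Fintype ι] {β ε : ℝ} (h : c.Rl J β ε p q) (b : 0 ≤ β) :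
    dist (c.y J p) (c.y J q) ≤ β :=
  (dist_pi_le_iff b).2 fun i => (Nm.dist_le b).2 (h i).1

/-- Moves of the group coordinate. -/
theorem st_grp [Fintype ι] {d δ : ℝ} (hδ : 0 ≤ δ) (ha : 2 * (d + δ) ≤ c.a)
    (k : ∀ i (D D' : Dt (v i) m) J, Cl d D.x.1 D'.x.1 → Cl δ D.ξ.1 D'.ξ.1 →
      (∀ l ∈ J, c.τ ≤ D.gam l ∧ c.τ ≤ D'.gam l) →
      Rel c.β c.ε (D.y J c.τ).1 (D'.y J c.τ).1 (D.s J c.τ) (D'.s J c.τ))
    {g : Γ} (hg : len r g ≤ d) (z : Xr r) : c.St ⟨1, g • z⟩ (g • ⟨1, z⟩) := by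
  have e : 0 ≤ c.K * c.a := mul_nonneg (Nat.cast_nonneg _) c.ha
  have a (i) : Cl d (c.D ⟨1, g • z⟩ i).x.1 (c.D (g • ⟨1, z⟩) i).x.1 := by
    rw [D_x, D_x, ← Nm.dist_le (dist_nonneg.trans hg), map_one, one_smul, dist_comm]
    refine le_trans ?_ hg
    show dist (r i (g * 1) • _) _ ≤ _
    rw [mul_one]
    exact dist_le_pi_dist (g • x0 r) (x0 r) i
  have b (i) : Cl δ (c.D ⟨1, g • z⟩ i).ξ.1 (c.D (g • ⟨1, z⟩) i).ξ.1 := by
    rw [D_xi, D_xi, ← Nm.dist_le hδ, map_one, one_smul]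
    show dist (r i g • z i) (r i (g * 1) • z i) ≤ _
    rwa [mul_one, dist_self]
  exact ⟨fun i l => (Dt.gam_lip _ _ (a i) (b i) _ l).trans ha, fun J u w =>
    ⟨fun i => k i _ _ _ (a i) (b i) fun l m =>
      ⟨by linarith [(u i).1 l m], by linarith [(w i).1 l m]⟩,
    fun i => k i _ _ _ (a i).symm (b i).symm fun l m =>
      ⟨by linarith [(w i).1 l m], by linarith [(u i).1 l m]⟩⟩⟩

/-- Moves inside the cones and small moves. -/
theorem st_cone {d δ ε : ℝ} (hd : 0 ≤ d) (ha : 2 * (d + δ) ≤ c.a) (hτ : 0 ≤ c.τ) (h0 : 0 ≤ ε)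
    (hε : ε + Real.exp (2 * c.β) * Real.exp (c.τ - c.σ) ≤ c.ε)
    (k : ∀ i (D D' : Dt (v i) m) J, Cl d D.x.1 D'.x.1 → Cl δ D.ξ.1 D'.ξ.1 →
      (∀ l ∈ J, c.τ ≤ D.gam l ∧ c.τ ≤ D'.gam l) →
      Rel c.β ε (D.y J c.τ).1 (D'.y J c.τ).1 (D.s J c.τ) (D'.s J c.τ))
    {x z u : Xr r} (hz : ∀ i, z i ∈ (c.D ⟨1, x⟩ i).Kc c.σ) (hu : ∀ i, Cl δ (z i).1 (u i).1) :
    c.St ⟨1, x⟩ ⟨1, u⟩ := by
  have e : 0 ≤ c.K * c.a := mul_nonneg (Nat.cast_nonneg _) c.ha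
  have f := c.hσ
  choose E e1 e2 e3 e4 using fun i => Dt.cone _ (by linarith) (hz i)
  have a (i) : Cl d (E i).x.1 (c.D ⟨1, u⟩ i).x.1 := by
    rw [e1, D_x, D_x, ← Nm.dist_le hd, dist_self]; exact hd
  have b (i) : Cl δ (E i).ξ.1 (c.D ⟨1, u⟩ i).ξ.1 := by
    rw [e2, D_xi, map_one, one_smul]; exact hu i
  refine ⟨fun i l => e3 i l ▸ (Dt.gam_lip _ _ (a i) (b i) _ l).trans ha, fun J s w => ?_⟩
  have g (i) := e4 i (J i) c.τ (by linarith) (fun l m => by linarith [(s i).1 l m])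
    fun l m => by linarith [(s i).2 l m]
  have t (i) : ∀ l ∈ J i, c.τ ≤ (E i).gam l := fun l m => by
    have := le_min (by linarith [(s i).1 l m] : c.τ ≤ (c.D ⟨1, x⟩ i).gam l) (by linarith : c.τ ≤ c.σ)
    exact (e3 i l ▸ this).trans (min_le_left ..)
  have o : 1 ≤ Real.exp (2 * c.β) := Real.one_le_exp (by linarith [c.hβ])
  have o' := Real.exp_pos (c.τ - c.σ)
  refine ⟨fun i => ((g i).1.trans (k i _ _ _ (a i) (b i) fun l m =>
      ⟨t i l m, by linarith [(w i).1 l m]⟩) h0 (Nm.nonneg _)).mono (by simp) ?_ (Nm.nonneg _)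
      (Nm.nonneg _), fun i => ((k i _ _ _ (a i).symm (b i).symm fun l m =>
      ⟨by linarith [(w i).1 l m], t i l m⟩).trans (g i).2 o'.le (Nm.nonneg _)).mono (by simp) hε
      (Nm.nonneg _) (Nm.nonneg _)⟩
  rw [mul_zero, Real.exp_zero]
  nlinarith

end Cs

end Pool.Agent.Lib.MP_5d3e93_al.Lq
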