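import Pool.Agent.Lib.MP_5d3e93_al.Lq.Def2

/-! Finite nets of bounded local size. -/

open Set

namespace Pool.Agent.Lib.MP_5d3e93_al.Lq

theorem Ld.iter {X : Type} [PseudoMetricSpace X] {D : ℕ} (h : Ld X D) (k : ℕ) (x : X) {r : ℝ}
    (h0 : 0 < r) (h1 : r ≤ 1) : ∃ s : Finset X, s.card ≤ D ^ k ∧
      ∀ y, dist x y ≤ r → ∃ z ∈ s, dist z y ≤ r / 2 ^ k := by
  classical
  induction k with
  | zero => exact ⟨{x}, by simp, fun y a => ⟨x, by simp, by simpa using a⟩⟩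
  | succ k ih =>
    obtain ⟨s, a, b⟩ := ih
    have p : r / 2 ^ k ≤ 1 := (div_le_self h0.le (one_le_pow₀ one_le_two)).trans h1
    choose u u1 u2 using fun z => h z (r / 2 ^ k) (by positivity) p
    refine ⟨s.biUnion u, (Finset.card_biUnion_le_card_mul _ _ _ fun z _ => u1 z).trans
      (by rw [pow_succ]; exact Nat.mul_le_mul_right _ a), fun y c => ?_⟩
    obtain ⟨z, d, e⟩ := b y c
    obtain ⟨z', d', e'⟩ := u2 z y e
    exact ⟨z', Finset.mem_biUnion.2 ⟨z, d, d'⟩, by rwa [pow_succ, ← div_div]⟩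

/-- Separated subsets inject into a fine cover. -/
theorem sep_card {X : Type} [PseudoMetricSpace X] {δ : ℝ} {u t : Finset X}
    (h : ∀ x ∈ u, ∀ y ∈ u, x ≠ y → δ < dist x y) (k : ∀ x ∈ u, ∃ z ∈ t, dist z x ≤ δ / 2) :
    u.card ≤ t.card := by
  choose! f f1 f2 using k
  refine Finset.card_le_card_of_injOn f f1 fun x a y b e => by_contra fun n => ?_
  have := h x a y b n
  have := dist_triangle_left x y (f x)
  have := f2 x a
  have := f2 y b
  rw [← e] at this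
  linarith

/-- A maximal `δ`-separated subset. -/
theorem ex_net (D : ℕ) : ∃ N : ℕ, ∀ {X : Type} [PseudoMetricSpace X], Ld X D → ∀ {Q : Set X},
    TotallyBounded Q → ∀ δ : ℝ, 0 < δ → δ ≤ 1 / 4 → ∃ s : Finset X, (∀ x ∈ Q, ∃ y ∈ s, dist x y ≤ δ) ∧
      ∀ u ⊆ s, (∀ x ∈ u, ∀ y ∈ u, dist x y < 3 * δ) → u.card < N := by
  classical
  refine ⟨D ^ 3 + 1, fun {X} _ h Q hQ δ h0 h1 => ?_⟩
  obtain ⟨t, t1, t2⟩ := Metric.totallyBounded_iff.1 hQ (δ / 2) (by positivity)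
  let P : ℕ → Prop := fun n => ∃ s : Finset X, s.card = n ∧ (∀ x ∈ s, x ∈ Q) ∧
    ∀ x ∈ s, ∀ y ∈ s, x ≠ y → δ < dist x y
  have bd : ∀ n, P n → n ≤ t1.toFinset.card := by
    rintro _ ⟨s, rfl, a, b⟩
    refine sep_card b fun x c => ?_
    obtain ⟨z, d, e⟩ := mem_iUnion₂.1 (t2 (a x c))
    exact ⟨z, t1.mem_toFinset.2 d, (Metric.mem_ball'.1 e).le⟩
  obtain ⟨s, s1, s2, s3⟩ : P (Nat.findGreatest P t1.toFinset.card) :=
    Nat.findGreatest_spec (m := 0) (Nat.zero_le _) ⟨∅, by simp⟩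
  refine ⟨s, fun x a => by_contra fun n => ?_, fun u a b => ?_⟩
  · have n' : ∀ y ∈ s, δ < dist x y := fun y b => not_le.1 fun c => n ⟨y, b, c⟩
    have m : x ∉ s := fun b => (n' x b).not_ge (by rw [dist_self]; exact h0.le)
    have q : P (s.card + 1) := ⟨insert x s, Finset.card_insert_of_notMem m,
      fun y b => (Finset.mem_insert.1 b).elim (fun e => e ▸ a) (s2 y), fun y b z c e => by
        rcases Finset.mem_insert.1 b with rfl | b' <;> rcases Finset.mem_insert.1 c with rfl | c'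
        exacts [(e rfl).elim, n' z c', dist_comm z y ▸ n' y b', s3 y b' z c' e]⟩
    have := Nat.le_findGreatest (bd _ q) q
    omega
  · obtain rfl | ⟨x, c⟩ := u.eq_empty_or_nonempty
    · simp
    obtain ⟨v, v1, v2⟩ := h.iter 3 x (r := 3 * δ) (by positivity) (by linarith)
    refine Nat.lt_succ_of_le ((sep_card (fun y d z e => s3 y (a d) z (a e)) fun y d => ?_).trans v1)
    obtain ⟨z, e, f⟩ := v2 y (b x c y d).le
    exact ⟨z, e, f.trans (by linarith)⟩

end Pool.Agent.Lib.MP_5d3e93_al.Lq
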