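import Pool.Agent.Lib.MP_5d3e93_al.Lq.ChA
import Pool.Agent.Lib.MP_5d3e93_al.Lq.ChB

/-! Transfer data from chains on lists. -/

namespace Pool.Agent.Lib.MP_5d3e93_al.Lq

universe w w'

open Finsupp Bg

section Lists

variable {V : Type w'} (A : List V → Prop)

/-- Nonempty admissible lists. -/
def Ce : Type w' := {l : List V // l ≠ [] ∧ A l}

/-- Chains on cells as chains on lists. -/
noncomputable def ceI : (Ce A →₀ ℤ) →ₗ[ℤ] (List V →₀ ℤ) := lmapDomain ℤ ℤ Subtype.val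

/-- Restriction of chains to cells. -/
noncomputable def ceR : (List V →₀ ℤ) →ₗ[ℤ] (Ce A →₀ ℤ) := lsubtypeDomain {l | l ≠ [] ∧ A l}

/-- Operators on cells. -/
noncomputable def ceO (f : (List V →₀ ℤ) →ₗ[ℤ] (List V →₀ ℤ)) : (Ce A →₀ ℤ) →ₗ[ℤ] (Ce A →₀ ℤ) :=
  ceR A ∘ₗ f ∘ₗ ceI A

/-- The augmentation. -/
noncomputable def ceE : (Ce A →₀ ℤ) →ₗ[ℤ] ℤ := lapply [] ∘ₗ Fg.dC ∘ₗ ceI A

variable {A}

theorem ceI_single (p : Ce A) : ceI A (single p 1) = single p.1 1 := mapDomain_single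

theorem ceR_apply (u : List V →₀ ℤ) (p : Ce A) : ceR A u p = u p.1 := rfl

theorem ceO_apply (f : (List V →₀ ℤ) →ₗ[ℤ] (List V →₀ ℤ)) (c : Ce A →₀ ℤ) :
    ceO A f c = ceR A (f (ceI A c)) := rfl

theorem ceO_single (f : (List V →₀ ℤ) →ₗ[ℤ] (List V →₀ ℤ)) (p q : Ce A) :
    ceO A f (single p 1) q = f (single p.1 1) q.1 := by rw [ceO_apply, ceI_single, ceR_apply]

theorem ceR_I (c : Ce A →₀ ℤ) : ceR A (ceI A c) = c :=
  Finsupp.ext fun p => mapDomain_apply Subtype.val_injective c p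

theorem ceI_nil (c : Ce A →₀ ℤ) : ceI A c [] = 0 :=
  mapDomain_of_notMem_range _ _ fun ⟨p, h⟩ => p.2.1 h

theorem ceR_nil : ceR A (single [] 1) = 0 :=
  Finsupp.ext fun p => single_eq_of_ne p.2.1

theorem ce_ind {P : (Ce A →₀ ℤ) → Prop} (h0 : P 0) (h1 : ∀ a b, P a → P b → P (a + b))
    (h2 : ∀ (n : ℤ) a, P a → P (n • a)) (h : ∀ p, P (single p 1)) (c : Ce A →₀ ℤ) : P c :=
  c.induction_linear h0 h1 fun p n => by simpa using h2 n _ (h p)

theorem ce_mem {M : Type*} [AddCommGroup M] (f : (List V →₀ ℤ) →ₗ[ℤ] M) (N : Submodule ℤ M)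
    (h : ∀ l, l ≠ [] → A l → f (single l 1) ∈ N) (c : Ce A →₀ ℤ) : f (ceI A c) ∈ N :=
  ce_ind (P := fun c => f (ceI A c) ∈ N) (by simp) (fun a b p q => by simpa using add_mem p q)
    (fun n a p => by simpa using N.smul_mem n p) (fun p => by
      rw [ceI_single]; exact h _ p.2.1 p.2.2) c

theorem ceI_R {u : List V →₀ ℤ} (h : u ∈ supported ℤ ℤ {l | A l}) :
    ceI A (ceR A u) = u - u [] • single [] 1 :=
  acy_eq (ceI A ∘ₗ ceR A) (LinearMap.id - (lapply []).smulRight (single [] 1)) h fun l hl => by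
    by_cases e : l = []
    · subst e
      simp [ceR_nil]
    · have := ceI_single (A := A) ⟨l, e, hl⟩
      simp only [LinearMap.comp_apply, LinearMap.sub_apply, LinearMap.id_apply,
        LinearMap.smulRight_apply, lapply_apply, single_eq_of_ne (Ne.symm e), zero_smul, sub_zero]
      rw [← this, ceR_I]

theorem cp_sup {P : List V → Prop} {k : ℕ} {u : List V →₀ ℤ} (h : u ∈ Cp P k)
    (a : ∀ l, P l → A l) : u ∈ supported ℤ ℤ {l | A l} :=
  supported_mono (fun l hl => by exact a l hl.2) h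

theorem cp_nil {P : List V → Prop} {k : ℕ} {u : List V →₀ ℤ} (h : u ∈ Cp P (k + 1)) : u [] = 0 :=
  by_contra fun e => by simpa using (cp_supp h e).1

theorem ceI_d (hA : ∀ l l', A l → l'.Sublist l → A l') (c : Ce A →₀ ℤ) :
    ceI A (ceO A Fg.dC c) = Fg.dC (ceI A c) - ceE A c • single [] 1 :=
  ceI_R (ce_mem _ _ (fun l _ a => cp_sup (cp_sub l) fun m p => hA l m a p.1) c)

theorem ceI_up {f : (List V →₀ ℤ) →ₗ[ℤ] (List V →₀ ℤ)}
    (h : ∀ l, A l → f (single l 1) ∈ Cp A (l.length + 1)) (c : Ce A →₀ ℤ) :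
    ceI A (ceO A f c) = f (ceI A c) := by
  rw [ceO_apply, ceI_R (ce_mem _ _ (fun l _ a => cp_sup (h l a) fun _ => id) c)]
  have : (lapply [] ∘ₗ f) (ceI A c) ∈ (⊥ : Submodule ℤ ℤ) :=
    ce_mem _ _ (fun l _ a => cp_nil (h l a)) c
  rw [show f (ceI A c) [] = 0 from this, zero_smul, sub_zero]

theorem ceI_inj {c c' : Ce A →₀ ℤ} (h : ceI A c = ceI A c') : c = c' := by
  rw [← ceR_I c, h, ceR_I]

/-- Transfer data from operators on chains of lists. -/
theorem tf_of_lists {G : Type w} [Group G] [MulAction G V] {Y : Type w'} [MulAction G Y]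
    {ρ : Y → Y → Prop} {F : Set G} {N : ℕ} (hA : ∀ l l', A l → l'.Sublist l → A l') (h0 : A [])
    (hG : ∀ (g : G) l, A l → A (l.map (g • ·))) (lc : List V → Y) (B : List V → List V → Prop)
    (T : List V → Prop) (η κ : (List V →₀ ℤ) →ₗ[ℤ] (List V →₀ ℤ)) (η0 : η (single [] 1) = 0)
    (η1 : ∀ l, A l → η (single l 1) ∈ Cp (fun m => A m ∧ B l m) (l.length + 1))
    (η2 : ∀ l, A l → single l 1 - Fg.dC (η (single l 1)) - η (Fg.dC (single l 1)) ∈
      Cp T l.length)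
    (κ1 : ∀ l, A l → κ (single l 1) ∈ Cp A (l.length + 1))
    (κ2 : ∀ l, A l → Fg.dC (κ (single l 1)) + κ (Fg.dC (single l 1)) = single l 1)
    (T1 : {l | T l}.Finite) (T2 : ∀ l l', T l → l'.Sublist l → T l')
    (T3 : ∀ l, A l → T l → l.length ≤ N)
    (c1 : ∀ l l', A l → l'.Sublist l → l' ≠ [] → ρ (lc l) (lc l'))
    (c2 : ∀ l m, A l → l ≠ [] → m ≠ [] → B l m → ρ (lc l) (lc m))
    (c3 : ∀ g ∈ F, ∀ l, A l → l ≠ [] → ρ (lc (l.map (g • ·))) (g • lc l)) :
    Nonempty (Tf G ρ F N) := by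
  classical
  let act : MulAction G (Ce A) :=
    { smul := fun g p => ⟨p.1.map (g • ·), by simpa using p.2.1, hG g _ p.2.2⟩
      one_smul := fun p => Subtype.ext (show p.1.map ((1 : G) • ·) = p.1 by simp)
      mul_smul := fun g h p => Subtype.ext (show p.1.map ((g * h) • ·) =
        (p.1.map (h • ·)).map (g • ·) by simp [mul_smul]) }
  have sm : ∀ (g : G) (c : Ce A →₀ ℤ), ceI A (c.mapDomain (g • ·)) = mp (g • ·) (ceI A c) :=
    fun g c => (mapDomain_comp (v := c) (f := (g • ·)) (g := Subtype.val)).symm.trans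
      (mapDomain_comp (v := c) (f := Subtype.val) (g := List.map (g • ·)))
  have pos : ∀ p : Ce A, 0 < p.1.length := fun p => List.length_pos_iff.2 p.2.1
  have dd : ∀ c, Fg.dC (ceI A (ceO A Fg.dC c)) = 0 := fun c => by
    rw [ceI_d hA, map_sub, map_smul, Fg.dd, dat_nil, smul_zero, sub_zero]
  have es : ∀ (g : G) (c : Ce A →₀ ℤ), mp (g • ·) (Fg.dC (ceI A c)) =
      ceI A ((ceO A Fg.dC c).mapDomain (g • ·)) + ceE A c • single [] 1 := fun g c => by
    rw [sm, ceI_d hA, map_sub, map_smul, mp_single, List.map_nil, sub_add_cancel]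
  have εs : ∀ (g : G) (c : Ce A →₀ ℤ), ceE A (c.mapDomain (g • ·)) = ceE A c := fun g c => by
    change Fg.dC (ceI A _) [] = _
    rw [sm, mp_d, es]
    simp [ceI_nil]
  have η1' : ∀ l, A l → η (single l 1) ∈ Cp A (l.length + 1) :=
    fun l a => cp_mono (fun _ _ p => p.1) (η1 l a)
  have b1 : ceI A (ceR A (κ (single [] 1))) = κ (single [] 1) := by
    rw [ceI_R (cp_sup (κ1 _ h0) fun _ => id), cp_nil (κ1 _ h0), zero_smul, sub_zero]
  have fin : {p : Ce A | T p.1}.Finite := T1.preimage Subtype.val_injective.injOn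
  refine ⟨{
    B := Ce A, deg := fun p => p.1.length - 1, loc := fun p => lc p.1, d := ceO A Fg.dC
    η := ceO A η, κ := ceO A κ, ε := ceE A, b := ceR A (κ (single [] 1)), T := fin.toFinset
    deg_smul := fun g p => congrArg (· - 1) (List.length_map ..)
    dd := fun c => by rw [ceO_apply, dd, map_zero]
    d_smul := fun g c => ceI_inj (by rw [ceI_d hA, sm, mp_d, es, εs, add_sub_cancel_right])
    ε_smul := εs
    deg_d := fun p q h => ?_
    deg_η := fun p q h => ?_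
    deg_κ := fun p q h => ?_
    deg_ε := fun p h => ?_
    deg_b := fun q h => ?_
    εd := fun c => by change Fg.dC (ceI A _) [] = 0; rw [dd]; rfl
    εb := ?_
    con := fun c => ?_
    dom := fun c q h => ?_
    T_d := fun p a q h => ?_
    T_deg := fun p a => ?_
    cd := fun p q h => ?_
    cη := fun p q h => ?_
    cg := fun g a p => c3 g a _ p.2.2 p.2.1 }⟩
  · rw [mem_support_iff, ceO_single] at h
    have := (cp_supp (cp_sub p.1) h).2.2
    have := pos q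
    omega
  · rw [mem_support_iff, ceO_single] at h
    have := (cp_supp (η1 _ p.2.2) h).1
    have := pos p
    omega
  · rw [mem_support_iff, ceO_single] at h
    have := (cp_supp (κ1 _ p.2.2) h).1
    have := pos p
    omega
  · change Fg.dC (ceI A _) [] = 0
    rw [ceI_single]
    exact by_contra fun e => h (cp_supp (cp_sub p.1) e).1.symm
  · rw [mem_support_iff, ceR_apply] at h
    have := (cp_supp (κ1 _ h0) h).1
    simp [this]
  · change Fg.dC (ceI A _) [] = 1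
    have := κ2 _ h0
    rw [dat_nil, map_zero, add_zero] at this
    rw [b1, this, single_eq_same]
  · have : (Fg.dC ∘ₗ κ + κ ∘ₗ Fg.dC - LinearMap.id : _ →ₗ[ℤ] _) (ceI A c) ∈
        (⊥ : Submodule ℤ _) :=
      ce_mem _ _ (fun l _ a => sub_eq_zero.2 (κ2 l a)) c
    have e : Fg.dC (κ (ceI A c)) + κ (Fg.dC (ceI A c)) = ceI A c := sub_eq_zero.1 this
    rw [ceO_apply Fg.dC, ceI_up κ1, ceO_apply κ, ceI_d hA, map_sub, map_sub, map_smul, map_smul,
      ← add_sub_assoc, ← map_add, e, ceR_I]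
  · have : (LinearMap.id - Fg.dC ∘ₗ η - η ∘ₗ Fg.dC : _ →ₗ[ℤ] _) (ceI A c) ∈
        supported ℤ ℤ {l | T l} :=
      ce_mem _ _ (fun l _ a => cp_sup (η2 l a) fun _ => id) c
    rw [ceO_apply Fg.dC, ceI_up η1', ceO_apply η, ceI_d hA, map_sub, map_smul, η0, smul_zero,
      sub_zero, ← ceR_I c, ← map_sub, ← map_sub, ceR_I, mem_support_iff, ceR_apply] at h
    exact fin.mem_toFinset.2 ((mem_supported ℤ _).1 this (mem_support_iff.2 h))
  · rw [mem_support_iff, ceO_single] at h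
    exact fin.mem_toFinset.2 (T2 _ _ (fin.mem_toFinset.1 a) (cp_supp (cp_sub p.1) h).2.1)
  · have := T3 _ p.2.2 (fin.mem_toFinset.1 a)
    have := pos p
    omega
  · rw [mem_support_iff, ceO_single] at h
    exact c1 _ _ p.2.2 (cp_supp (cp_sub p.1) h).2.1 q.2.1
  · rw [mem_support_iff, ceO_single] at h
    exact c2 _ _ p.2.2 p.2.1 q.2.1 (cp_supp (η1 _ p.2.2) h).2.2

end Lists

/-- Cells: nonempty small lists, located at the head. -/
theorem ex_tf (D : ℕ) : ∃ N : ℕ, ∀ {X : Type} [PseudoMetricSpace X] (B : Bi X), Ld X D →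
    ∀ {Γ Y : Type} [Group Γ] [MulAction Γ X] [MulAction Γ Y],
    (∀ (g : Γ) (x y : X), dist (g • x) (g • y) = dist x y) →
    ∀ (ρ : Y → Y → Prop) (F : Set Γ) (lc : X → Y) (δ η R : ℝ) (x₀ : X) (K : X → Set X) (t : X → X),
    0 < δ → δ ≤ 1 / 4 → 0 ≤ η → TotallyBounded (Metric.closedBall x₀ R) →
    (∀ x, B.Cv (K x) ∧ x ∈ K x ∧ t x ∈ K x ∧ dist (t x) x₀ ≤ R) →
    (∀ x y, dist x y < δ → dist (t x) (t y) ≤ η) →
    (∀ x z y, z ∈ K x → dist z y ≤ η + 10 * δ → ρ (lc x) (lc y)) →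
    (∀ g ∈ F, ∀ x, ρ (lc (g • x)) (g • lc x)) → Nonempty (Tf Γ ρ F N) := by
  obtain ⟨N, hN⟩ := ex_net D
  refine ⟨N, fun {X} _ B hD Γ Y _ _ _ iso ρ F lc δ η R x₀ K t h0 h1 h2 tb hK ht hρ hF => ?_⟩
  classical
  obtain ⟨s, s1, s2⟩ := hN hD tb (δ / 3) (by positivity) (by linarith)
  obtain ⟨θ, a⟩ := B.chains h0 t (B.cv_cball x₀ R) (fun x => (hK x).2.2.2) s fun x p =>
    (s1 x p).imp fun _ q => ⟨q.1, dist_comm x _ ▸ q.2⟩
  obtain ⟨κ, b⟩ := Bi.Cv.contr (c := B) (K := Set.univ) (fun _ _ _ _ _ _ => trivial)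
    ⟨x₀, trivial⟩ h0
  have u : ∀ l, Sm δ l → single l 1 ∈ Cp (Si δ (Set.univ : Set X)) l.length :=
    fun l p => cp_single ⟨p, fun _ _ => trivial⟩
  have near : ∀ x l, Sm δ (x :: l) → ∀ y ∈ B.car t δ (x :: l), ρ (lc x) (lc y) := by
    rintro x l p y ⟨z, q, r⟩
    obtain ⟨z', q', r'⟩ := Bi.hull_min ((hK x).1.nb (η + δ)) (by
      rintro _ ⟨a, c, rfl | rfl⟩
      · exact ⟨x, (hK x).2.1, (p _ c x (List.mem_cons_self ..)).le.trans (by linarith)⟩
      · exact ⟨t x, (hK x).2.2.1, (ht _ _ (p a c x (List.mem_cons_self ..))).trans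
          (by linarith)⟩) q
    refine hρ x z' y q' ?_
    have := dist_triangle_right z' y z
    rw [dist_comm z' z] at this
    linarith
  refine tf_of_lists (A := Sm δ) (fun _ _ => Sm.sub) (by simp [Sm])
    (fun g l p => p.map fun x y => (iso g x y).le) (fun l => lc (l.headD x₀))
    (fun l m => ∀ y ∈ m, y ∈ B.car t δ l) (fun m => m.Nodup ∧ ∀ x ∈ m, x ∈ s) θ κ
    (cp_zero (a [] (by simp [Sm])).1 fun _ _ p => p.1 rfl)
    (fun l p => cp_mono (fun _ _ q => q.2) (a l p).1)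
    (fun l p => cp_mono (fun _ _ q => ⟨q.1, fun x r => (q.2.2 x r).2⟩) (a l p).2)
    (fun l p => cp_mono (fun _ _ q => q.1) (b _ _ (u l p)).1) (fun l p => (b _ _ (u l p)).2)
    (net_finite s) (fun _ _ p q => ⟨p.1.sublist q, fun x r => p.2 x (q.subset r)⟩)
    (fun l p q => ?_) (fun l l' p q e => ?_) (fun l m p e e' q => ?_) fun g c l _ e => ?_
  · rw [← List.toFinset_card_of_nodup q.1]
    refine (s2 _ (fun x r => q.2 x (List.mem_toFinset.1 r)) fun x r y r' => ?_).le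
    have := p x (List.mem_toFinset.1 r) y (List.mem_toFinset.1 r')
    linarith
  · obtain ⟨y, m, rfl⟩ := List.exists_cons_of_ne_nil e
    obtain _ | ⟨x, l⟩ := l
    · simp at q
    exact near x l p y (sub_nb (by positivity) _
      (B.sub_hull _ ⟨y, q.subset (List.mem_cons_self ..), .inl rfl⟩))
  · obtain ⟨x, l, rfl⟩ := List.exists_cons_of_ne_nil e
    obtain ⟨y, m, rfl⟩ := List.exists_cons_of_ne_nil e'
    exact near x l p y (q y (List.mem_cons_self ..))
  · obtain ⟨x, l, rfl⟩ := List.exists_cons_of_ne_nil e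
    exact hF g c x

end Pool.Agent.Lib.MP_5d3e93_al.Lq
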