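import Pool.Agent.Lib.MP_5d3e93_al.Lq.Ag

/-! Convexity and total boundedness in the space of splittable norms. -/

open Matrix Set Filter Topology

namespace Pool.Agent.Lib.MP_5d3e93_al.Lq

section op

variable {e : Bool} {a b a' b' c t : ℝ}

theorem cvx_mono (ha : 0 ≤ a) (hb : 0 ≤ b) (h : a ≤ a') (k : b ≤ b') : op e a b ≤ op e a' b' := by
  cases e
  · exact max_le_max h k
  · exact Real.sqrt_le_sqrt (by gcongr)

theorem cvx_mul (hc : 0 ≤ c) (a b : ℝ) : op e (c * a) (c * b) = c * op e a b := by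
  cases e
  · exact (mul_max_of_nonneg a b hc).symm
  · change √_ = c * √_
    rw [mul_pow, mul_pow, ← mul_add, Real.sqrt_mul (sq_nonneg c), Real.sqrt_sq hc]

theorem cvx_zero (ha : 0 ≤ a) : op e a 0 = a ∧ op e 0 a = a := by
  cases e
  · exact ⟨max_eq_left ha, max_eq_right ha⟩
  · simp [op, Real.sqrt_sq ha]

theorem cvx_pos (ha : 0 ≤ a) (hb : 0 ≤ b) (h : 0 < a ∨ 0 < b) : 0 < op e a b := by
  rcases h with h | h
  · exact h.trans_le ((cvx_zero ha).1.ge.trans (cvx_mono ha le_rfl le_rfl hb))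
  · exact h.trans_le ((cvx_zero hb).2.ge.trans (cvx_mono le_rfl hb ha le_rfl))

theorem cvx_cont {u u' : ℝ → ℝ} (h : Continuous u) (k : Continuous u') :
    Continuous fun t => op e (u t) (u' t) := by
  cases e
  · exact h.max k
  · exact ((h.pow 2).add (k.pow 2)).sqrt

/-- The weight of the second point. -/
noncomputable def cvxW (e : Bool) (t : ℝ) : ℝ := bif e then √t else min 1 (max 0 (2 * t))

theorem cvxW_nonneg (e : Bool) (t : ℝ) : 0 ≤ cvxW e t := by
  cases e
  · exact le_min zero_le_one (le_max_left _ _)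
  · exact Real.sqrt_nonneg _

theorem cvxW_pos (e : Bool) (h : 0 < t) : 0 < cvxW e t := by
  cases e
  · exact lt_min one_pos (lt_max_of_lt_right (by linarith))
  · exact Real.sqrt_pos.2 h

theorem cvxW_zero (e : Bool) : cvxW e 0 = 0 := by cases e <;> simp [cvxW]

theorem cvxW_one (e : Bool) : cvxW e 1 = 1 := by cases e <;> simp [cvxW]

theorem cvxW_cont (e : Bool) : Continuous (cvxW e) := by
  cases e
  · exact continuous_const.min (continuous_const.max (continuous_const.mul continuous_id))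
  · exact Real.continuous_sqrt

theorem cvxW_op (h : t ∈ Icc (0 : ℝ) 1) : op e (cvxW e (1 - t)) (cvxW e t) = 1 := by
  cases e
  · refine le_antisymm (max_le (min_le_left _ _) (min_le_left _ _)) ?_
    rcases le_total t (1 / 2) with k | k
    · exact le_max_of_le_left (le_min le_rfl (le_max_of_le_right (by linarith)))
    · exact le_max_of_le_right (le_min le_rfl (le_max_of_le_right (by linarith)))
  · change √(√(1 - t) ^ 2 + √t ^ 2) = 1
    rw [Real.sq_sqrt (sub_nonneg.2 h.2), Real.sq_sqrt h.1]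
    simp

/-- The combination of two numbers. -/
noncomputable def cvxC (e : Bool) (t a b : ℝ) : ℝ := op e (cvxW e (1 - t) * a) (cvxW e t * b)

theorem cvxC_pos (t : ℝ) (ha : 0 < a) (hb : 0 < b) : 0 < cvxC e t a b :=
  cvx_pos (mul_nonneg (cvxW_nonneg _ _) ha.le) (mul_nonneg (cvxW_nonneg _ _) hb.le)
    ((lt_or_ge t 1).imp (fun h => mul_pos (cvxW_pos e (sub_pos.2 h)) ha)
      fun h => mul_pos (cvxW_pos e (one_pos.trans_le h)) hb)

theorem cvxC_mono (t : ℝ) (ha : 0 ≤ a) (hb : 0 ≤ b) (h : a ≤ a') (k : b ≤ b') :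
    cvxC e t a b ≤ cvxC e t a' b' :=
  cvx_mono (mul_nonneg (cvxW_nonneg _ _) ha) (mul_nonneg (cvxW_nonneg _ _) hb)
    (mul_le_mul_of_nonneg_left h (cvxW_nonneg _ _)) (mul_le_mul_of_nonneg_left k (cvxW_nonneg _ _))

theorem cvxC_mul (t : ℝ) (hc : 0 ≤ c) (a b : ℝ) :
    cvxC e t (c * a) (c * b) = c * cvxC e t a b := by
  rw [cvxC, mul_left_comm, mul_left_comm _ c, cvx_mul hc, cvxC]

theorem cvxC_le (t : ℝ) (hc : 0 ≤ c) (ha : 0 ≤ a) (hb : 0 ≤ b) (h : a ≤ c * a') (k : b ≤ c * b') :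
    cvxC e t a b ≤ c * cvxC e t a' b' :=
  (cvxC_mono t ha hb h k).trans_eq (cvxC_mul t hc _ _)

end op

section Cvx

variable {P : Pl} {m : ℕ}

theorem cvx_nm {M : ℕ} {f : Matrix (Fin M) (Fin M) P.K} {a b : Fin M → ℝ} (ha : ∀ k, 0 < a k)
    (hb : ∀ k, 0 < b k) (t : ℝ) (x) :
    nm f (fun k => cvxC P.e t (a k) (b k)) x = cvxC P.e t (nm f a x) (nm f b x) := by
  have e (k) : cvxC P.e t (a k) (b k) * ‖(f *ᵥ x) k‖ = op P.e
      (cvxW P.e (1 - t) * (a k * ‖(f *ᵥ x) k‖)) (cvxW P.e t * (b k * ‖(f *ᵥ x) k‖)) := by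
    rw [mul_comm, ← cvxC_mul t (norm_nonneg _), mul_comm _ (a k), mul_comm _ (b k), cvxC]
  simp only [nm, e]
  rw [ag_op (fun k => mul_nonneg (cvxW_nonneg _ _) (mul_nonneg (ha k).le (norm_nonneg _)))
    fun k => mul_nonneg (cvxW_nonneg _ _) (mul_nonneg (hb k).le (norm_nonneg _)),
    ag_smul (cvxW_nonneg _ _), ag_smul (cvxW_nonneg _ _), cvxC]

theorem cvx_cl {M : ℕ} {f : Matrix (Fin M) (Fin M) P.K} {a b : Fin M → ℝ} (ha : ∀ k, 0 < a k)
    (hb : ∀ k, 0 < b k) {r : ℝ} (h : ∀ k, a k ≤ Real.exp r * b k ∧ b k ≤ Real.exp r * a k) :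
    Cl r (nm f a) (nm f b) := fun _ =>
  ⟨nm_le (fun k => (ha k).le) (Real.exp_pos r).le fun k _ => (h k).1,
    nm_le (fun k => (hb k).le) (Real.exp_pos r).le fun k _ => (h k).2⟩

/-- Sort the coordinates. -/
theorem Pl.Ok.ex_dt (h : P.Ok) (α β : Nm P (m + 1)) : ∃ D : Dt P m, D.x = α ∧ D.ξ = β := by
  obtain ⟨f, a, b, hf, ha, hb, e1, e2⟩ := h.spl _ α β
  let σ := Tuple.sort fun k => -Real.log (b k / a k)
  have key (c : Fin (m + 1) → ℝ) : nm (f.submatrix σ (Equiv.refl _)) (c ∘ σ) = nm f c :=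
    funext fun t => ag_perm σ fun k => c k * ‖(f *ᵥ t) k‖
  refine ⟨⟨f.submatrix σ (Equiv.refl _), a ∘ σ, b ∘ σ, (isUnit_submatrix_equiv _ _).2 hf,
    fun k => ha _, fun k => hb _, fun i j k => ?_⟩, Subtype.ext ((key a).trans e1.symm),
    Subtype.ext ((key b).trans e2.symm)⟩
  exact neg_le_neg_iff.1 (Tuple.monotone_sort (fun k => -Real.log (b k / a k)) k)

/-- The combination of two norms. -/
noncomputable def cvxN (h : P.Ok) {M : ℕ} (t : ℝ) (α β : Nm P M) : Nm P M :=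
  ⟨fun x => cvxC P.e t (α.1 x) (β.1 x), by
    obtain ⟨f, a, b, hf, ha, hb, e1, e2⟩ := h.spl _ α β
    exact ⟨f, _, hf, fun k => cvxC_pos t (ha k) (hb k), funext fun x => by
      rw [e1, e2, cvx_nm ha hb]⟩⟩

theorem cvxN_cont (h : P.Ok) {M : ℕ} (α β : Nm P M) : Continuous fun t => cvxN h t α β := by
  obtain ⟨f, a, b, hf, ha, hb, e1, e2⟩ := h.spl _ α β
  have e (t) : (cvxN h t α β).1 = nm f fun k => cvxC P.e t (a k) (b k) := funext fun x => by
    rw [cvx_nm ha hb, ← e1, ← e2]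
    rfl
  have c (k) : Continuous fun t => cvxC P.e t (a k) (b k) :=
    cvx_cont (((cvxW_cont _).comp (continuous_const.sub continuous_id)).mul continuous_const)
      ((cvxW_cont _).mul continuous_const)
  refine continuous_iff_continuousAt.2 fun s => Metric.tendsto_nhds.2 fun ε hε => ?_
  have p (k) : cvxC P.e s (a k) (b k) < Real.exp (ε / 2) * cvxC P.e s (a k) (b k) :=
    lt_mul_of_one_lt_left (cvxC_pos s (ha k) (hb k)) (Real.one_lt_exp_iff.2 (half_pos hε))
  have q : ∀ᶠ t in 𝓝 s, ∀ k,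
      cvxC P.e t (a k) (b k) < Real.exp (ε / 2) * cvxC P.e s (a k) (b k) ∧
      cvxC P.e s (a k) (b k) < Real.exp (ε / 2) * cvxC P.e t (a k) (b k) :=
    eventually_all.2 fun k =>
      ((c k).continuousAt.eventually_lt continuousAt_const (p k)).and
        (continuousAt_const.eventually_lt (continuous_const.mul (c k)).continuousAt (p k))
  refine q.mono fun t k => ((Nm.dist_le (half_pos hε).le).2 ?_).trans_lt (half_lt_self hε)
  rw [e, e]
  exact cvx_cl (fun k => cvxC_pos t (ha k) (hb k)) (fun k => cvxC_pos s (ha k) (hb k))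
    fun i => ⟨(k i).1.le, (k i).2.le⟩

theorem Pl.Ok.bi (h : P.Ok) : ∃ B : Bi (Nm P (m + 1)), ∀ (D : Dt P m) σ, B.Cv (D.Kc σ) := by
  refine ⟨⟨cvxN h, fun x a => Subtype.ext (funext fun t => ?_),
    fun x a => Subtype.ext (funext fun t => ?_), fun t ht x => Subtype.ext (funext fun s => ?_),
    fun t _ x y a b => ?_, fun x a => (cvxN_cont h x a).continuousOn⟩, ?_⟩
  · change op _ _ _ = _
    rw [sub_zero, cvxW_one, cvxW_zero, one_mul, zero_mul, (cvx_zero (x.nonneg t)).1]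
  · change op _ _ _ = _
    rw [sub_self, cvxW_one, cvxW_zero, one_mul, zero_mul, (cvx_zero (a.nonneg t)).2]
  · change op _ _ _ = _
    rw [mul_comm, mul_comm (cvxW _ t), cvx_mul (x.nonneg s), cvxW_op ht, mul_one]
  · have r : 0 ≤ max (dist x y) (dist a b) := le_max_of_le_left dist_nonneg
    have h1 := (Nm.dist_le r).1 (le_max_left (dist x y) (dist a b))
    have h2 := (Nm.dist_le r).1 (le_max_right (dist x y) (dist a b))
    exact (Nm.dist_le r).2 fun s =>
      ⟨cvxC_le t (Real.exp_pos _).le (x.nonneg s) (a.nonneg s) (h1 s).1 (h2 s).1,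
        cvxC_le t (Real.exp_pos _).le (y.nonneg s) (b.nonneg s) (h1 s).2 (h2 s).2⟩
  · rintro D σ t - x ⟨Θ, p, q, e⟩ a ⟨Θ', p', q', e'⟩
    refine ⟨fun k => cvxC P.e t (Θ k) (Θ' k), fun k => cvxC_pos t (p k) (p' k), fun l =>
      ⟨cvxC_mono t (p _).le (p' _).le (q l).1 (q' l).1,
        cvxC_le t (Real.exp_pos _).le (p _).le (p' _).le (q l).2 (q' l).2⟩, funext fun s => ?_⟩
    change cvxC P.e t (x.1 s) (a.1 s) = _
    rw [e, e', ← cvx_nm (fun k => mul_pos (p k) (D.hb k)) fun k => mul_pos (p' k) (D.hb k)]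
    congr 1
    funext k
    rw [mul_comm (Θ k), mul_comm (Θ' k), cvxC_mul t (D.hb k).le, mul_comm]

theorem cvx_tb {X : Type*} [PseudoMetricSpace X] {D : ℕ} (h : Ld X D) (x : X) :
    TotallyBounded (Metric.closedBall x 1) := by
  have a (n : ℕ) : ∃ s : Set X, s.Finite ∧
      ∀ y, dist x y ≤ 1 → ∃ z ∈ s, dist z y ≤ (1 / 2) ^ n := by
    induction n with
    | zero => exact ⟨{x}, finite_singleton x, fun y k => ⟨x, rfl, by simpa using k⟩⟩
    | succ n ih =>
      obtain ⟨s, fin, k⟩ := ih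
      choose u _ hu using fun z => h z ((1 / 2) ^ n) (by positivity)
        (pow_le_one₀ (by norm_num) (by norm_num))
      refine ⟨⋃ z ∈ s, u z, fin.biUnion fun z _ => (u z).finite_toSet, fun y hy => ?_⟩
      obtain ⟨z, hz, d⟩ := k y hy
      obtain ⟨w, hw, d'⟩ := hu z y d
      exact ⟨w, mem_biUnion hz hw, d'.trans_eq (by ring)⟩
  refine Metric.totallyBounded_iff.2 fun ε hε => ?_
  obtain ⟨n, hn⟩ := exists_pow_lt_of_lt_one hε (by norm_num : (1 / 2 : ℝ) < 1)
  obtain ⟨s, fin, k⟩ := a n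
  refine ⟨s, fin, fun y hy => ?_⟩
  obtain ⟨z, hz, d⟩ := k y (Metric.mem_closedBall'.1 hy)
  exact mem_biUnion hz (Metric.mem_ball'.2 (d.trans_lt hn))

theorem cvx_mid (h : P.Ok) {M : ℕ} {α β : Nm P M} {R s : ℝ} (hR : 0 ≤ R) (hs : 0 ≤ s)
    (k : dist α β ≤ R + s) : ∃ γ, dist α γ ≤ R ∧ dist γ β ≤ s := by
  obtain ⟨f, a, b, hf, ha, hb, e1, e2⟩ := h.spl _ α β
  have c := (Nm.dist_le (add_nonneg hR hs)).1 k
  have w (i) : a i ≤ Real.exp (R + s) * b i ∧ b i ≤ Real.exp (R + s) * a i := by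
    obtain ⟨t, ht⟩ := mulVec_surjective_iff_isUnit.2 hf (Pi.single i 1)
    have := c t
    rwa [e1, e2, nm_single i (ha i).le ht, nm_single i (hb i).le ht] at this
  have x := Real.exp_pos R
  have y := Real.exp_pos s
  have x1 := Real.one_le_exp hR
  have y1 := Real.one_le_exp hs
  let u : Fin M → ℝ := fun i => max (a i / Real.exp R) (min (b i) (Real.exp R * a i))
  have hu (i) : 0 < u i := lt_max_of_lt_left (div_pos (ha i) x)
  refine ⟨⟨nm f u, f, u, hf, hu, rfl⟩, (Nm.dist_le hR).2 (e1 ▸ cvx_cl ha hu fun i => ⟨?_, ?_⟩),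
    (Nm.dist_le hs).2 (e2 ▸ cvx_cl hu hb fun i => ⟨?_, ?_⟩)⟩
  · exact (div_le_iff₀' x).1 (le_max_left _ _)
  · exact max_le ((div_le_self (ha i).le x1).trans (le_mul_of_one_le_left (ha i).le x1))
      (min_le_right _ _)
  · refine max_le ((div_le_iff₀' x).2 ?_) ((min_le_left _ _).trans
      (le_mul_of_one_le_left (hb i).le y1))
    rw [← mul_assoc, ← Real.exp_add]
    exact (w i).1
  · refine le_trans ?_ (mul_le_mul_of_nonneg_left (le_max_right _ _) y.le)
    rw [mul_min_of_nonneg _ _ y.le, ← mul_assoc, ← Real.exp_add, add_comm]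
    exact le_min (le_mul_of_one_le_left (hb i).le y1) (w i).2

theorem Pl.Ok.tb (h : P.Ok) {M : ℕ} (α : Nm P M) (R : ℝ) :
    TotallyBounded (Metric.closedBall α R) := by
  obtain ⟨D, hD⟩ := h.ld M
  have a (n : ℕ) : TotallyBounded (Metric.closedBall α (n / 2)) := by
    induction n with
    | zero => exact (cvx_tb hD α).subset (Metric.closedBall_subset_closedBall (by simp))
    | succ n ih =>
      obtain ⟨s, fin, k⟩ := Metric.totallyBounded_iff.1 ih (1 / 2) (by norm_num)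
      refine ((totallyBounded_biUnion fin).2 fun z _ => cvx_tb hD z).subset fun y hy => ?_
      obtain ⟨γ, h1, h2⟩ := cvx_mid h (R := n / 2) (s := 1 / 2) (by positivity) (by norm_num)
        ((Metric.mem_closedBall'.1 hy).trans_eq (by push_cast; ring))
      obtain ⟨z, hz, d⟩ := mem_iUnion₂.1 (k (Metric.mem_closedBall'.2 h1))
      refine mem_biUnion hz (Metric.mem_closedBall'.2 ?_)
      linarith [dist_triangle z γ y, Metric.mem_ball'.1 d]
  obtain ⟨n, hn⟩ := exists_nat_ge (2 * R)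
  exact (a n).subset (Metric.closedBall_subset_closedBall (by linarith))

variable {ι : Type} [Fintype ι] {X : ι → Type} [∀ i, PseudoMetricSpace (X i)]

theorem Bi.pi (B : ∀ i, Bi (X i)) : ∃ B' : Bi (∀ i, X i), ∀ K : ∀ i, Set (X i),
    (∀ i, (B i).Cv (K i)) → B'.Cv {x | ∀ i, x i ∈ K i} :=
  ⟨⟨fun t x a i => (B i).c t (x i) (a i), fun _ _ => funext fun i => (B i).c0 _ _,
    fun _ _ => funext fun i => (B i).c1 _ _, fun t ht _ => funext fun i => (B i).diag t ht _,
    fun t ht x y a b => (dist_pi_le_iff (le_max_of_le_left dist_nonneg)).2 fun i =>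
      ((B i).lip t ht _ _ _ _).trans (max_le_max (dist_le_pi_dist x y i) (dist_le_pi_dist a b i)),
    fun _ _ => continuousOn_pi.2 fun i => (B i).cont _ _⟩,
    fun _ h t ht _ hx _ ha i => h i t ht _ (hx i) _ (ha i)⟩

theorem Ld.pi (h : ∀ i, ∃ D, Ld (X i) D) : ∃ D, Ld (∀ i, X i) D := by
  classical
  choose D hD using h
  refine ⟨∏ i, D i, fun x r h0 h1 => ?_⟩
  choose s hs k using fun i => hD i (x i) r h0 h1
  refine ⟨Fintype.piFinset s, ?_, fun y hy => ?_⟩
  · rw [Fintype.card_piFinset]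
    exact Finset.prod_le_prod' fun i _ => hs i
  · choose z hz d using fun i => k i (y i) ((dist_le_pi_dist x y i).trans hy)
    exact ⟨z, Fintype.mem_piFinset.2 hz, (dist_pi_le_iff (half_pos h0).le).2 d⟩

theorem tb_pi (h : ∀ i (x : X i) R, TotallyBounded (Metric.closedBall x R)) (x : ∀ i, X i) (R : ℝ) :
    TotallyBounded (Metric.closedBall x R) := by
  refine Metric.totallyBounded_iff.2 fun ε hε => ?_
  choose s fin k using fun i => Metric.totallyBounded_iff.1 (h i (x i) R) ε hε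
  refine ⟨univ.pi s, Finite.pi fin, fun y hy => ?_⟩
  choose z hz d using fun i => mem_iUnion₂.1
    (k i (Metric.mem_closedBall.2 ((dist_le_pi_dist y x i).trans (Metric.mem_closedBall.1 hy))))
  exact mem_biUnion (fun i _ => hz i) (Metric.mem_ball.2 ((dist_pi_lt_iff hε).2 d))

end Cvx

end Pool.Agent.Lib.MP_5d3e93_al.Lq
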