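import Pool.Agent.Lib.MP_5d3e93_al.Lq.Def2

/-! Doubling spaces and their Hausdorff dimension. -/

open Matrix Set Filter Topology MulAction

namespace Pool.Agent.Lib.MP_5d3e93_al.Lq

/-- Doubling at all scales. -/
def Gd (X : Type*) [PseudoMetricSpace X] : Prop := ∃ D : ℕ, ∀ (x : X) (r : ℝ), 0 < r →
  ∃ s : Finset X, s.card ≤ D ∧ ∀ y, dist x y ≤ r → ∃ z ∈ s, dist z y ≤ r / 2

theorem gd_field (K : Type*) [NontriviallyNormedField K] [ProperSpace K] : Gd K := by
  classical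
  obtain ⟨c, hc⟩ := NormedField.exists_one_lt_norm K
  have c0 : 0 < ‖c‖ := one_pos.trans hc
  obtain ⟨t, -, tf, ht⟩ := (isCompact_closedBall (0 : K) 1).finite_cover_balls
    (e := 1 / (2 * ‖c‖)) (by positivity)
  refine ⟨tf.toFinset.card, fun x r hr => ?_⟩
  obtain ⟨n, h1, h2⟩ := exists_mem_Ioc_zpow hr hc
  have na : ‖c ^ (n + 1)‖ = ‖c‖ ^ (n + 1) := norm_zpow c _
  have a0 : 0 < ‖c ^ (n + 1)‖ := na ▸ zpow_pos c0 _
  have a1 : ‖c ^ (n + 1)‖ ≤ r * ‖c‖ := by
    rw [na, zpow_add_one₀ c0.ne']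
    exact mul_le_mul_of_nonneg_right h1.le c0.le
  rw [← na] at h2
  generalize c ^ (n + 1) = a at a0 a1 h2
  have a2 : a ≠ 0 := norm_pos_iff.1 a0
  refine ⟨tf.toFinset.image fun z => x + a * z, Finset.card_image_le, fun y hy => ?_⟩
  have m : (y - x) / a ∈ Metric.closedBall (0 : K) 1 := by
    rw [mem_closedBall_zero_iff, norm_div, div_le_one a0, ← dist_eq_norm, dist_comm]
    exact hy.trans h2
  obtain ⟨z, hz, k⟩ := mem_iUnion₂.1 (ht m)
  refine ⟨_, Finset.mem_image_of_mem _ (tf.mem_toFinset.2 hz), ?_⟩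
  have e : x + a * z - y = a * (z - (y - x) / a) := by
    field_simp
    ring
  rw [Metric.mem_ball, dist_comm, dist_eq_norm] at k
  rw [dist_eq_norm, e, norm_mul]
  calc ‖a‖ * ‖z - (y - x) / a‖ ≤ r * ‖c‖ * (1 / (2 * ‖c‖)) :=
        mul_le_mul a1 k.le (norm_nonneg _) (by positivity)
    _ = r / 2 := by field_simp

theorem Gd.prod {X Y : Type*} [PseudoMetricSpace X] [PseudoMetricSpace Y] (h : Gd X) (k : Gd Y) :
    Gd (X × Y) := by
  obtain ⟨D, h⟩ := h
  obtain ⟨E, k⟩ := k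
  refine ⟨D * E, fun x r hr => ?_⟩
  obtain ⟨s, s1, s2⟩ := h x.1 r hr
  obtain ⟨t, t1, t2⟩ := k x.2 r hr
  refine ⟨s ×ˢ t, by rw [Finset.card_product]; exact Nat.mul_le_mul s1 t1, fun y hy => ?_⟩
  rw [Prod.dist_eq, max_le_iff] at hy
  obtain ⟨a, ha, a'⟩ := s2 y.1 hy.1
  obtain ⟨b, hb, b'⟩ := t2 y.2 hy.2
  exact ⟨(a, b), Finset.mem_product.2 ⟨ha, hb⟩, max_le a' b'⟩

theorem Gd.pi {ι : Type*} [Fintype ι] {X : ι → Type*} [∀ i, PseudoMetricSpace (X i)]
    (h : ∀ i, Gd (X i)) : Gd (∀ i, X i) := by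
  classical
  choose D h using h
  refine ⟨∏ i, D i, fun x r hr => ?_⟩
  choose s s1 s2 using fun i => h i (x i) r hr
  refine ⟨Fintype.piFinset s, ?_, fun y hy => ?_⟩
  · rw [Fintype.card_piFinset]
    exact Finset.prod_le_prod' fun i _ => s1 i
  · choose z z1 z2 using fun i => s2 i (y i) ((dist_le_pi_dist x y i).trans hy)
    exact ⟨z, Fintype.mem_piFinset.2 z1, (dist_pi_le_iff (by positivity)).2 z2⟩

theorem dim_iter {X : Type*} [PseudoMetricSpace X] {D : ℕ} (h : ∀ (x : X) (r : ℝ), 0 < r →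
    ∃ s : Finset X, s.card ≤ D ∧ ∀ y, dist x y ≤ r → ∃ z ∈ s, dist z y ≤ r / 2) (x : X) {R : ℝ}
    (hR : 0 < R) (k : ℕ) :
    ∃ s : Finset X, s.card ≤ D ^ k ∧ ∀ y, dist x y ≤ R → ∃ z ∈ s, dist z y ≤ R / 2 ^ k := by
  classical
  induction k with
  | zero => exact ⟨{x}, by simp, fun y hy => ⟨x, by simp, by simpa using hy⟩⟩
  | succ k ih =>
    obtain ⟨s, s1, s2⟩ := ih
    choose t t1 t2 using fun z => h z (R / 2 ^ k) (by positivity)
    refine ⟨s.biUnion t, (Finset.card_biUnion_le_card_mul _ _ _ fun z _ => t1 z).trans ?_,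
      fun y hy => ?_⟩
    · rw [pow_succ]
      exact Nat.mul_le_mul_right _ s1
    · obtain ⟨z, hz, a⟩ := s2 y hy
      obtain ⟨w, hw, b⟩ := t2 z y a
      exact ⟨w, Finset.mem_biUnion.2 ⟨z, hz, hw⟩, by rwa [pow_succ, ← div_div]⟩

theorem Gd.dim {X : Type*} [MetricSpace X] (h : Gd X) :
    ∃ n : ℕ, ∀ A : Set X, Bornology.IsBounded A → dimH A < n := by
  obtain ⟨D, h⟩ := h
  refine ⟨D + 1, fun A hA => ?_⟩
  rcases A.eq_empty_or_nonempty with rfl | ⟨x, -⟩
  · simp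
  obtain ⟨R, hR, hs⟩ := hA.subset_closedBall_lt 0 x
  choose s s1 s2 using dim_iter h x hR
  borelize X
  have dm : ∀ (k : ℕ) (z : X), Metric.ediam (Metric.closedBall z (R / 2 ^ k)) ≤
      ENNReal.ofReal (2 * (R / 2 ^ k)) := fun k z =>
    Metric.ediam_le_of_forall_dist_le fun a ha b hb =>
      (dist_triangle_right a b z).trans (by
        rw [Metric.mem_closedBall] at ha hb
        linarith)
  have lim : Tendsto (fun k : ℕ => ENNReal.ofReal (2 * (R / 2 ^ k))) atTop (𝓝 0) := by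
    rw [← ENNReal.ofReal_zero]
    refine ENNReal.tendsto_ofReal ?_
    simpa using ((tendsto_pow_atTop_atTop_of_one_lt (one_lt_two (α := ℝ))).const_div_atTop
      R).const_mul 2
  have key := MeasureTheory.Measure.hausdorffMeasure_le_liminf_sum (ι := fun k => s k) (D : ℝ) A
    _ lim (fun k z => Metric.closedBall (z : X) (R / 2 ^ k))
    (Eventually.of_forall fun k z => dm k z) (Eventually.of_forall fun k y hy => by
      obtain ⟨z, hz, a⟩ := s2 k y (Metric.mem_closedBall'.1 (hs hy))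
      exact mem_iUnion.2 ⟨⟨z, hz⟩, Metric.mem_closedBall'.2 a⟩)
  have bd : ∀ k : ℕ, ∑ z : s k, Metric.ediam (Metric.closedBall (z : X) (R / 2 ^ k)) ^ (D : ℝ) ≤
      ENNReal.ofReal ((2 * R) ^ D) := fun k => by
    refine (Finset.sum_le_card_nsmul _ _ (ENNReal.ofReal ((2 * (R / 2 ^ k)) ^ D))
      fun z _ => ?_).trans ?_
    · rw [ENNReal.rpow_natCast, ENNReal.ofReal_pow (by positivity)]
      exact pow_le_pow_left' (dm k z) D
    · rw [← ENNReal.ofReal_nsmul, Finset.card_univ, Fintype.card_coe, nsmul_eq_mul]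
      refine ENNReal.ofReal_le_ofReal ?_
      have a : ((s k).card : ℝ) ≤ (2 ^ k) ^ D := by
        have : (s k).card ≤ (2 ^ k) ^ D := (s1 k).trans (by
          rw [← pow_mul, mul_comm, pow_mul]
          exact Nat.pow_le_pow_left Nat.lt_two_pow_self.le k)
        exact_mod_cast this
      refine (mul_le_mul_of_nonneg_right a (by positivity)).trans_eq ?_
      rw [← mul_pow]
      congr 1
      field_simp
  have fin : MeasureTheory.Measure.hausdorffMeasure ((D : NNReal) : ℝ) A ≠ ⊤ :=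
    ne_top_of_le_ne_top ENNReal.ofReal_ne_top
      (key.trans (liminf_le_of_frequently_le' (Frequently.of_forall bd)))
  refine (dimH_le_of_hausdorffMeasure_ne_top fin).trans_lt ?_
  exact_mod_cast Nat.lt_succ_self D

end Pool.Agent.Lib.MP_5d3e93_al.Lq
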