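import Pool.Agent.Lib.MP_5d3e93_al.Lq.FlA

/-! Flats: comparison of two presentations, and neighbourhoods. -/

open Matrix Set Filter Topology MulAction

namespace Pool.Agent.Lib.MP_5d3e93_al.Lq

section Place

variable {P : Pl} {M m : ℕ}

theorem flB_ex {f : Matrix (Fin M) (Fin M) P.K} (h : IsUnit f) (x : Fin M → P.K) :
    ∃ t, f *ᵥ t = x := by
  obtain ⟨g, rfl⟩ := h
  exact ⟨(g⁻¹).1 *ᵥ x, by rw [mulVec_mulVec, Units.mul_inv, one_mulVec]⟩

theorem flB_zero {f : Matrix (Fin M) (Fin M) P.K} {a : Fin M → ℝ} {t}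
    (h : ∀ k, (f *ᵥ t) k = 0 ∨ a k = 0) : nm f a t = 0 :=
  le_antisymm ((ag_le ..).trans_eq (Finset.sum_eq_zero fun k _ => by
    rcases h k with e | e <;> simp [e])) (nm_nonneg t)

theorem flB_smul (f : Matrix (Fin M) (Fin M) P.K) (a : Fin M → ℝ) {c : ℝ} (hc : 0 ≤ c) (t) :
    nm f (fun k => c * a k) t = c * nm f a t := by
  simp only [nm, mul_assoc]
  exact ag_smul hc _

theorem flB_le {f : Matrix (Fin M) (Fin M) P.K} {a b : Fin M → ℝ} (ha : ∀ k, 0 ≤ a k) {t}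
    (h : ∀ k, (f *ᵥ t) k ≠ 0 → a k ≤ b k) : nm f a t ≤ nm f b t :=
  (nm_le ha zero_le_one fun k e => (h k e).trans_eq (one_mul _).symm).trans_eq (one_mul _)

theorem flB_card {f : Matrix (Fin M) (Fin M) P.K} {a : Fin M → ℝ} (ha : ∀ k, 0 ≤ a k) {t} {r : ℝ}
    (h : ∀ k, a k * ‖(f *ᵥ t) k‖ ≤ r) : nm f a t ≤ M * r :=
  (ag_le ..).trans ((Finset.sum_le_sum fun k _ =>
    (abs_of_nonneg (mul_nonneg (ha k) (norm_nonneg _))).trans_le (h k)).trans_eq (by simp))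

theorem flB_den {f : Matrix (Fin M) (Fin M) P.K} (h : IsUnit f) {a : Fin M → ℝ}
    (ha : ∀ k, 0 ≤ a k) {k : Fin M} (hk : 0 < a k) : 0 < ∑ l, nm f a (Pi.single l 1) := by
  refine (Finset.sum_nonneg fun l _ => nm_nonneg _).lt_of_ne' fun e => ?_
  rw [Finset.sum_eq_zero_iff_of_nonneg fun l _ => nm_nonneg _] at e
  obtain ⟨t, ht⟩ := flB_ex h (Pi.single k 1)
  have := nm_sum (f := f) ha Finset.univ fun l => t l • (Pi.single l 1 : Fin M → P.K)
  rw [← pi_eq_sum_univ' t, nm_single k hk.le ht,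
    Finset.sum_eq_zero fun l hl => by rw [nm_smul, e l hl, mul_zero]] at this
  exact this.not_gt hk

theorem flB_st (J : Finset (Fin m)) (k : Fin (m + 1)) :
    ∃ i, St J i ∧ i ≤ k ∧ ∀ j, St J j → j ≤ k → j ≤ i := by
  classical
  obtain ⟨i, hi, e⟩ := (Finset.univ.filter fun j => St J j ∧ j ≤ k).exists_max_image id
    ⟨0, Finset.mem_filter.2 ⟨Finset.mem_univ _, Or.inl rfl, k.zero_le⟩⟩
  exact ⟨i, (Finset.mem_filter.1 hi).2.1, (Finset.mem_filter.1 hi).2.2,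
    fun j a b => e j (by simp [a, b])⟩

variable {J : Finset (Fin m)} {f₀ f₁ : Matrix (Fin (m + 1)) (Fin (m + 1)) P.K}
  {w₀ w₁ : Fin (m + 1) → Fin (m + 1) → ℝ} {u₀ u₁ ν : Fin (m + 1) → ℝ}

/-- The flag does not depend on the coordinates. -/
theorem flB_flag {C C' : ℝ} (a₀ : Ad J C w₀ u₀) (a₁ : Ad J C' w₁ u₁) {i l : Fin (m + 1)} {t}
    (e : nm f₁ (w₁ i) t = 0 → nm f₀ (w₀ i) t = 0) (hi : St J i) (hl : i ≤ l)
    (hm : ∀ j, St J j → j ≤ l → j ≤ i) (h : ∀ k, i ≤ k → (f₁ *ᵥ t) k = 0) : (f₀ *ᵥ t) l = 0 := by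
  have := le_nm (f := f₀) (a := w₀ i) l t
  rw [e (flB_zero fun k => (le_or_gt i k).imp (h k) fun c => a₁.zero i k (Or.inl c)),
    a₀.eq i l hi hl hm] at this
  exact norm_le_zero_iff.1 (le_of_mul_le_mul_left (this.trans_eq (mul_zero _).symm) (a₀.pos l))

theorem flB_core (a₀ : Ad J 1 w₀ u₀) (a₁ : Ad J 1 w₁ u₁) (h₀ : IsUnit f₀) (h₁ : IsUnit f₁)
    (hν : ∀ j, 0 < ν j) (e : ∀ j t, nm f₀ (w₀ j) t = ν j * nm f₁ (w₁ j) t)
    {σ : Fin (m + 1) → Fin (m + 1)}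
    (hσ : ∀ k, St J (σ k) ∧ σ k ≤ k ∧ ∀ j, St J j → j ≤ k → j ≤ σ k) :
    (∀ j k, ν j * w₁ j k ≤ ν (σ k) * u₁ k) ∧
      Cl m (nm f₁ fun k => ν (σ k) * u₁ k) (nm f₀ u₀) := by
  have q₀ := fun k => a₀.eq _ k (hσ k).1 (hσ k).2.1 (hσ k).2.2
  have q₁ := fun k => a₁.eq _ k (hσ k).1 (hσ k).2.1 (hσ k).2.2
  have p : ∀ k, 0 ≤ ν (σ k) * u₁ k := fun k => (mul_pos (hν _) (a₁.pos k)).le
  have A : ∀ j k, ν j * w₁ j k ≤ ν (σ k) * u₁ k := fun j k => by
    obtain ⟨t, ht⟩ := flB_ex h₁ (Pi.single k 1)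
    obtain ⟨t', ht'⟩ := flB_ex h₀ fun l => if σ k ≤ l then (f₀ *ᵥ t) l else 0
    have b1 : (f₁ *ᵥ (t - t')) k = 0 := flB_flag (f₁ := f₀) a₁ a₀
      (fun c => (mul_eq_zero.1 ((e _ _).symm.trans c)).resolve_left (hν _).ne') (hσ k).1 (hσ k).2.1
      (hσ k).2.2 fun l hl => by
        rw [mulVec_sub, Pi.sub_apply, ht']
        exact sub_eq_zero.2 (if_pos hl).symm
    rw [mulVec_sub, Pi.sub_apply, sub_eq_zero] at b1
    have b2 : nm f₁ (w₁ j) t ≤ nm f₁ (w₁ j) t' := nm_proj (a₁.nn j) fun l => Or.inl (by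
      by_cases c : l = k
      · rw [c, b1]
      · simp [ht, c])
    have b3 : nm f₀ (w₀ j) t' ≤ nm f₀ (w₀ (σ k)) t' := flB_le (a₀.nn j) fun l hl => by
      rw [ht'] at hl
      have c : σ k ≤ l := by
        by_contra c
        exact hl (if_neg c)
      replace hl : (f₀ *ᵥ t) l ≠ 0 := fun z => hl ((if_pos c).trans z)
      have c' : σ l ≤ σ k := by
        by_contra c'
        refine hl (flB_flag (f₁ := f₁) a₀ a₁ (fun z => by rw [e, z, mul_zero]) (hσ l).1 (hσ l).2.1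
          (hσ l).2.2 fun n hn => ?_)
        rw [ht]
        exact Pi.single_eq_of_ne (fun z : n = k => c' ((hσ k).2.2 _ (hσ l).1 (hn.trans z.le))) _
      rw [a₀.eq _ l (hσ k).1 c fun n a b => ((hσ l).2.2 n a b).trans c']
      exact (a₀.le j l).trans_eq (one_mul _)
    have b4 : nm f₀ (w₀ (σ k)) t' ≤ nm f₀ (w₀ (σ k)) t := nm_proj (a₀.nn _) fun l => Or.inl (by
      rw [ht']
      dsimp only
      split_ifs <;> simp)
    rw [← nm_single k (a₁.nn j k) ht, ← q₁, ← nm_single k (a₁.nn (σ k) k) ht, ← e (σ k)]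
    exact (mul_le_mul_of_nonneg_left b2 (hν j).le).trans ((e j t').symm.trans_le (b3.trans b4))
  have x : ((m + 1 : ℕ) : ℝ) ≤ Real.exp m := by
    rw [Nat.cast_succ]
    exact Real.add_one_le_exp _
  refine ⟨A, fun t => ⟨(flB_card p fun k => ?_).trans (mul_le_mul_of_nonneg_right x (nm_nonneg t)),
    (flB_card (fun k => (a₀.pos k).le) fun k => ?_).trans
      (mul_le_mul_of_nonneg_right x (nm_nonneg t))⟩⟩
  · rw [← q₁, mul_assoc]
    exact (mul_le_mul_of_nonneg_left (le_nm k t) (hν _).le).trans ((e _ t).symm.trans_le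
      (flB_le (a₀.nn _) fun l _ => (a₀.le _ l).trans_eq (one_mul _)))
  · rw [← q₀]
    refine (le_nm k t).trans ((e _ t).trans_le ?_)
    rw [← flB_smul _ _ (hν _).le]
    exact flB_le (fun l => mul_nonneg (hν _).le (a₁.nn _ l)) fun l _ => A _ l

theorem flB_bound (h : Matrix (Fin M) (Fin M) P.K) (g : (Matrix (Fin M) (Fin M) P.K)ˣ)
    {a b : Fin M → ℝ} (ha : ∀ k, 0 < a k) (hb : ∀ k, 0 ≤ b k) (t) :
    nm h b t ≤ (∑ k, ∑ l, b k * ‖(h * (g⁻¹).1) k l‖ / a l) * nm g.1 a t := by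
  rw [Finset.sum_mul]
  refine (ag_le ..).trans (Finset.sum_le_sum fun i _ => ?_)
  have e : (h *ᵥ t) i = ∑ j, (h * (g⁻¹).1) i j * (g.1 *ᵥ t) j := by
    have : h *ᵥ t = (h * (g⁻¹).1) *ᵥ (g.1 *ᵥ t) := by
      rw [mulVec_mulVec, Matrix.mul_assoc, Units.inv_mul, Matrix.mul_one]
    rw [this]
    rfl
  rw [abs_of_nonneg (mul_nonneg (hb i) (norm_nonneg _)), e, Finset.sum_mul]
  refine (mul_le_mul_of_nonneg_left (norm_sum_le ..) (hb i)).trans ?_
  rw [Finset.mul_sum]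
  refine Finset.sum_le_sum fun j _ => ?_
  have p := ha j
  calc b i * ‖(h * (g⁻¹).1) i j * (g.1 *ᵥ t) j‖
      = b i * ‖(h * (g⁻¹).1) i j‖ / a j * (a j * ‖(g.1 *ᵥ t) j‖) := by
        rw [norm_mul]
        field_simp
    _ ≤ _ := mul_le_mul_of_nonneg_left (le_nm j t)
        (div_nonneg (mul_nonneg (hb i) (norm_nonneg _)) p.le)

theorem flB_tri (f g : Matrix (Fin M) (Fin M) P.K) {b : Fin M → ℝ} (hb : ∀ k, 0 ≤ b k) (t) :
    |nm f b t - nm g b t| ≤ nm (f - g) b t := by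
  have k : ∀ f g h : Matrix (Fin M) (Fin M) P.K, (∀ k, ‖(f *ᵥ t) k‖ ≤ ‖(g *ᵥ t) k‖ + ‖(h *ᵥ t) k‖) →
      nm f b t ≤ nm g b t + nm h b t := fun f g h e => (ag_mono fun k => by
    have := hb k
    rw [abs_of_nonneg (by positivity), abs_of_nonneg (by positivity), ← mul_add]
    exact mul_le_mul_of_nonneg_left (e k) this).trans (ag_add _ _)
  have a := k f g (f - g) fun k => by
    rw [sub_mulVec, Pi.sub_apply]
    exact norm_le_norm_add_norm_sub' _ _
  have c := k g f (f - g) fun k => by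
    rw [sub_mulVec, Pi.sub_apply]
    exact norm_le_norm_add_norm_sub _ _
  exact abs_le.2 ⟨by linarith, by linarith⟩

/-- Norms depend continuously on coordinates and weights. -/
theorem flB_near {X : Type*} {l : Filter X} {f : X → Matrix (Fin M) (Fin M) P.K}
    {b : X → Fin M → ℝ} {g : Matrix (Fin M) (Fin M) P.K} {a : Fin M → ℝ} (hg : IsUnit g)
    (ha : ∀ k, 0 < a k) (tf : ∀ k j, Tendsto (fun x => f x k j) l (𝓝 (g k j)))
    (tb : ∀ k, Tendsto (fun x => b x k) l (𝓝 (a k))) :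
    ∀ᶠ x in l, Cl 1 (nm (f x) (b x)) (nm g a) := by
  obtain ⟨g, rfl⟩ := hg
  have t1 : Tendsto (fun x => ∑ k, ∑ j, b x k * ‖((f x - g.1) * (g⁻¹).1) k j‖ / a j) l (𝓝 0) := by
    have : ∀ k j, Tendsto (fun x => ((f x - g.1) * (g⁻¹).1) k j) l (𝓝 0) := fun k j => by
      simpa [Matrix.mul_apply] using tendsto_finsetSum Finset.univ fun n _ =>
        ((tf k n).sub_const (g.1 k n)).mul_const ((g⁻¹).1 n j)
    simpa using tendsto_finsetSum Finset.univ fun k _ => tendsto_finsetSum Finset.univ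
      fun j _ => ((tb k).mul (this k j).norm).div_const (a j)
  have t2 : ∀ k, ∀ᶠ x in l, |b x k - a k| ≤ 1 / 4 * a k := fun k => by
    have : Tendsto (fun x => |b x k - a k|) l (𝓝 0) := by
      simpa using ((tb k).sub_const (a k)).abs
    exact this.eventually_le_const (by linarith [ha k])
  filter_upwards [t1.eventually_le_const (show (0 : ℝ) < 1 / 4 by norm_num),
    eventually_all.2 t2] with x h1 h2 t
  have hb : ∀ k, 0 ≤ b x k := fun k => by linarith [(abs_le.1 (h2 k)).1, ha k]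
  have y : 0 ≤ nm g.1 a t := nm_nonneg t
  have e1 := abs_le.1 ((flB_tri (f x) g.1 hb t).trans ((flB_bound _ g ha hb t).trans
    (mul_le_mul_of_nonneg_right h1 y)))
  have e2 := abs_le.1 (nm_sub (f := g.1) hb (fun k => (ha k).le) (by norm_num) h2 t)
  have z : 0 ≤ nm (f x) (b x) t := nm_nonneg t
  have e3 : (2 : ℝ) ≤ Real.exp 1 := by linarith [Real.add_one_le_exp 1]
  exact ⟨by nlinarith [e1.2, e2.2], by nlinarith [e1.1, e2.1]⟩

end Place

variable {m : ℕ} {ι : Type} [Fintype ι] {v : ι → Pl} {Γ : Type} [Group Γ]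
  (r : ∀ i, Γ →* GL (Fin (m + 1)) (v i).K) {J : ι → Finset (Fin m)} {C D κ : ℝ}

omit [Fintype ι] in
theorem cls_eq {C' : ℝ} {f f' : ∀ i, Matrix _ _ (v i).K} {w w' u u' : ι → _}
    (h : ∀ i, Ad (J i) C (w i) (u i) ∧ IsUnit (f i))
    (h' : ∀ i, Ad (J i) C' (w' i) (u' i) ∧ IsUnit (f' i))
    (e : (cls r fun i k => nm (f' i) (w' i k)) = cls r fun i k => nm (f i) (w i k)) (i k) :
    ∃ ν : ℝ, 0 < ν ∧ ∀ t, nm (f' i) (w' i k) t = ν * nm (f i) (w i k) t := by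
  by_cases c : St (J i) k
  · have d := flB_den (h i).2 ((h i).1.nn k) (k := k)
      (((h i).1.eq k k c le_rfl fun _ _ a => a).symm ▸ (h i).1.pos k)
    have d' := flB_den (h' i).2 ((h' i).1.nn k) (k := k)
      (((h' i).1.eq k k c le_rfl fun _ _ a => a).symm ▸ (h' i).1.pos k)
    refine ⟨_, div_pos d' d, fun t => ?_⟩
    have := congrFun e ⟨i, k, 1, t⟩
    simp only [cls, map_one, Units.val_one, one_mulVec] at this
    rw [(div_eq_iff d'.ne').1 this]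
    ring
  · exact ⟨1, one_pos, fun t => by
      rw [flB_zero fun l => Or.inr ((h i).1.zero k l (Or.inr c)),
        flB_zero fun l => Or.inr ((h' i).1.zero k l (Or.inr c)), mul_zero]⟩

/-- Translates of nearby flats stay near the base point. -/
theorem flat_nb (g : Γ) {p} (hp : p ∈ Pp v J κ D) (h : fa g (psi r p) ∈ Zf r J 1 D) :
    ∀ᶠ q in 𝓝[Pp v J κ D] p, fa g (psi r q) ∈ Zf r J 2 (D + m + 2) := by
  obtain ⟨f₀, w₀, u₀, h₀, e⟩ := h
  have E : ∀ q : Pm m v, fa g (psi r q) =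
      cls r fun i k => nm (Matrix.of (q i).1 * (r i g⁻¹).1) ((q i).2.1 k) := fun q => by
    rw [psi, fa_cls]
    exact congrArg _ (funext fun i => funext fun k => funext fun t => (nm_mul _ t).symm)
  have U : ∀ i, IsUnit (Matrix.of (p i).1) := fun i => isUnit_of_cl (hp i).2.2
  have U' := fun i => (U i).mul (r i g⁻¹).isUnit
  have U₀ := fun i => isUnit_of_cl (h₀ i).2
  choose ν hν eν using cls_eq r (fun i => ⟨(hp i).1, U' i⟩) (fun i => ⟨(h₀ i).1, U₀ i⟩)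
    (e.symm.trans (E p))
  choose σ hσ using fun i => flB_st (J i)
  have K := fun i => flB_core (h₀ i).1 (hp i).1 (U₀ i) (U' i) (hν i) (eν i) (hσ i)
  have t0 : ∀ i, Tendsto (fun q : Pm m v => q i) (𝓝[Pp v J κ D] p) (𝓝 (p i)) := fun i =>
    ((continuous_apply i).tendsto p).mono_left nhdsWithin_le_nhds
  have tu : ∀ i k c, Tendsto (fun q : Pm m v => c * (q i).2.2 k) (𝓝[Pp v J κ D] p)
      (𝓝 (c * (p i).2.2 k)) := fun i k c =>
    (((continuous_apply k).tendsto _).comp (t0 i).snd_nhds.snd_nhds).const_mul c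
  have t1 : ∀ i j k, ∀ᶠ q in 𝓝[Pp v J κ D] p,
      ν i j * (q i).2.1 j k < 2 * (ν i (σ i k) * (q i).2.2 k) := fun i j k =>
    ((((continuous_apply_apply j k).tendsto _).comp (t0 i).snd_nhds.fst_nhds).const_mul
      (ν i j)).eventually_lt ((tu i k _).const_mul 2) (by
        linarith [(K i).1 j k, mul_pos (hν i (σ i k)) ((hp i).1.pos k)])
  have t2 := fun i => flB_near (f := fun q : Pm m v => Matrix.of (q i).1) (U i)
    (fun k => mul_pos (hν i (σ i k)) ((hp i).1.pos k))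
    (fun k j => ((continuous_apply_apply k j).tendsto _).comp (t0 i).fst_nhds)
    fun k => tu i k (ν i (σ i k))
  filter_upwards [self_mem_nhdsWithin, eventually_all.2 fun i => eventually_all.2 fun j =>
    eventually_all.2 (t1 i j), eventually_all.2 t2] with q hq a b
  refine ⟨fun i => Matrix.of (q i).1 * (r i g⁻¹).1, fun i j k => ν i j * (q i).2.1 j k,
    fun i k => ν i (σ i k) * (q i).2.2 k, fun i => ⟨⟨fun k => mul_pos (hν i _) ((hq i).1.pos k),
      fun j k c => (congrArg _ ((hq i).1.zero j k c)).trans (mul_zero _),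
      fun j k => mul_nonneg (hν i j).le ((hq i).1.nn j k), fun j k => (a i j k).le,
      fun j k c c' c'' => ?_⟩, ?_⟩, (E q).trans (cls_mul r fun i k =>
        ⟨ν i k, hν i k, flB_smul _ _ (hν i k).le⟩).symm⟩
  · change ν i j * (q i).2.1 j k = ν i (σ i k) * (q i).2.2 k
    rw [(hq i).1.eq j k c c' c'', le_antisymm (c'' _ (hσ i k).1 (hσ i k).2.1)
      ((hσ i k).2.2 j c c')]
  · have c : Cl 1 (nm (Matrix.of (q i).1 * (r i g⁻¹).1) fun k => ν i (σ i k) * (q i).2.2 k)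
        (nm (Matrix.of (p i).1 * (r i g⁻¹).1) fun k => ν i (σ i k) * (p i).2.2 k) := fun t => by
      rw [nm_mul, nm_mul]
      exact b i _
    exact ((c.trans (K i).2).trans (h₀ i).2).mono (by linarith) nm_nonneg (Nm.nonneg _)

end Pool.Agent.Lib.MP_5d3e93_al.Lq
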