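import Pool.Agent.Lib.MP_5d3e93_al.Lq.FlA
import Pool.Agent.Lib.MP_5d3e93_al.Lq.FlB

/-! Fibres and stabilisers of flats. -/

open Matrix Set Filter Topology MulAction MeasureTheory

namespace Pool.Agent.Lib.MP_5d3e93_al.Lq

universe w w'

section One
variable {m : ℕ} {P : Pl} {J : Finset (Fin m)} {C C' : ℝ}
  {f f' : Matrix (Fin (m + 1)) (Fin (m + 1)) P.K} {a a' : Fin (m + 1) → Fin (m + 1) → ℝ}
  {u u' : Fin (m + 1) → ℝ}

theorem flC_ag (e : Bool) {M : ℕ} {I : Type} (s : Finset I) (x : I → Fin M → ℝ) :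
    ag e (fun k => ∑ j ∈ s, x j k) ≤ ∑ j ∈ s, ag e (x j) := by
  classical
  induction s using Finset.induction_on with
  | empty =>
    have := ag_smul (e := e) (le_refl (0 : ℝ)) (fun _ : Fin M => (0 : ℝ))
    simpa using this.le
  | insert j s hj ih =>
    simp only [Finset.sum_insert hj]
    exact (ag_add _ _).trans (add_le_add le_rfl ih)

theorem flC_st (h : Ad J C a u) (k : Fin (m + 1)) : ∃ j, a j k = u k := by
  classical
  obtain ⟨j, h1, h2⟩ := (Finset.univ.filter fun j => St J j ∧ j ≤ k).exists_max_image id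
    ⟨0, by simp [St]⟩
  rw [Finset.mem_filter] at h1
  exact ⟨j, h.eq j k h1.2.1 h1.2.2 fun l a b => h2 l (by simp [a, b])⟩

theorem flC_sum (h : Ad J C a u) (t) : nm f u t ≤ ∑ j, nm f (a j) t := by
  refine le_trans ?_ (flC_ag P.e Finset.univ fun j k => a j k * ‖(f *ᵥ t) k‖)
  refine ag_mono fun k => ?_
  obtain ⟨j, e⟩ := flC_st h k
  have p : ∀ j, 0 ≤ a j k * ‖(f *ᵥ t) k‖ := fun j => mul_nonneg (h.nn j k) (norm_nonneg _)
  rw [← e, abs_of_nonneg (p j), abs_of_nonneg (Finset.sum_nonneg fun j _ => p j)]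
  exact Finset.single_le_sum (fun j _ => p j) (Finset.mem_univ j)

theorem flC_le (h : Ad J C a u) (hC : 0 ≤ C) (j t) : nm f (a j) t ≤ C * nm f u t :=
  nm_le (h.nn j) hC fun k _ => h.le j k

theorem flC_up (h : Ad J C a u) (h' : Ad J C' a' u') (hC : 0 ≤ C') {c : ℝ} (hc : 0 ≤ c)
    (e : ∀ k, St J k → ∀ t, nm f (a k) t ≤ c * nm f' (a' k) t) (t) :
    nm f u t ≤ (m + 1) * C' * c * nm f' u' t := by
  have : ∀ j ∈ Finset.univ, nm f (a j) t ≤ c * (C' * nm f' u' t) := fun j _ => by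
    by_cases s : St J j
    · exact (e j s t).trans (mul_le_mul_of_nonneg_left (flC_le h' hC j t) hc)
    · have := nm_le (f := f) (b := u) (t := t) (h.nn j) le_rfl fun k _ => by
        rw [h.zero j k (.inr s), zero_mul]
      rw [zero_mul] at this
      exact this.trans (mul_nonneg hc (mul_nonneg hC (nm_nonneg t)))
  refine (flC_sum h t).trans ((Finset.sum_le_card_nsmul _ _ _ this).trans (le_of_eq ?_))
  rw [Finset.card_univ, Fintype.card_fin, nsmul_eq_mul]
  push_cast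
  ring

theorem flC_pt (h : Ad J C a u) (hf : IsUnit f) {k} (s : St J k) :
    ∃ t, 0 < nm f u t ∧ nm f (a k) t = nm f u t := by
  obtain ⟨g, rfl⟩ := hf
  have e : g.1 *ᵥ ((g⁻¹).1 *ᵥ Pi.single k 1) = Pi.single k 1 := by
    rw [mulVec_mulVec, Units.mul_inv, one_mulVec]
  refine ⟨(g⁻¹).1 *ᵥ Pi.single k 1, ?_, ?_⟩
  · rw [nm_single k (h.pos k).le e]
    exact h.pos k
  · rw [nm_single k (h.pos k).le e, nm_single k (h.nn k k) e]
    exact h.eq k k s le_rfl fun _ _ b => b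

theorem flC_cl {D : ℝ} (h : Cl D (nm f u) (Nm.std P (m + 1)).1) (g : GL (Fin (m + 1)) P.K) :
    Cl |D| (nm (f * (g⁻¹).1) u) (g • Nm.std P (m + 1)).1 := fun t => by
  rw [nm_mul]
  exact (h.mono (le_abs_self D) nm_nonneg (Nm.nonneg _)) ((g⁻¹).1 *ᵥ t)

end One

section Flats
variable {m : ℕ} {ι : Type} [Fintype ι] {v : ι → Pl} {Γ : Type} [Group Γ]
  (r : ∀ i, Γ →* GL (Fin (m + 1)) (v i).K) {J : ι → Finset (Fin m)} {C D κ : ℝ}

theorem flC_len (g h : Γ) : len r (g⁻¹ * h) = dist (h • x0 r) (g • x0 r) := by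
  rw [len, ← xr_dist r g, smul_smul, mul_inv_cancel_left]

theorem flC_len_le (g h : Γ) {R : ℝ} (hR : 0 ≤ R) : len r (g⁻¹ * h) ≤ R ↔
    ∀ i, Cl R (r i h • Nm.std (v i) (m + 1)).1 (r i g • Nm.std (v i) (m + 1)).1 := by
  rw [flC_len]
  exact (dist_pi_le_iff (X := fun i => Nm (v i) (m + 1)) hR).trans
    (forall_congr' fun i => Nm.dist_le hR)

omit [Fintype ι] in
theorem flC_tr {z} {g : Γ} (h : fa g⁻¹ z ∈ Zf r J C D) :
    ∃ (f : ∀ i, Matrix (Fin (m + 1)) (Fin (m + 1)) (v i).K) (a : ι → _) (u : ι → _),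
      (∀ i, (Ad (J i) C (a i) (u i) ∧ IsUnit (f i)) ∧
        Cl |D| (nm (f i) (u i)) (r i g • Nm.std (v i) (m + 1)).1) ∧
      z = cls r fun i k => nm (f i) (a i k) := by
  obtain ⟨f, a, u, h1, h2⟩ := h
  refine ⟨fun i => f i * ((r i g)⁻¹).1, a, u, fun i => ⟨⟨(h1 i).1,
    (isUnit_of_cl (h1 i).2).mul (Units.isUnit _)⟩, flC_cl (h1 i).2 _⟩, ?_⟩
  have e : z = fa g (fa g⁻¹ z) := funext fun t => by simp [fa]
  rw [e, h2, fa_cls]
  congr 1
  funext i k t
  rw [nm_mul, map_inv]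

theorem flat_dbl : ∃ N : ℕ, ∀ (J : ι → Finset (Fin m)) C D, 1 ≤ C → ∃ α₀, ∀ α, α₀ ≤ α →
    ∀ z (s : Finset Γ), (∀ g ∈ s, fa g⁻¹ z ∈ Zf r J C D) →
      (∀ g ∈ s, ∀ h ∈ s, len r (g⁻¹ * h) ≤ 4 * α ∧ (g ≠ h → α < len r (g⁻¹ * h))) →
      s.card ≤ N := by
  classical
  refine ⟨21 ^ Fintype.card (ι × Fin (m + 1)), fun J C D hC =>
    ⟨2 * (2 * |D| + Real.log ((m + 1) * C)) + 1, fun α hα z s hs hl => ?_⟩⟩
  have C0 : 0 < C := by linarith
  have m1 : (1 : ℝ) ≤ m + 1 := by linarith [Nat.cast_nonneg (α := ℝ) m]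
  have lC : 0 ≤ Real.log C := Real.log_nonneg hC
  have lm : Real.log C ≤ Real.log ((m + 1) * C) := Real.log_le_log C0 (by nlinarith)
  have D0 := abs_nonneg D
  have α0 : 0 < α := by linarith
  rcases s.eq_empty_or_nonempty with rfl | ⟨o, ho⟩
  · simp
  choose! f a u h1 h2 using fun g hg => flC_tr r (hs g hg)
  have ex : ∀ g ∈ s, ∀ i k, ∃ ν : ℝ, 0 < ν ∧ ∀ t,
      nm (f g i) (a g i k) t = ν * nm (f o i) (a o i k) t := fun g hg i k =>
    cls_eq r (fun i => (h1 o ho i).1) (fun i => (h1 g hg i).1)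
      ((h2 g hg).symm.trans (h2 o ho)) i k
  choose! ν n1 n2 using ex
  have low : ∀ g ∈ s, ∀ h ∈ s, ∀ i k, St (J i) k →
      Real.log (ν h i k) - Real.log (ν g i k) ≤ 5 * α := fun g hg h hh i k hk => by
    obtain ⟨t, t1, t2⟩ := flC_pt (h1 g hg i).1.1 (h1 g hg i).1.2 hk
    have c := ((h1 h hh i).2.trans
      ((flC_len_le r g h (by linarith)).1 (hl g hg h hh).1 i)).trans (h1 g hg i).2.symm
    have l := (flC_le (f := f h i) (h1 h hh i).1.1 C0.le k t).trans
      (mul_le_mul_of_nonneg_left (c t).1 C0.le)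
    rw [← t2, n2 g hg] at t1
    rw [← t2, n2 h hh, n2 g hg, ← mul_assoc, ← mul_assoc] at l
    have l' := Real.log_le_log (n1 h hh i k)
      (le_of_mul_le_mul_right l ((mul_pos_iff_of_pos_left (n1 g hg i k)).1 t1))
    rw [Real.log_mul (by positivity) (n1 g hg i k).ne', Real.log_mul C0.ne' (Real.exp_pos _).ne',
      Real.log_exp] at l'
    linarith
  have up : ∀ g ∈ s, ∀ h ∈ s, (∀ i k, St (J i) k →
      Real.log (ν h i k) - Real.log (ν g i k) ≤ α / 2) → ∀ i t,
      nm (f h i) (u h i) t ≤ Real.exp (Real.log ((m + 1) * C) + α / 2) * nm (f g i) (u g i) t :=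
    fun g hg h hh e i t => by
      rw [Real.exp_add, Real.exp_log (by positivity)]
      refine flC_up (h1 h hh i).1.1 (h1 g hg i).1.1 C0.le (Real.exp_pos _).le (fun k hk t => ?_) t
      rw [n2 h hh, n2 g hg, ← mul_assoc]
      refine mul_le_mul_of_nonneg_right ?_ (nm_nonneg t)
      rw [← Real.exp_log (n1 h hh i k), ← Real.exp_log (n1 g hg i k), ← Real.exp_add]
      exact Real.exp_le_exp.2 (by linarith [e i k hk])
  let φ : Γ → ι × Fin (m + 1) → ℤ := fun g p => if St (J p.1) p.2 then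
    ⌊(Real.log (ν g p.1 p.2) - Real.log (ν o p.1 p.2)) / (α / 2)⌋ else 0
  have card : (Fintype.piFinset fun _ : ι × Fin (m + 1) => Finset.Icc (-10 : ℤ) 10).card =
      21 ^ Fintype.card (ι × Fin (m + 1)) := by
    rw [Fintype.card_piFinset, Finset.prod_const, Finset.card_univ]
    rfl
  rw [← card]
  refine Finset.card_le_card_of_injOn φ (fun g hg => ?_) fun g hg h hh e => ?_
  · rw [Finset.mem_coe, Fintype.mem_piFinset]
    intro p
    simp only [φ]
    split_ifs with c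
    · have a1 := low o ho g hg p.1 p.2 c
      have a2 := low g hg o ho p.1 p.2 c
      rw [Finset.mem_Icc, Int.le_floor, Int.floor_le_iff, le_div_iff₀ (by linarith),
        div_lt_iff₀ (by linarith)]
      push_cast
      constructor <;> linarith
    · simp
  · by_contra ne
    have near : ∀ i k, St (J i) k → |Real.log (ν h i k) - Real.log (ν g i k)| ≤ α / 2 :=
      fun i k hk => by
        have := congrFun e (i, k)
        simp only [φ, if_pos hk] at this
        have b := Int.abs_sub_lt_one_of_floor_eq_floor this.symm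
        rw [← sub_div, abs_div, abs_of_pos (half_pos α0), div_lt_one (half_pos α0),
          sub_sub_sub_cancel_right] at b
        exact b.le
    refine ((hl g hg h hh).2 ne).not_ge ((flC_len_le r g h α0.le).2 fun i => ?_)
    have c : Cl (Real.log ((m + 1) * C) + α / 2) (nm (f h i) (u h i)) (nm (f g i) (u g i)) :=
      fun t => ⟨up g hg h hh (fun i k hk => (abs_le.1 (near i k hk)).2) i t,
        up h hh g hg (fun i k hk => by linarith [(abs_le.1 (near i k hk)).1]) i t⟩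
    exact (((h1 h hh i).2.symm.trans c).trans (h1 g hg i).2).mono (by linarith)
      (Nm.nonneg _) (Nm.nonneg _)

theorem flat_stab (fin : ∀ R, {g | len r g ≤ R}.Finite) {z} (hz : z ∈ Zf r J 1 D) {H : Subgroup Γ}
    (h : ∀ g ∈ H, fa g z = z) : Finite (⁅H, H⁆ : Subgroup Γ) := by
  obtain ⟨f, a, u, h1, h2⟩ := hz
  have mul : ∀ i (g g' : Γ) t, (r i (g * g')).1 *ᵥ t = (r i g).1 *ᵥ ((r i g').1 *ᵥ t) :=
    fun i g g' t => by rw [map_mul, Units.val_mul, mulVec_mulVec]
  have one : ∀ i t, (r i 1).1 *ᵥ t = t := fun i t => by rw [map_one, Units.val_one, one_mulVec]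
  have ex : ∀ g ∈ H, ∀ i k, ∃ ν : ℝ, 0 < ν ∧ ∀ t,
      nm (f i) (a i k) ((r i g).1 *ᵥ t) = ν * nm (f i) (a i k) t := fun g hg i k => by
    have e := h g⁻¹ (H.inv_mem hg)
    rw [h2, fa_cls, inv_inv] at e
    simp only [← nm_mul] at e ⊢
    exact cls_eq r (f' := fun i => f i * (r i g).1)
      (fun i => ⟨(h1 i).1, isUnit_of_cl (h1 i).2⟩)
      (fun i => ⟨(h1 i).1, (isUnit_of_cl (h1 i).2).mul (Units.isUnit _)⟩) e i k
  let K : Subgroup Γ :=
    { carrier := {g | ∀ i k t, nm (f i) (a i k) ((r i g).1 *ᵥ t) = nm (f i) (a i k) t}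
      one_mem' := fun i k t => by rw [one]
      mul_mem' := fun {g g'} p q i k t => by rw [mul, p, q]
      inv_mem' := fun {g} p i k t => by rw [← p, ← mul, mul_inv_cancel, one] }
  have le : ⁅H, H⁆ ≤ K := Subgroup.commutator_le.2 fun g hg g' hg' i k t => by
    obtain ⟨ν, n1, n2⟩ := ex g hg i k
    obtain ⟨ν', n1', n2'⟩ := ex g' hg' i k
    have e := n2' ((r i (g * (g⁻¹ * g'⁻¹))).1 *ᵥ t)
    rw [← mul, mul i g, n2, mul_inv_cancel_left, mul_inv_cancel, one] at e
    rw [commutatorElement_def, mul_assoc, mul_assoc, mul, n2, mul, n2', e]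
    ring
  have m1 : (1 : ℝ) ≤ m + 1 := by linarith [Nat.cast_nonneg (α := ℝ) m]
  have lm : 0 ≤ Real.log (m + 1) := Real.log_nonneg m1
  have D0 := abs_nonneg D
  refine ((fin (|D| + Real.log (m + 1) + |D|)).subset fun g hg => ?_).to_subtype
  have k : g⁻¹ ∈ K := K.inv_mem (le hg)
  have := (flC_len_le r 1 g (R := |D| + Real.log (m + 1) + |D|) (by linarith)).2 fun i => by
    have c : Cl (Real.log (m + 1)) (nm (f i * ((r i g)⁻¹).1) (u i)) (nm (f i) (u i)) := fun t => by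
      rw [Real.exp_log (by linarith)]
      have p := flC_up (f := f i * ((r i g)⁻¹).1) (f' := f i) (h1 i).1 (h1 i).1 zero_le_one
        zero_le_one (fun l _ t => by rw [nm_mul, ← map_inv, k, one_mul]) t
      have q := flC_up (f' := f i * ((r i g)⁻¹).1) (f := f i) (h1 i).1 (h1 i).1 zero_le_one
        zero_le_one (fun l _ t => by rw [nm_mul, ← map_inv, k, one_mul]) t
      simp only [mul_one] at p q
      exact ⟨p, q⟩
    rw [map_one, one_smul]
    exact ((flC_cl (h1 i).2 (r i g)).symm.trans c).trans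
      ((h1 i).2.mono (le_abs_self D) nm_nonneg (Nm.nonneg _))
  simpa using this

end Flats

end Pool.Agent.Lib.MP_5d3e93_al.Lq
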