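import Pool.Agent.Lib.MP_5d3e93_al.Lq.CovA

/-! Long covers of bounded order. -/

open Set Filter Topology

namespace Pool.Agent.Lib.MP_5d3e93_al.Lq

variable {Γ T : Type} [Group Γ] [MulAction Γ T]

variable (Γ) in
/-- The stabiliser of a function. -/
def covS (z : T → ℝ) : Subgroup Γ where
  carrier := {g | fa g z = z}
  one_mem' := cov_one z
  mul_mem' := fun {a b} (x : fa a z = z) (y : fa b z = z) => show fa (a * b) z = z by
    rw [← cov_mul, y, x]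
  inv_mem' := fun {a} (x : fa a z = z) => show fa a⁻¹ z = z by
    conv_lhs => rw [← x]
    rw [cov_mul, inv_mul_cancel, cov_one]

/-- Long covers from neighbourhoods along which the separated sets are small. -/
theorem ex_cov_nhds (len : Γ → ℝ) (l1 : len 1 ≤ 0) (li : ∀ g, len g⁻¹ = len g)
    (lm : ∀ g h, len (g * h) ≤ len g + len h) (lf : ∀ R, {g | len g ≤ R}.Finite)
    {P : Type*} [PseudoMetricSpace P] {A : Set P} (hA : IsCompact A) {Ψ : P → T → ℝ}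
    (hΨ : ∀ t, ∃ L, LipschitzOnWith L (fun q => Ψ q t) A) {n : ℕ} (hn : hct n A = 0)
    {α r : ℝ} (hr : 0 ≤ r) {D : ℕ} (W : P → Set (T → ℝ)) (hW : ∀ p ∈ A, W p ∈ 𝓝 (Ψ p))
    (hD : ∀ q ∈ A, ∀ s : Finset Γ, (∀ k ∈ s, len k ≤ r + α ∧ ∃ p ∈ A, fa k (Ψ q) ∈ W p) →
      (∀ k ∈ s, ∀ k' ∈ s, k ≠ k' → r < len (k' * k⁻¹)) → s.card ≤ D) :
    Nonempty (Cov Γ len (Ψ '' A) α (D * n)) := by
  classical
  have : Countable Γ := by
    refine countable_univ_iff.1 ((countable_iUnion fun k : ℕ => (lf k).countable).mono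
      fun g _ => ?_)
    exact mem_iUnion.2 ⟨⌈len g⌉₊, Nat.le_ceil (len g)⟩
  obtain ⟨m, p, O, T₀, ε, ε₀, hp, hO, sep, cov⟩ := cov_main (B := {g | len g ≤ r}) hA hΨ hn (lf r)
    (l1.trans hr) (fun g h => (li g).trans_le h) W hW
  refine ⟨{
    I := Σ x : Fin n × Fin m, Γ ⧸ covS Γ (Ψ (p x.2))
    mem := fun U g z => ∃ h : Γ, ↑h = U.2 ∧ fa h⁻¹ z ∈ O U.1.1 U.1.2 ∧ len (h⁻¹ * g) ≤ r + α
    smul := ?_, ord := ?_, stab := ?_, long := ⟨T₀, ε, ε₀, ?_⟩ }⟩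
  · rintro h U g z ⟨k, e, a, b⟩
    refine ⟨h * k, congrArg (h • ·) e, ?_, by simpa [mul_assoc] using b⟩
    rw [cov_mul, _root_.mul_inv_rev, inv_mul_cancel_right]
    exact a
  · rintro g z ⟨q, hq, e⟩ s hs
    choose! h h₁ h₂ h₃ using hs
    have e' : ∀ U, fa ((h U)⁻¹ * g) (Ψ q) = fa (h U)⁻¹ z := fun U => by
      rw [e, cov_mul]; simp
    have ke : ∀ U ∈ s, ∀ V ∈ s, U.1.1 = V.1.1 → len ((h V)⁻¹ * h U) ≤ r → U = V := by
      rintro ⟨⟨c, i⟩, U⟩ hU ⟨⟨c', j⟩, V⟩ hV (rfl : c = c') l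
      obtain ⟨rfl, a⟩ := sep c i j _ l _ (h₂ _ hU) (by
        have := h₂ _ hV
        rw [show fa ((h ⟨(c, j), V⟩)⁻¹ * h ⟨(c, i), U⟩) (fa (h ⟨(c, i), U⟩)⁻¹ z) = _ from
          cov_mul .., mul_inv_cancel_right]
        exact this)
      have u := h₁ _ hU
      have v := h₁ _ hV
      exact congrArg (Sigma.mk _) (u.symm.trans ((QuotientGroup.eq.2 a).symm.trans v))
    refine (Finset.card_le_mul_card_image_of_maps_to (f := fun U => U.1.1) (t := Finset.univ)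
      (fun _ _ => Finset.mem_univ _) D fun c _ => ?_).trans (by simp)
    rw [← Finset.card_image_of_injOn (f := fun U => (h U)⁻¹ * g) fun U hU V hV a => ?_]
    · refine hD q hq _ (Finset.forall_mem_image.2 fun U hU => ?_)
        (Finset.forall_mem_image.2 fun U hU => Finset.forall_mem_image.2 fun V hV a => ?_)
      · have u := (Finset.mem_filter.1 hU).1
        exact ⟨h₃ U u, _, hp _, hO _ _ (e' U ▸ h₂ U u)⟩
      · have u := Finset.mem_filter.1 hU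
        have v := Finset.mem_filter.1 hV
        refine lt_of_not_ge fun l => a ?_
        rw [ke U u.1 V v.1 (u.2.trans v.2.symm) (by simpa [mul_assoc] using l)]
    · have u := Finset.mem_filter.1 (Finset.mem_coe.1 hU)
      have v := Finset.mem_filter.1 (Finset.mem_coe.1 hV)
      refine ke U u.1 V v.1 (u.2.trans v.2.symm) ?_
      rw [inv_injective (mul_right_cancel a), inv_mul_cancel]
      exact l1.trans hr
  · rintro ⟨x, U⟩
    obtain ⟨h, rfl⟩ := QuotientGroup.mk_surjective U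
    refine ⟨_, mem_image_of_mem _ (hp x.2), h, fun g e => ?_⟩
    have : ((g * h : Γ) : Γ ⧸ covS Γ (Ψ (p x.2))) = h := eq_of_heq (Sigma.mk.inj e).2
    rw [mul_assoc]
    exact QuotientGroup.eq.1 this.symm
  · rintro _ ⟨q, hq, rfl⟩
    obtain ⟨c, i, g, a, b⟩ := cov q hq
    refine ⟨⟨(c, i), (g⁻¹ : Γ)⟩, fun z hz k hk => ⟨g⁻¹, rfl, ?_, ?_⟩⟩
    · rw [inv_inv]; exact b z hz
    · rw [inv_inv]; exact (lm g k).trans (add_le_add a hk)

theorem cover {Γ T X : Type} [Group Γ] [MulAction Γ T] [MetricSpace X] (len : Γ → ℝ)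
    (l1 : len 1 = 0) (l2 : ∀ g, len g⁻¹ = len g) (l3 : ∀ g h, len (g * h) ≤ len g + len h)
    (l4 : ∀ R, {g | len g ≤ R}.Finite) {A : Set X} (hA : IsCompact A) {n : ℕ} (hn : dimH A < n)
    (Ψ : X → T → ℝ) (hΨ : ∀ t, ∃ L, LipschitzOnWith L (Ψ · t) A) (Z₁ : Set (T → ℝ))
    (nb : ∀ (g : Γ), ∀ p ∈ A, fa g (Ψ p) ∈ Ψ '' A → ∀ᶠ q in 𝓝[A] p, fa g (Ψ q) ∈ Z₁)
    {α : ℝ} (hα : 0 < α) {D : ℕ} (dbl : ∀ z (s : Finset Γ), (∀ g ∈ s, fa g⁻¹ z ∈ Z₁) →
      (∀ g ∈ s, ∀ h ∈ s, len (g⁻¹ * h) ≤ 4 * α ∧ (g ≠ h → α < len (g⁻¹ * h))) → s.card ≤ D) :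
    Nonempty (Cov Γ len (Ψ '' A) α (D * n)) := by
  classical
  have hc : ContinuousOn Ψ A := continuousOn_pi.2 fun t => (hΨ t).elim fun _ h => h.continuousOn
  have nb' : ∀ p ∈ A, ∀ k : Γ, ∀ᶠ z in 𝓝 (Ψ p), ∀ q ∈ A, fa k (Ψ q) = z → z ∈ Z₁ := by
    intro p hp k
    have c := ((hA.diff (isOpen_interior (s := {q | q ∈ A → fa k (Ψ q) ∈ Z₁}))).image_of_continuousOn
      ((cov_cont k).comp_continuousOn (hc.mono sdiff_subset))).isClosed
    filter_upwards [c.isOpen_compl.mem_nhds (x := Ψ p) fun ⟨q, a, b⟩ => a.2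
      (mem_interior_iff_mem_nhds.2 (eventually_nhdsWithin_iff.1 (nb k q a.1 ⟨p, hp, b.symm⟩)))]
      with z hz q hq e
    exact e ▸ interior_subset (by_contra fun b => hz ⟨q, ⟨hq, b⟩, e⟩) hq
  refine ex_cov_nhds len l1.le l2 l3 l4 hA hΨ (hct_of_dimH hn) hα.le
    (fun _ => {z | ∀ k ∈ {g | len g ≤ α + α}, ∀ q ∈ A, fa k (Ψ q) = z → z ∈ Z₁})
    (fun p hp => (eventually_all_finite (l4 _)).2 fun k _ => nb' p hp k) fun q hq s a b => ?_
  rw [← Finset.card_image_of_injective s inv_injective]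
  refine dbl (Ψ q) _ (Finset.forall_mem_image.2 fun k hk => ?_)
    (Finset.forall_mem_image.2 fun k hk => Finset.forall_mem_image.2 fun k' hk' => ⟨?_, fun e => ?_⟩)
  · obtain ⟨c, p, -, d⟩ := a k hk
    rw [inv_inv]
    exact d k c q hq rfl
  · linarith [l3 k⁻¹⁻¹ k'⁻¹, l2 k⁻¹, l2 k, l2 k', (a k hk).1, (a k' hk').1]
  · rw [inv_inv]
    exact b k' hk' k hk fun x => e (by rw [x])

end Pool.Agent.Lib.MP_5d3e93_al.Lq
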