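import Pool.Agent.Lib.MP_5d3e93_al.Lq.Def2
import Pool.Agent.Lib.MP_5d3e93_al.Lq.Ag

/-! Flats: lengths, classes, the compact space of parameters. -/

open Matrix Set Filter Topology MulAction MeasureTheory

namespace Pool.Agent.Lib.MP_5d3e93_al.Lq

universe w w'

section BL
variable {X : Type*} [PseudoMetricSpace X] {A : Set X} {φ ψ : X → ℝ}

variable (A φ) in
/-- Lipschitz functions on a set. -/
def flaL : Prop := ∃ L : ℝ, 0 ≤ L ∧ ∀ p ∈ A, ∀ q ∈ A, |φ p - φ q| ≤ L * dist p q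

theorem flaL.bd (hA : Bornology.IsBounded A) (h : flaL A φ) :
    ∃ B, 0 ≤ B ∧ ∀ p ∈ A, |φ p| ≤ B := by
  obtain ⟨L, l, h⟩ := h
  obtain ⟨C, c⟩ := Metric.isBounded_iff.1 hA
  rcases A.eq_empty_or_nonempty with rfl | ⟨q, hq⟩
  · exact ⟨0, le_rfl, fun _ a => a.elim⟩
  refine ⟨|φ q| + L * |C|, by positivity, fun p hp => ?_⟩
  have := h p hp q hq
  have := mul_le_mul_of_nonneg_left ((c hp hq).trans (le_abs_self C)) l
  have := abs_sub_abs_le_abs_sub (φ p) (φ q)
  linarith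

theorem flaL.mul (hA : Bornology.IsBounded A) (h : flaL A φ) (k : flaL A ψ) :
    flaL A fun p => φ p * ψ p := by
  obtain ⟨B, b, hB⟩ := h.bd hA
  obtain ⟨B', b', hB'⟩ := k.bd hA
  obtain ⟨L, l, h⟩ := h
  obtain ⟨L', l', k⟩ := k
  refine ⟨B * L' + L * B', by positivity, fun p hp q hq => ?_⟩
  have e : φ p * ψ p - φ q * ψ q = φ p * (ψ p - ψ q) + (φ p - φ q) * ψ q := by ring
  have a := mul_le_mul (hB p hp) (k p hp q hq) (abs_nonneg _) b
  have c := mul_le_mul (h p hp q hq) (hB' q hq) (abs_nonneg _) (mul_nonneg l dist_nonneg)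
  rw [e]
  refine (abs_add_le ..).trans ?_
  rw [abs_mul, abs_mul]
  linarith

theorem flaL.of_sum {I : Type*} [Fintype I] {f : I → X → ℝ} (h : ∀ i, flaL A (f i))
    (k : ∀ p q, |φ p - φ q| ≤ ∑ i, |f i p - f i q|) : flaL A φ := by
  choose L l h using h
  refine ⟨∑ i, L i, Finset.sum_nonneg fun i _ => l i, fun p hp q hq => (k p q).trans ?_⟩
  rw [Finset.sum_mul]
  exact Finset.sum_le_sum fun i _ => h i p hp q hq

theorem flaL.inv (h : flaL A φ) {c : ℝ} (hc : 0 < c) (k : ∀ p ∈ A, c ≤ φ p) :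
    flaL A fun p => (φ p)⁻¹ := by
  obtain ⟨L, l, h⟩ := h
  refine ⟨L / (c * c), by positivity, fun p hp q hq => ?_⟩
  have a := hc.trans_le (k p hp)
  have b := hc.trans_le (k q hq)
  rw [inv_sub_inv a.ne' b.ne', abs_div, abs_sub_comm, abs_of_pos (mul_pos a b), div_mul_eq_mul_div]
  exact div_le_div₀ (mul_nonneg l dist_nonneg) (h p hp q hq) (mul_pos hc hc)
    (mul_le_mul (k p hp) (k q hq) hc.le a.le)

theorem fla_ag {e : Bool} {M : ℕ} (u u' : Fin M → ℝ) : |ag e u - ag e u'| ≤ ∑ k, |u k - u' k| := by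
  have k (u u' : Fin M → ℝ) : ag e u - ag e u' ≤ ∑ k, |u k - u' k| := by
    have := ag_add (e := e) u' fun k => u k - u' k
    simp only [add_sub_cancel] at this
    linarith [ag_le e fun k => u k - u' k]
  exact abs_sub_le_iff.2 ⟨k u u', (k u' u).trans_eq (by simp only [abs_sub_comm])⟩

theorem fla_div {c B ε : ℝ} (hc : 0 < c) (hB : 0 ≤ B) (hε : 0 < ε) : ∃ δ, 0 < δ ∧ ∀ n n' d d' : ℝ,
    c ≤ d → |n| ≤ B → |n' - n| ≤ δ * B → |d' - d| ≤ δ * B → |n' / d' - n / d| < ε := by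
  obtain ⟨η, h0, h1, h2⟩ : ∃ η, 0 < η ∧ η ≤ c / 2 ∧ η * (2 / c + 2 * B / (c * c)) < ε := by
    have p : 0 < 2 / c + 2 * B / (c * c) := by positivity
    refine ⟨min (c / 2) (ε / 2 / (2 / c + 2 * B / (c * c))), by positivity, min_le_left ..,
      (mul_le_mul_of_nonneg_right (min_le_right ..) p.le).trans_lt ?_⟩
    rw [div_mul_cancel₀ _ p.ne']
    linarith
  refine ⟨η / (B + 1), by positivity, fun n n' d d' a b k k' => ?_⟩
  have e : η / (B + 1) * B ≤ η := by
    rw [div_mul_eq_mul_div, div_le_iff₀ (by positivity)]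
    nlinarith
  have k1 := k.trans e
  have k2 := k'.trans e
  have d1 : c / 2 ≤ d' := by linarith [(abs_le.1 k2).1]
  have d0 : 0 < d := hc.trans_le a
  have d2 : 0 < d' := (half_pos hc).trans_le d1
  have f : n' / d' - n / d = (n' - n) / d' + n * (d - d') / (d * d') := by field_simp; ring
  rw [f]
  refine (abs_add_le ..).trans_lt (lt_of_le_of_lt ?_ h2)
  rw [abs_div, abs_div, abs_mul, abs_of_pos d2, abs_of_pos (mul_pos d0 d2), abs_sub_comm d]
  have g1 : |n' - n| / d' ≤ η / (c / 2) := div_le_div₀ h0.le k1 (half_pos hc) d1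
  have g2 : |n| * |d' - d| / (d * d') ≤ B * η / (c * (c / 2)) :=
    div_le_div₀ (by positivity) (mul_le_mul b k2 (abs_nonneg _) hB) (by positivity)
      (mul_le_mul a d1 (half_pos hc).le d0.le)
  refine (add_le_add g1 g2).trans_eq ?_
  field_simp
end BL

theorem fla_std {P : Pl} {M : ℕ} (t : Fin M → P.K) (k : Fin M) : ‖t k‖ ≤ (Nm.std P M).1 t := by
  simpa [Nm.std] using le_nm (f := (1 : Matrix (Fin M) (Fin M) P.K)) (a := fun _ => 1) k t

theorem fla_zero {P : Pl} {M : ℕ} (f : Matrix (Fin M) (Fin M) P.K) {a : Fin M → ℝ}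
    (h : ∀ k, a k = 0) (t) : nm f a t = 0 :=
  le_antisymm ((ag_le ..).trans_eq (by simp [h])) (nm_nonneg t)

section Flats
variable {m : ℕ} {ι : Type} [Fintype ι] {v : ι → Pl} {Γ : Type} [Group Γ]
  (r : ∀ i, Γ →* GL (Fin (m + 1)) (v i).K) {J : ι → Finset (Fin m)} {C D κ : ℝ}

theorem len_one : len r 1 = 0 := by simp [len]

theorem xr_dist (g : Γ) (x y : Xr r) : dist (g • x) (g • y) = dist x y :=
  le_antisymm ((dist_pi_le_iff dist_nonneg).2 fun i =>
      (Nm.dist_smul (r i g) (x i) (y i)).trans_le (dist_le_pi_dist x y i))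
    ((dist_pi_le_iff dist_nonneg).2 fun i => (Nm.dist_smul (r i g) (x i) (y i)).symm.trans_le
      (dist_le_pi_dist (g • x : Xr r) (g • y : Xr r) i))

theorem len_inv (g) : len r g⁻¹ = len r g := by
  rw [len, len, ← xr_dist r g, smul_inv_smul, dist_comm]

theorem len_mul (g h) : len r (g * h) ≤ len r g + len r h := by
  rw [len, len, len, mul_smul, ← xr_dist r g (h • _), add_comm]
  exact dist_triangle ..

omit [Fintype ι] in
theorem fa_cls (g : Γ) (s : ∀ i, Fin (m + 1) → (Fin (m + 1) → (v i).K) → ℝ) :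
    fa g (cls r s) = cls r fun i k t => s i k ((r i g⁻¹).1 *ᵥ t) := by
  funext c
  change s c.1 c.2.1 ((r c.1 g⁻¹).1 *ᵥ c.2.2.2) /
    ∑ k, s c.1 c.2.1 ((r c.1 (g⁻¹ * c.2.2.1)).1 *ᵥ Pi.single k 1) = _
  simp only [cls, map_mul, Units.val_mul, mulVec_mulVec]

omit [Fintype ι] in
theorem cls_mul {s s' : ∀ i, Fin (m + 1) → (Fin (m + 1) → (v i).K) → ℝ}
    (h : ∀ i k, ∃ ν : ℝ, 0 < ν ∧ ∀ t, s' i k t = ν * s i k t) : cls r s' = cls r s := by
  funext c
  obtain ⟨ν, p, h⟩ := h c.1 c.2.1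
  simp only [cls, h, ← Finset.mul_sum, mul_div_mul_left _ _ p.ne']

variable (v) in
theorem kappa : ∃ κ : ℝ, ∀ i (a : ℝ), 0 < a → ∃ c : (v i).K, c ≠ 0 ∧ 1 ≤ a / ‖c‖ ∧ a / ‖c‖ ≤ κ := by
  choose c hc using fun i => NormedField.exists_one_lt_norm (v i).K
  refine ⟨∑ i, ‖c i‖, fun i a ha => ?_⟩
  obtain ⟨n, h1, h2⟩ := exists_mem_Ico_zpow ha (hc i)
  have p : 0 < ‖c i‖ := one_pos.trans (hc i)
  have q : 0 < ‖c i‖ ^ n := zpow_pos p n
  refine ⟨c i ^ n, zpow_ne_zero _ (norm_pos_iff.1 p), ?_, le_trans ?_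
    (Finset.single_le_sum (fun j _ => norm_nonneg (c j)) (Finset.mem_univ i))⟩
  · rw [norm_zpow]; exact (one_le_div q).2 h1
  · rw [norm_zpow, div_le_iff₀ q, mul_comm, ← zpow_add_one₀ p.ne']; exact h2.le

theorem pp_compact : IsCompact (Pp v J κ D) := by
  refine isCompact_pi_infinite (s := fun i => {p : (Fin (m + 1) → Fin (m + 1) → (v i).K) ×
    (Fin (m + 1) → Fin (m + 1) → ℝ) × (Fin (m + 1) → ℝ) | Ad (J i) 1 p.2.1 p.2.2 ∧
      (∀ k, 1 ≤ p.2.2 k ∧ p.2.2 k ≤ κ) ∧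
      Cl D (nm (Matrix.of p.1) p.2.2) (Nm.std (v i) (m + 1)).1}) fun i => ?_
  refine Metric.isCompact_of_isClosed_isBounded ?_ (isBounded_iff_forall_norm_le.2
    ⟨Real.exp D + |κ|, fun p ⟨a, b, c⟩ => ?_⟩)
  · have cn (t) : Continuous fun p : (Fin (m + 1) → Fin (m + 1) → (v i).K) ×
        (Fin (m + 1) → Fin (m + 1) → ℝ) × (Fin (m + 1) → ℝ) => nm (Matrix.of p.1) p.2.2 t :=
      continuous_ag.comp (continuous_pi fun k => by
        simp only [mulVec, dotProduct, of_apply]; fun_prop)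
    have e : {p : (Fin (m + 1) → Fin (m + 1) → (v i).K) ×
        (Fin (m + 1) → Fin (m + 1) → ℝ) × (Fin (m + 1) → ℝ) | Ad (J i) 1 p.2.1 p.2.2 ∧
        (∀ k, 1 ≤ p.2.2 k ∧ p.2.2 k ≤ κ) ∧
        Cl D (nm (Matrix.of p.1) p.2.2) (Nm.std (v i) (m + 1)).1} =
        {p | (∀ j k, k < j ∨ ¬ St (J i) j → p.2.1 j k = 0) ∧ (∀ j k, 0 ≤ p.2.1 j k) ∧
          (∀ j k, p.2.1 j k ≤ 1 * p.2.2 k) ∧ (∀ j k, St (J i) j → j ≤ k →
            (∀ l, St (J i) l → l ≤ k → l ≤ j) → p.2.1 j k = p.2.2 k) ∧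
          (∀ k, 1 ≤ p.2.2 k ∧ p.2.2 k ≤ κ) ∧ ∀ t,
            nm (Matrix.of p.1) p.2.2 t ≤ Real.exp D * (Nm.std (v i) (m + 1)).1 t ∧
            (Nm.std (v i) (m + 1)).1 t ≤ Real.exp D * nm (Matrix.of p.1) p.2.2 t} :=
      Set.ext fun p => ⟨fun ⟨a, b, c⟩ => ⟨a.zero, a.nn, a.le, a.eq, b, c⟩,
        fun ⟨a, b, c, d, f, g⟩ => ⟨⟨fun k => one_pos.trans_le (f k).1, a, b, c, d⟩, f, g⟩⟩
    rw [e]
    simp only [ofPred_and, ofPred_forall]
    refine IsClosed.inter ?_ (IsClosed.inter ?_ (IsClosed.inter ?_ (IsClosed.inter ?_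
      (IsClosed.inter ?_ ?_))))
    · exact isClosed_iInter fun _ => isClosed_iInter fun _ => isClosed_iInter fun _ =>
        isClosed_eq (by fun_prop) (by fun_prop)
    · exact isClosed_iInter fun _ => isClosed_iInter fun _ =>
        isClosed_le (by fun_prop) (by fun_prop)
    · exact isClosed_iInter fun _ => isClosed_iInter fun _ =>
        isClosed_le (by fun_prop) (by fun_prop)
    · exact isClosed_iInter fun _ => isClosed_iInter fun _ => isClosed_iInter fun _ =>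
        isClosed_iInter fun _ => isClosed_iInter fun _ => isClosed_eq (by fun_prop) (by fun_prop)
    · exact isClosed_iInter fun _ => (isClosed_le (by fun_prop) (by fun_prop)).inter
        (isClosed_le (by fun_prop) (by fun_prop))
    · exact isClosed_iInter fun t => (isClosed_le (cn t) continuous_const).inter
        (isClosed_le continuous_const (continuous_const.mul (cn t)))
  · have p0 : 0 ≤ Real.exp D + |κ| := by positivity
    have u (k) : p.2.2 k ≤ Real.exp D + |κ| := by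
      linarith [(b k).2, le_abs_self κ, Real.exp_pos D]
    refine norm_prod_le_iff.2 ⟨(pi_norm_le_iff_of_nonneg p0).2 fun k =>
      (pi_norm_le_iff_of_nonneg p0).2 fun l => ?_, norm_prod_le_iff.2
      ⟨(pi_norm_le_iff_of_nonneg p0).2 fun j => (pi_norm_le_iff_of_nonneg p0).2 fun k => ?_,
        (pi_norm_le_iff_of_nonneg p0).2 fun k => ?_⟩⟩
    · have h1 := le_nm (f := Matrix.of p.1) (a := p.2.2) k (Pi.single l 1)
      have h2 := (c (Pi.single l 1)).1
      have h3 : (Nm.std (v i) (m + 1)).1 (Pi.single l 1) = 1 :=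
        nm_single (a := fun _ => 1) l zero_le_one (one_mulVec _)
      have h4 := le_mul_of_one_le_left (norm_nonneg (p.1 k l)) (b k).1
      simp only [mulVec_single_one, col_apply, of_apply] at h1
      rw [h3] at h2
      linarith [abs_nonneg κ]
    · rw [Real.norm_of_nonneg (a.nn j k)]
      linarith [a.le j k, u k]
    · rw [Real.norm_of_nonneg (a.pos k).le]
      exact u k

omit [Fintype ι] in
/-- Scale the rows of `f`. -/
theorem psi_pp (h : ∀ i (a : ℝ), 0 < a → ∃ c : (v i).K, c ≠ 0 ∧ 1 ≤ a / ‖c‖ ∧ a / ‖c‖ ≤ κ) :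
    psi r '' Pp v J κ D = Zf r J 1 D := by
  refine Subset.antisymm ?_ ?_
  · rintro _ ⟨p, hp, rfl⟩
    exact ⟨fun i => Matrix.of (p i).1, fun i => (p i).2.1, fun i => (p i).2.2,
      fun i => ⟨(hp i).1, (hp i).2.2⟩, rfl⟩
  rintro _ ⟨f, w, u, a, rfl⟩
  choose c c0 c1 c2 using fun i k => h i (u i k) ((a i).1.pos k)
  have cp (i k) : 0 < ‖c i k‖ := norm_pos_iff.2 (c0 i k)
  have e (i) (b : Fin (m + 1) → ℝ) :
      nm (Matrix.of fun k l => c i k * f i k l) (fun k => b k / ‖c i k‖) = nm (f i) b := by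
    funext t
    refine congrArg (ag _) (funext fun k => ?_)
    have : ((Matrix.of fun k l => c i k * f i k l) *ᵥ t) k = c i k * (f i *ᵥ t) k := by
      simp only [mulVec, dotProduct, of_apply, Finset.mul_sum, mul_assoc]
    rw [this, norm_mul, ← mul_assoc, div_mul_cancel₀ _ (cp i k).ne']
  refine ⟨fun i => (fun k l => c i k * f i k l, fun j k => w i j k / ‖c i k‖,
    fun k => u i k / ‖c i k‖), fun i => ⟨⟨fun k => div_pos ((a i).1.pos k) (cp i k),
      fun j k b => ?_, fun j k => div_nonneg ((a i).1.nn j k) (cp i k).le, fun j k => ?_,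
      fun j k b d g => ?_⟩, fun k => ⟨c1 i k, c2 i k⟩, (e i (u i)).symm ▸ (a i).2⟩,
    congrArg (cls r) (funext fun i => funext fun k => e i (w i k))⟩
  · simp only [(a i).1.zero j k b, zero_div]
  · simpa only [one_mul] using div_le_div_of_nonneg_right ((a i).1.le j k) (cp i k).le
  · simp only [(a i).1.eq j k b d g]

/-- A lower bound for the denominators. -/
theorem den_lb (i : ι) (g : Γ) (D : ℝ) : ∃ c, 0 < c ∧
    ∀ (J : Finset (Fin m)) C (f : Matrix _ _ (v i).K) w u k, Ad J C w u →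
      Cl D (nm f u) (Nm.std (v i) (m + 1)).1 → St J k →
      c ≤ ∑ l, nm f (w k) ((r i g).1 *ᵥ Pi.single l 1) := by
  set B := ∑ l, ∑ j, ‖((r i g)⁻¹).1 l j‖ with hB
  have B0 : 0 ≤ B := by positivity
  refine ⟨((B + 1) * Real.exp D)⁻¹, by positivity, fun J C f w u k a c s => ?_⟩
  obtain ⟨f, rfl⟩ := isUnit_of_cl c
  obtain ⟨t, ht⟩ : ∃ t, f.1 *ᵥ t = Pi.single k 1 :=
    ⟨(f⁻¹).1 *ᵥ Pi.single k 1, by rw [mulVec_mulVec, Units.mul_inv, one_mulVec]⟩
  have h1 : nm f.1 (w k) t = u k :=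
    (nm_single k (a.nn k k) ht).trans (a.eq k k s le_rfl fun _ _ b => b)
  have h2 (j) : ‖t j‖ ≤ Real.exp D * u k :=
    (fla_std t j).trans ((c t).2.trans_eq (by rw [nm_single k (a.pos k).le ht]))
  have up := a.pos k
  have h3 (l) : ‖(((r i g)⁻¹).1 *ᵥ t) l‖ ≤ (B + 1) * Real.exp D * u k := by
    change ‖∑ j, ((r i g)⁻¹).1 l j * t j‖ ≤ _
    refine (norm_sum_le ..).trans ((Finset.sum_le_sum fun j _ => (norm_mul ..).trans_le
      (mul_le_mul_of_nonneg_left (h2 j) (norm_nonneg _))).trans ?_)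
    rw [← Finset.sum_mul, mul_assoc]
    refine mul_le_mul_of_nonneg_right ?_ (by positivity)
    exact (Finset.single_le_sum (f := fun l => ∑ j, ‖((r i g)⁻¹).1 l j‖)
      (fun _ _ => by positivity) (Finset.mem_univ l)).trans (by linarith)
  have h4 : t = ∑ l, (((r i g)⁻¹).1 *ᵥ t) l • ((r i g).1 *ᵥ Pi.single l 1) := by
    simp only [← mulVec_smul, ← mulVec_sum, ← Pi.single_smul', smul_eq_mul, mul_one,
      Finset.univ_sum_single, mulVec_mulVec, Units.mul_inv, one_mulVec]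
  have h5 : u k ≤ (B + 1) * Real.exp D * u k *
      ∑ l, nm f.1 (w k) ((r i g).1 *ᵥ Pi.single l 1) := by
    refine h1.symm.trans_le ?_
    rw [Finset.mul_sum]
    refine (congrArg (nm f.1 (w k)) h4).trans_le ((nm_sum (a.nn k) ..).trans
      (Finset.sum_le_sum fun l _ => ?_))
    rw [nm_smul]
    exact mul_le_mul_of_nonneg_right (h3 l) (nm_nonneg _)
  rw [inv_le_iff_one_le_mul₀' (by positivity)]
  refine le_of_mul_le_mul_right ?_ up
  linarith

theorem fla_nm (i : ι) (k : Fin (m + 1)) (t) :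
    flaL (Pp v J κ D) fun p => nm (Matrix.of (p i).1) ((p i).2.1 k) t := by
  refine flaL.of_sum (f := fun l p => (p i).2.1 k l * ‖(Matrix.of (p i).1 *ᵥ t) l‖)
    (fun l => flaL.mul pp_compact.isBounded ⟨1, zero_le_one, fun p _ q _ => ?_⟩
      ⟨∑ j, ‖t j‖, by positivity, fun p _ q _ => ?_⟩) fun p q => fla_ag ..
  · rw [one_mul, ← Real.dist_eq]
    exact (dist_le_pi_dist ((p i).2.1 k) ((q i).2.1 k) l).trans
      ((dist_le_pi_dist (p i).2.1 (q i).2.1 k).trans ((le_max_left ..).trans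
        ((le_max_right ..).trans (dist_le_pi_dist p q i))))
  · refine (abs_norm_sub_norm_le ..).trans ?_
    simp only [mulVec, dotProduct, of_apply, ← Finset.sum_sub_distrib, ← sub_mul]
    rw [Finset.sum_mul]
    refine (norm_sum_le ..).trans (Finset.sum_le_sum fun j _ => ?_)
    rw [norm_mul, mul_comm, ← dist_eq_norm]
    exact mul_le_mul_of_nonneg_left ((dist_le_pi_dist ((p i).1 l) ((q i).1 l) j).trans
      ((dist_le_pi_dist (p i).1 (q i).1 l).trans ((le_max_left ..).trans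
        (dist_le_pi_dist p q i)))) (norm_nonneg _)

theorem psi_lip (t : Tc r) : ∃ L, LipschitzOnWith L (psi r · t) (Pp v J κ D) := by
  obtain ⟨i, k, g, t⟩ := t
  by_cases s : St (J i) k
  · obtain ⟨c, c0, hc⟩ := den_lb r i g D
    obtain ⟨L, -, h⟩ := (fla_nm (J := J) (κ := κ) (D := D) i k t).mul pp_compact.isBounded
      ((flaL.of_sum (fun l => fla_nm i k ((r i g).1 *ᵥ Pi.single l 1)) fun p q => by
        rw [← Finset.sum_sub_distrib]; exact Finset.abs_sum_le_sum_abs ..).inv c0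
        fun p hp => hc _ _ _ _ _ k (hp i).1 (hp i).2.2 s)
    exact ⟨_, .of_dist_le' fun p hp q hq => by
      simpa only [psi, cls, Real.dist_eq, div_eq_mul_inv] using h p hp q hq⟩
  · refine ⟨0, .of_dist_le_mul fun p hp q hq => ?_⟩
    simp [psi, cls, fla_zero _ fun l => (hp i).1.zero k l (.inr s),
      fla_zero _ fun l => (hq i).1.zero k l (.inr s)]

theorem cls_near (D : ℝ) (T₀ : Finset (Tc r)) {ε : ℝ} (hε : 0 < ε) : ∃ ε', 0 < ε' ∧
    ∀ (J : ι → Finset (Fin m)) (f : ∀ i, Matrix _ _ (v i).K) (w u : ι → _)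
      (s' : ∀ i, Fin (m + 1) → (Fin (m + 1) → (v i).K) → ℝ),
      (∀ i, Ad (J i) 1 (w i) (u i) ∧ Cl D (nm (f i) (u i)) (Nm.std (v i) (m + 1)).1) →
      (∀ i k, ¬ St (J i) k → s' i k = 0) →
      (∀ i k t, |s' i k t - nm (f i) (w i k) t| ≤ ε' * nm (f i) (u i) t) →
      ∀ t ∈ T₀, |cls r s' t - cls r (fun i k => nm (f i) (w i k)) t| < ε := by
  choose c c0 hc using fun t : Tc r => den_lb r t.1 t.2.2.1 D
  have n0 (i t) : 0 ≤ Real.exp D * (Nm.std (v i) (m + 1)).1 t :=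
    mul_nonneg (Real.exp_pos D).le (Nm.nonneg ..)
  choose δ δ0 hδ using fun t : Tc r => fla_div (c0 t) (add_nonneg (n0 t.1 t.2.2.2)
    (Finset.sum_nonneg (s := Finset.univ) fun l _ =>
      n0 t.1 ((r t.1 t.2.2.1).1 *ᵥ Pi.single l 1))) hε
  obtain ⟨ε', h1, h0⟩ := (((eventually_all_finset T₀).2 fun t _ =>
    mem_of_superset (Ioc_mem_nhdsGT (δ0 t)) fun _ a => a.2).and self_mem_nhdsWithin).exists
  refine ⟨ε', h0, fun J f w u s' a z h t ht => ?_⟩
  have h1 := h1 t ht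
  obtain ⟨i, k, g, t⟩ := t
  by_cases s : St (J i) k
  · have b (t) : |s' i k t - nm (f i) (w i k) t| ≤
        δ ⟨i, k, g, _⟩ * (Real.exp D * (Nm.std (v i) (m + 1)).1 t) :=
      (h i k t).trans (mul_le_mul h1 ((a i).2 t).1 (nm_nonneg t) (δ0 _).le)
    have S0 := Finset.sum_nonneg (s := Finset.univ) fun l _ => n0 i ((r i g).1 *ᵥ Pi.single l 1)
    refine hδ ⟨i, k, g, t⟩ _ _ _ _ (hc ⟨i, k, g, t⟩ _ _ _ _ _ k (a i).1 (a i).2 s) ?_
      ((b t).trans (mul_le_mul_of_nonneg_left (le_add_of_nonneg_right S0) (δ0 _).le)) ?_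
    · rw [abs_of_nonneg (nm_nonneg _)]
      refine (nm_le ((a i).1.nn k) zero_le_one fun l _ => (a i).1.le k l).trans ?_
      rw [one_mul]
      exact ((a i).2 t).1.trans (le_add_of_nonneg_right S0)
    · rw [← Finset.sum_sub_distrib]
      refine (Finset.abs_sum_le_sum_abs ..).trans ((Finset.sum_le_sum fun l _ => b _).trans ?_)
      rw [← Finset.mul_sum]
      exact mul_le_mul_of_nonneg_left (le_add_of_nonneg_left (n0 i t)) (δ0 _).le
  · simpa [cls, z i k s, fla_zero _ fun l => (a i).1.zero k l (.inr s)] using hε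
end Flats

end Pool.Agent.Lib.MP_5d3e93_al.Lq
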