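import Pool.Agent.Lib.MP_5d3e93_al.Lq.Dim
import Pool.Agent.Lib.MP_5d3e93_al.Lq.Cov
import Pool.Agent.Lib.MP_5d3e93_al.Lq.FlA
import Pool.Agent.Lib.MP_5d3e93_al.Lq.FlB
import Pool.Agent.Lib.MP_5d3e93_al.Lq.FlC

/-! Long covers of the space of flats. -/

open Matrix Set

namespace Pool.Agent.Lib.MP_5d3e93_al.Lq

theorem Cov.mono {Γ T : Type} [Group Γ] [MulAction Γ T] {len : Γ → ℝ} {Z : Set (T → ℝ)} {α β : ℝ}
    {n : ℕ} (U : Cov Γ len Z β n) (h : α ≤ β) : Nonempty (Cov Γ len Z α n) :=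
  letI := U.act
  ⟨⟨U.I, U.mem, U.smul, U.ord, U.stab,
    let ⟨T₀, ε, hε, k⟩ := U.long
    ⟨T₀, ε, hε, fun z hz => (k z hz).imp fun _ k z' a g b => k z' a g (b.trans h)⟩⟩⟩

variable {m : ℕ} {ι : Type} [Fintype ι] {v : ι → Pl} {Γ : Type} [Group Γ]
  (r : ∀ i, Γ →* GL (Fin (m + 1)) (v i).K) {J : ι → Finset (Fin m)} {C D κ : ℝ}

theorem flats_cov (fin : ∀ R, {g | len r g ≤ R}.Finite) : ∃ n : ℕ,
    ∀ (J : ι → Finset (Fin m)) D α, Nonempty (Cov Γ (len r) (Zf r J 1 D) α n) := by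
  obtain ⟨κ, hκ⟩ := kappa v
  have hG : Gd (Pm m v) := Gd.pi fun i =>
    (Gd.pi fun _ => Gd.pi fun _ => gd_field (v i).K).prod
      ((Gd.pi fun _ => Gd.pi fun _ => gd_field ℝ).prod (Gd.pi fun _ => gd_field ℝ))
  obtain ⟨n, hn⟩ := hG.dim
  obtain ⟨N, hN⟩ := flat_dbl r
  refine ⟨N * n, fun J D α => ?_⟩
  obtain ⟨α₀, h₀⟩ := hN J 2 (D + m + 2) one_le_two
  have hA : IsCompact (Pp v J κ D) := pp_compact
  obtain ⟨U⟩ := cover (len r) (len_one r) (len_inv r) (len_mul r) fin hA (hn _ hA.isBounded)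
    (psi r) (psi_lip r) (Zf r J 2 (D + m + 2))
    (fun g p hp h => flat_nb r g hp (psi_pp r hκ ▸ h))
    (lt_max_of_lt_right one_pos : 0 < max (max α α₀) 1)
    (h₀ _ (le_max_of_le_left (le_max_right _ _)))
  rw [psi_pp r hκ] at U
  exact U.mono (le_max_of_le_left (le_max_left _ _))

end Pool.Agent.Lib.MP_5d3e93_al.Lq
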