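import Pool.Agent.Lib.MP_5d3e93_al.Lq.Defs
import Pool.Agent.Lib.MP_5d3e93_al.GQ.Key
import Pool.Agent.Lib.MP_5d3e93_al.GQ.Spl

/-! The key estimate for data of two norms. -/

open Matrix Set

namespace Pool.Agent.Lib.MP_5d3e93_al.Lq

variable {P : Pl} {M m : ℕ}

theorem ab_congr {N N' : (Fin M → ℝ) → ℝ} (hN : GQ.Ab N) (h : ∀ x, 0 ≤ x → N' x = N x) :
    GQ.Ab N' where
  mono a b := by
    rw [h _ a, h _ (a.trans b)]
    exact hN.mono a b
  add a b := by
    rw [h _ a, h _ b, h _ (add_nonneg a b)]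
    exact hN.add a b
  smul a b := by
    rw [h _ b, h _ fun k => mul_nonneg a (b k)]
    exact hN.smul a b
  single k c a := (h _ (Pi.single_nonneg.2 a)).trans (hN.single k a)
  swap X a := by
    have e1 : (fun k => N' fun i => X i k) = fun k => N fun i => X i k :=
      funext fun k => h _ (a · k)
    have e2 : (fun i => N' (X i)) = fun i => N (X i) := funext fun i => h _ (a i)
    rw [e1, e2, h _ fun k => hN.nonneg (a · k), h _ fun i => hN.nonneg (a i)]
    exact hN.swap X a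
  step Θ a b := by
    obtain ⟨c, c0, c1, e, z⟩ := hN.step Θ a b
    exact ⟨c, c0, c1, fun k => (h _ fun i => by
      dsimp only
      split_ifs
      exacts [c0 i, le_rfl]).trans (e k), z⟩

theorem ab_ag (e : Bool) : GQ.Ab (ag e (M := M)) := by
  cases e
  · refine ab_congr GQ.ab_sup fun x h => le_antisymm ?_ ?_
    · exact (pi_norm_le_iff_of_nonneg (Real.iSup_nonneg h)).2 fun i =>
        (Real.norm_of_nonneg (h i)).trans_le (le_ciSup (Finite.bddAbove_range x) i)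
    · exact Real.iSup_le (fun i => (le_abs_self _).trans (norm_le_pi_norm x i)) (norm_nonneg x)
  · exact GQ.ab_l2

/-- An invertible matrix as a linear equivalence. -/
noncomputable def fe {f : Matrix (Fin M) (Fin M) P.K} (h : IsUnit f) :
    (Fin M → P.K) ≃ₗ[P.K] (Fin M → P.K) := f.toLinearEquiv' h.invertible

theorem nm_eq {f : Matrix (Fin M) (Fin M) P.K} (h : IsUnit f) (a : Fin M → ℝ) :
    nm f a = GQ.nm (ag P.e) (fe h) a := rfl

theorem ct_eq (i : Fin M) (b : Fin M → ℝ) : ct i b = GQ.cut i b := by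
  funext k
  unfold ct GQ.cut
  congr

namespace Dt

variable (D D₁ : Dt P m) {d δ σ : ℝ} {Θ : Fin (m + 1) → ℝ}

theorem exp_lam (k : Fin (m + 1)) : Real.exp (D.lam k) = D.b k / D.a k :=
  Real.exp_log (div_pos (D.hb k) (D.ha k))

theorem b_eq (k : Fin (m + 1)) : D.b k = Real.exp (D.lam k) * D.a k := by
  rw [exp_lam, div_mul_cancel₀ _ (D.ha k).ne']

theorem lam_anti : Antitone D.lam := D.anti

theorem gam_nn (l : Fin m) : 0 ≤ D.gam l := sub_nonneg.2 (D.lam_anti l.castSucc_lt_succ.le)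

theorem div_anti : Antitone fun k => D.b k / D.a k := fun j k h => by
  simp only [← exp_lam]
  exact Real.exp_le_exp.2 (D.lam_anti h)

theorem lam_le (hx : ∀ t, D.x.1 t ≤ Real.exp d * D₁.x.1 t)
    (hξ : ∀ t, D₁.ξ.1 t ≤ Real.exp δ * D.ξ.1 t) (k : Fin (m + 1)) :
    D₁.lam k ≤ d + δ + D.lam k := by
  have hN := ab_ag (M := m + 1) P.e
  have := GQ.minmax (ag P.e) (fun _ _ => hN.mono) (fun _ _ => hN.smul) (fun x a b => by
    obtain ⟨j, c⟩ := Function.ne_iff.1 b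
    exact ((a j).lt_of_ne' c).trans_le (hN.le a j)) (fe D.unit) (fe D₁.unit) D.ha D.hb D₁.ha D₁.hb
    D.div_anti D₁.div_anti (Real.exp_pos δ).le hx hξ k
  rwa [← exp_lam, ← exp_lam, ← Real.exp_add, ← Real.exp_add, Real.exp_le_exp] at this

/-- The relative spectrum is Lipschitz. -/
theorem lam_lip (hx : Cl d D.x.1 D₁.x.1) (hξ : Cl δ D.ξ.1 D₁.ξ.1) (k : Fin (m + 1)) :
    |D.lam k - D₁.lam k| ≤ d + δ := by
  have a := D.lam_le D₁ (fun t => (hx t).1) (fun t => (hξ t).2) k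
  have b := D₁.lam_le D (fun t => (hx t).2) (fun t => (hξ t).1) k
  exact abs_le.2 ⟨by linarith, by linarith⟩

theorem key_gap (hx : Cl d D.x.1 D₁.x.1) (hξ : Cl δ D.ξ.1 D₁.ξ.1) (h0 : ∀ k, 0 ≤ Θ k)
    {i k : Fin (m + 1)} (h : Θ i ≤ Real.exp (D.lam k - D.lam i - σ) * Θ k) :
    Θ i * (Real.exp (D₁.lam i) * (Real.exp d * D.a k)) ≤
      Real.exp (2 * d + δ - σ) * (D.b k * Θ k) := by
  have a := D.lam_le D₁ (fun t => (hx t).1) (fun t => (hξ t).2) i
  have p := (D.ha k).le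
  calc _ ≤ Real.exp (D.lam k - D.lam i - σ) * Θ k *
        (Real.exp (d + δ + D.lam i) * (Real.exp d * D.a k)) := by
        have := h0 k
        gcongr
    _ = Real.exp (D.lam k - D.lam i - σ + (d + δ + D.lam i) + d) * (D.a k * Θ k) := by
        rw [Real.exp_add _ d, Real.exp_add (D.lam k - D.lam i - σ)]
        ring
    _ = Real.exp (2 * d + δ - σ + D.lam k) * (D.a k * Θ k) := by
        congr 2
        ring
    _ = _ := by
        rw [Real.exp_add, D.b_eq k]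
        ring

theorem b_le {i j : Fin (m + 1)} (h : i ≤ j) : D.b j ≤ Real.exp (D.lam i) * D.a j := by
  rw [D.b_eq j]
  exact mul_le_mul_of_nonneg_right (Real.exp_le_exp.2 (D.lam_anti h)) (D.ha j).le

/-- The key estimate at a position `i` with a gap. -/
theorem key1 (hx : Cl d D.x.1 D₁.x.1) (hξ : Cl δ D.ξ.1 D₁.ξ.1) (h0 : ∀ k, 0 ≤ Θ k)
    (i : Fin (m + 1)) (h : ∀ k < i, Θ i ≤ Real.exp (D.lam k - D.lam i - σ) * Θ k) (t) :
    Θ i * nm D₁.f (ct i D₁.b) t ≤ Real.exp δ * (Θ i * nm D.f (ct i D.b) t) +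
      (m + 1) * Real.exp (2 * d + δ - σ) * nm D.f (fun k => Θ k * D.b k) t := by
  have := GQ.key (ab_ag P.e) (f := fe D.unit) (f₁ := fe D₁.unit) (fun k => (D.ha k).le)
    (fun k => (D.hb k).le) (fun k => (D₁.ha k).le) (fun k => (D₁.hb k).le) h0 (Real.exp_pos _).le
    (fun t => (hx t).2) (fun t => (hξ t).2) i (Real.exp_pos _).le (fun j => D₁.b_le)
    (fun k hk => D.key_gap D₁ hx hξ h0 (h k hk)) t
  rw [mul_comm D.b Θ, Nat.cast_succ] at this
  rwa [ct_eq, ct_eq, nm_eq D.unit, nm_eq D.unit, nm_eq D₁.unit]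

theorem mono_of (h : ∀ l : Fin m, Θ l.castSucc ≤ Θ l.succ) : Monotone Θ :=
  Fin.monotone_iff_le_succ.2 h

/-- Telescoping along the gaps. -/
theorem tele (h : ∀ l : Fin m, Θ l.succ ≤ Real.exp (D.gam l) * Θ l.castSucc)
    {k j : Fin (m + 1)} (hk : k ≤ j) : Θ j ≤ Real.exp (D.lam k - D.lam j) * Θ k := by
  induction j using Fin.induction with
  | zero => simp [Fin.le_zero_iff.1 hk]
  | succ l ih =>
    rcases hk.eq_or_lt with rfl | c
    · simp
    · refine (h l).trans ((mul_le_mul_of_nonneg_left (ih (Fin.le_castSucc_iff.2 c))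
        (Real.exp_pos _).le).trans_eq ?_)
      rw [← mul_assoc, ← Real.exp_add, gam]
      congr 2
      ring

/-- At a position with a gap. -/
theorem gap_of (h : ∀ l : Fin m, Θ l.succ ≤ Real.exp (D.gam l) * Θ l.castSucc) (l : Fin m)
    (hl : Θ l.succ ≤ Real.exp (D.gam l - σ) * Θ l.castSucc) {k : Fin (m + 1)} (hk : k < l.succ) :
    Θ l.succ ≤ Real.exp (D.lam k - D.lam l.succ - σ) * Θ k := by
  refine hl.trans ((mul_le_mul_of_nonneg_left (D.tele h (Fin.le_castSucc_iff.2 hk))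
    (Real.exp_pos _).le).trans_eq ?_)
  rw [← mul_assoc, ← Real.exp_add, gam]
  congr 2
  ring

/-- At a jump of a point of the cone. -/
theorem jump (hσ : 0 ≤ σ) (h0 : ∀ k, 0 < Θ k)
    (h : ∀ l : Fin m, Θ l.succ ≤ Real.exp (max (D.gam l - σ) 0) * Θ l.castSucc) (i : Fin (m + 1))
    (hi : ∀ k < i, Θ k < Θ i) : ∀ k < i, Θ i ≤ Real.exp (D.lam k - D.lam i - σ) * Θ k := by
  intro k hk
  obtain ⟨l, rfl⟩ := Fin.exists_succ_eq.2 hk.ne_zero
  refine D.gap_of (fun j => (h j).trans (mul_le_mul_of_nonneg_right (Real.exp_le_exp.2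
    (max_le (sub_le_self _ hσ) (D.gam_nn j))) (h0 _).le)) l ?_ hk
  rcases le_total (D.gam l - σ) 0 with c | c
  · have := h l
    rw [max_eq_right c, Real.exp_zero, one_mul] at this
    exact absurd (hi _ l.castSucc_lt_succ) this.not_gt
  · simpa only [max_eq_left c] using h l

/-- The same factors on close data give close norms. -/
theorem cone_le (hx : Cl d D.x.1 D₁.x.1) (hξ : Cl δ D.ξ.1 D₁.ξ.1) (hσ : 0 ≤ σ) (h0 : ∀ k, 0 < Θ k)
    (h : ∀ l : Fin m, Θ l.castSucc ≤ Θ l.succ ∧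
      Θ l.succ ≤ Real.exp (max (D.gam l - σ) 0) * Θ l.castSucc) (t) :
    nm D₁.f (fun k => Θ k * D₁.b k) t ≤ (Real.exp δ + (m + 1) ^ 2 * Real.exp (2 * d + δ - σ)) *
      nm D.f (fun k => Θ k * D.b k) t := by
  have := GQ.cone_close (ab_ag P.e) (f := fe D.unit) (f₁ := fe D₁.unit) (fun k => (D.ha k).le)
    (fun k => (D.hb k).le) (fun k => (D₁.ha k).le) (fun k => (D₁.hb k).le) h0
    (mono_of fun l => (h l).1) (Real.exp_pos _).le (Real.exp_pos _).le (fun t => (hx t).2)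
    (fun t => (hξ t).2) (L := fun i => Real.exp (D₁.lam i)) (fun _ => (Real.exp_pos _).le)
    (fun _ _ => D₁.b_le) (fun i hi k hk => D.key_gap D₁ hx hξ (fun k => (h0 k).le)
      (D.jump hσ h0 (fun l => (h l).2) i hi k hk)) t
  rw [mul_comm D.b Θ, mul_comm D₁.b Θ, Nat.cast_succ] at this
  exact this

omit D D₁ in
theorem minmax (D D' : Dt P m) (h : Cl d D.x.1 D'.x.1) (k : Cl δ D.ξ.1 D'.ξ.1) (i) :
    |D.lam i - D'.lam i| ≤ d + δ := D.lam_lip D' h k i

omit D D₁ in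
theorem key0 {τ : ℝ} (D D' : Dt P m) (h : Cl d D.x.1 D'.x.1) (k : Cl δ D.ξ.1 D'.ξ.1)
    {Θ : Fin (m + 1) → ℝ} (hΘ : ∀ l, 0 < Θ l) (i : Fin (m + 1))
    (hi : ∀ l, l < i → Θ i ≤ Real.exp (D.lam l - D.lam i - τ) * Θ l) (t) :
    Θ i * nm D'.f (ct i D'.b) t ≤ Real.exp δ * (Θ i * nm D.f (ct i D.b) t) +
      (m + 1) * Real.exp (2 * d + δ - τ) * nm D.f (fun l => Θ l * D.b l) t :=
  D.key1 D' h k (fun l => (hΘ l).le) i hi t

end Dt

end Pool.Agent.Lib.MP_5d3e93_al.Lq
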