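import Pool.Agent.Lib.MP_5d3e93_al.Lq.Ag
import Pool.Agent.Lib.MP_5d3e93_al.Lq.KeyA

/-! Close data have close frames and close retractions. -/

open Matrix Set Filter Topology MulAction MeasureTheory

namespace Pool.Agent.Lib.MP_5d3e93_al.Lq

variable {P : Pl} {m : ℕ} {d δ τ σ c : ℝ}

theorem keyC_tau (A c : ℝ) {η : ℝ} (hA : 0 < A) (hη : 0 < η) :
    ∃ τ₀, 0 ≤ τ₀ ∧ ∀ τ, τ₀ ≤ τ → ∀ c' ≤ c, A * Real.exp (c' - τ) ≤ η := by
  refine ⟨max 0 (c - Real.log (η / A)), le_max_left _ _, fun τ h c' k => ?_⟩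
  rw [← le_div_iff₀' hA, ← Real.exp_log (div_pos hη hA), Real.exp_le_exp]
  linarith [le_of_max_le_right h]

namespace Dt

variable (D D' : Dt P m) {J J' : Finset (Fin m)}

theorem keyC_pos (k) : 0 < D.mu J τ k := Real.exp_pos _

theorem keyC_zero : D.mu J τ 0 = Real.exp (-D.lam 0) := by
  simp [mu]

theorem keyC_succ (l : Fin m) : D.mu J τ l.succ =
    Real.exp (if l ∈ J then D.gam l - τ else 0) * D.mu J τ l.castSucc := by
  rw [mu, mu, ← Real.exp_add, add_left_comm, Finset.sum_filter, Finset.sum_filter,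
    ← Finset.sum_ite_eq J l fun j => D.gam j - τ, ← Finset.sum_add_distrib]
  congr 2
  refine Finset.sum_congr rfl fun j _ => ?_
  simp only [Fin.le_def, Fin.ext_iff, Fin.val_succ, Fin.val_castSucc]
  split_ifs <;> first | omega | simp

theorem keyC_cone (h : ∀ l ∈ J, τ ≤ D.gam l) (l : Fin m) :
    D.mu J τ l.castSucc ≤ D.mu J τ l.succ ∧
      D.mu J τ l.succ ≤ Real.exp (max (D.gam l - τ) 0) * D.mu J τ l.castSucc := by
  rw [keyC_succ]
  refine ⟨le_mul_of_one_le_left (D.keyC_pos _).le (Real.one_le_exp ?_),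
    mul_le_mul_of_nonneg_right (Real.exp_le_exp.2 ?_) (D.keyC_pos _).le⟩ <;> split_ifs with e
  exacts [sub_nonneg.2 (h l e), le_rfl, le_max_left _ _, le_max_right _ _]

theorem keyC_gap (hτ : 0 ≤ τ) {i} (hi : St J i) (l) (h : l < i) :
    D.mu J τ i ≤ Real.exp (D.lam l - D.lam i - τ) * D.mu J τ l := by
  obtain rfl | ⟨j, a, rfl⟩ := hi
  · exact (Fin.not_lt_zero _ h).elim
  refine D.gap_of (fun k => ?_) j (by rw [keyC_succ, if_pos a]) h
  rw [keyC_succ]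
  refine mul_le_mul_of_nonneg_right (Real.exp_le_exp.2 ?_) (D.keyC_pos _).le
  split_ifs
  exacts [sub_le_self _ hτ, D.gam_nn k]

theorem keyC_cmp (hc : 0 ≤ c) (h0 : D.lam 0 ≤ D'.lam 0 + c) (h : ∀ l,
    (if l ∈ J' then D'.gam l - τ else 0) ≤ (if l ∈ J then D.gam l - τ else 0) + 2 * c) (k) :
    D'.mu J' τ k ≤ Real.exp ((2 * m + 1) * c) * D.mu J τ k := by
  have e (k : Fin (m + 1)) : D'.mu J' τ k ≤ Real.exp ((2 * (k : ℕ) + 1) * c) * D.mu J τ k := by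
    induction k using Fin.induction with
    | zero =>
      rw [keyC_zero, keyC_zero, ← Real.exp_add, Real.exp_le_exp]
      simp only [Fin.val_zero, Nat.cast_zero]
      linarith
    | succ l ih =>
      rw [keyC_succ, keyC_succ, ← mul_assoc, ← Real.exp_add]
      refine (mul_le_mul_of_nonneg_left ih (Real.exp_pos _).le).trans ?_
      rw [← mul_assoc, ← Real.exp_add]
      refine mul_le_mul_of_nonneg_right (Real.exp_le_exp.2 ?_) (D.keyC_pos _).le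
      simp only [Fin.val_succ, Fin.val_castSucc, Nat.cast_succ]
      linarith [h l]
  refine (e k).trans (mul_le_mul_of_nonneg_right (Real.exp_le_exp.2 ?_) (D.keyC_pos _).le)
  have : ((k : ℕ) : ℝ) ≤ m := by exact_mod_cast k.is_le
  nlinarith

theorem keyC_gam (h : Cl d D.x.1 D'.x.1) (k : Cl δ D.ξ.1 D'.ξ.1) (l : Fin m) :
    D'.gam l ≤ D.gam l + 2 * (d + δ) := by
  have a := abs_le.1 (D.minmax D' h k l.castSucc)
  have b := abs_le.1 (D.minmax D' h k l.succ)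
  unfold gam
  linarith [a.1, b.2]

theorem keyC_y (h : Cl d D.x.1 D'.x.1) (k : Cl δ D.ξ.1 D'.ξ.1) (hτ : 0 ≤ τ)
    (hJ : ∀ l ∈ J, τ ≤ D.gam l) {B : ℝ} (hB : 0 ≤ B) (e : ∀ k, D'.mu J' τ k ≤ B * D.mu J τ k) (t) :
    (D'.y J' τ).1 t ≤
      B * (Real.exp δ + (m + 1) ^ 2 * Real.exp (2 * d + δ - τ)) * (D.y J τ).1 t := by
  rw [mul_assoc]
  refine (nm_le (b := fun k => D.mu J τ k * D'.b k)
    (fun k => (mul_pos (D'.keyC_pos k) (D'.hb k)).le) hB fun k _ => ?_).trans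
    (mul_le_mul_of_nonneg_left (D.cone_le D' h k hτ D.keyC_pos (D.keyC_cone hJ) t) hB)
  rw [← mul_assoc]
  exact mul_le_mul_of_nonneg_right (e k) (D'.hb k).le

theorem keyC_s {i} (hi : St J i) (t) : D.s J τ i t = D.mu J τ i * nm D.f (ct i D.b) t := by
  rw [s, w, if_pos hi, nm, nm, ← ag_smul (D.keyC_pos i).le]
  refine congrArg _ (funext fun k => ?_)
  unfold ct
  split_ifs <;> ring

theorem keyC_s0 {i} (hi : ¬ St J i) (t) : D.s J τ i t = 0 := by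
  rw [s, w, if_neg hi]
  simpa [nm] using ag_smul (e := P.e) le_rfl fun k => ‖(D.f *ᵥ t) k‖

theorem keyC_sy (hJ : ∀ l ∈ J, τ ≤ D.gam l) (i) (t) :
    D.mu J τ i * nm D.f (ct i D.b) t ≤ (D.y J τ).1 t := by
  rw [nm, ← ag_smul (D.keyC_pos i).le]
  refine ag_mono fun k => ?_
  unfold ct
  split_ifs with c
  · have := D.keyC_pos (J := J) (τ := τ) i
    have := D.keyC_pos (J := J) (τ := τ) k
    have := D.hb k
    have := mono_of (fun l => (D.keyC_cone hJ l).1) c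
    rw [abs_of_nonneg (by positivity), u, abs_of_nonneg (by positivity), mul_assoc]
    gcongr
  · simp only [zero_mul, mul_zero, abs_zero, abs_nonneg]

theorem keyC_rho (h : D.x = D'.x) (k : Cl δ D.ξ.1 D'.ξ.1) (hδ : 0 ≤ δ) (hσ : 0 ≤ σ) (t) :
    (D'.rho σ).1 t ≤ Real.exp ((2 * m + 1) * δ) *
      (Real.exp δ + (m + 1) ^ 2 * Real.exp (δ - σ)) * (D.rho σ).1 t := by
  have a : Cl 0 D.x.1 D'.x.1 := fun t => by simp [h]
  have := D.keyC_y D' a k hσ (J := Finset.univ.filter fun l => σ < D.gam l)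
    (J' := Finset.univ.filter fun l => σ < D'.gam l) (fun l e => (Finset.mem_filter.1 e).2.le)
    (Real.exp_pos _).le (D.keyC_cmp D' hδ (by linarith [(abs_le.1 (D.minmax D' a k 0)).2])
      fun l => by
        have := D.keyC_gam D' a k l
        simp only [Finset.mem_filter, Finset.mem_univ, true_and]
        split_ifs <;> linarith) t
  rwa [mul_zero, zero_add] at this

end Dt

/-- `key0` twice with `Θ = mu`; `ν i = mu i / mu' i`; `y ≤ ∑ s i`, `s i ≤ y`. -/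
theorem key (m : ℕ) {d : ℝ} (hd : 0 ≤ d) : ∃ β, 0 ≤ β ∧ ∀ ε, 0 < ε → ∃ δ τ₀, 0 < δ ∧
    ∀ (P : Pl) (D D' : Dt P m) J τ, τ₀ ≤ τ → Cl d D.x.1 D'.x.1 → Cl δ D.ξ.1 D'.ξ.1 →
      (∀ l ∈ J, τ ≤ D.gam l ∧ τ ≤ D'.gam l) →
      Rel β ε (D.y J τ).1 (D'.y J τ).1 (D.s J τ) (D'.s J τ) := by
  obtain ⟨B, hB⟩ : ∃ B, B = Real.exp ((2 * m + 1) * (d + 1)) := ⟨_, rfl⟩
  have B1 : 1 ≤ B := hB ▸ Real.one_le_exp (by positivity)
  have B4 : 4 * B ≤ Real.exp (4 * B) := by linarith [Real.add_one_le_exp (4 * B)]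
  refine ⟨4 * B, by positivity, fun ε hε => ?_⟩
  obtain ⟨τ₀, t0, ht⟩ := keyC_tau ((m + 1) ^ 2) (2 * d + 1) (by positivity)
    (lt_min one_pos (show 0 < ε / (8 * B ^ 2) by positivity))
  have l0 : 0 < Real.log (1 + ε / 8) := Real.log_pos (by linarith)
  refine ⟨min 1 (Real.log (1 + ε / 8)), τ₀, lt_min one_pos l0, fun P D D' J τ hτ h k hJ => ?_⟩
  generalize hδ : min 1 (Real.log (1 + ε / 8)) = δ at k
  have d0 : 0 ≤ δ := hδ ▸ (lt_min one_pos l0).le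
  have d1 : δ ≤ 1 := hδ ▸ min_le_left _ _
  have d2 : Real.exp δ ≤ 1 + ε / 8 :=
    (Real.le_log_iff_exp_le (by linarith)).1 (hδ ▸ min_le_right _ _)
  have d3 : Real.exp δ ≤ 3 := (Real.exp_le_exp.2 d1).trans Real.exp_one_lt_three.le
  have d4 : 1 ≤ Real.exp δ := Real.one_le_exp d0
  obtain ⟨E1, E2⟩ := le_min_iff.1 (ht τ hτ (2 * d + δ) (by linarith))
  have mu (D D' : Dt P m) (h : Cl d D.x.1 D'.x.1) (k : Cl δ D.ξ.1 D'.ξ.1) (i) :
      D'.mu J τ i ≤ B * D.mu J τ i := by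
    refine (D.keyC_cmp D' (add_nonneg hd d0) (by linarith [(abs_le.1 (D.minmax D' h k 0)).2])
      (fun l => ?_) i).trans (mul_le_mul_of_nonneg_right (hB ▸ Real.exp_le_exp.2 (by gcongr))
        (D.keyC_pos i).le)
    have := D.keyC_gam D' h k l
    split_ifs <;> linarith
  have yy (D D' : Dt P m) (h : Cl d D.x.1 D'.x.1) (k : Cl δ D.ξ.1 D'.ξ.1)
      (hJ : ∀ l ∈ J, τ ≤ D.gam l) (t) : (D'.y J τ).1 t ≤ 4 * B * (D.y J τ).1 t :=
    (D.keyC_y D' h k (t0.trans hτ) hJ (by linarith) (mu D D' h k) t).trans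
      (mul_le_mul_of_nonneg_right (by nlinarith) ((D.y J τ).nonneg t))
  have y1 := yy D D' h k fun l e => (hJ l e).1
  have y2 := yy D' D h.symm k.symm fun l e => (hJ l e).2
  refine ⟨fun t => ⟨(y2 t).trans (mul_le_mul_of_nonneg_right B4 (Nm.nonneg _ t)),
    (y1 t).trans (mul_le_mul_of_nonneg_right B4 (Nm.nonneg _ t))⟩, fun i => ?_⟩
  by_cases hi : St J i
  swap
  · exact ⟨1, one_pos, by linarith, fun t => by
      simpa [Dt.keyC_s0 _ hi] using mul_nonneg hε.le (Nm.nonneg _ t)⟩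
  have p := D.keyC_pos (J := J) (τ := τ) i
  have p' := D'.keyC_pos (J := J) (τ := τ) i
  have n1 : D.mu J τ i / D'.mu J τ i ≤ B := (div_le_iff₀ p').2 (mu D' D h.symm k.symm i)
  refine ⟨D.mu J τ i / D'.mu J τ i, div_pos p p', by linarith, fun t => ?_⟩
  have a := D.key0 D' h k D.keyC_pos i (D.keyC_gap (t0.trans hτ) hi) t
  have b := mul_le_mul_of_nonneg_left
    (D'.key0 D h.symm k.symm D'.keyC_pos i (D'.keyC_gap (t0.trans hτ) hi) t) (div_pos p p').le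
  have c := D.keyC_sy (fun l e => (hJ l e).1) i t
  rw [mul_add, mul_left_comm _ (Real.exp δ), ← mul_assoc, ← mul_assoc _ (D'.mu J τ i),
    div_mul_cancel₀ _ p'.ne'] at b
  rw [D.keyC_s hi, D'.keyC_s hi, ← mul_assoc, div_mul_cancel₀ _ p'.ne']
  have y0 := (D.y J τ).nonneg t
  have y3 := y1 t
  change _ ≤ _ + _ * (D.y J τ).1 t at a
  change _ ≤ _ + _ * (_ * (D'.y J τ).1 t) at b
  have s0 : 0 ≤ D.mu J τ i * nm D.f (ct i D.b) t := mul_nonneg p.le (nm_nonneg t)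
  have s1 : 0 ≤ D.mu J τ i * nm D'.f (ct i D'.b) t := mul_nonneg p.le (nm_nonneg t)
  have y4 := (D'.y J τ).nonneg t
  generalize D.mu J τ i * nm D.f (ct i D.b) t = s at *
  generalize D.mu J τ i * nm D'.f (ct i D'.b) t = s' at *
  generalize (D.y J τ).1 t = y at *
  generalize (D'.y J τ).1 t = y' at *
  have e0 : 0 < Real.exp (2 * d + δ - τ) := Real.exp_pos _
  have e1 : (m + 1) * Real.exp (2 * d + δ - τ) ≤ (m + 1) ^ 2 * Real.exp (2 * d + δ - τ) :=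
    mul_le_mul_of_nonneg_right (by nlinarith [(Nat.cast_nonneg m : (0 : ℝ) ≤ m)]) e0.le
  have e2 : 0 ≤ (m + 1) * Real.exp (2 * d + δ - τ) := by positivity
  generalize (m + 1) * Real.exp (2 * d + δ - τ) = E at *
  have e3 : E * (8 * B ^ 2) ≤ ε := (le_div_iff₀ (by positivity)).1 (e1.trans E2)
  have e4 : E ≤ 1 := e1.trans E1
  have e5 : E ≤ ε / 8 := by linarith [le_mul_of_one_le_right e2 (one_le_pow₀ B1 (n := 2))]
  have f0 : Real.exp δ * s ≤ 3 * y := by gcongr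
  have f1 : s' ≤ 4 * y := by linarith [mul_le_of_le_one_left y0 e4]
  have f2 : D.mu J τ i / D'.mu J τ i * (E * y') ≤ B * (E * (4 * B * y)) := by gcongr
  have f3 : (Real.exp δ - 1) * s' ≤ ε / 8 * (4 * y) :=
    mul_le_mul (by linarith) f1 s1 (by positivity)
  have f4 : (Real.exp δ - 1) * s ≤ ε / 8 * y := mul_le_mul (by linarith) c s0 (by positivity)
  have f5 := mul_nonneg hε.le y0
  exact abs_sub_le_iff.2 ⟨by linarith [mul_le_mul_of_nonneg_right e5 y0],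
    by linarith [mul_le_mul_of_nonneg_right e3 y0]⟩

/-- `abel` for `Θ = mu` of `D`, `key0` at the jumps, `minmax` to compare the two `mu`. -/
theorem rho_lip (m : ℕ) {η : ℝ} (hη : 0 < η) : ∃ δ σ₀, 0 < δ ∧ ∀ (P : Pl) (D D' : Dt P m) σ,
    σ₀ ≤ σ → D.x = D'.x → dist D.ξ D'.ξ ≤ δ → dist (D.rho σ) (D'.rho σ) ≤ η := by
  obtain ⟨δ, d0, d1⟩ : ∃ δ : ℝ, 0 < δ ∧ (2 * m + 1) * δ + δ = η / 2 :=
    ⟨η / (4 * (m + 1)), by positivity, by field_simp; ring⟩
  obtain ⟨σ₀, s0, hs⟩ := keyC_tau ((m + 1) ^ 2) δ (by positivity) (half_pos hη)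
  refine ⟨δ, σ₀, d0, fun P D D' σ hσ h k => ?_⟩
  rw [Nm.dist_le d0.le] at k
  have e : Real.exp ((2 * m + 1) * δ) * (Real.exp δ + (m + 1) ^ 2 * Real.exp (δ - σ)) ≤
      Real.exp η := by
    rw [← add_halves η, ← d1, add_assoc, Real.exp_add, d1, Real.exp_add]
    refine mul_le_mul_of_nonneg_left ?_ (Real.exp_pos _).le
    nlinarith [hs σ hσ δ le_rfl, Real.one_le_exp d0.le, Real.add_one_le_exp (η / 2)]
  exact (Nm.dist_le hη.le).2 fun t =>
    ⟨(D'.keyC_rho D h.symm k.symm d0.le (s0.trans hσ) t).trans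
      (mul_le_mul_of_nonneg_right e (Nm.nonneg _ t)),
    (D.keyC_rho D' h k d0.le (s0.trans hσ) t).trans (mul_le_mul_of_nonneg_right e (Nm.nonneg _ t))⟩

end Pool.Agent.Lib.MP_5d3e93_al.Lq
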