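import Pool.Agent.Lib.MP_5d3e93_al.Lq.AsA
import Pool.Agent.Lib.MP_5d3e93_al.Lq.AsB
import Pool.Agent.Lib.MP_5d3e93_al.Lq.KeyC
import Pool.Agent.Lib.MP_5d3e93_al.Lq.Cvx
import Pool.Agent.Lib.MP_5d3e93_al.Lq.FlC
import Pool.Agent.Lib.MP_5d3e93_al.Lq.FlD
import Pool.Agent.Lib.MP_5d3e93_al.Lq.ChC
import Pool.Agent.Lib.MP_5d3e93_al.Lq.Dim

/-! Labels from flats and cusps; the coloured covers with transfer data. -/

open Matrix Set MulAction

namespace Pool.Agent.Lib.MP_5d3e93_al.Lq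

theorem fa_mul {Γ T : Type} [Group Γ] [MulAction Γ T] (g h : Γ) (z : T → ℝ) :
    fa g (fa h z) = fa (g * h) z := funext fun t => by
  simp only [fa, _root_.mul_inv_rev, mul_smul]

theorem fa_one {Γ T : Type} [Group Γ] [MulAction Γ T] (z : T → ℝ) : fa (1 : Γ) z = z :=
  funext fun t => by simp only [fa, inv_one, one_smul]

theorem Ad.mul {m : ℕ} {J : Finset (Fin m)} {C θ : ℝ} {w u} (h : Ad J C w u) (k : 0 < θ) :
    Ad J C (fun i l => θ * w i l) fun l => θ * u l :=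
  ⟨fun l => mul_pos k (h.pos l), fun i l a => by rw [h.zero i l a, mul_zero],
    fun i l => mul_nonneg k.le (h.nn i l),
    fun i l => by rw [mul_left_comm]; exact mul_le_mul_of_nonneg_left (h.le i l) k.le,
    fun i l a b c => by rw [h.eq i l a b c]⟩

theorem nm_wt {P : Pl} {M : ℕ} (f : Matrix (Fin M) (Fin M) P.K) (a : Fin M → ℝ) {θ : ℝ}
    (k : 0 ≤ θ) (t) : nm f (fun l => θ * a l) t = θ * nm f a t := by
  simp only [nm, mul_assoc]; exact ag_smul k _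

theorem comm_fin {Γ : Type} [Group Γ] {H : Subgroup Γ} (h : Γ)
    (k : Finite (⁅H.map (MulAut.conj h⁻¹).toMonoidHom, H.map (MulAut.conj h⁻¹).toMonoidHom⁆ :
      Subgroup Γ)) : Finite (⁅H, H⁆ : Subgroup Γ) := by
  rw [← Subgroup.map_commutator] at k
  exact Finite.of_equiv _ (Subgroup.equivMapOfInjective _ (MulAut.conj h⁻¹).toMonoidHom
    (MulAut.conj h⁻¹).injective).symm.toEquiv

variable {m : ℕ} {ι : Type} [Fintype ι] {v : ι → Pl} {Γ : Type} [Group Γ]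
  {r : ∀ i, Γ →* GL (Fin (m + 1)) (v i).K} {W : Type} [MulAction Γ W] {n : ℕ}

namespace Cs

variable (c : Cs r) (U : Cu r W n) {J : ι → Finset (Fin m)} {p q : Yp r} {D : ℝ}

/-- The flat of a point. -/
noncomputable def z (J : ι → Finset (Fin m)) (p : Yp r) : Tc r → ℝ := cls r (c.s J p)

/-- Group elements near a point. -/
def Np (J : ι → Finset (Fin m)) (D : ℝ) (p : Yp r) (g : Γ) : Prop :=
  dist (U.nz (c.y J p)) (g • x0 r) ≤ D

omit [Fintype ι] in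
theorem z_smul (h : Γ) (p : Yp r) : c.z J (h • p) = fa h (c.z J p) := by
  rw [z, z, fa_cls]
  exact congrArg _ (funext fun i => funext₂ (c.s_smul h p i))

theorem np_smul (h g : Γ) (p : Yp r) : c.Np U J D (h • p) (h * g) ↔ c.Np U J D p g := by
  rw [Np, Np, y_smul, U.eqv, mul_smul, xr_dist]

omit [Fintype ι] in
theorem RJ.ad (h : c.RJ J p) (i) :
    Ad (J i) 1 ((c.D p i).w (J i) c.τ) ((c.D p i).u (J i) c.τ) :=
  Dt.ad _ fun l k => by
    linarith [(h i).1 l k, mul_nonneg (Nat.cast_nonneg c.K : (0 : ℝ) ≤ _) c.ha]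

/-- The normalised frame at the base point. -/
theorem frame (h : c.RJ J p) (k : c.Np U J D p 1) : ∃ θ : ι → ℝ, (∀ i, 0 < θ i) ∧ ∀ i,
    Ad (J i) 1 (fun a l => θ i * (c.D p i).w (J i) c.τ a l) (fun l => θ i * (c.D p i).u (J i) c.τ l) ∧
      Cl D (nm (c.D p i).f fun l => θ i * (c.D p i).u (J i) c.τ l) (Nm.std (v i) (m + 1)).1 := by
  choose θ a b using U.sc (c.y J p)
  refine ⟨θ, a, fun i => ⟨(h.ad c i).mul (a i), ?_⟩⟩
  rw [Np, one_smul] at k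
  have := (Nm.dist_le (dist_nonneg.trans k)).1 ((dist_le_pi_dist _ _ i).trans k)
  rw [funext (b i)] at this
  rw [funext fun t => nm_wt (c.D p i).f ((c.D p i).u (J i) c.τ) (a i).le t]
  exact this

theorem z_mem (h : c.RJ J p) {g : Γ} (k : c.Np U J D p g) : fa g⁻¹ (c.z J p) ∈ Zf r J 1 D := by
  obtain ⟨θ, a, b⟩ := c.frame U (p := g⁻¹ • p) h (by
    rwa [← inv_mul_cancel g, np_smul])
  rw [← z_smul]
  exact ⟨_, _, _, b, (cls_mul r fun i l => ⟨θ i, a i, fun t => nm_wt _ _ (a i).le t⟩).symm⟩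

theorem z_near {T₀ : Finset (Tc r)} {ε ε' β : ℝ} (hn : ∀ (f : ∀ i, Matrix _ _ (v i).K)
      (w u : ι → _) (s' : ∀ i, Fin (m + 1) → (Fin (m + 1) → (v i).K) → ℝ),
      (∀ i, Ad (J i) 1 (w i) (u i) ∧ Cl D (nm (f i) (u i)) (Nm.std (v i) (m + 1)).1) →
      (∀ i k, ¬ Lq.St (J i) k → s' i k = 0) →
      (∀ i k t, |s' i k t - nm (f i) (w i k) t| ≤ ε' * nm (f i) (u i) t) →
      ∀ t ∈ T₀, |cls r s' t - cls r (fun i k => nm (f i) (w i k)) t| < ε)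
    (h : c.RJ J p) (k : c.Np U J D p 1) (e : c.Rl J β ε' p q) :
    ∀ t ∈ T₀, |c.z J q t - c.z J p t| < ε := by
  obtain ⟨θ, a, b⟩ := c.frame U h k
  choose ν n1 n2 n3 using fun i => (e i).2
  have := hn _ _ _ (fun i l t => θ i * ν i l * c.s J q i l t) b (fun i l s => funext fun t => by
    simp [Cs.s, Dt.s, Dt.w, s, nm, ag]) fun i l t => by
      rw [nm_wt _ _ (a i).le, nm_wt _ _ (a i).le, mul_assoc, ← mul_sub, abs_mul,
        abs_of_pos (a i), mul_left_comm]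
      exact mul_le_mul_of_nonneg_left (n3 i l t) (a i).le
  rwa [cls_mul r (s := c.s J q) fun i l => ⟨_, mul_pos (a i) (n1 i l), fun _ => rfl⟩,
    cls_mul r (s := c.s J p) fun i l => ⟨θ i, a i, fun t => nm_wt _ _ (a i).le t⟩] at this

variable {N : ℕ} (V : Cov Γ (len r) (Zf r J 1 D) (2 * D) N)

/-- Labels from a cover of the flats. -/
def mem (p : Yp r) (A : V.I) : Prop :=
  c.RJ J p ∧ (∃ g, c.Np U J D p g) ∧ ∀ g, c.Np U J D p g → V.mem A g (c.z J p)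

theorem mem_smul (g : Γ) (p A) (h : c.mem U V p A) :
    letI := V.act; c.mem U V (g • p) (g • A) := by
  obtain ⟨a, ⟨k, b⟩, d⟩ := h
  refine ⟨a, ⟨g * k, (c.np_smul U ..).2 b⟩, fun l e => ?_⟩
  rw [← mul_inv_cancel_left g l] at e ⊢
  rw [z_smul]
  exact V.smul g _ _ _ (d _ ((c.np_smul U ..).1 e))

theorem mem_ord (p) (s : Finset V.I) (h : ∀ A ∈ s, c.mem U V p A) : s.card ≤ N := by
  rcases s.eq_empty_or_nonempty with rfl | ⟨A, a⟩
  · simp
  obtain ⟨b, ⟨g, d⟩, -⟩ := h A a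
  exact V.ord g _ (c.z_mem U b d) s fun B e => (h B e).2.2 g d

theorem mem_long {T₀ : Finset (Tc r)} {ε D₀ : ℝ} (hV : ∀ z ∈ Zf r J 1 D, ∃ A, ∀ z',
      (∀ t ∈ T₀, |z' t - z t| < ε) → ∀ g, len r g ≤ 2 * D → V.mem A g z')
    (hn : ∀ p q, c.RJ J p → c.Np U J D p 1 → c.Rl J (c.K * c.β)
      (c.ε * (1 + Real.exp (2 * c.β)) ^ c.K) p q → ∀ t ∈ T₀, |c.z J q t - c.z J p t| < ε)
    (hD : D₀ + |U.L| * (c.K * c.β) ≤ D) (hJ : ∀ q, Pa c.St c.K p q → c.RJ J q) {g : Γ}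
    (hg : c.Np U J D₀ p g) : ∃ A, ∀ q, Pa c.St c.K p q → c.mem U V q A := by
  letI := V.act
  have b : 0 ≤ c.K * c.β := mul_nonneg (Nat.cast_nonneg _) c.hβ
  have a (q) (h : Pa c.St c.K p q) : c.Np U J D q g := by
    have e := (c.pa_rl hJ h).dist c b
    have f := (U.lip (c.y J p) (c.y J q)).trans ((mul_le_mul_of_nonneg_right (le_abs_self _)
      dist_nonneg).trans (mul_le_mul_of_nonneg_left e (abs_nonneg _)))
    exact (dist_triangle_left _ _ (U.nz (c.y J p))).trans (by unfold Np at hg; linarith)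
  have h0 := Pa.refl c.st_refl c.K p
  obtain ⟨A, k⟩ := hV _ (c.z_mem U (hJ p h0) (a p h0))
  refine ⟨g • A, fun q h => ⟨hJ q h, ⟨g, a q h⟩, fun l e => ?_⟩⟩
  have := V.smul g _ _ _ (k (fa g⁻¹ (c.z J q)) (by
    rw [← z_smul, ← z_smul]
    exact hn _ _ (hJ p h0) (by rw [← inv_mul_cancel g, np_smul]; exact a p h0)
      ((c.pa_rl hJ h).smul c g⁻¹)) (g⁻¹ * l) (by
    rw [len, ← xr_dist r g, ← mul_smul, mul_inv_cancel_left]
    exact (dist_triangle_left _ _ (U.nz (c.y J q))).trans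
      (by have := a q h; unfold Np at e this; linarith)))
  rwa [mul_inv_cancel_left, fa_mul, mul_inv_cancel, fa_one] at this

end Cs

theorem geo_of {m : ℕ} {ι : Type} [Fintype ι] {v : ι → Pl} (ok : ∀ i, (v i).Ok) {Γ : Type} [Group Γ]
    (r : ∀ i, Γ →* GL (Fin (m + 1)) (v i).K) (fin : ∀ R, {g | len r g ≤ R}.Finite)
    {W : Type} [MulAction Γ W] {c : ℕ} (U : Cu r W c) : ∃ (κ : Type) (_ : Fintype κ) (N : ℕ),
      ∀ (F : Finset Γ) (R : ℕ), Nonempty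
        (Geo Γ κ N (fun H => VF H ∨ ∃ w : W, H = stabilizer Γ w) F R) := by
  classical
  obtain ⟨n, hc⟩ := flats_cov r fin
  obtain ⟨D₁, hD₁⟩ := Ld.pi (X := fun i => Nm (v i) (m + 1)) fun i => (ok i).ld _
  obtain ⟨N, hN⟩ := ex_tf D₁
  choose B hB using fun i => (ok i).bi (m := m)
  obtain ⟨B', hB'⟩ := Bi.pi B
  refine ⟨(ι → Finset (Fin m)) × (Fin n ⊕ Fin c), inferInstance, N, fun F R => ?_⟩
  choose dt hx hξ using fun (z : Xr r) i => (ok i).ex_dt (Nm.std _ _) (z i)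
  obtain ⟨d, d0, hd⟩ : ∃ d, 0 ≤ d ∧ ∀ g ∈ F, len r g ≤ d :=
    ⟨∑ g ∈ F, len r g, Finset.sum_nonneg fun _ _ => dist_nonneg,
      fun g h => Finset.single_le_sum (f := len r) (fun _ _ => dist_nonneg) h⟩
  obtain ⟨β, β0, hk⟩ := key m d0
  obtain ⟨K, hK⟩ : ∃ K, K = (n + 1) * (2 * R + 1) := ⟨_, rfl⟩
  obtain ⟨D₀, h0⟩ := U.thick (K * β)
  obtain ⟨D, hD⟩ : ∃ D, D₀ + |U.L| * (K * β) ≤ D := ⟨_, le_rfl⟩
  have V := fun J => (hc J D (2 * D)).some
  choose T₀ ε₀ e0 hV using fun J => (V J).long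
  choose ε₁ e1 hn using fun J => cls_near r D (T₀ J) (e0 J)
  obtain ⟨ε, ε0, hε⟩ : ∃ ε, 0 < ε ∧ ∀ J, 2 * ε * (1 + Real.exp (2 * β)) ^ K ≤ ε₁ J := by
    obtain ⟨J, h⟩ := Finite.exists_min ε₁
    have p : 0 < (1 + Real.exp (2 * β)) ^ K := by positivity
    exact ⟨ε₁ J / 2 / (1 + Real.exp (2 * β)) ^ K, by have := e1 J; positivity,
      fun J' => le_trans (le_of_eq (by field_simp)) (h J')⟩
  obtain ⟨δ₁, τ₀, δ0, hk⟩ := hk ε ε0
  obtain ⟨δ, δp, δ1, δ2⟩ : ∃ δ, 0 < δ ∧ δ ≤ 1 ∧ δ ≤ δ₁ :=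
    ⟨min 1 δ₁, lt_min one_pos δ0, min_le_left .., min_le_right ..⟩
  obtain ⟨δ₂, σ₀, δ3, hρ⟩ := rho_lip m (half_pos δp)
  obtain ⟨τ, τ0, τ1⟩ : ∃ τ, 0 ≤ τ ∧ τ₀ ≤ τ := ⟨max 0 τ₀, le_max_left .., le_max_right ..⟩
  obtain ⟨σ, σ1, σ2, σ3⟩ : ∃ σ, τ + 3 * (K * (2 * (d + δ))) < σ ∧ σ₀ ≤ σ ∧
      2 * β + τ - Real.log ε ≤ σ := ⟨max (τ + 3 * (K * (2 * (d + δ))) + 1)
    (max σ₀ (2 * β + τ - Real.log ε)), (lt_add_one _).trans_le (le_max_left ..),
    (le_max_left ..).trans (le_max_right ..), (le_max_right ..).trans (le_max_right ..)⟩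
  let a : Cs r := ⟨dt, hx, hξ, τ, σ, 2 * (d + δ), β, 2 * ε, K, by positivity, β0, by positivity, σ1⟩
  have σ0 : 0 ≤ σ := le_trans (by positivity) σ1.le
  have k (i) (E E' : Dt (v i) m) (J) (h : Cl d E.x.1 E'.x.1) (h' : Cl δ E.ξ.1 E'.ξ.1) :=
    hk (v i) E E' J τ τ1 h (h'.mono δ2 (Nm.nonneg _) (Nm.nonneg _))
  obtain ⟨tf⟩ := hN (X := Xr r) B' hD₁ (xr_dist r) a.St (F : Set Γ) (fun x => ⟨1, x⟩)
    (min δ₂ (δ / 20)) (δ / 2) (m * σ) (x0 r) (fun x => {z | ∀ i, z i ∈ (a.D ⟨1, x⟩ i).Kc σ})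
    (fun x i => (a.D ⟨1, x⟩ i).rho σ) (lt_min δ3 (by positivity))
    ((min_le_right ..).trans (by linarith)) (by positivity)
    (tb_pi (fun i x R => (ok i).tb x R) _ _)
    (fun x => ⟨hB' _ fun i => hB i _ _, fun i => by
      have := (a.D ⟨1, x⟩ i).xi_mem (σ := σ)
      rwa [a.D_xi, map_one, one_smul] at this, fun i => Dt.rho_mem _,
      (dist_pi_le_iff (by positivity)).2 fun i => by
        have := (a.D ⟨1, x⟩ i).rho_near σ0
        rwa [a.D_x, map_one, one_smul] at this⟩)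
    (fun x y h => (dist_pi_le_iff (by positivity)).2 fun i => hρ _ _ _ σ σ2
      (by rw [a.D_x, a.D_x]) (by
        rw [a.D_xi, a.D_xi, Nm.dist_smul]
        exact (dist_le_pi_dist x y i).trans (h.le.trans (min_le_left ..))))
    (fun x z y h h' => a.st_cone d0 le_rfl τ0 ε0.le (by
        show ε + Real.exp (2 * β) * Real.exp (τ - σ) ≤ 2 * ε
        rw [← Real.exp_add]
        linarith [(Real.le_log_iff_exp_le ε0).1 (by linarith : 2 * β + (τ - σ) ≤ Real.log ε)])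
      k h fun i => (Nm.dist_le δp.le).1 ((dist_le_pi_dist z y i).trans
        (h'.trans (by linarith [min_le_right δ₂ (δ / 20)]))))
    fun g h x => a.st_grp δp.le le_rfl
      (fun i E E' J h h' e => (k i E E' J h h' e).mono le_rfl (by show ε ≤ 2 * ε; linarith)
        (Nm.nonneg _) (Nm.nonneg _)) (hd g h) x
  letI := fun J => (V J).act
  refine geo_mk (I := fun J => (V J).I) a.st_refl a.st_symm a.st_smul (fun J => a.mem U (V J))
    (fun J => a.mem_smul U (V J)) (fun J => a.mem_ord U (V J)) (fun J A => ?_)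
    (fun J l p w => U.lab l (a.y J p) w) (fun J l p => U.uniq l _)
    (fun J l g p w h => by rw [a.y_smul]; exact U.smul l g _ w h) (fun p => ?_) tf
  · obtain ⟨z, z1, h, z2⟩ := (V J).stab A
    refine comm_fin h (flat_stab r fin z1 ?_)
    rintro _ ⟨g, b, rfl⟩
    simpa using z2 g b
  · obtain ⟨J, hJ⟩ := a.ex_J p
    rw [← hK]
    refine ⟨J, (h0 (a.y J p)).symm.imp (fun ⟨g, b⟩ => a.mem_long U (V J) (hV J)
      (fun p q b e f => a.z_near U (hn J J) b e fun i =>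
        (f i).mono le_rfl (hε J) (Nm.nonneg _) (Nm.nonneg _)) hD hJ b) fun ⟨l, w, b⟩ =>
      ⟨l, w, fun q h => b _ ((a.pa_rl hJ h).dist a (by positivity))⟩⟩

end Pool.Agent.Lib.MP_5d3e93_al.Lq
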