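import Pool.Agent.Lib.MP_5d3e93_al.Lq.Def2
import Pool.Agent.Lib.MP_5d3e93_al.GQ.HyL

/-! The groups of the covers and the induction on the dimension. -/

open Matrix Set

namespace Pool.Agent.Lib.MP_5d3e93_al.Lq

universe w w'

variable {G : Type w} [Group G] {G' : Type w'} [Group G'] {n k : ℕ}

theorem VF.of_inj (f : G →* G') (hf : Function.Injective f) (h : VF G') : VF G := by
  obtain ⟨H, a, b⟩ := h
  refine ⟨H.comap f, fi_top.1 (((fi_top.2 a).comap (W := ⊤) le_top).mono inf_le_right le_rfl),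
    .of_injective (β := (⁅H, H⁆ : Subgroup G')) (fun x => ⟨f x, ?_⟩)
      fun _ _ e => Subtype.ext (hf (Subtype.mk.inj e))⟩
  refine Subgroup.commutator_mono (H.map_comap_le f) (H.map_comap_le f) ?_
  rw [← Subgroup.map_commutator]
  exact ⟨x, x.2, rfl⟩

theorem VF.hyper (h : VF G) : Hyper G := by
  obtain ⟨H, a, b⟩ := h
  refine Hyper.fi (U := H) (Hyper.ext Abelianization.of ?_ (hyper_comm mul_comm))
  refine (hyper_fin (D := (⁅H, H⁆ : Subgroup G))).inj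
    ((H.subtype.comp (Subgroup.subtype _)).codRestrict _ fun x => ?_)
    fun _ _ e => Subtype.ext (Subtype.ext (Subtype.mk.inj e))
  rw [← H.map_subtype_commutator]
  exact ⟨x, Abelianization.ker_of H ▸ x.2, rfl⟩

theorem ex_gn [Group.FG G] {M : ℕ} (q : G →* GL (Fin M) ℚ) : ∃ N, N ≠ 0 ∧ ∀ g, q g ∈ Gn M N := by
  obtain ⟨T, hT⟩ := Group.fg_def.1 ‹Group.FG G›
  let d (x : G × Fin M × Fin M) : ℕ :=
    ((q x.1).1 x.2.1 x.2.2).den * ((q x.1)⁻¹.1 x.2.1 x.2.2).den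
  have a {N : ℕ} {x : ℚ} (h : x.den ∣ N) : ∃ z : ℤ, (N : ℚ) ^ 1 * x = z := by
    obtain ⟨c, rfl⟩ := h
    exact ⟨c * x.num, by simp [mul_comm (x.den : ℚ), mul_assoc]⟩
  refine ⟨∏ x ∈ T ×ˢ Finset.univ, d x, Finset.prod_ne_zero_iff.2 fun x _ =>
    mul_ne_zero (Rat.den_nz _) (Rat.den_nz _), fun g => (Subgroup.closure_le
      (K := (Gn M _).comap q)).2 (fun g e => ⟨1, fun i j => ?_⟩) (hT.ge trivial)⟩
  have := Finset.dvd_prod_of_mem d (a := (g, i, j))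
    (Finset.mem_product.2 ⟨e, Finset.mem_univ (i, j)⟩)
  exact ⟨a ((dvd_mul_right _ _).trans this), a ((dvd_mul_left _ _).trans this)⟩

/-- Induction on the dimension. -/
theorem ind (Z : Subgroup G → Prop) (un : ∀ H, (∀ H' ≤ H, H'.FG → Z H') → Z H)
    (step : ∀ (m N : ℕ), N ≠ 0 → ∀ (H : Subgroup G) (q : H →* Gn (m + 1) N),
      (∀ H' : Subgroup H, (VF (H'.map q) ∨ ∃ W : Sb (m + 1), ∀ g ∈ H',
        W.1.map (toLin' (q g).1.1) = W.1) → Z (H'.map H.subtype)) → Z H)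
    (M : ℕ) (H : Subgroup G) (q : H →* GL (Fin M) ℚ)
    (h : ∀ H' : Subgroup H, Hyper (H'.map q) → Z (H'.map H.subtype)) : Z H := by
  replace h (K : Subgroup G) (a : K ≤ H) (b : Hyper (q.comp (Subgroup.inclusion a)).range) :
      Z K := by
    have := h (K.subgroupOf H) (b.le fun _ ⟨x, c, e⟩ => ⟨⟨x, c⟩, e⟩)
    rwa [Subgroup.map_subgroupOf_eq_of_le a] at this
  induction M using Nat.strong_induction_on generalizing H with | h M ih => ?_
  rcases M with _ | m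
  · exact h H le_rfl (hyper_comm fun _ _ => Subsingleton.elim _ _)
  refine un H fun F a b => ?_
  have := (Group.fg_iff_subgroup_fg F).2 b
  obtain ⟨N, N0, c⟩ := ex_gn (q.comp (Subgroup.inclusion a))
  refine step m N N0 F (.codRestrict _ _ c) fun U d => ?_
  have i : U.map F.subtype ≤ H := (Subgroup.map_subtype_le U).trans a
  obtain d | ⟨W, d⟩ := d
  · refine h _ i ((d.hyper.map (Gn (m + 1) N).subtype).le ?_)
    rintro _ ⟨⟨_, x, e, rfl⟩, rfl⟩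
    exact ⟨_, ⟨x, e, rfl⟩, rfl⟩
  obtain ⟨r, r0, s, s0, q₁, q₂, e⟩ := ex_blk (q.comp (Subgroup.inclusion i)) W.1 W.2.1 W.2.2 (by
    rintro ⟨_, x, e, rfl⟩ v f
    exact (d x e).le ⟨v, f, rfl⟩)
  refine ih r r0 _ q₁ fun K₁ a₁ b₁ => ?_
  refine ih s s0 _ (q₂.comp (Subgroup.inclusion a₁)) fun K₂ a₂ b₂ => ?_
  exact h K₂ ((a₂.trans a₁).trans i) ((e (Subgroup.inclusion (a₂.trans a₁)).range
    (b₁.le fun _ ⟨_, ⟨x, rfl⟩, l⟩ => ⟨Subgroup.inclusion a₂ x, l⟩)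
    (b₂.le fun _ ⟨_, ⟨x, rfl⟩, l⟩ => ⟨x, l⟩)).le fun _ ⟨x, l⟩ => ⟨_, ⟨x, rfl⟩, l⟩)

end Pool.Agent.Lib.MP_5d3e93_al.Lq
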