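import Pool.Agent.Lib.MP_5d3e93_al.Lq.Defs
import Pool.Agent.Lib.MP_5d3e93_al.GQ.Spl

/-! The real place and the finite places are good. -/

open Matrix Set

namespace Pool.Agent.Lib.MP_5d3e93_al.Lq

variable {P : Pl} {M : ℕ}

theorem ok_mono (e : Bool) {u w : Fin M → ℝ} {c : ℝ} (hc : 0 ≤ c) (hu : ∀ k, 0 ≤ u k)
    (h : ∀ k, u k ≤ c * w k) : ag e u ≤ c * ag e w := by
  cases e
  · refine (pi_norm_le_iff_of_nonneg (mul_nonneg hc (norm_nonneg _))).2 fun k => ?_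
    rw [Real.norm_of_nonneg (hu k)]
    exact (h k).trans (mul_le_mul_of_nonneg_left ((le_abs_self _).trans (le_ag false w k)) hc)
  · change √_ ≤ c * √_
    rw [← Real.sqrt_sq hc, ← Real.sqrt_mul (sq_nonneg c), Finset.mul_sum]
    exact Real.sqrt_le_sqrt (Finset.sum_le_sum fun k _ => by
      rw [← mul_pow]; exact pow_le_pow_left₀ (hu k) (h k) 2)

theorem Cl.ok_symm {V : Type*} {r : ℝ} {α β : V → ℝ} (h : Cl r α β) : Cl r β α :=
  fun t => (h t).symm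

theorem Cl.ok_trans {V : Type*} {r s : ℝ} {α β γ : V → ℝ} (h : Cl r α β) (k : Cl s β γ) :
    Cl (r + s) α γ := fun t => ⟨by
  rw [Real.exp_add, mul_assoc]
  exact (h t).1.trans (mul_le_mul_of_nonneg_left (k t).1 (Real.exp_pos _).le), by
  rw [add_comm, Real.exp_add, mul_assoc]
  exact (k t).2.trans (mul_le_mul_of_nonneg_left (h t).2 (Real.exp_pos _).le)⟩

theorem ok_up {α β : Nm P M} {r s : ℝ} (h : Cl r α.1 β.1) (k : r ≤ s) : Cl s α.1 β.1 := fun t =>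
  ⟨(h t).1.trans (mul_le_mul_of_nonneg_right (Real.exp_le_exp.2 k) (β.nonneg t)),
    (h t).2.trans (mul_le_mul_of_nonneg_right (Real.exp_le_exp.2 k) (α.nonneg t))⟩

/-- The distance of two norms. -/
theorem ok_dist {α β : Nm P M} {r : ℝ} (hr : 0 ≤ r) : dist α β ≤ r ↔ Cl r α.1 β.1 := by
  refine ⟨fun h => ?_, fun h => csInf_le (Nm.bdd α β) ⟨hr, h⟩⟩
  have k (s : ℝ) (hs : r < s) : Cl s α.1 β.1 := by
    obtain ⟨u, a, b⟩ := exists_lt_of_csInf_lt (Nm.ex_cl α β) (h.trans_lt hs)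
    exact ok_up a.2 b.le
  have l (a b : ℝ) (c : ∀ s, r < s → a ≤ Real.exp s * b) : a ≤ Real.exp r * b :=
    ge_of_tendsto (x := nhdsWithin r (Ioi r)) (f := fun s => Real.exp s * b)
      (((Real.continuous_exp.mul continuous_const).tendsto r).mono_left nhdsWithin_le_nhds)
      (eventually_nhdsWithin_of_forall c)
  exact fun t => ⟨l _ _ fun s hs => (k s hs t).1, l _ _ fun s hs => (k s hs t).2⟩

theorem ok_smul (g : GL (Fin M) P.K) {α β : Nm P M} {r : ℝ} :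
    Cl r (g • α).1 (g • β).1 ↔ Cl r α.1 β.1 :=
  ⟨fun h t => by
    have := h (g.1 *ᵥ t)
    change α.1 _ ≤ _ * β.1 _ ∧ β.1 _ ≤ _ * α.1 _ at this
    rwa [mulVec_mulVec, Units.inv_mul, one_mulVec] at this, fun h _ => h _⟩

theorem ok_wt (f : Matrix (Fin M) (Fin M) P.K) {a b : Fin M → ℝ} {r : ℝ} (ha : ∀ k, 0 ≤ a k)
    (hb : ∀ k, 0 ≤ b k) (h : Cl r a b) : Cl r (nm f a) (nm f b) := fun _ =>
  ⟨ok_mono _ (Real.exp_pos _).le (fun k => mul_nonneg (ha k) (norm_nonneg _)) fun k => by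
    rw [← mul_assoc]; exact mul_le_mul_of_nonneg_right (h k).1 (norm_nonneg _),
  ok_mono _ (Real.exp_pos _).le (fun k => mul_nonneg (hb k) (norm_nonneg _)) fun k => by
    rw [← mul_assoc]; exact mul_le_mul_of_nonneg_right (h k).2 (norm_nonneg _)⟩

variable (P) in
theorem ok_scale : ∃ R, 0 ≤ R ∧ ∀ a : ℝ, 0 < a → ∃ d : P.K, d ≠ 0 ∧ ‖d‖ * a ≤ 1 ∧
    1 ≤ Real.exp R * (‖d‖ * a) := by
  obtain ⟨c, hc⟩ := NormedField.exists_one_lt_norm P.K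
  refine ⟨Real.log ‖c‖, Real.log_nonneg hc.le, fun a ha => ?_⟩
  have c0 : 0 < ‖c‖ := one_pos.trans hc
  obtain ⟨n, h1, h2⟩ := exists_mem_Ico_zpow (inv_pos.2 ha) hc
  refine ⟨c ^ n, zpow_ne_zero _ (norm_pos_iff.1 c0), ?_, ?_⟩
  · rw [norm_zpow]
    simpa [ha.ne'] using mul_le_mul_of_nonneg_right h1 ha.le
  · rw [Real.exp_log c0, norm_zpow, ← mul_assoc, mul_comm ‖c‖, ← zpow_add_one₀ c0.ne']
    simpa [ha.ne'] using mul_le_mul_of_nonneg_right h2.le ha.le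

variable (P M) in
/-- The action on norms is cocompact. -/
theorem ok_std : ∃ R, 0 ≤ R ∧ ∀ x : Nm P M, ∃ g : GL (Fin M) P.K,
    Cl R (g • x).1 (Nm.std P M).1 := by
  obtain ⟨R, h0, h⟩ := ok_scale P
  refine ⟨R, h0, ?_⟩
  rintro ⟨_, _, a, ⟨f, rfl⟩, ha, rfl⟩
  choose d d0 d1 d2 using fun k => h (a k) (ha k)
  have u : IsUnit (diagonal d) := by
    rw [Matrix.isUnit_diagonal, Pi.isUnit_iff]
    exact fun k => (d0 k).isUnit
  refine ⟨u.unit⁻¹ * f, fun t => ?_⟩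
  have e : nm f.1 a (((u.unit⁻¹ * f)⁻¹).1 *ᵥ t) = nm 1 (fun k => ‖d k‖ * a k) t := by
    simp only [nm, _root_.mul_inv_rev, inv_inv, Units.val_mul, mulVec_mulVec, IsUnit.unit_spec,
      Units.mul_inv_cancel_left, mulVec_diagonal, one_mulVec, norm_mul]
    congr 1
    ext k
    ring
  have := ok_wt (P := P) 1 (fun k => mul_nonneg (norm_nonneg _) (ha k).le) (fun _ => zero_le_one)
    (r := R) (fun k => ⟨(d1 k).trans (by simpa using h0), d2 k⟩) t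
  rw [← e] at this
  exact this

theorem ok_peak (e : Bool) {u w : Fin M → ℝ} {z : ℝ} (hz : 1 ≤ z) (hu : ∀ k, 0 ≤ u k) (i : Fin M)
    (h1 : z ^ 2 * u i ≤ w i) (h2 : ∀ k, u k ≤ z ^ 2 * w k) (h3 : ∀ k ≠ i, 2 * M * u k ≤ u i) :
    z * ag e u ≤ ag e w := by
  have hM : (1 : ℝ) ≤ M := Nat.one_le_cast.2 i.pos
  cases e
  · have : ag false u ≤ u i := (pi_norm_le_iff_of_nonneg (hu i)).2 fun k => by
      rw [Real.norm_of_nonneg (hu k)]
      by_cases c : k = i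
      · rw [c]
      · nlinarith [h3 k c, hu k]
    have := (le_abs_self _).trans (le_ag false w i)
    nlinarith [hu i, mul_nonneg (mul_nonneg (zero_le_one.trans hz) (sub_nonneg.2 hz)) (hu i)]
  · change z * √_ ≤ √_
    rw [← Real.sqrt_sq (zero_le_one.trans hz), ← Real.sqrt_mul (sq_nonneg z)]
    refine Real.sqrt_le_sqrt ?_
    have hy : 1 ≤ z ^ 2 := one_le_pow₀ hz
    generalize z ^ 2 = y at *
    rw [← Finset.add_sum_erase _ _ (Finset.mem_univ i), ← Finset.add_sum_erase _ _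
      (Finset.mem_univ i)]
    have a1 : ∑ k ∈ Finset.univ.erase i, u k ^ 2 ≤ y ^ 2 * ∑ k ∈ Finset.univ.erase i, w k ^ 2 := by
      rw [Finset.mul_sum]
      exact Finset.sum_le_sum fun k _ => by
        rw [← mul_pow]; exact pow_le_pow_left₀ (hu k) (h2 k) 2
    have a2 : 4 * ∑ k ∈ Finset.univ.erase i, u k ^ 2 ≤ u i ^ 2 := by
      have b1 : ∑ k ∈ Finset.univ.erase i, (2 * M * u k) ^ 2 ≤ M * u i ^ 2 := by
        refine (Finset.sum_le_card_nsmul _ _ (u i ^ 2) fun k c => pow_le_pow_left₀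
          (by have := hu k; positivity) (h3 k (Finset.ne_of_mem_erase c)) 2).trans ?_
        rw [nsmul_eq_mul]
        exact mul_le_mul_of_nonneg_right (by simp) (sq_nonneg _)
      simp only [mul_pow, ← Finset.mul_sum] at b1
      have b2 : 0 ≤ ∑ k ∈ Finset.univ.erase i, u k ^ 2 := Finset.sum_nonneg fun _ _ => sq_nonneg _
      refine le_of_mul_le_mul_left (le_trans ?_ b1) (one_pos.trans_le hM)
      nlinarith [mul_nonneg (mul_nonneg (zero_le_one.trans hM) (sub_nonneg.2 hM)) b2]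
    have a3 : (y * u i) ^ 2 ≤ w i ^ 2 :=
      pow_le_pow_left₀ (mul_nonneg (zero_le_one.trans hy) (hu i)) h1 2
    have b2 : 0 ≤ ∑ k ∈ Finset.univ.erase i, u k ^ 2 := Finset.sum_nonneg fun _ _ => sq_nonneg _
    generalize ∑ k ∈ Finset.univ.erase i, u k ^ 2 = A at *
    generalize ∑ k ∈ Finset.univ.erase i, w k ^ 2 = B at *
    have y0 : 0 < y := one_pos.trans_le hy
    refine le_of_mul_le_mul_left ?_ (pow_pos y0 2)
    have a4 : (y ^ 2 + y + 1) * A ≤ y ^ 3 * u i ^ 2 := by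
      have : y ^ 2 + y + 1 ≤ y ^ 3 * 4 := by nlinarith [mul_nonneg y0.le (sub_nonneg.2 hy)]
      nlinarith [mul_le_mul_of_nonneg_right this b2, mul_le_mul_of_nonneg_left a2 (pow_pos y0 3).le]
    nlinarith [mul_le_mul_of_nonneg_left a4 (sub_nonneg.2 hy),
      mul_le_mul_of_nonneg_left a3 (pow_pos y0 2).le]

theorem ok_le (f : Matrix (Fin M) (Fin M) P.K) (a : Fin M → ℝ) (t) (k : Fin M) :
    a k * ‖(f *ᵥ t) k‖ ≤ nm f a t :=
  (le_abs_self _).trans (le_ag P.e (fun k => a k * ‖(f *ᵥ t) k‖) k)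

theorem ok_std_le (t : Fin M → P.K) : ‖t‖ ≤ (Nm.std P M).1 t ∧ (Nm.std P M).1 t ≤ M * ‖t‖ := by
  refine ⟨(pi_norm_le_iff_of_nonneg ((Nm.std P M).nonneg t)).2 fun k => by
    simpa [Nm.std] using ok_le 1 (fun _ => 1) t k, (ag_le _ _).trans ?_⟩
  refine (Finset.sum_le_card_nsmul _ _ ‖t‖ fun k _ => ?_).trans (by simp)
  simpa using norm_le_pi_norm t k

variable (P M) in
/-- Finitely many test vectors, one near every coordinate axis of every norm in a ball. -/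
theorem ok_net (R : ℝ) : ∃ T : Finset (Fin M → P.K), ∀ (f : Matrix (Fin M) (Fin M) P.K)
    (a : Fin M → ℝ) (i : Fin M), IsUnit f → (∀ k, 0 < a k) → Cl R (nm f a) (Nm.std P M).1 →
      ∃ t ∈ T, 0 < a i * ‖(f *ᵥ t) i‖ ∧
        ∀ k ≠ i, 2 * M * (a k * ‖(f *ᵥ t) k‖) ≤ a i * ‖(f *ᵥ t) i‖ := by
  obtain ⟨S, -, hS⟩ := ok_scale P
  have p1 := Real.exp_pos R
  have p2 := Real.exp_pos S
  let ε : ℝ := (Real.exp S * Real.exp R * (2 * M + 2) * (Real.exp R * (M + 1)))⁻¹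
  have hε : 0 < ε := by positivity
  obtain ⟨T, -, t1, t2⟩ := (isCompact_closedBall (0 : Fin M → P.K) 1).finite_cover_balls hε
  refine ⟨t1.toFinset, ?_⟩
  rintro _ a i ⟨f, rfl⟩ ha h
  let v : Fin M → P.K := (f⁻¹).1 *ᵥ Pi.single i 1
  have v1 : f.1 *ᵥ v = Pi.single i 1 := by rw [mulVec_mulVec, Units.mul_inv, one_mulVec]
  obtain ⟨d, -, d1, d2⟩ := hS ‖v‖ (norm_pos_iff.2 fun c => by simpa [c] using congrFun v1 i)
  rw [← norm_smul] at d1 d2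
  obtain ⟨t, k1, k2⟩ := mem_iUnion₂.1 (t2 (mem_closedBall_zero_iff.2 d1))
  have v2 (k) : (f.1 *ᵥ (d • v)) k = (Pi.single i d : Fin M → P.K) k := by
    rw [mulVec_smul, v1, ← Pi.single_smul, smul_eq_mul, mul_one]
  have e1 (k) : a k * ‖(f.1 *ᵥ t) k - (Pi.single i d : Fin M → P.K) k‖ ≤
      Real.exp R * (M + 1) * ε := by
    rw [← v2, ← Pi.sub_apply, ← mulVec_sub, mul_assoc]
    refine (ok_le _ _ _ _).trans ((h _).1.trans (mul_le_mul_of_nonneg_left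
      ((ok_std_le _).2.trans ?_) p1.le))
    exact mul_le_mul (by simp) (mem_ball_iff_norm'.1 k2).le (norm_nonneg _) (by positivity)
  have e2 : 1 ≤ Real.exp S * (Real.exp R * (a i * ‖d‖)) := by
    refine d2.trans (mul_le_mul_of_nonneg_left ((ok_std_le _).1.trans ((h _).2.trans
      (mul_le_mul_of_nonneg_left ((ag_le _ _).trans_eq ?_) p1.le))) p2.le)
    rw [Finset.sum_eq_single i (fun k _ c => by simp [v2, c]) (by simp), v2, Pi.single_eq_same,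
      abs_of_nonneg (mul_nonneg (ha i).le (norm_nonneg _))]
  have e3 : (2 * M + 2) * (Real.exp R * (M + 1) * ε) ≤ a i * ‖d‖ := by
    refine le_of_mul_le_mul_left (le_trans (le_of_eq ?_) (e2.trans_eq (mul_assoc ..).symm))
      (mul_pos p2 p1)
    simp only [ε]
    field_simp
  have e4 : a i * ‖d‖ ≤ a i * ‖(f.1 *ᵥ t) i‖ + Real.exp R * (M + 1) * ε := by
    have := e1 i
    rw [Pi.single_eq_same] at this
    nlinarith [mul_le_mul_of_nonneg_left (norm_le_norm_add_norm_sub ((f.1 *ᵥ t) i) d) (ha i).le]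
  have e5 : 0 < Real.exp R * (M + 1) * ε := by positivity
  have e6 : (0 : ℝ) ≤ M := Nat.cast_nonneg M
  refine ⟨t, t1.mem_toFinset.2 k1, by nlinarith [mul_nonneg e6 e5.le], fun k c => ?_⟩
  have := e1 k
  rw [Pi.single_eq_of_ne c, sub_zero] at this
  nlinarith [mul_le_mul_of_nonneg_left this e6]

theorem ok_half {T : Finset (Fin M → P.K)} {f : Matrix (Fin M) (Fin M) P.K} {a b : Fin M → ℝ}
    (ha : ∀ k, 0 < a k) (hb : ∀ k, 0 < b k) {ρ : ℝ} (i : Fin M)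
    (hi : ∀ k, |Real.log (b k / a k)| ≤ Real.log (b i / a i))
    (h : ∃ t ∈ T, 0 < a i * ‖(f *ᵥ t) i‖ ∧
      ∀ k ≠ i, 2 * M * (a k * ‖(f *ᵥ t) k‖) ≤ a i * ‖(f *ᵥ t) i‖)
    (k : ∀ t ∈ T, nm f b t ≤ Real.exp ρ * nm f a t) : Real.log (b i / a i) ≤ 2 * ρ := by
  obtain ⟨t, h1, h2, h3⟩ := h
  set l := Real.log (b i / a i) with hl
  have l0 : 0 ≤ l := (abs_nonneg _).trans (hi i)
  have z2 : Real.exp (l / 2) ^ 2 = Real.exp l := by rw [← Real.exp_nat_mul]; congr 1; ring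
  have := ok_peak P.e (u := fun k => a k * ‖(f *ᵥ t) k‖) (w := fun k => b k * ‖(f *ᵥ t) k‖)
    (z := Real.exp (l / 2)) (Real.one_le_exp (by linarith))
    (fun k => mul_nonneg (ha k).le (norm_nonneg _)) i (by
      rw [z2, hl, Real.exp_log (div_pos (hb i) (ha i)), ← mul_assoc, div_mul_cancel₀ _ (ha i).ne'])
    (fun k => by
      rw [z2, ← mul_assoc]
      refine mul_le_mul_of_nonneg_right ((div_le_iff₀ (hb k)).1 ?_) (norm_nonneg _)
      rw [← Real.log_le_iff_le_exp (div_pos (ha k) (hb k)), ← inv_div, Real.log_inv]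
      exact (neg_le_abs _).trans (hi k)) h3
  have := Real.exp_le_exp.1
    (le_of_mul_le_mul_right (this.trans (k t h1)) (h2.trans_le (ok_le f a t i)))
  linarith

variable (M) in
/-- On a ball the distance is seen by finitely many test vectors. -/
theorem ok_test (spl : ∀ α β : Nm P M, ∃ f a b, IsUnit f ∧ (∀ k, 0 < a k) ∧ (∀ k, 0 < b k) ∧
    α.1 = nm f a ∧ β.1 = nm f b) (R : ℝ) : ∃ T : Finset (Fin M → P.K), ∀ α β : Nm P M,
      Cl R α.1 (Nm.std P M).1 → Cl R β.1 (Nm.std P M).1 → ∀ ρ, 0 ≤ ρ →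
      (∀ t ∈ T, α.1 t ≤ Real.exp ρ * β.1 t ∧ β.1 t ≤ Real.exp ρ * α.1 t) → Cl (2 * ρ) α.1 β.1 := by
  obtain ⟨T, hT⟩ := ok_net P M R
  refine ⟨T, fun α β h1 h2 ρ hρ h => ?_⟩
  obtain ⟨f, a, b, hf, ha, hb, e1, e2⟩ := spl α β
  rw [e1] at h1
  rw [e2] at h2
  rw [e1, e2] at h ⊢
  have sw (k) : Real.log (a k / b k) = -Real.log (b k / a k) := by rw [← inv_div, Real.log_inv]
  refine ok_wt f (fun k => (ha k).le) (fun k => (hb k).le) fun k => ?_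
  have : Nonempty (Fin M) := ⟨k⟩
  obtain ⟨i, hi⟩ := Finite.exists_max fun k => |Real.log (b k / a k)|
  have key : |Real.log (b i / a i)| ≤ 2 * ρ := by
    rcases le_total 0 (Real.log (b i / a i)) with c | c
    · rw [abs_of_nonneg c] at hi ⊢
      exact ok_half ha hb i hi (hT f a i hf ha h1) fun t k => (h t k).2
    · rw [abs_of_nonpos c, ← sw] at hi ⊢
      exact ok_half hb ha i (fun k => by rw [sw k, abs_neg]; exact hi k) (hT f b i hf hb h2)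
        fun t k => (h t k).1
  have := abs_le.1 ((hi k).trans key)
  exact ⟨(div_le_iff₀ (hb k)).1 ((Real.log_le_iff_le_exp (div_pos (ha k) (hb k))).1
      (by rw [sw]; linarith)),
    (div_le_iff₀ (ha k)).1 ((Real.log_le_iff_le_exp (div_pos (hb k) (ha k))).1 this.2)⟩

theorem ok_log {a b r : ℝ} (hr : 0 ≤ r) (ha : 0 ≤ a) (hb : 0 ≤ b) (h : a ≤ Real.exp r * b)
    (k : b ≤ Real.exp r * a) : Real.log a - Real.log b ≤ r := by
  rcases ha.eq_or_lt with rfl | ha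
  · simpa [le_antisymm (by simpa using k) hb] using hr
  · have hb' : 0 < b := (mul_pos_iff_of_pos_left (Real.exp_pos r)).1 (ha.trans_le h)
    rw [← Real.log_div ha.ne' hb'.ne', Real.log_le_iff_le_exp (div_pos ha hb'), div_le_iff₀ hb']
    exact h

theorem ok_exp {a b r : ℝ} (ha : 0 ≤ a) (hb : 0 ≤ b) (h0 : b = 0 → a = 0)
    (h : Real.log a - Real.log b ≤ r) : a ≤ Real.exp r * b := by
  rcases ha.eq_or_lt with rfl | ha
  · positivity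
  · have hb' : 0 < b := hb.lt_of_ne fun c => ha.ne' (h0 c.symm)
    rwa [← Real.log_div ha.ne' hb'.ne', Real.log_le_iff_le_exp (div_pos ha hb'),
      div_le_iff₀ hb'] at h

/-- Local doubling follows from the existence of common frames. -/
theorem ok_ld (spl : ∀ α β : Nm P M, ∃ f a b, IsUnit f ∧ (∀ k, 0 < a k) ∧ (∀ k, 0 < b k) ∧
    α.1 = nm f a ∧ β.1 = nm f b) : ∃ D, Ld (Nm P M) D := by
  classical
  obtain ⟨R, -, hR⟩ := ok_std P M
  obtain ⟨T, hT⟩ := ok_test M spl (1 + R)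
  refine ⟨Fintype.card (T → Finset.Icc (-4 : ℤ) 4), fun x r r0 r1 => ?_⟩
  obtain ⟨g, hg⟩ := hR x
  let cl : Nm P M → T → ℤ := fun y t =>
    ⌊(Real.log ((g • y).1 t) - Real.log ((g • x).1 t)) / (r / 4)⌋
  have c1 (y) (h : dist x y ≤ r) : Cl r (g • y).1 (g • x).1 :=
    (ok_smul g).2 ((ok_dist r0.le).1 h).ok_symm
  have c2 (y) (h : dist x y ≤ r) (t : T) : cl y t ∈ Finset.Icc (-4 : ℤ) 4 := by
    have a1 := ok_log r0.le ((g • y).nonneg t) ((g • x).nonneg t) (c1 y h t).1 (c1 y h t).2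
    have a2 := ok_log r0.le ((g • x).nonneg t) ((g • y).nonneg t) (c1 y h t).2 (c1 y h t).1
    rw [Finset.mem_Icc, Int.le_floor, Int.floor_le_iff, le_div_iff₀ (by positivity),
      div_lt_iff₀ (by positivity)]
    push_cast
    constructor <;> linarith
  have c3 (y z) (h : dist x y ≤ r) (k : dist x z ≤ r) (e : cl y = cl z) (t) (ht : t ∈ T) :
      (g • y).1 t ≤ Real.exp (r / 4) * (g • z).1 t := by
    refine ok_exp ((g • y).nonneg t) ((g • z).nonneg t) (fun c => ?_) ?_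
    · have : (g • x).1 t = 0 :=
        le_antisymm (by simpa [c] using (c1 z k t).2) ((g • x).nonneg t)
      exact le_antisymm (by simpa [this] using (c1 y h t).1) ((g • y).nonneg t)
    · have := (abs_lt.1 (Int.abs_sub_lt_one_of_floor_eq_floor (congrFun e ⟨t, ht⟩))).2
      rw [← sub_div, div_lt_one (by positivity)] at this
      linarith
  let rep : (T → Finset.Icc (-4 : ℤ) 4) → Nm P M := fun c =>
    if h : ∃ y, dist x y ≤ r ∧ cl y = fun t => (c t).1 then h.choose else x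
  refine ⟨Finset.univ.image rep, Finset.card_image_le, fun y h => ?_⟩
  have ex : ∃ z, dist x z ≤ r ∧ cl z = fun t => (⟨cl y t, c2 y h t⟩ : Finset.Icc (-4 : ℤ) 4).1 :=
    ⟨y, h, rfl⟩
  refine ⟨ex.choose, Finset.mem_image.2 ⟨fun t => ⟨cl y t, c2 y h t⟩, Finset.mem_univ _,
    dif_pos ex⟩, (ok_dist (by positivity)).2 ((ok_smul g).1 ?_)⟩
  obtain ⟨a1, a2⟩ := ex.choose_spec
  rw [show r / 2 = 2 * (r / 4) by ring]
  exact hT _ _ ((ok_up (c1 _ a1) r1).ok_trans hg) ((ok_up (c1 _ h) r1).ok_trans hg) _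
    (by positivity) fun t ht => ⟨c3 _ _ a1 h a2 t ht, c3 _ _ h a1 a2.symm t ht⟩

theorem ok_eqv {F : Type} [Field F] {f : Matrix (Fin M) (Fin M) F} (h : IsUnit f) :
    ∃ e : (Fin M → F) ≃ₗ[F] Fin M → F, ∀ t, e t = f *ᵥ t :=
  ⟨.ofBijective (Matrix.toLin' f)
    ⟨mulVec_injective_iff_isUnit.2 h, mulVec_surjective_iff_isUnit.2 h⟩, fun _ => rfl⟩

theorem ok_mat {F : Type} [Field F] (e : (Fin M → F) ≃ₗ[F] Fin M → F) :
    ∃ f : Matrix (Fin M) (Fin M) F, IsUnit f ∧ ∀ t, e t = f *ᵥ t := by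
  have k (t) : LinearMap.toMatrix' e.toLinearMap *ᵥ t = e t := LinearMap.toMatrix'_mulVec _ t
  exact ⟨_, mulVec_injective_iff_isUnit.1 fun s t c => e.injective (by rw [← k, ← k, c]),
    fun t => (k t).symm⟩

theorem ok_re {f₁ f₂ : Matrix (Fin M) (Fin M) ℝ} {w₁ w₂ : Fin M → ℝ} (u₁ : IsUnit f₁)
    (u₂ : IsUnit f₂) (h₁ : ∀ k, 0 < w₁ k) (h₂ : ∀ k, 0 < w₂ k) :
    ∃ (f : Matrix (Fin M) (Fin M) ℝ) (a b : Fin M → ℝ), IsUnit f ∧ (∀ k, 0 < a k) ∧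
      (∀ k, 0 < b k) ∧ ∀ t, ∑ k, (w₁ k * ‖(f₁ *ᵥ t) k‖) ^ 2 = ∑ k, (a k * ‖(f *ᵥ t) k‖) ^ 2 ∧
        ∑ k, (w₂ k * ‖(f₂ *ᵥ t) k‖) ^ 2 = ∑ k, (b k * ‖(f *ᵥ t) k‖) ^ 2 := by
  obtain ⟨e₁, k₁⟩ := ok_eqv u₁
  obtain ⟨e₂, k₂⟩ := ok_eqv u₂
  obtain ⟨e, a, b, ha, hb, -, h⟩ := GQ.spl_re e₁ e₂ w₁ w₂ h₁ h₂
  obtain ⟨f, u, k⟩ := ok_mat e
  simp only [k, k₁, k₂] at h
  exact ⟨f, a, b, u, ha, hb, h⟩

theorem Pl.ok_real : Pl.real.Ok := by
  suffices h : ∀ M (α β : Nm Pl.real M), ∃ f a b, IsUnit f ∧ (∀ k, 0 < a k) ∧ (∀ k, 0 < b k) ∧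
      α.1 = nm f a ∧ β.1 = nm f b from ⟨h, fun M => ok_ld (h M)⟩
  rintro M ⟨_, f₁, w₁, u₁, h₁, rfl⟩ ⟨_, f₂, w₂, u₂, h₂, rfl⟩
  obtain ⟨f, a, b, u, ha, hb, h⟩ := ok_re (f₁ := f₁) (f₂ := f₂) u₁ u₂ h₁ h₂
  exact ⟨f, a, b, u, ha, hb, funext fun t => congrArg Real.sqrt (h t).1,
    funext fun t => congrArg Real.sqrt (h t).2⟩

theorem ok_sup {x y : Fin M → ℝ} (hx : ∀ k, 0 ≤ x k) (hy : ∀ k, 0 ≤ y k)
    (h : ∀ r, 0 ≤ r → ((∀ k, x k ≤ r) ↔ ∀ k, y k ≤ r)) : ‖x‖ = ‖y‖ := by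
  have k (z : Fin M → ℝ) (hz : ∀ k, 0 ≤ z k) (r) (hr : 0 ≤ r) : ‖z‖ ≤ r ↔ ∀ k, z k ≤ r := by
    simp only [pi_norm_le_iff_of_nonneg hr, Real.norm_of_nonneg (hz _)]
  exact le_antisymm
    ((k x hx _ (norm_nonneg _)).2 ((h _ (norm_nonneg _)).2 ((k y hy _ (norm_nonneg _)).1 le_rfl)))
    ((k y hy _ (norm_nonneg _)).2 ((h _ (norm_nonneg _)).1 ((k x hx _ (norm_nonneg _)).1 le_rfl)))

theorem ok_na {K : Type} [NormedField K] [IsUltrametricDist K] {f₁ f₂ : Matrix (Fin M) (Fin M) K}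
    {w₁ w₂ : Fin M → ℝ} (u₁ : IsUnit f₁) (u₂ : IsUnit f₂) (h₁ : ∀ k, 0 < w₁ k)
    (h₂ : ∀ k, 0 < w₂ k) : ∃ (f : Matrix (Fin M) (Fin M) K) (a b : Fin M → ℝ), IsUnit f ∧
      (∀ k, 0 < a k) ∧ (∀ k, 0 < b k) ∧ ∀ t,
        ‖fun k => w₁ k * ‖(f₁ *ᵥ t) k‖‖ = ‖fun k => a k * ‖(f *ᵥ t) k‖‖ ∧
        ‖fun k => w₂ k * ‖(f₂ *ᵥ t) k‖‖ = ‖fun k => b k * ‖(f *ᵥ t) k‖‖ := by
  obtain ⟨e₁, k₁⟩ := ok_eqv u₁
  obtain ⟨e₂, k₂⟩ := ok_eqv u₂
  obtain ⟨e, a, b, ha, hb, -, h⟩ := GQ.spl_na_le e₁ e₂ w₁ w₂ h₁ h₂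
  obtain ⟨f, u, k⟩ := ok_mat e
  simp only [k, k₁, k₂] at h
  exact ⟨f, a, b, u, ha, hb, fun t =>
    ⟨ok_sup (fun k => mul_nonneg (h₁ k).le (norm_nonneg _))
      (fun k => mul_nonneg (ha k).le (norm_nonneg _)) fun r hr => (h t r hr).1,
    ok_sup (fun k => mul_nonneg (h₂ k).le (norm_nonneg _))
      (fun k => mul_nonneg (hb k).le (norm_nonneg _)) fun r hr => (h t r hr).2⟩⟩

theorem Pl.ok_padic (p : ℕ) [Fact p.Prime] : (Pl.padic p).Ok := by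
  suffices h : ∀ M (α β : Nm (Pl.padic p) M), ∃ f a b, IsUnit f ∧ (∀ k, 0 < a k) ∧
      (∀ k, 0 < b k) ∧ α.1 = nm f a ∧ β.1 = nm f b from ⟨h, fun M => ok_ld (h M)⟩
  rintro M ⟨_, f₁, w₁, u₁, h₁, rfl⟩ ⟨_, f₂, w₂, u₂, h₂, rfl⟩
  obtain ⟨f, a, b, u, ha, hb, h⟩ := ok_na (K := ℚ_[p]) (f₁ := f₁) (f₂ := f₂) u₁ u₂ h₁ h₂
  exact ⟨f, a, b, u, ha, hb, funext fun t => (h t).1, funext fun t => (h t).2⟩

end Pool.Agent.Lib.MP_5d3e93_al.Lq
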