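import Pool.Agent.Lib.MP_5d3e93_al.Lq.Def2

/-! Finiteness of the balls of the arithmetic group. -/

open Matrix Set

namespace Pool.Agent.Lib.MP_5d3e93_al.Lq

theorem rb_int {x : ℚ} (h : ∀ (p : ℕ) [Fact p.Prime], ‖(x : ℚ_[p])‖ ≤ 1) : ∃ z : ℤ, x = z := by
  refine ⟨x.num, ((Rat.den_eq_one_iff x).1 ?_).symm⟩
  by_contra hd
  obtain ⟨p, hp, hpd⟩ := Nat.exists_prime_and_dvd hd
  have := Fact.mk hp
  have e : (x.num : ℚ_[p]) = (x : ℚ_[p]) * (x.den : ℕ) := by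
    exact_mod_cast (Rat.mul_den_eq_num x).symm
  have h1 : ‖(x.num : ℚ_[p])‖ < 1 := by
    rw [e, norm_mul]
    exact mul_lt_one_of_nonneg_of_lt_one_right (h p) (norm_nonneg _)
      (Padic.norm_natCast_lt_one_iff.2 hpd)
  exact hp.one_lt.ne' (Nat.eq_one_of_dvd_coprimes x.reduced
    (Int.natCast_dvd.1 (Padic.norm_intCast_lt_one_iff.1 h1)) hpd)

theorem rb_fin {N : ℕ} (hN : N ≠ 0) (C : ℝ) : {x : ℚ | (∃ (k : ℕ) (z : ℤ), (N : ℚ) ^ k * x = z) ∧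
    |(x : ℝ)| ≤ C ∧ ∀ (p : ℕ) [Fact p.Prime], p ∣ N → ‖(x : ℚ_[p])‖ ≤ C}.Finite := by
  obtain ⟨K, hK⟩ := pow_unbounded_of_one_lt C one_lt_two
  have hN' : (0 : ℚ) < (N : ℚ) ^ K := pow_pos (by exact_mod_cast Nat.pos_of_ne_zero hN) K
  refine ((Set.finite_Icc (-(N ^ K * 2 ^ K : ℤ)) (N ^ K * 2 ^ K)).image
    fun z : ℤ => (z : ℚ) / (N : ℚ) ^ K).subset ?_
  rintro x ⟨⟨k, z, hz⟩, h1, h2⟩
  obtain ⟨y, hy⟩ := rb_int (x := (N : ℚ) ^ K * x) fun p hp => by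
    push_cast
    rw [norm_mul, norm_pow]
    by_cases h : p ∣ N
    · obtain ⟨c, rfl⟩ := h
      have a : ‖((p * c : ℕ) : ℚ_[p])‖ ≤ 2⁻¹ := by
        rw [Nat.cast_mul, norm_mul, Padic.norm_p]
        refine (mul_le_of_le_one_right (by positivity) ?_).trans
          (inv_anti₀ two_pos (by exact_mod_cast hp.out.two_le))
        exact_mod_cast Padic.norm_int_le_one (p := p) c
      calc _ ≤ (2⁻¹ : ℝ) ^ K * 2 ^ K := mul_le_mul (pow_le_pow_left₀ (norm_nonneg _) a K)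
            ((h2 p (dvd_mul_right _ _)).trans hK.le) (norm_nonneg _) (by positivity)
        _ = 1 := by rw [← mul_pow, inv_mul_cancel₀ two_ne_zero, one_pow]
    · have a : ‖(N : ℚ_[p])‖ = 1 :=
        Padic.norm_natCast_eq_one_iff.2 ((Nat.Prime.coprime_iff_not_dvd hp.out).2 h)
      have e : (N : ℚ_[p]) ^ k * x = z := by exact_mod_cast hz
      have := Padic.norm_int_le_one (p := p) z
      rw [← e, norm_mul, norm_pow, a, one_pow] at this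
      rwa [a, one_pow]
  refine ⟨y, abs_le.1 ?_, by simp only [← hy]; field_simp⟩
  have e : (y : ℝ) = (N : ℝ) ^ K * x := by exact_mod_cast hy.symm
  have : |(y : ℝ)| ≤ (N : ℝ) ^ K * 2 ^ K := by
    rw [e, abs_mul, abs_of_nonneg (by positivity)]
    exact mul_le_mul_of_nonneg_left (h1.trans hK.le) (by positivity)
  exact_mod_cast this

theorem rb_entry {P : Pl} {M : ℕ} {g : GL (Fin M) P.K} {R : ℝ}
    (h : dist (g • Nm.std P M) (Nm.std P M) ≤ R) (i j : Fin M) :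
    ‖(g⁻¹).1 i j‖ ≤ Real.exp (R + 1) := by
  obtain ⟨r, ⟨-, hr⟩, lt⟩ := exists_lt_of_csInf_lt (Nm.ex_cl (g • Nm.std P M) (Nm.std P M))
    (h.trans_lt (lt_add_one R))
  have h1 := (hr (Pi.single j 1)).1
  have h2 : (Nm.std P M).1 (Pi.single j 1) ≤ 1 := (ag_le _ _).trans (by
    rw [Finset.sum_eq_single j (fun l _ hl => by simp [hl]) (by simp)]
    simp)
  have h3 : ‖(g⁻¹).1 i j‖ ≤ (g • Nm.std P M).1 (Pi.single j 1) := by
    refine le_trans ?_ (le_ag P.e (fun k => 1 * ‖((1 : Matrix _ _ P.K) *ᵥ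
      ((g⁻¹).1 *ᵥ Pi.single j 1)) k‖) i)
    simp
  exact h3.trans (h1.trans ((mul_le_of_le_one_right (Real.exp_pos _).le h2).trans
    (Real.exp_le_exp.2 lt.le)))

theorem gn_fin (m : ℕ) {N : ℕ} (hN : N ≠ 0) (R : ℝ) :
    {g | len (pr (m + 1) N) g ≤ R}.Finite := by
  have hf := Set.Finite.pi' fun _ : Fin (m + 1) => Set.Finite.pi' fun _ : Fin (m + 1) =>
    rb_fin hN (Real.exp (R + 1))
  refine (hf.preimage (f := fun g : Gn (m + 1) N => fun i j => (g.1⁻¹).1 i j)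
    fun g _ g' _ e => Subtype.ext (inv_injective (Units.ext e))).subset fun g hg i j => ?_
  have h : ∀ v, ‖(((g.1⁻¹).1 i j : ℚ) : (pv N v).K)‖ ≤ Real.exp (R + 1) := fun v => by
    have := rb_entry ((dist_le_pi_dist (g • x0 (pr (m + 1) N)) (x0 _) v).trans hg) i j
    rwa [← map_inv] at this
  obtain ⟨k, hk⟩ := g.2
  exact ⟨⟨k, (hk i j).2⟩, h none, fun p hp hd =>
    h (some ⟨p, Nat.mem_primeFactors.2 ⟨hp.out, hd, hN⟩⟩)⟩

end Pool.Agent.Lib.MP_5d3e93_al.Lq
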