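import Pool.Agent.Lib.MP_5d3e93_al.Lq.Def2

/-! The action on proper nonzero subspaces. -/

open Matrix

namespace Pool.Agent.Lib.MP_5d3e93_al.Lq

theorem sb_map_mul {M : ℕ} (g h : GL (Fin M) ℚ) (W : Submodule ℚ (Fin M → ℚ)) :
    W.map (toLin' (g * h).1) = (W.map (toLin' h.1)).map (toLin' g.1) := by
  rw [Units.val_mul, toLin'_mul, Submodule.map_comp]

theorem sb_map_one {M : ℕ} (W : Submodule ℚ (Fin M → ℚ)) :
    W.map (toLin' (1 : GL (Fin M) ℚ).1) = W := by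
  rw [Units.val_one, toLin'_one, Submodule.map_id]

theorem sb_map_inv {M : ℕ} (g : GL (Fin M) ℚ) (W : Submodule ℚ (Fin M → ℚ)) :
    (W.map (toLin' g.1)).map (toLin' g⁻¹.1) = W := by
  rw [← sb_map_mul, inv_mul_cancel, sb_map_one]

theorem sb_map_top {M : ℕ} (g : GL (Fin M) ℚ) :
    (⊤ : Submodule ℚ (Fin M → ℚ)).map (toLin' g.1) = ⊤ := by
  have := sb_map_inv g⁻¹ ⊤
  rw [inv_inv] at this
  exact top_le_iff.1 (this.ge.trans (Submodule.map_mono le_top))

noncomputable instance (M N : ℕ) : MulAction (Gn M N) (Sb M) where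
  smul g W := ⟨W.1.map (toLin' g.1.1),
    fun h => W.2.1 (by rw [← sb_map_inv g.1 W.1, h, Submodule.map_bot]),
    fun h => W.2.2 (by rw [← sb_map_inv g.1 W.1, h, sb_map_top])⟩
  one_smul W := Subtype.ext (sb_map_one W.1)
  mul_smul g h W := Subtype.ext (sb_map_mul g.1 h.1 W.1)

theorem Sb.smul_val {M N : ℕ} (g : Gn M N) (W : Sb M) : (g • W).1 = W.1.map (toLin' g.1.1) := rfl

end Pool.Agent.Lib.MP_5d3e93_al.Lq
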