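import Pool.Agent.Lib.MP_5d3e93_al.Lq.CuB
import Pool.Agent.Lib.MP_5d3e93_al.Lq.SbA

/-! Cusp labels and the thick part for the arithmetic group. -/

open Matrix Module

namespace Pool.Agent.Lib.MP_5d3e93_al.Lq

variable {N m : ℕ} (hN : N ≠ 0) (y y' : Xr (pr (m + 1) N))

/-- The span of the vectors of small height. -/
def cuE (c : ℝ) : Submodule ℚ (Fin (m + 1) → ℚ) :=
  Submodule.span ℚ {t | (∀ i, t i ∈ Zs N) ∧ cuH y t ≤ c}

variable {y y'} in
theorem cuE_le {c c' l : ℝ} (l0 : 0 ≤ l) (h : ∀ t, cuH y' t ≤ l * cuH y t) (k : l * c ≤ c') :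
    cuE y c ≤ cuE y' c' := Submodule.span_mono fun t a =>
  ⟨a.1, (h t).trans ((mul_le_mul_of_nonneg_left a.2 l0).trans k)⟩

theorem cuE_mono : Monotone (cuE y) := fun _ _ h =>
  cuE_le zero_le_one (fun _ => (one_mul _).ge) ((one_mul _).trans_le h)

theorem cuE_act (g : Gn (m + 1) N) (c) : cuE (g • y) c = (cuE y c).map (toLin' g.1.1) := by
  rw [cuE, cuE, Submodule.map_span]
  congr 1
  ext t
  refine ⟨fun a => ⟨(g⁻¹).1.1 *ᵥ t, ⟨cu_act g⁻¹ a.1, ?_⟩, cu_inv g t⟩, ?_⟩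
  · rw [← cuH_act y g, cu_inv]
    exact a.2
  · rintro ⟨s, a, rfl⟩
    exact ⟨cu_act g a.1, (cuH_act y g s).trans_le a.2⟩

/-- The scaling factors. -/
noncomputable def cuθ : Option N.primeFactors → ℝ
  | none => (cuM y)⁻¹
  | some _ => 1

include hN in
theorem cuθ_pos : ∀ i, 0 < cuθ y i
  | none => inv_pos.2 (cuM_pos y hN)
  | some _ => one_pos

/-- The normalisation. -/
noncomputable def cuN : Xr (pr (m + 1) N) := fun i => cuS (cuθ y i) (cuθ_pos hN y i) (y i)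

variable {y y'} in
theorem cuN_lip {d : ℝ} (h : dist y y' ≤ d) (i t) : (cuN hN y i).1 t ≤
    Real.exp ((Fintype.card (Option N.primeFactors) + 1) * d) * (cuN hN y' i).1 t := by
  have a : cuθ y i ≤ Real.exp d ^ Fintype.card (Option N.primeFactors) * cuθ y' i := by
    cases i with
    | none =>
      have := cuM_lip (dist_comm y y' ▸ h)
      rwa [cuθ, cuθ, ← div_eq_mul_inv, le_div_iff₀ (cuM_pos y' hN), inv_mul_le_iff₀ (cuM_pos y hN),
        mul_comm]
    | some p => exact (one_le_pow₀ (Real.one_le_exp (dist_nonneg.trans h))).trans_eq (mul_one _).symm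
  rw [add_mul, one_mul, Real.exp_add, Real.exp_nat_mul, cuN, cuN]
  exact (mul_le_mul a (cu_cl h i t).1 ((y i).nonneg t)
    ((cuθ_pos hN y i).le.trans a)).trans_eq (mul_mul_mul_comm ..)

theorem cu_thick (C : ℝ) : ∃ D, ∀ y : Xr (pr (m + 1) N), cuE y (C * cuM y) = ⊤ →
    ∃ g : Gn (m + 1) N, dist (cuN hN y) (g • x0 (pr (m + 1) N)) ≤ D := by
  obtain ⟨D, D1, hD⟩ := red (m + 1) N C
  have D0 : 0 ≤ D := zero_le_one.trans D1
  have n0 : (0 : ℝ) ≤ N := N.cast_nonneg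
  have m1 : (1 : ℝ) ≤ (m + 1 : ℕ) := by exact_mod_cast m.succ_pos
  have m0 : 0 ≤ D * (m + 1 : ℕ) := by positivity
  have e0 := Real.add_one_le_exp (D * (m + 1 : ℕ) + N)
  refine ⟨D * (m + 1 : ℕ) + N, fun y h => ?_⟩
  obtain ⟨v, v1, v2⟩ := cu_basis h
  have M0 := cuM_pos y hN
  obtain ⟨γ, g1, g2⟩ := hD _ _ _ M0 (cu_snr y) (cu_snp y)
    (fun t a b => (cuM_le y a b).trans_eq (cu_ht y t).symm) v v1 (fun k => (v2 k).1)
    fun k => (cu_ht y _).trans_le (v2 k).2
  let g : Gn (m + 1) N := ⟨γ, cu_mem g1⟩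
  refine ⟨g, (dist_pi_le_iff (by positivity)).2 fun i => (Nm.dist_le (by positivity)).2 ?_⟩
  have key (t) : (cuN hN y i).1 (cuV _ (γ.1 *ᵥ t)) ≤ Real.exp (D * (m + 1 : ℕ) + N) *
      (Nm.std _ _).1 (cuV (pv N i) t) ∧ (Nm.std _ _).1 (cuV (pv N i) t) ≤
        Real.exp (D * (m + 1 : ℕ) + N) * (cuN hN y i).1 (cuV _ (γ.1 *ᵥ t)) := by
    have s0 := (Nm.std _ _).nonneg (cuV (pv N i) t)
    have s1 := (cuN hN y i).nonneg (cuV _ (γ.1 *ᵥ t))
    cases i with
    | none =>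
      obtain ⟨a, b⟩ := (g2 t).1
      have c : ‖t‖ ≤ (Nm.std _ _).1 (cuV (pv N none) t) :=
        (pi_norm_le_iff_of_nonneg s0).2 fun j => cu_std (cuV (pv N none) t) j
      have d := cu_std' (cuV (pv N none) t) (c := ‖t‖) fun j => norm_le_pi_norm t j
      have e : (y none).1 (cuV _ (γ.1 *ᵥ t)) = cuM y * (cuN hN y none).1 (cuV _ (γ.1 *ᵥ t)) :=
        (mul_inv_cancel_left₀ M0.ne' _).symm
      rw [e] at a b
      rw [mul_left_comm] at a
      rw [mul_comm D, mul_assoc] at b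
      have a' := le_of_mul_le_mul_left a M0
      have b' := le_of_mul_le_mul_left b M0
      exact ⟨b'.trans (mul_le_mul (by nlinarith) c (norm_nonneg _) (Real.exp_pos _).le),
        d.trans ((mul_le_mul_of_nonneg_left a' (by positivity)).trans (by
          rw [← mul_assoc]
          exact mul_le_mul_of_nonneg_right (by linarith) s1))⟩
    | some p =>
      obtain ⟨a, b⟩ := (g2 t).2 p p.2
      have e : cuZ y p (γ.1 *ᵥ t) = (cuN hN y (some p)).1 (cuV _ (γ.1 *ᵥ t)) :=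
        (dif_pos p.2).trans (one_mul _).symm
      have q : (p : ℝ) ≤ N := by exact_mod_cast Nat.le_of_mem_primeFactors p.2
      rw [e] at a b
      refine ⟨(b _ s0 fun j => (pv_some p _).symm.trans_le (cu_std (cuV _ t) j)).trans
        (le_mul_of_one_le_left s0 (by linarith)), cuN_le (P := pv N (some p)) (f := 1)
          (w := fun _ => 1) rfl (mul_nonneg (Real.exp_pos _).le s1) fun j => ?_⟩
      rw [one_mul, one_mulVec, abs_norm]
      exact (pv_some p _).trans_le ((a j).trans (mul_le_mul_of_nonneg_right (by linarith) s1))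
  have k (t) := key ((g⁻¹).1.1 *ᵥ t)
  have l (t) : (Nm.std _ _).1 (cuV (pv N i) ((g⁻¹).1.1 *ᵥ t)) =
      ((g • x0 (pr (m + 1) N)) i).1 (cuV _ t) := by
    rw [← cu_inv g t, cu_place, cu_inv]
    rfl
  simp only [l, show ∀ t, γ.1 *ᵥ ((g⁻¹).1.1 *ᵥ t) = t from cu_inv g] at k
  exact fun t => ⟨cuN_dense (pv_dense i) (fun t => (k t).1) t,
    cuN_dense (pv_dense i) (fun t => (k t).2) t⟩

theorem gn_cu (m : ℕ) {N : ℕ} (hN : N ≠ 0) : Nonempty (Cu (pr (m + 1) N) (Sb (m + 1)) m) := ⟨{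
  nz := cuN hN
  L := Fintype.card (Option N.primeFactors) + 1
  lab k y U := finrank ℚ U.1 = k + 1 ∧ ∃ c, U.1 = cuE y c
  sc y i := ⟨_, cuθ_pos hN y i, fun _ => rfl⟩
  eqv g y := funext fun i => Subtype.ext (funext fun t => by
    have : cuθ (g • y) i = cuθ y i := by
      cases i with
      | none => rw [cuθ, cuθ, cuM_act]
      | some p => rfl
    exact congrArg (· * _) this)
  lip y y' := (dist_pi_le_iff (by positivity)).2 fun i => (Nm.dist_le (by positivity)).2 fun t =>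
    ⟨cuN_lip hN le_rfl i t, cuN_lip hN (dist_comm ..).le i t⟩
  uniq k y U U' := fun ⟨a, c, b⟩ ⟨a', c', b'⟩ => Subtype.ext (by
    rcases le_total c c' with h | h
    · exact Submodule.eq_of_le_of_finrank_eq (b ▸ b' ▸ cuE_mono y h) (a.trans a'.symm)
    · exact (Submodule.eq_of_le_of_finrank_eq (b ▸ b' ▸ cuE_mono y h) (a'.trans a.symm)).symm)
  smul k g y U := fun ⟨a, c, b⟩ => ⟨by
    rw [← a]
    refine (Submodule.finrank_map_le ..).antisymm ?_
    conv_lhs => rw [← sb_map_inv g.1 U.1]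
    exact Submodule.finrank_map_le .., c, by rw [Sb.smul_val, b, cuE_act]⟩
  thick β := by
    let l := Real.exp |β| ^ Fintype.card (Option N.primeFactors)
    have l1 : 1 ≤ l := one_le_pow₀ (Real.one_le_exp (abs_nonneg β))
    have l0 := zero_le_one.trans l1
    obtain ⟨D, hD⟩ := cu_thick (m := m) hN ((l * l) ^ m * 2)
    refine ⟨D, fun y => ?_⟩
    have M0 := cuM_pos y hN
    have mo : Monotone fun j : ℕ => cuE y ((l * l) ^ j * 2 * cuM y) := fun i j h => cuE_mono y (by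
      gcongr
      exact one_le_mul_of_one_le_of_one_le l1 l1)
    have h0 : cuE y ((l * l) ^ 0 * 2 * cuM y) ≠ ⊥ := by
      obtain ⟨_, ⟨t, a, rfl⟩, b⟩ := exists_lt_of_csInf_lt (cuT_ne y) (lt_two_mul_self M0)
      refine (Submodule.ne_bot_iff _).2 ⟨t, Submodule.subset_span ⟨a.1, ?_⟩, a.2⟩
      rw [pow_zero, one_mul]
      exact b.le
    refine (cu_chain mo h0).imp (fun ⟨j, a, b⟩ => ?_) (hD y)
    let U : Sb (m + 1) := ⟨_, ne_bot_of_le_ne_bot h0 (mo j.zero_le), b⟩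
    obtain ⟨k, hk⟩ := cu_rank U
    refine ⟨k, U, fun y' h => ⟨hk, l * ((l * l) ^ j * 2 * cuM y), le_antisymm
      (cuE_le l0 (cuH_lip ((dist_comm ..).trans_le (h.trans (le_abs_self β)))) le_rfl) ?_⟩⟩
    exact (cuE_le l0 (cuH_lip (h.trans (le_abs_self β))) (le_of_eq (by ring))).trans a.ge }⟩

end Pool.Agent.Lib.MP_5d3e93_al.Lq
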