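import Pool.Agent.Lib.MP_5d3e93_al.K.Geo
import Pool.Agent.Lib.MP_5d3e93_al.GQ.Ind
import Pool.Agent.Lib.MP_5d3e93_al.Lq.AsC
import Pool.Agent.Lib.MP_5d3e93_al.Lq.GrB
import Pool.Agent.Lib.MP_5d3e93_al.Lq.Ok
import Pool.Agent.Lib.MP_5d3e93_al.Lq.RedB
import Pool.Agent.Lib.MP_5d3e93_al.Lq.RedC

/-! Rational representations. -/

open CategoryTheory Limits MulAction

namespace Pool.Agent.Lib.MP_5d3e93_al

open Lq

universe w v u

/-- The coloured covers for the arithmetic groups. -/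
theorem Lq.geo_gn (m : ℕ) {N : ℕ} (hN : N ≠ 0) : ∃ (κ : Type) (_ : Fintype κ) (n : ℕ),
    ∀ (F : Finset (Gn (m + 1) N)) (R : ℕ), Nonempty (Geo (Gn (m + 1) N) κ n
      (fun H => VF H ∨ ∃ W : Sb (m + 1), H = stabilizer (Gn (m + 1) N) W) F R) := by
  obtain ⟨U⟩ := gn_cu m hN
  exact geo_of (fun i => match i with
    | none => Pl.ok_real
    | some p => @Pl.ok_padic p ⟨Nat.prime_of_mem_primeFactors p.2⟩) _ (gn_fin m hN) U

variable {C : Type u} [Category.{v} C] [Preadditive C] [HasBinaryBiproducts C] [HasZeroObject C]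

/-- The reduction to subgroups with hyper-polycyclic image in a rational linear group. -/
theorem glq (M : ℕ) : ∀ (Γ : Type w) [Group Γ] (σ : Act Γ C), Sw σ → ∀ q : Γ →* GL (Fin M) ℚ,
    (∀ (Δ : Type w) [Group Δ] (j : Δ →* Γ), Function.Injective j → Hyper (q.comp j).range →
      KZ (σ.comap j)) → KZ σ := by
  refine glq_ind (fun M M0 Γ _ _ σ hs q h => ?_) M
  obtain ⟨m, rfl⟩ := Nat.exists_eq_succ_of_ne_zero M0.ne'
  obtain ⟨N, N0, c⟩ := ex_gn q
  obtain ⟨κ, _, n, g⟩ := geo_gn m N0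
  refine kz_geo hs (q.codRestrict _ c) g fun H U a b => h H ?_
  obtain a | ⟨W, rfl⟩ := a
  · refine .inl ((a.hyper.map (Gn (m + 1) N).subtype).le ?_)
    rintro _ ⟨x, e, rfl⟩
    exact ⟨_, b e, rfl⟩
  · refine .inr ⟨W.1, W.2.1, W.2.2, fun x e t k => ?_⟩
    exact ((Sb.smul_val _ W).symm.trans (congrArg (fun V : Sb (m + 1) => V.1) (b e))).le
      ⟨t, k, rfl⟩

end Pool.Agent.Lib.MP_5d3e93_al
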