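import Pool.Agent.Lib.MP_5d3e93_al.Lq.Def2

/-! Uncoloured covers and cusp labels give a coloured cover. -/

open MulAction Set

namespace Pool.Agent.Lib.MP_5d3e93_al.Lq

section Paths

variable {Y : Type*} {ρ : Y → Y → Prop}

theorem Pa.trans {k l : ℕ} : ∀ {x y z : Y}, Pa ρ k x y → Pa ρ l y z → Pa ρ (k + l) x z := by
  induction k with
  | zero =>
    intro x y z a b
    rw [Nat.zero_add]
    exact (show x = y from a) ▸ b
  | succ k ih =>
    rintro x y z ⟨u, a, b⟩ c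
    rw [Nat.add_right_comm]
    exact ⟨u, a, ih b c⟩

theorem Pa.symm (h : ∀ x y, ρ x y → ρ y x) {k : ℕ} : ∀ {x y : Y}, Pa ρ k x y → Pa ρ k y x := by
  induction k with
  | zero => exact Eq.symm
  | succ k ih =>
    rintro x y ⟨z, a, b⟩
    exact (ih b).trans (l := 1) ⟨x, h _ _ a, rfl⟩

theorem Pa.rfl (h : ∀ y, ρ y y) (k : ℕ) (y : Y) : Pa ρ k y y := by
  induction k with
  | zero => exact Eq.refl y
  | succ k ih => exact ⟨y, h y, ih⟩

theorem Pa.mono (h : ∀ y, ρ y y) {k l : ℕ} (hk : k ≤ l) {x y : Y} (p : Pa ρ k x y) :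
    Pa ρ l x y :=
  Nat.add_sub_cancel' hk ▸ p.trans (Pa.rfl h (l - k) y)

theorem Pa.smul {Γ : Type*} [Group Γ] [MulAction Γ Y]
    (h : ∀ (g : Γ) x y, ρ x y → ρ (g • x) (g • y)) (g : Γ) {k : ℕ} :
    ∀ {x y : Y}, Pa ρ k x y → Pa ρ k (g • x) (g • y) := by
  induction k with
  | zero => exact congrArg (g • ·)
  | succ k ih =>
    rintro x y ⟨z, a, b⟩
    exact ⟨g • z, h g _ _ a, ih b⟩

end Paths

/-- Nonempty finite sets of labels. -/
@[ext] structure AsF (I : Type) where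
  s : Set I
  fin : s.Finite
  ne : s.Nonempty

variable {Γ Z I : Type} [Group Γ] [MulAction Γ Z] [MulAction Γ I]

instance : MulAction Γ (AsF I) where
  smul g a := ⟨(g • ·) '' a.s, a.fin.image _, a.ne.image _⟩
  one_smul a := AsF.ext (show ((1 : Γ) • ·) '' a.s = a.s by simp)
  mul_smul g h a := AsF.ext (show ((g * h) • ·) '' a.s = (g • ·) '' ((h • ·) '' a.s) by
    simp [image_image, mul_smul])

theorem AsF.mem_smul {g : Γ} {a : AsF I} {U : I} : U ∈ (g • a).s ↔ g⁻¹ • U ∈ a.s :=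
  ⟨fun ⟨V, h, e⟩ => by simpa [← e] using h, fun h => ⟨_, h, smul_inv_smul g U⟩⟩

theorem AsF.vf (h : ∀ U : I, Finite (⁅stabilizer Γ U, stabilizer Γ U⁆ : Subgroup Γ)) (a : AsF I)
    {H : Subgroup Γ} (hH : H ≤ stabilizer Γ a) : VF H := by
  obtain ⟨U, hU⟩ := a.ne
  refine ⟨(stabilizer Γ U).subgroupOf H, ⟨?_⟩, ?_⟩
  · have e : (stabilizer Γ U).subgroupOf H = stabilizer H U := rfl
    rw [e, index_stabilizer]
    refine ((ncard_pos (a.fin.subset ?_)).2 ⟨U, mem_orbit_self U⟩).ne'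
    rintro _ ⟨g, rfl⟩
    have := congrArg AsF.s (mem_stabilizer_iff.1 (hH g.2))
    rw [← this]
    exact ⟨U, hU, rfl⟩
  · have l := (Subgroup.map_commutator ((stabilizer Γ U).subgroupOf H)
      ((stabilizer Γ U).subgroupOf H) H.subtype).le.trans (Subgroup.commutator_mono
        (Subgroup.map_le_iff_le_comap.2 le_rfl) (Subgroup.map_le_iff_le_comap.2 le_rfl))
    have := h U
    exact Finite.of_injective (fun x => (⟨_, l ⟨x.1, x.2, rfl⟩⟩ :
      (⁅stabilizer Γ U, stabilizer Γ U⁆ : Subgroup Γ)))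
      fun x y e => Subtype.ext (H.subtype_injective (Subtype.mk.inj e))

variable (ρ : Z → Z → Prop) (Mem : Z → I → Prop)

/-- The labels that contain the ball of radius `t`. -/
def asDeep (t : ℕ) (y : Z) : Set I := {U | ∀ y', Pa ρ t y y' → Mem y' U}

/-- Coloured labels: the colour is the number of deep labels. -/
def asCol (c : ℕ) (y : Z) (a : AsF I) : Prop :=
  a.s.ncard = c + 1 ∧ ∃ t, a.s = asDeep ρ Mem t y

variable {ρ Mem}

theorem as_step {t r : ℕ} {y y' : Z} (p : Pa ρ r y y') :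
    asDeep ρ Mem (t + r) y ⊆ asDeep ρ Mem t y' := fun _ h z q =>
  h z (Nat.add_comm r t ▸ p.trans q)

theorem as_anti (h1 : ∀ y, ρ y y) {s t : ℕ} (h : s ≤ t) (y : Z) :
    asDeep ρ Mem t y ⊆ asDeep ρ Mem s y := fun _ k z q => k z (q.mono h1 h)

theorem as_uniq (h1 : ∀ y, ρ y y) (c : ℕ) (y : Z) (a b : AsF I) (h : asCol ρ Mem c y a)
    (k : asCol ρ Mem c y b) : a = b := by
  obtain ⟨h, s, e⟩ := h
  obtain ⟨k, t, f⟩ := k
  rcases le_total s t with m | m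
  · exact AsF.ext (eq_of_subset_of_ncard_le (f ▸ e ▸ as_anti h1 m y) (h.trans k.symm).le
      a.fin).symm
  · exact AsF.ext (eq_of_subset_of_ncard_le (f ▸ e ▸ as_anti h1 m y) (k.trans h.symm).le b.fin)

theorem as_deep (h3 : ∀ (g : Γ) x y, ρ x y → ρ (g • x) (g • y))
    (h5 : ∀ (g : Γ) y U, Mem y U → Mem (g • y) (g • U)) (g : Γ) {t : ℕ} {y : Z} {U : I}
    (h : U ∈ asDeep ρ Mem t y) : g • U ∈ asDeep ρ Mem t (g • y) := fun y' p =>
  smul_inv_smul g y' ▸ h5 g _ U (h _ (inv_smul_smul g y ▸ p.smul h3 g⁻¹))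

theorem as_smul (h3 : ∀ (g : Γ) x y, ρ x y → ρ (g • x) (g • y))
    (h5 : ∀ (g : Γ) y U, Mem y U → Mem (g • y) (g • U)) (c : ℕ) (g : Γ) (y : Z) (a : AsF I)
    (h : asCol ρ Mem c y a) : asCol ρ Mem c (g • y) (g • a) := by
  obtain ⟨h, t, e⟩ := h
  refine ⟨(ncard_image_of_injective _ (MulAction.injective g)).trans h, t, ?_⟩
  ext U
  rw [AsF.mem_smul, e]
  exact ⟨fun k => smul_inv_smul g U ▸ as_deep h3 h5 g k,
    fun k => inv_smul_smul g y ▸ as_deep h3 h5 g⁻¹ k⟩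

/-- A long ball inside one label gives a shorter ball inside one coloured label. -/
theorem as_ex (h1 : ∀ y, ρ y y) (h2 : ∀ x y, ρ x y → ρ y x) {N R : ℕ} {y : Z}
    (hN : ∀ s : Finset I, (∀ U ∈ s, Mem y U) → s.card ≤ N)
    (h : ∃ U, ∀ y', Pa ρ (2 * R * N) y y' → Mem y' U) :
    ∃ (c : Fin N) (a : AsF I), ∀ y', Pa ρ R y y' → asCol ρ Mem c y' a := by
  have fin : {U | Mem y U}.Finite := by
    by_contra k
    obtain ⟨s, a, b⟩ := Set.Infinite.exists_subset_card_eq k (N + 1)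
    have := hN s fun U hU => a hU
    omega
  have ord : {U | Mem y U}.ncard ≤ N :=
    ncard_eq_toFinset_card _ fin ▸ hN _ fun U hU => fin.mem_toFinset.1 hU
  have s0 (t) : asDeep ρ Mem t y ⊆ {U | Mem y U} := fun U k => k y (Pa.rfl h1 t y)
  have ne (m) (k : m ≤ N) : (asDeep ρ Mem (2 * R * m) y).Nonempty :=
    h.imp fun U a => as_anti h1 (Nat.mul_le_mul_left _ k) y a
  obtain ⟨m, hm, e⟩ : ∃ m < N, asDeep ρ Mem (2 * R * m) y ⊆ asDeep ρ Mem (2 * R * (m + 1)) y := by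
    by_contra! k
    have (m) (hm : m ≤ N) : (asDeep ρ Mem (2 * R * m) y).ncard + m ≤ N := by
      induction m with
      | zero => exact (ncard_le_ncard (s0 _) fin).trans ord
      | succ m ih =>
        have := ncard_lt_ncard (s := asDeep ρ Mem (2 * R * (m + 1)) y)
          ⟨as_anti h1 (Nat.mul_le_mul_left _ m.le_succ) y, k m hm⟩ (fin.subset (s0 _))
        have := ih (by omega)
        omega
    have a := this N le_rfl
    have := (ncard_pos (fin.subset (s0 _))).2 (ne N le_rfl)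
    omega
  have a := (ncard_pos (fin.subset (s0 _))).2 (ne m hm.le)
  have b := (ncard_le_ncard (s0 (2 * R * m)) fin).trans ord
  refine ⟨⟨(asDeep ρ Mem (2 * R * m) y).ncard - 1, by omega⟩,
    ⟨_, fin.subset (s0 _), ne m hm.le⟩, fun y' p => ⟨by simp only; omega, 2 * R * m + R,
      Subset.antisymm (e.trans ?_) (as_step (p.symm h2))⟩⟩
  rw [show 2 * R * (m + 1) = 2 * R * m + R + R by ring]
  exact as_step p

theorem geo_mk {Γ Y W 𝒥 : Type} [Group Γ] [MulAction Γ Y] [MulAction Γ W] {I : 𝒥 → Type}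
    [∀ J, MulAction Γ (I J)] {ρ : Y → Y → Prop} (h1 : ∀ y, ρ y y) (h2 : ∀ x y, ρ x y → ρ y x)
    (h3 : ∀ (g : Γ) x y, ρ x y → ρ (g • x) (g • y)) {n c N R : ℕ} (mem : ∀ J, Y → I J → Prop)
    (m1 : ∀ J (g : Γ) y U, mem J y U → mem J (g • y) (g • U))
    (m2 : ∀ J y (s : Finset (I J)), (∀ U ∈ s, mem J y U) → s.card ≤ n)
    (m3 : ∀ J (U : I J), Finite (⁅stabilizer Γ U, stabilizer Γ U⁆ : Subgroup Γ))
    (lab : 𝒥 → Fin c → Y → W → Prop) (l1 : ∀ J k y U U', lab J k y U → lab J k y U' → U = U')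
    (l2 : ∀ J k (g : Γ) y U, lab J k y U → lab J k (g • y) (g • U))
    (lg : ∀ y, ∃ J, (∃ U, ∀ y', Pa ρ ((n + 1) * (2 * R + 1)) y y' → mem J y' U) ∨
      ∃ k U, ∀ y', Pa ρ ((n + 1) * (2 * R + 1)) y y' → lab J k y' U)
    {F : Set Γ} (tf : Tf Γ ρ F N) : Nonempty (Geo Γ (𝒥 × (Fin n ⊕ Fin c)) N
      (fun H => VF H ∨ ∃ w : W, H = stabilizer Γ w) F R) := by
  refine ⟨{ Y := Y
            I := (Σ J, AsF (I J)) ⊕ W
            ρ := ρ
            lab := fun k y U => k.2.elim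
              (fun i : Fin n => ∃ a, U = .inl ⟨k.1, a⟩ ∧ asCol ρ (mem k.1) i y a)
              fun i => ∃ w, U = .inr w ∧ lab k.1 i y w
            refl := h1
            symm := h2
            inv := h3
            uniq := ?_
            smul := ?_
            long := fun y => ?_
            stab := ?_
            tf := tf }⟩
  · rintro ⟨J, i | i⟩ y _ _ ⟨a, rfl, p⟩ ⟨b, rfl, q⟩
    · rw [as_uniq h1 _ _ _ _ p q]
    · rw [l1 _ _ _ _ _ p q]
  · rintro ⟨J, i | i⟩ g y _ ⟨a, rfl, p⟩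
    · exact ⟨g • a, rfl, as_smul h3 (m1 J) _ g y a p⟩
    · exact ⟨g • a, rfl, l2 _ _ _ _ _ p⟩
  · obtain ⟨J, ⟨U, h⟩ | ⟨k, U, h⟩⟩ := lg y
    · obtain ⟨i, a, p⟩ := as_ex (R := R) h1 h2 (m2 J y)
        ⟨U, fun y' q => h y' (q.mono h1 (by nlinarith))⟩
      exact ⟨(J, .inl i), .inl ⟨J, a⟩, fun y' q => ⟨a, rfl, p y' q⟩⟩
    · exact ⟨(J, .inr k), .inr U, fun y' q => ⟨U, rfl, h y' (q.mono h1 (by nlinarith))⟩⟩
  · rintro (⟨J, a⟩ | w)
    · exact .inl (AsF.vf (m3 J) a fun g hg =>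
        eq_of_heq (Sigma.mk.inj (Sum.inl.inj (mem_stabilizer_iff.1 hg))).2)
    · exact .inr ⟨w, Subgroup.ext fun g => ⟨fun hg => Sum.inr.inj (mem_stabilizer_iff.1 hg),
        fun hg => congrArg Sum.inr (mem_stabilizer_iff.1 hg)⟩⟩

end Pool.Agent.Lib.MP_5d3e93_al.Lq
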