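import Pool.Agent.Lib.MP_5d3e93_al.Lq.ChP
import Pool.Agent.Lib.MP_5d3e93_al.Lq.Def2

/-! Rips chains: contractible sets are acyclic at every scale; compression to a finite net. -/

namespace Pool.Agent.Lib.MP_5d3e93_al.Lq

universe w'

open Finsupp Bg Filter Topology

variable {X : Type w'} [PseudoMetricSpace X]

/-- Lists of small diameter. -/
def Sm (δ : ℝ) (l : List X) : Prop := ∀ x ∈ l, ∀ y ∈ l, dist x y < δ

/-- Lists of small diameter in a set. -/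
def Si (δ : ℝ) (K : Set X) (l : List X) : Prop := Sm δ l ∧ ∀ x ∈ l, x ∈ K

variable {δ : ℝ} {K : Set X}

theorem Sm.sub {l l' : List X} (h : Sm δ l) (s : l'.Sublist l) : Sm δ l' :=
  fun x a y b => h x (s.subset a) y (s.subset b)

theorem Si.sub {l l' : List X} (h : Si δ K l) (s : l'.Sublist l) : Si δ K l' :=
  ⟨h.1.sub s, fun x a => h.2 x (s.subset a)⟩

theorem Si.mono {δ' : ℝ} {K' : Set X} {l : List X} (h : Si δ K l) (a : δ ≤ δ') (b : K ⊆ K') :
    Si δ' K' l := ⟨fun x p y q => (h.1 x p y q).trans_le a, fun x p => b (h.2 x p)⟩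

theorem sm_iff (h : 0 < δ) {l : List X} : Sm δ l ↔ l.Pairwise fun x y => dist x y < δ :=
  ⟨fun k => List.pairwise_of_forall_mem_list k, fun k x a y b =>
    have : Std.Symm fun x y : X => dist x y < δ := ⟨fun _ _ e => by rwa [dist_comm]⟩
    List.Pairwise.forall_of_forall (R := fun x y => dist x y < δ)
      (fun _ _ => by simpa using h) k a b⟩

theorem Sm.map {f : X → X} {l : List X} (h : Sm δ l) (k : ∀ x y, dist (f x) (f y) ≤ dist x y) :
    Sm δ (l.map f) := fun _ a _ b => by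
  obtain ⟨x, p, rfl⟩ := List.mem_map.1 a
  obtain ⟨y, q, rfl⟩ := List.mem_map.1 b
  exact (k x y).trans_lt (h x p y q)

/-- Sets that contract to a point through short maps. -/
def Ctr (K : Set X) : Prop := ∃ a ∈ K, ∃ h : unitInterval → X → X, (∀ t, ∀ x ∈ K, h t x ∈ K) ∧
  (∀ t, ∀ x ∈ K, ∀ y ∈ K, dist (h t x) (h t y) ≤ dist x y) ∧
  (∀ x ∈ K, Continuous fun t => h t x) ∧ (∀ x ∈ K, dist (h 0 x) x = 0) ∧
  ∀ x ∈ K, dist (h 1 x) a = 0

/-- Close maps give homologous cycles. -/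
theorem chn_close {k : ℕ} {c : List X →₀ ℤ} (e : Fg.dC c = 0) (f g : X → X)
    (h : ∀ m ∈ c.support, m.length = k ∧ ∀ x ∈ m, f x ∈ K ∧ g x ∈ K ∧ ∀ y ∈ m,
      dist (f x) (f y) < δ ∧ dist (f x) (g y) < δ ∧ dist (g x) (g y) < δ) :
    mp g c - mp f c ∈ (Cp (Si δ K) (k + 1)).map Fg.dC := by
  refine ⟨prL f g c, acy_lin _ ((mem_supported ℤ c).2 subset_rfl) fun m hm => ?_, ?_⟩
  · obtain ⟨rfl, a⟩ := h m hm
    rw [prL_single]
    refine cp_mono (fun l _ p => ⟨fun z hz z' hz' => ?_, fun z hz => ?_⟩) (prs_mem f g m)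
    · obtain ⟨x, b, rfl | rfl⟩ := p z hz <;> obtain ⟨y, b', rfl | rfl⟩ := p z' hz'
      exacts [((a x b).2.2 y b').1, ((a x b).2.2 y b').2.1,
        dist_comm (f y) (g x) ▸ ((a y b').2.2 x b).2.1, ((a x b).2.2 y b').2.2]
    · obtain ⟨x, b, rfl | rfl⟩ := p z hz
      exacts [(a x b).1, (a x b).2.1]
  · rw [← prL_id, e, map_zero, add_zero]

theorem Ctr.acy (h : Ctr K) (hδ : 0 < δ) : Acy (Si δ K) := by
  obtain ⟨a, ha, h, h1, h2, h3, h4, h5⟩ := h
  intro k c hc e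
  have s : ∀ m ∈ c.support, m.length = k ∧ Si δ K m := fun m hm =>
    cp_supp hc (mem_support_iff.1 hm)
  have b : ∀ m ∈ c.support, ∀ t, ∀ x ∈ m, ∀ y ∈ m, dist (h t x) (h t y) < δ := fun m hm t x p y q =>
    (h2 t x ((s m hm).2.2 x p) y ((s m hm).2.2 y q)).trans_lt ((s m hm).2.1 x p y q)
  let N := (Cp (Si δ K) (k + 1)).map Fg.dC
  have lc : IsLocallyConstant fun t => N.mkQ (mp (h t) c) := by
    refine (IsLocallyConstant.iff_eventually_eq _).2 fun t => ?_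
    have : ∀ᶠ t' in 𝓝 t, ∀ m ∈ c.support, ∀ x ∈ m, ∀ y ∈ m, dist (h t x) (h t' y) < δ :=
      (eventually_all_finset _).2 fun m hm => (eventually_all_finite m.finite_toSet).2 fun x p =>
        (eventually_all_finite m.finite_toSet).2 fun y q =>
          (continuous_const.dist (h3 y ((s m hm).2.2 y q))).continuousAt.eventually_lt
            continuousAt_const (b m hm t x p y q)
    refine this.mono fun t' z => (Submodule.Quotient.eq N).2 (chn_close e _ _ fun m hm =>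
      ⟨(s m hm).1, fun x p => ⟨h1 _ x ((s m hm).2.2 x p), h1 _ x ((s m hm).2.2 x p), fun y q =>
        ⟨b m hm t x p y q, z m hm x p y q, b m hm t' x p y q⟩⟩⟩)
  have e1 : mp (h 0) c - mp (h 1) c ∈ N :=
    (Submodule.Quotient.eq N).1 (lc.apply_eq_of_preconnectedSpace 0 1)
  have e0 : mp id c - mp (h 0) c ∈ N := chn_close e _ _ fun m hm =>
    ⟨(s m hm).1, fun x p => ⟨h1 _ x ((s m hm).2.2 x p), (s m hm).2.2 x p, fun y q =>
      ⟨b m hm 0 x p y q, (dist_triangle _ x _).trans_lt (by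
        rw [h4 x ((s m hm).2.2 x p), zero_add]; exact (s m hm).2.1 x p y q),
        (s m hm).2.1 x p y q⟩⟩⟩
  have e2 : mp (h 1) c ∈ N := by
    obtain ⟨u, p, q⟩ := acy_cone (P := fun m => ∀ x ∈ m, x ∈ K ∧ dist x a = 0) a
      (fun m p x hx => (List.mem_cons.1 hx).elim (fun r => by rw [r]; exact ⟨ha, dist_self _⟩)
        (p x)) k
      (mp (h 1) c) (cp_mp _ (fun m _ p z hz => by
        obtain ⟨x, r, rfl⟩ := List.mem_map.1 hz
        exact ⟨h1 _ x (p.2 x r), h5 x (p.2 x r)⟩) hc) (by rw [mp_d, e, map_zero])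
    refine ⟨u, cp_mono (fun m _ r => ⟨fun x i y j => (dist_triangle_right x y a).trans_lt ?_,
      fun x i => (r x i).1⟩) p, q⟩
    rwa [(r x i).2, (r y j).2, add_zero]
  have := add_mem (add_mem e0 e1) e2
  rwa [mp_id, sub_add_sub_cancel, sub_add_cancel] at this

/-- Compression of small lists to lists without repetition in a finite net. -/
theorem ex_cmp (hδ : 0 < δ) (Q : Set X) (T : Finset X) (π : X → X)
    (hπ : ∀ x ∈ Q, π x ∈ T ∧ dist (π x) x ≤ δ / 3) :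
    ∃ H : (List X →₀ ℤ) →ₗ[ℤ] (List X →₀ ℤ), ∀ l, Si (δ / 3) Q l →
      H (single l 1) ∈ Cp (fun m => l ≠ [] ∧ Si δ {z | ∃ x ∈ l, z = x ∨ z = π x} m) (l.length + 1) ∧
      single l 1 - Fg.dC (H (single l 1)) - H (Fg.dC (single l 1)) ∈
        Cp (fun m => m.Nodup ∧ Si δ {z | ∃ x ∈ l, z = π x} m) l.length := by
  classical
  let ty : X → ℕ := fun x => T.toList.idxOf x
  have inj : ∀ x ∈ T, ∀ y, ty x = ty y → x = y := fun x hx y e =>
    (List.idxOf_inj (Finset.mem_toList.2 hx)).1 e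
  have sm : ∀ l, Si (δ / 3) Q l → ∀ m : List X, (∀ z ∈ m, ∃ x ∈ l, z = x ∨ z = π x) → Sm δ m :=
    fun l hl m p z a z' a' => by
      obtain ⟨x, b, e⟩ := p z a
      obtain ⟨y, b', e'⟩ := p z' a'
      have u : dist z x ≤ δ / 3 := e.elim (fun e => by rw [e, dist_self]; positivity)
        fun e => e ▸ (hπ x (hl.2 x b)).2
      have u' : dist z' y ≤ δ / 3 := e'.elim (fun e => by rw [e, dist_self]; positivity)
        fun e => e ▸ (hπ y (hl.2 y b')).2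
      have := dist_triangle4_right z z' x y
      have := hl.1 x b y b'
      linarith
  obtain ⟨H, h⟩ := ex_car (Si (δ / 3) Q) (fun _ _ => Si.sub)
    (fun l m => ∀ z ∈ m, ∃ x ∈ l, z = x ∨ z = π x)
    (fun l m => m.Pairwise (fun a b => ty a < ty b) ∧ ∀ z ∈ m, z ∈ {z | ∃ x ∈ l, z = π x})
    (fun l _ z a => ⟨z, a, .inl rfl⟩) (fun l m _ p z a => (p.2 z a).imp fun _ b => ⟨b.1, .inr b.2⟩)
    (fun l l' m _ s => ⟨fun p z a => (p z a).imp fun _ b => ⟨s.subset b.1, b.2⟩,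
      fun p => ⟨p.1, fun z a => (p.2 z a).imp fun _ b => ⟨s.subset b.1, b.2⟩⟩⟩)
    (fun l hl e => by
      obtain ⟨y, a, b⟩ := l.toFinset.exists_min_image (fun x => ty (π x))
        ((List.toFinset_nonempty_iff l).2 e)
      rw [List.mem_toFinset] at a
      refine ⟨acy_cone y fun m p z c => (List.mem_cons.1 c).elim (fun r => ⟨y, a, .inl r⟩) (p z),
        acy_sorted ty (y := π y) ⟨y, a, rfl⟩ ?_⟩
      rintro _ ⟨x, c, rfl⟩ n
      exact (b x (List.mem_toFinset.2 c)).lt_of_ne fun q =>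
        n (inj _ (hπ y (hl.2 y a)).1 _ q).symm) ⟨.nil, by simp⟩
  exact ⟨H, fun l hl => ⟨cp_mono (fun m _ p => ⟨p.1, sm l hl m p.2, p.2⟩) (h l hl).1,
    cp_mono (fun m _ p => ⟨p.1.imp fun a e => a.ne (congrArg ty e),
      sm l hl m fun z a => (p.2 z a).imp fun _ b => ⟨b.1, .inr b.2⟩, p.2⟩) (h l hl).2⟩⟩

/-- The identity of the Rips complex is homotopic, with control, to a map into a finite net. -/
theorem chains (hδ : 0 < δ) (A : List X → Prop) (hA : ∀ l l', A l → l'.Sublist l → A l')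
    (K H : List X → Set X) (Q : Set X) (T : Finset X) (h0 : ∀ l, A l → Si δ (H l) l)
    (h1 : ∀ l l', A l → l'.Sublist l → K l' ⊆ K l ∧ H l' ⊆ H l)
    (h2 : ∀ l, A l → l ≠ [] → Ctr (K l) ∧ Ctr (H l)) (h3 : ∀ l, A l → K l ⊆ Q)
    (h4 : ∀ l, A l → ∀ x ∈ K l, ∀ z, dist z x ≤ δ / 3 → z ∈ H l)
    (h5 : ∀ x ∈ Q, ∃ z ∈ T, dist z x ≤ δ / 3) :
    ∃ η : (List X →₀ ℤ) →ₗ[ℤ] (List X →₀ ℤ), ∀ l, A l →
      η (single l 1) ∈ Cp (fun m => l ≠ [] ∧ Si δ (H l) m) (l.length + 1) ∧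
      single l 1 - Fg.dC (η (single l 1)) - η (Fg.dC (single l 1)) ∈
        Cp (fun m => m.Nodup ∧ Si δ (H l ∩ T) m) l.length := by
  choose! π p1 p2 using h5
  have kh : ∀ l, A l → K l ⊆ H l := fun l hl x a => h4 l hl x a x (by rw [dist_self]; positivity)
  obtain ⟨η, a⟩ := ex_car A hA (fun l => Si δ (H l)) (fun l => Si (δ / 3) (K l)) h0
    (fun l m hl p => p.mono (by linarith) (kh l hl))
    (fun l l' m hl s => ⟨fun p => p.mono le_rfl (h1 l l' hl s).2,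
      fun p => p.mono le_rfl (h1 l l' hl s).1⟩)
    (fun l hl e => ⟨(h2 l hl e).2.acy hδ, (h2 l hl e).1.acy (by positivity)⟩)
    ⟨by simp [Sm], by simp⟩
  obtain ⟨θ, b⟩ := ex_cmp hδ Q T π fun x hx => ⟨p1 x hx, p2 x hx⟩
  let R : (List X →₀ ℤ) →ₗ[ℤ] (List X →₀ ℤ) := LinearMap.id - Fg.dC ∘ₗ η - η ∘ₗ Fg.dC
  have Rd : ∀ c, R (Fg.dC c) = Fg.dC (R c) := fun c => by simp [R, Fg.dd]
  refine ⟨η + θ ∘ₗ R, fun l hl => ⟨add_mem (a l hl).1 (cp_map θ _ (fun m e p => ?_) (a l hl).2),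
    ?_⟩⟩
  · rw [← e]
    refine cp_mono (fun m' _ q => ⟨fun z => q.1 (List.length_eq_zero_iff.1 (by simp [e, z])),
      q.2.mono le_rfl ?_⟩) (b m (p.mono le_rfl (h3 l hl))).1
    rintro _ ⟨x, u, rfl | rfl⟩
    exacts [kh l hl (p.2 _ u), h4 l hl x (p.2 x u) _ (p2 x (h3 l hl (p.2 x u)))]
  · have := cp_map (LinearMap.id - Fg.dC ∘ₗ θ - θ ∘ₗ Fg.dC)
      (Cp (fun m => m.Nodup ∧ Si δ (H l ∩ T) m) l.length) (fun m e p => by
        rw [← e]
        refine cp_mono (fun m' _ q => ⟨q.1, q.2.mono le_rfl ?_⟩) (b m (p.mono le_rfl (h3 l hl))).2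
        rintro _ ⟨x, u, rfl⟩
        exact ⟨h4 l hl x (p.2 x u) _ (p2 x (h3 l hl (p.2 x u))), p1 x (h3 l hl (p.2 x u))⟩)
      (a l hl).2
    have e : single l 1 - Fg.dC ((η + θ ∘ₗ R) (single l 1)) - (η + θ ∘ₗ R) (Fg.dC (single l 1)) =
        (LinearMap.id - Fg.dC ∘ₗ θ - θ ∘ₗ Fg.dC : _ →ₗ[ℤ] _) (R (single l 1)) := by
      simp only [LinearMap.add_apply, LinearMap.comp_apply, LinearMap.sub_apply, LinearMap.id_apply,
        Rd, map_add]
      have : R (single l 1) = single l 1 - Fg.dC (η (single l 1)) - η (Fg.dC (single l 1)) := rfl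
      conv_rhs => enter [1, 1]; rw [this]
      abel
    rw [e]
    exact this

/-- Lists without repetition in a net are short. -/
theorem net_zero {T : Finset X} {D : ℕ} (h : ∀ z ∈ T, (T.filter fun y => dist z y < δ).card ≤ D)
    {B : Set X} {k : ℕ} {c : List X →₀ ℤ} (hc : c ∈ Cp (fun m => m.Nodup ∧ Si δ (B ∩ T) m) k)
    (hk : D < k) : c = 0 := by
  classical
  refine cp_zero hc fun m e p => ?_
  obtain _ | ⟨z, m⟩ := m
  · simp at e; omega
  have a := List.mem_cons_self (a := z) (l := m)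
  have := (Finset.card_le_card (s := (z :: m).toFinset) fun y hy => Finset.mem_filter.2
    ⟨(p.2.2 y (List.mem_toFinset.1 hy)).2, p.2.1 z a y (List.mem_toFinset.1 hy)⟩).trans
    (h z (p.2.2 z a).2)
  rw [List.toFinset_card_of_nodup p.1] at this
  omega

omit [PseudoMetricSpace X] in
theorem net_finite (T : Finset X) : {m : List X | m.Nodup ∧ ∀ x ∈ m, x ∈ T}.Finite := by
  classical
  refine (List.finite_toSet (T.toList.sublists.flatMap List.permutations)).subset fun m p => ?_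
  obtain ⟨s, a, b⟩ := p.1.subperm (l₂ := T.toList) fun x hx => Finset.mem_toList.2 (p.2 x hx)
  exact List.mem_flatMap.2 ⟨s, List.mem_sublists.2 b, List.mem_permutations.2 a.symm⟩

/-- Closed neighbourhoods. -/
def Nb (r : ℝ) (K : Set X) : Set X := {z | ∃ x ∈ K, dist z x ≤ r}

theorem Nb.mono {r : ℝ} {K K' : Set X} (h : K ⊆ K') : Nb r K ⊆ Nb r K' :=
  fun _ a => a.imp fun _ b => ⟨h b.1, b.2⟩

theorem sub_nb {r : ℝ} (h : 0 ≤ r) (K : Set X) : K ⊆ Nb r K :=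
  fun x a => ⟨x, a, by rwa [dist_self]⟩

namespace Bi

variable (c : Bi X)

/-- The convex hull. -/
def hull (B : Set X) : Set X := {z | ∀ K, c.Cv K → B ⊆ K → z ∈ K}

theorem cv_hull (B : Set X) : c.Cv (c.hull B) :=
  fun t s x a y b K h k => h t s x (a K h k) y (b K h k)

theorem sub_hull (B : Set X) : B ⊆ c.hull B := fun _ a _ _ k => k a

theorem cv_cball (a : X) (r : ℝ) : c.Cv (Metric.closedBall a r) := fun t s x p y q => by
  have := c.lip t s x a y a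
  rw [c.diag t s] at this
  exact this.trans (max_le p q)

variable {c}

theorem hull_min {B : Set X} (h : c.Cv K) (k : B ⊆ K) : c.hull B ⊆ K := fun _ a => a K h k

theorem hull_mono {B B' : Set X} (h : B ⊆ B') : c.hull B ⊆ c.hull B' :=
  hull_min (c.cv_hull _) (h.trans (c.sub_hull _))

theorem Cv.nb (h : c.Cv K) (r : ℝ) : c.Cv (Nb r K) := by
  rintro t s x ⟨x', a, a'⟩ y ⟨y', b, b'⟩
  exact ⟨_, h t s x' a y' b, (c.lip t s ..).trans (max_le a' b')⟩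

theorem Cv.ctr (h : c.Cv K) (n : K.Nonempty) : Ctr K := by
  obtain ⟨a, ha⟩ := n
  exact ⟨a, ha, fun t x => c.c t x a, fun t x p => h t t.2 x p a ha, fun t x _ y _ =>
    (c.lip t t.2 ..).trans (max_le le_rfl (by rw [dist_self]; positivity)),
    fun x _ => (c.cont x a).domRestrict, fun x _ => by simp [c.c0], fun x _ => by simp [c.c1]⟩

/-- The carrier of a list. -/
def car (c : Bi X) (ρ : X → X) (δ : ℝ) (l : List X) : Set X :=
  Nb (δ / 3) (c.hull {z | ∃ x ∈ l, z = x ∨ z = ρ x})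

/-- The block of chains: a map `ρ` into a convex set with a finite net. -/
theorem chains (c : Bi X) (hδ : 0 < δ) (ρ : X → X) {Q : Set X} (hQ : c.Cv Q) (hρ : ∀ x, ρ x ∈ Q)
    (T : Finset X) (hT : ∀ x ∈ Q, ∃ z ∈ T, dist z x ≤ δ / 3) :
    ∃ η : (List X →₀ ℤ) →ₗ[ℤ] (List X →₀ ℤ), ∀ l, Sm δ l →
      η (single l 1) ∈ Cp (fun m => l ≠ [] ∧ Si δ (c.car ρ δ l) m) (l.length + 1) ∧
      single l 1 - Fg.dC (η (single l 1)) - η (Fg.dC (single l 1)) ∈
        Cp (fun m => m.Nodup ∧ Si δ (c.car ρ δ l ∩ T) m) l.length :=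
  Lq.chains hδ (Sm δ) (fun _ _ => Sm.sub) (fun l => c.hull {z | ∃ x ∈ l, z = ρ x}) (c.car ρ δ) Q T
    (fun _ h => ⟨h, fun x a => sub_nb (by positivity) _ (c.sub_hull _ ⟨x, a, .inl rfl⟩)⟩)
    (fun _ _ _ s => ⟨hull_mono fun _ a => a.imp fun _ b => ⟨s.subset b.1, b.2⟩,
      Nb.mono (hull_mono fun _ a => a.imp fun _ b => ⟨s.subset b.1, b.2⟩)⟩)
    (fun l _ e => by
      obtain ⟨x, a⟩ := List.exists_mem_of_ne_nil l e
      exact ⟨(c.cv_hull _).ctr ⟨_, c.sub_hull _ ⟨x, a, rfl⟩⟩, ((c.cv_hull _).nb _).ctr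
        ⟨x, sub_nb (by positivity) _ (c.sub_hull _ ⟨x, a, .inl rfl⟩)⟩⟩)
    (fun _ _ => hull_min hQ (by rintro _ ⟨x, -, rfl⟩; exact hρ x))
    (fun _ _ x a _ b => ⟨x, hull_mono (fun _ p => p.imp fun _ q => ⟨q.1, .inr q.2⟩) a, b⟩) hT

/-- The Rips complex of a nonempty convex set is contractible. -/
theorem Cv.contr (h : c.Cv K) (n : K.Nonempty) (hδ : 0 < δ) :
    ∃ κ : (List X →₀ ℤ) →ₗ[ℤ] (List X →₀ ℤ), ∀ k, ∀ u ∈ Cp (Si δ K) k,
      κ u ∈ Cp (Si δ K) (k + 1) ∧ Fg.dC (κ u) + κ (Fg.dC u) = u :=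
  ((h.ctr n).acy hδ).contr fun _ _ => Si.sub

end Bi

/-- Chains of small lists in a set. -/
def Ck {X : Type} [PseudoMetricSpace X] (δ : ℝ) (K : Set X) (k : ℕ) : Submodule ℤ (List X →₀ ℤ) :=
  Finsupp.supported ℤ ℤ {l | l.Pairwise (dist · · < δ) ∧ l.length = k ∧ ∀ x ∈ l, x ∈ K}

theorem ck_eq {X : Type} [PseudoMetricSpace X] {δ : ℝ} (hδ : 0 < δ) (K : Set X) (k : ℕ) :
    Ck δ K k = Cp (Si δ K) k :=
  congrArg (supported ℤ ℤ) (Set.ext fun _ => ⟨fun h => ⟨h.2.1, (sm_iff hδ).2 h.1, h.2.2⟩,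
    fun h => ⟨(sm_iff hδ).1 h.2.1, h.1, h.2.2⟩⟩)

theorem Bi.acyc {X : Type} [PseudoMetricSpace X] (B : Bi X) {δ : ℝ} (hδ : 0 < δ) {K : Set X}
    (h : B.Cv K) (ne : K.Nonempty) {k : ℕ} {c} (hc : c ∈ Ck δ K k) (e : Fg.dC c = 0) :
    ∃ b ∈ Ck δ K (k + 1), Fg.dC b = c := by
  rw [ck_eq hδ] at hc ⊢
  exact (h.ctr ne).acy hδ k c hc e

end Pool.Agent.Lib.MP_5d3e93_al.Lq
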