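import Pool.Agent.Lib.MP_5d3e93_al.Bg.DatA

/-! Chains on lists: acyclic carriers, cones, prisms. -/

namespace Pool.Agent.Lib.MP_5d3e93_al.Lq

universe w'

open Finsupp Bg

variable {V : Type w'}

/-- Chains on lists of a given length with a property. -/
def Cp (P : List V → Prop) (k : ℕ) : Submodule ℤ (List V →₀ ℤ) :=
  supported ℤ ℤ {l | l.length = k ∧ P l}

variable {P P' : List V → Prop} {k : ℕ} {c : List V →₀ ℤ}

theorem cp_map {M : Type*} [AddCommGroup M] (T : (List V →₀ ℤ) →ₗ[ℤ] M) (N : Submodule ℤ M)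
    (h : ∀ m, m.length = k → P m → T (single m 1) ∈ N) (hc : c ∈ Cp P k) : T c ∈ N :=
  acy_lin T hc fun l hl => h l hl.1 hl.2

theorem cp_eq {M : Type*} [AddCommGroup M] (T T' : (List V →₀ ℤ) →ₗ[ℤ] M)
    (h : ∀ m, m.length = k → P m → T (single m 1) = T' (single m 1)) (hc : c ∈ Cp P k) :
    T c = T' c := acy_eq T T' hc fun l hl => h l hl.1 hl.2

theorem cp_mono (h : ∀ m, m.length = k → P m → P' m) (hc : c ∈ Cp P k) : c ∈ Cp P' k :=
  supported_mono (fun m hm => by exact ⟨hm.1, h m hm.1 hm.2⟩) hc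

theorem cp_single {l : List V} (p : P l) : single l 1 ∈ Cp P l.length :=
  single_mem_supported ℤ _ ⟨rfl, p⟩

theorem cp_single' {l : List V} (p : P l) (e : l.length = k) : single l 1 ∈ Cp P k :=
  e ▸ cp_single p

theorem cp_supp (hc : c ∈ Cp P k) {m : List V} (h : c m ≠ 0) : m.length = k ∧ P m :=
  (mem_supported ℤ c).1 hc (mem_support_iff.2 h)

theorem cp_zero (hc : c ∈ Cp P k) (h : ∀ m, m.length = k → ¬ P m) : c = 0 := by
  ext m
  by_contra e
  exact h m (cp_supp hc e).1 (cp_supp hc e).2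

theorem cp_sub (l : List V) :
    Fg.dC (single l 1) ∈ Cp (fun m => m.Sublist l ∧ m.length + 1 = l.length) (l.length - 1) := by
  rw [Fg.dC_single]
  exact supported_mono (fun m hm => by exact ⟨by have := hm.2; omega, hm⟩) (Fg.bd_mem l)

theorem cp_d (h : ∀ l l', P l → l'.Sublist l → P' l') (hc : c ∈ Cp P k) :
    Fg.dC c ∈ Cp P' (k - 1) :=
  cp_map _ _ (fun m e p => by
    subst e
    exact cp_mono (fun m' _ q => h m m' p q.1) (cp_sub m)) hc

theorem cp_cons (y : V) (h : ∀ m, m.length = k → P m → P' (y :: m)) (hc : c ∈ Cp P k) :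
    mapDomain (y :: ·) c ∈ Cp P' (k + 1) :=
  cp_map (lmapDomain ℤ ℤ (y :: ·)) _ (fun m e p => by
    rw [lmapDomain_apply, mapDomain_single]
    exact cp_single' (h m e p) (by simp [e])) hc

/-- The chain map induced by a map of vertices. -/
noncomputable def mp (f : V → V) : (List V →₀ ℤ) →ₗ[ℤ] (List V →₀ ℤ) :=
  lmapDomain ℤ ℤ (List.map f)

theorem mp_single (f : V → V) (l : List V) : mp f (single l 1) = single (l.map f) 1 :=
  mapDomain_single

theorem mp_cons (f : V → V) (x : V) (c : List V →₀ ℤ) :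
    mp f (mapDomain (x :: ·) c) = mapDomain (f x :: ·) (mp f c) := by
  simp only [mp, lmapDomain_apply, ← mapDomain_comp]
  rfl

theorem mp_bd (f : V → V) (l : List V) : Fg.bd (l.map f) = mp f (Fg.bd l) := by
  induction l with
  | nil => simp [Fg.bd]
  | cons x l ih => rw [List.map_cons, Fg.bd, Fg.bd, map_sub, mp_single, mp_cons, ih]

theorem mp_d (f : V → V) (c : List V →₀ ℤ) : Fg.dC (mp f c) = mp f (Fg.dC c) :=
  acy_eq (Fg.dC ∘ₗ mp f) (mp f ∘ₗ Fg.dC) (acy_all c) fun l _ => by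
    simp only [LinearMap.comp_apply, mp_single, Fg.dC_single, mp_bd]

theorem mp_id (c : List V →₀ ℤ) : mp id c = c :=
  acy_eq (mp id) LinearMap.id (acy_all c) fun l _ => by simp [mp_single]

theorem cp_mp (f : V → V) (h : ∀ m, m.length = k → P m → P' (m.map f)) (hc : c ∈ Cp P k) :
    mp f c ∈ Cp P' k :=
  cp_map _ _ (fun m e p => by
    rw [mp_single]
    exact cp_single' (h m e p) (by simp [e])) hc

/-- The prism over a list. -/
noncomputable def prs (f g : V → V) : List V → List V →₀ ℤ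
  | [] => 0
  | x :: l => single (f x :: (x :: l).map g) 1 - mapDomain (f x :: ·) (prs f g l)

/-- The prism operator. -/
noncomputable def prL (f g : V → V) : (List V →₀ ℤ) →ₗ[ℤ] (List V →₀ ℤ) :=
  linearCombination ℤ (prs f g)

theorem prL_single (f g : V → V) (l : List V) : prL f g (single l 1) = prs f g l := by
  rw [prL, linearCombination_single, one_smul]

theorem prL_cons (f g : V → V) (x : V) (c : List V →₀ ℤ) : prL f g (mapDomain (x :: ·) c) =
    mapDomain (f x :: ·) (mapDomain (g x :: ·) (mp g c)) - mapDomain (f x :: ·) (prL f g c) :=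
  acy_eq (prL f g ∘ₗ lmapDomain ℤ ℤ (x :: ·))
    (lmapDomain ℤ ℤ (f x :: ·) ∘ₗ lmapDomain ℤ ℤ (g x :: ·) ∘ₗ mp g -
      lmapDomain ℤ ℤ (f x :: ·) ∘ₗ prL f g) (acy_all c) fun l _ => by
    simp only [LinearMap.comp_apply, lmapDomain_apply, mapDomain_single, LinearMap.sub_apply,
      prL_single, mp_single, prs, List.map_cons]

theorem prs_id (f g : V → V) (l : List V) :
    Fg.dC (prs f g l) + prL f g (Fg.bd l) = single (l.map g) 1 - single (l.map f) 1 := by
  induction l with
  | nil => simp [prs, Fg.bd]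
  | cons x l ih =>
    have i := congrArg (mapDomain (f x :: ·)) ih
    rw [mapDomain_add, mapDomain_sub, mapDomain_single, mapDomain_single] at i
    rw [prs, map_sub, Fg.dC_cons, Fg.dC_single, Fg.bd, List.map_cons, Fg.bd, Fg.bd, map_sub,
      prL_cons, prL_single, mapDomain_sub, mapDomain_single, mp_bd, List.map_cons,
      eq_sub_iff_add_eq.2 i]
    abel

theorem prL_id (f g : V → V) (c : List V →₀ ℤ) :
    Fg.dC (prL f g c) + prL f g (Fg.dC c) = mp g c - mp f c :=
  acy_eq (Fg.dC ∘ₗ prL f g + prL f g ∘ₗ Fg.dC) (mp g - mp f) (acy_all c) fun l _ => by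
    simp only [LinearMap.add_apply, LinearMap.comp_apply, LinearMap.sub_apply, prL_single,
      Fg.dC_single, mp_single, prs_id]

theorem prs_mem (f g : V → V) (l : List V) :
    prs f g l ∈ Cp (fun m => ∀ z ∈ m, ∃ x ∈ l, z = f x ∨ z = g x) (l.length + 1) := by
  induction l with
  | nil => exact zero_mem _
  | cons x l ih =>
    refine sub_mem (cp_single' (fun z hz => ?_) (by simp)) (cp_cons _ (fun m _ p z hz => ?_) ih)
    · rcases List.mem_cons.1 hz with rfl | a
      · exact ⟨x, List.mem_cons_self .., .inl rfl⟩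
      · obtain ⟨y, b, rfl⟩ := List.mem_map.1 a
        exact ⟨y, b, .inr rfl⟩
    · rcases List.mem_cons.1 hz with rfl | a
      · exact ⟨x, List.mem_cons_self .., .inl rfl⟩
      · obtain ⟨y, b, e⟩ := p z a
        exact ⟨y, List.mem_cons_of_mem _ b, e⟩

/-- Every cycle is a boundary. -/
def Acy (P : List V → Prop) : Prop :=
  ∀ k, ∀ c ∈ Cp P k, Fg.dC c = 0 → ∃ b ∈ Cp P (k + 1), Fg.dC b = c

theorem acy_cone (y : V) (h : ∀ m, P m → P (y :: m)) : Acy P := fun _ c hc e =>
  ⟨_, cp_cons y (fun m _ => h m) hc, by rw [Fg.dC_cons, e, mapDomain_zero, sub_zero]⟩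

/-- Strictly sorted lists on a set with a least element. -/
theorem acy_sorted (ty : V → ℕ) {B : Set V} {y : V} (hy : y ∈ B)
    (h : ∀ x ∈ B, x ≠ y → ty y < ty x) :
    Acy fun m => m.Pairwise (fun a b => ty a < ty b) ∧ ∀ x ∈ m, x ∈ B := by
  classical
  intro k c hc e
  let κ : (List V →₀ ℤ) →ₗ[ℤ] (List V →₀ ℤ) :=
    linearCombination ℤ fun m => if y ∈ m then 0 else single (y :: m) 1
  have s : ∀ m, κ (single m 1) = if y ∈ m then 0 else single (y :: m) 1 := fun m => by
    rw [linearCombination_single, one_smul]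
  refine ⟨κ c, cp_map _ _ (fun m a p => ?_) hc, ?_⟩
  · rw [s]
    split_ifs with b
    · exact zero_mem _
    · exact cp_single' ⟨List.pairwise_cons.2 ⟨fun x hx => h x (p.2 x hx) fun q => b (q ▸ hx), p.1⟩,
        fun x hx => (List.mem_cons.1 hx).elim (· ▸ hy) (p.2 x)⟩ (by simp [a])
  · have := cp_eq (Fg.dC ∘ₗ κ + κ ∘ₗ Fg.dC) LinearMap.id (fun m _ p => ?_) hc
    · simpa [e] using this
    simp only [LinearMap.add_apply, LinearMap.comp_apply, LinearMap.id_apply, s, Fg.dC_single]
    split_ifs with b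
    · obtain _ | ⟨x, m⟩ := m
      · simp at b
      obtain ⟨p1, -⟩ := List.pairwise_cons.1 p.1
      have n : y ∉ m := fun q => by
        by_cases r : x = y
        · exact lt_irrefl _ (r ▸ p1 y q)
        · exact lt_asymm (p1 y q) (h x (p.2 x (List.mem_cons_self ..)) r)
      obtain rfl : y = x := (List.mem_cons.1 b).resolve_right n
      have z : (κ ∘ₗ lmapDomain ℤ ℤ (y :: ·)) (Fg.bd m) =
          (0 : (List V →₀ ℤ) →ₗ[ℤ] (List V →₀ ℤ)) (Fg.bd m) :=
        acy_eq _ _ (acy_all _) fun l _ => by simp [s]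
      rw [LinearMap.comp_apply, lmapDomain_apply, LinearMap.zero_apply] at z
      rw [map_zero, zero_add, Fg.bd, map_sub, z, s, if_neg n, sub_zero]
    · have z : κ (Fg.bd m) = lmapDomain ℤ ℤ (y :: ·) (Fg.bd m) :=
        acy_eq _ _ (Fg.bd_mem m) fun l hl => by
          rw [s, if_neg fun q => b (hl.1.subset q), lmapDomain_apply, mapDomain_single]
      rw [Fg.dC_single, z, lmapDomain_apply, Fg.bd, sub_add_cancel]

/-- Recursion on the length. -/
theorem ex_h (A : List V → Prop) (hA : ∀ l l', A l → l'.Sublist l → A l')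
    (R R' : List V → List V → Prop) (h0 : ∀ l, A l → R l l)
    (h1 : ∀ l l' m, A l → l'.Sublist l → (R l' m → R l m) ∧ (R' l' m → R' l m))
    (h2 : ∀ l, A l → ∀ c ∈ Cp (R l) l.length, Fg.dC c ∈ Cp (R' l) (l.length - 1) →
      ∃ b ∈ Cp (R l) (l.length + 1), c - Fg.dC b ∈ Cp (R' l) l.length) :
    ∃ H : (List V →₀ ℤ) →ₗ[ℤ] (List V →₀ ℤ), ∀ l, A l →
      H (single l 1) ∈ Cp (R l) (l.length + 1) ∧
      single l 1 - Fg.dC (H (single l 1)) - H (Fg.dC (single l 1)) ∈ Cp (R' l) l.length := by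
  classical
  obtain ⟨H, hH⟩ := dat_rec (β := List V →₀ ℤ) List.length fun l g => Classical.epsilon fun b =>
    b ∈ Cp (R l) (l.length + 1) ∧
      single l 1 - linearCombination ℤ g (Fg.dC (single l 1)) - Fg.dC b ∈ Cp (R' l) l.length
  refine ⟨linearCombination ℤ H, fun l => ?_⟩
  induction e : l.length using Nat.strong_induction_on generalizing l with
  | _ n ih =>
  subst e
  intro hl
  have s := cp_sub l
  have a : linearCombination ℤ (fun m => if m.length < l.length then H m else 0)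
      (Fg.dC (single l 1)) = linearCombination ℤ H (Fg.dC (single l 1)) := by
    refine cp_eq _ _ (fun m _ p => ?_) s
    have : m.length < l.length := by omega
    simp [this]
  have b := h2 l hl (single l 1 - linearCombination ℤ H (Fg.dC (single l 1)))
    (Submodule.sub_mem _ (cp_single (h0 l hl)) (cp_map _ _ (fun m _ p => by
      have := (ih _ (by omega) m rfl (hA l m hl p.1)).1
      rw [p.2] at this
      exact cp_mono (fun m' _ => (h1 l m m' hl p.1).1) this) s)) (by
    have := cp_map (LinearMap.id - Fg.dC ∘ₗ linearCombination ℤ H - linearCombination ℤ H ∘ₗ Fg.dC)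
      (Cp (R' l) (l.length - 1)) (fun m e p => by
        have := (ih _ (by omega) m rfl (hA l m hl p.1)).2
        rw [e] at this
        exact cp_mono (fun m' _ => (h1 l m m' hl p.1).2) this) s
    simpa only [LinearMap.sub_apply, LinearMap.id_apply, LinearMap.comp_apply, Fg.dd, map_zero,
      sub_zero, map_sub] using this)
  have e := hH l
  rw [a] at e
  rw [linearCombination_single, one_smul, sub_right_comm, e]
  exact Classical.epsilon_spec b

/-- Acyclic carriers. -/
theorem ex_car (A : List V → Prop) (hA : ∀ l l', A l → l'.Sublist l → A l')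
    (R R' : List V → List V → Prop) (h0 : ∀ l, A l → R l l) (le : ∀ l m, A l → R' l m → R l m)
    (h1 : ∀ l l' m, A l → l'.Sublist l → (R l' m → R l m) ∧ (R' l' m → R' l m))
    (h2 : ∀ l, A l → l ≠ [] → Acy (R l) ∧ Acy (R' l)) (h3 : R' [] []) :
    ∃ H : (List V →₀ ℤ) →ₗ[ℤ] (List V →₀ ℤ), ∀ l, A l →
      H (single l 1) ∈ Cp (fun m => l ≠ [] ∧ R l m) (l.length + 1) ∧
      single l 1 - Fg.dC (H (single l 1)) - H (Fg.dC (single l 1)) ∈ Cp (R' l) l.length := by
  obtain ⟨H, h⟩ := ex_h A hA (fun l m => (l = [] → m = []) ∧ R l m) R'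
    (fun l hl => ⟨id, h0 l hl⟩)
    (fun l l' m hl s => ⟨fun a => ⟨fun e => a.1 (List.sublist_nil.1 (e ▸ s)),
      (h1 l l' m hl s).1 a.2⟩, (h1 l l' m hl s).2⟩) fun l hl c hc hd => by
      by_cases e : l = []
      · subst e
        refine ⟨0, zero_mem _, ?_⟩
        rw [map_zero, sub_zero]
        exact cp_mono (fun m _ p => by rw [p.1 rfl]; exact h3) hc
      · obtain ⟨a, b⟩ := h2 l hl e
        obtain ⟨c', k, q⟩ := b _ _ hd (Fg.dd c)
        rw [show l.length - 1 + 1 = l.length by have := List.length_pos_iff.2 e; omega] at k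
        obtain ⟨t, k', q'⟩ := a _ _ (sub_mem (cp_mono (fun _ _ p => p.2) hc)
          (cp_mono (fun m _ => le l m hl) k)) (by rw [map_sub, q, sub_self])
        exact ⟨t, cp_mono (fun _ _ p => ⟨fun z => (e z).elim, p⟩) k', by
          rwa [q', sub_sub_cancel]⟩
  exact ⟨H, fun l hl => ⟨cp_mono (fun m e p => ⟨fun z => by simp [p.1 z] at e, p.2⟩) (h l hl).1,
    (h l hl).2⟩⟩

/-- An acyclic class closed under sublists has a contraction. -/
theorem Acy.contr (h : Acy P) (hP : ∀ l l', P l → l'.Sublist l → P l') :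
    ∃ κ : (List V →₀ ℤ) →ₗ[ℤ] (List V →₀ ℤ), ∀ k, ∀ c ∈ Cp P k,
      κ c ∈ Cp P (k + 1) ∧ Fg.dC (κ c) + κ (Fg.dC c) = c := by
  obtain ⟨κ, e⟩ := ex_h P hP (fun _ => P) (fun _ _ => False) (fun _ => id)
    (fun _ _ _ _ _ => ⟨id, id⟩) fun l _ c hc hd => by
      obtain ⟨b, k, q⟩ := h _ c hc (cp_zero hd fun _ _ => id)
      exact ⟨b, k, by rw [q, sub_self]; exact zero_mem _⟩
  refine ⟨κ, fun k c hc => ⟨cp_map _ _ (fun m a p => by subst a; exact (e m p).1) hc,
    cp_eq (Fg.dC ∘ₗ κ + κ ∘ₗ Fg.dC) LinearMap.id (fun m _ p => ?_) hc⟩⟩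
  have := cp_zero (e m p).2 fun _ _ => id
  rw [sub_sub, sub_eq_zero] at this
  exact this.symm

end Pool.Agent.Lib.MP_5d3e93_al.Lq
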