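import Pool.Agent.Lib.MP_5d3e93_al.Lq.Def2

/-! Long thin covers: Hausdorff content, the Eilenberg inequality and the greedy cover. -/

open Set Filter Topology MeasureTheory Metric
open scoped ENNReal NNReal

namespace Pool.Agent.Lib.MP_5d3e93_al.Lq

section Content

variable {P : Type*} [PseudoMetricSpace P]

/-- Hausdorff content. -/
noncomputable def hct (k : ℕ) : OuterMeasure P := OuterMeasure.boundedBy fun s => ediam s ^ k

theorem hct_zero {K : Set P} (h : hct 0 K = 0) : K = ∅ := by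
  by_contra k
  obtain ⟨x, hx⟩ := nonempty_iff_ne_empty.2 k
  have : OuterMeasure.dirac x ≤ hct (P := P) 0 := OuterMeasure.le_boundedBy.2 fun s => by
    by_cases e : x ∈ s <;> simp [e]
  simpa [h, hx] using this K

/-- The Eilenberg inequality for null sets. -/
theorem eilenberg {K : Set P} {k : ℕ} (h : hct (k + 1) K = 0) {f : P → ℝ} {L : ℝ≥0}
    (hf : LipschitzOnWith L f K) : ∀ᵐ r, hct k {q ∈ K | f q = r} = 0 := by
  have key : ∀ m : ℕ, ∃ g : ℝ → ℝ≥0∞, Measurable g ∧ ∫⁻ r, g r ≤ L * ((m : ℝ≥0∞) + 1)⁻¹ ∧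
      ∀ r, hct k {q ∈ K | f q = r} ≤ g r := by
    intro m
    have a : hct (k + 1) K < ((m : ℝ≥0∞) + 1)⁻¹ := by simp [h]
    simp only [hct, OuterMeasure.boundedBy_apply, iInf_lt_iff] at a
    obtain ⟨t, ht, a⟩ := a
    refine ⟨fun r => ∑' i, (closure (f '' (t i ∩ K))).indicator (fun _ => ediam (t i) ^ k) r,
      .tsum fun i => measurable_const.indicator isClosed_closure.measurableSet, ?_, fun r => ?_⟩
    · rw [lintegral_tsum fun i =>
        (measurable_const.indicator isClosed_closure.measurableSet).aemeasurable]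
      refine le_trans ?_ (mul_le_mul_right a.le _)
      rw [← ENNReal.tsum_mul_left]
      refine ENNReal.tsum_le_tsum fun i => ?_
      rcases (t i).eq_empty_or_nonempty with e | e
      · simp [e]
      rw [lintegral_indicator_const isClosed_closure.measurableSet, iSup_pos e, pow_succ,
        mul_left_comm]
      refine mul_le_mul_right ((Real.volume_le_diam _).trans ?_) _
      rw [ediam_closure, ediam_image_le_iff]
      exact fun x hx y hy => (hf hx.2 hy.2).trans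
        (mul_le_mul_right (edist_le_ediam_of_mem hx.1 hy.1) _)
    · refine (measure_mono (t := ⋃ i, t i ∩ {q ∈ K | f q = r}) fun q hq => ?_).trans
        ((measure_iUnion_le _).trans (ENNReal.tsum_le_tsum fun i => ?_))
      · obtain ⟨i, hi⟩ := mem_iUnion.1 (ht hq.1)
        exact mem_iUnion.2 ⟨i, hi, hq⟩
      · rcases (t i ∩ {q ∈ K | f q = r}).eq_empty_or_nonempty with e | ⟨q, e⟩
        · simp [e]
        have hm : r ∈ closure (f '' (t i ∩ K)) := subset_closure ⟨q, ⟨e.1, e.2.1⟩, e.2.2⟩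
        rw [indicator_of_mem hm]
        exact (OuterMeasure.boundedBy_le _).trans
          (pow_le_pow_left' (ediam_mono inter_subset_left) k)
  choose g g₁ g₂ g₃ using key
  have z : ∫⁻ r, ⨅ m, g m r = 0 := by
    refine le_antisymm (ge_of_tendsto' (b := ∫⁻ r, ⨅ m, g m r)
      (f := fun m : ℕ => L * ((m : ℝ≥0∞) + 1)⁻¹) (x := atTop) ?_ fun m =>
        (lintegral_mono fun r => iInf_le _ m).trans (g₂ m)) zero_le
    have := ENNReal.Tendsto.const_mul (a := (L : ℝ≥0∞))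
      (ENNReal.tendsto_inv_nat_nhds_zero.comp (tendsto_add_atTop_nat 1)) (.inr ENNReal.coe_ne_top)
    simpa [Function.comp_def] using this
  filter_upwards [(lintegral_eq_zero_iff (.iInf g₁)).1 z] with r hr
  exact le_antisymm ((le_iInf fun m => g₃ m r).trans hr.le) zero_le

theorem hct_of_dimH {X : Type*} [MetricSpace X] {A : Set X} {n : ℕ} (h : dimH A < n) :
    hct n A = 0 := by
  borelize X
  have a := hausdorffMeasure_of_dimH_lt (s := A) (d := n) (by simpa using h)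
  rw [Measure.hausdorffMeasure_apply] at a
  refine le_antisymm (le_trans ?_ ((le_iSup₂ (f := fun (r : ℝ≥0∞) (_ : 0 < r) =>
    ⨅ (t : ℕ → Set X) (_ : A ⊆ ⋃ k, t k) (_ : ∀ k, ediam (t k) ≤ r),
      ∑' k, ⨆ _ : (t k).Nonempty, ediam (t k) ^ ((n : ℝ≥0) : ℝ)) 1 one_pos).trans a.le)) zero_le
  rw [hct, OuterMeasure.boundedBy_apply]
  refine iInf₂_mono fun t _ => le_iInf fun _ => le_of_eq ?_
  simp

end Content

section Cover

variable {Γ T : Type} [Group Γ] [MulAction Γ T]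

theorem cov_one (z : T → ℝ) : fa (1 : Γ) z = z := funext fun t => by simp [fa]

theorem cov_mul (g h : Γ) (z : T → ℝ) : fa g (fa h z) = fa (g * h) z :=
  funext fun t => by simp [fa, mul_smul]

theorem cov_cont (g : Γ) : Continuous (fa g : (T → ℝ) → T → ℝ) :=
  continuous_pi fun _ => continuous_apply _

theorem cov_box {z₀ : T → ℝ} {W : Set (T → ℝ)} (h : W ∈ 𝓝 z₀) : ∃ (S : Finset T) (η : ℝ),
    0 < η ∧ ∀ z, (∀ t ∈ S, |z t - z₀ t| < η) → z ∈ W := by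
  rw [nhds_pi, Filter.mem_pi'] at h
  obtain ⟨S, u, a, b⟩ := h
  choose e e₁ e₂ using fun t => Metric.mem_nhds_iff.1 (a t)
  obtain ⟨η, c, d⟩ := (((eventually_all_finset S).2 fun t _ =>
    nhdsWithin_le_nhds (Iio_mem_nhds (e₁ t))).and (self_mem_nhdsWithin (s := Ioi (0 : ℝ)))).exists
  exact ⟨S, η, d, fun z k => b fun t ht => e₂ t ((k t ht).trans (c t ht))⟩

variable {P : Type*} [PseudoMetricSpace P] {Ψ : P → T → ℝ} {B : Set Γ} {m : ℕ}
  {f : Fin m → (T → ℝ) → ℝ} {η : Fin m → ℝ}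

/-- One round of the greedy construction. -/
theorem cov_round [Countable Γ] (hB : B.Finite) (h1 : 1 ∈ B) (hs : ∀ g ∈ B, g⁻¹ ∈ B)
    (hf : ∀ i, Continuous (f i)) (hη : ∀ i, 0 < η i) {K : Set P} {k : ℕ}
    (hL : ∀ i (g : Γ), ∃ L, LipschitzOnWith L (fun q => f i (fa g (Ψ q))) K)
    (hc : ∀ q ∈ K, ∃ i, f i (Ψ q) < η i / 2) (hK : hct (k + 1) K = 0) :
    ∃ O : Fin m → Set (T → ℝ), (∀ i, IsOpen (O i) ∧ ∀ z ∈ O i, f i z < η i) ∧
      (∀ i j, ∀ g ∈ B, ∀ z ∈ O i, fa g z ∈ O j → i = j) ∧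
      hct k {q ∈ K | ¬ ∃ i, ∃ g ∈ B, fa g (Ψ q) ∈ O i} = 0 := by
  have : ∀ i, ∃ r ∈ Ioo (η i / 2) (η i), ∀ g : Γ, hct k {q ∈ K | f i (fa g (Ψ q)) = r} = 0 :=
    fun i => Measure.exists_mem_of_measure_ne_zero_of_ae (μ := volume)
      (by simpa using hη i) (ae_restrict_of_ae (ae_all_iff.2 fun g =>
        (hL i g).elim fun _ h => eilenberg hK h))
  choose r r₁ r₂ using this
  obtain ⟨V, hV⟩ : ∃ V : Fin m → Set (T → ℝ), ∀ i z, z ∈ V i ↔
      f i z < r i ∧ ∀ j, j < i → ∀ g ∈ B, fa g z ∉ V j :=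
    ⟨wellFounded_lt.fix fun i V => {z | f i z < r i ∧ ∀ j (h : j < i), ∀ g ∈ B, fa g z ∉ V j h},
      fun i z => by rw [WellFounded.fix_eq]; rfl⟩
  have loc : ∀ i z, (∀ j (g : Γ), f j (fa g z) ≠ r j) → ∀ᶠ y in 𝓝 z, y ∈ V i ↔ z ∈ V i := by
    intro i
    refine wellFounded_lt.induction (C := fun i => ∀ z, (∀ j (g : Γ), f j (fa g z) ≠ r j) →
      ∀ᶠ y in 𝓝 z, y ∈ V i ↔ z ∈ V i) i fun i ih z hz => ?_
    have a : ∀ᶠ y in 𝓝 z, f i y < r i ↔ f i z < r i := by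
      rcases (show f i z ≠ r i by simpa [cov_one] using hz i 1).lt_or_gt with e | e
      · filter_upwards [(hf i).continuousAt.eventually_lt continuousAt_const e] with y b
        exact iff_of_true b e
      · filter_upwards [continuousAt_const.eventually_lt (hf i).continuousAt e] with y b
        exact iff_of_false b.not_gt e.not_gt
    have b : ∀ᶠ y in 𝓝 z, ∀ j, j < i → ∀ g ∈ B, (fa g y ∈ V j ↔ fa g z ∈ V j) :=
      eventually_all.2 fun j => eventually_all.2 fun c => (eventually_all_finite hB).2 fun g _ =>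
        (cov_cont g).continuousAt.eventually (ih j c _ fun j' g' => cov_mul g' g z ▸ hz j' _)
    filter_upwards [a, b] with y a b
    rw [hV, hV, a]
    exact and_congr_right fun _ => forall₄_congr fun j c g d => (b j c g d).not
  refine ⟨fun i => interior (V i), fun i => ⟨isOpen_interior, fun z h =>
    ((hV i z).1 (interior_subset h)).1.trans (r₁ i).2⟩, fun i j g hg z a b => ?_, ?_⟩
  · rcases lt_trichotomy i j with e | e | e
    · refine (((hV j _).1 (interior_subset b)).2 i e g⁻¹ (hs g hg) ?_).elim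
      rw [cov_mul, inv_mul_cancel, cov_one]
      exact interior_subset a
    · exact e
    · exact (((hV i _).1 (interior_subset a)).2 j e g hg (interior_subset b)).elim
  · refine measure_mono_null (t := ⋃ i, ⋃ g : Γ, {q ∈ K | f i (fa g (Ψ q)) = r i})
      (fun q ⟨a, b⟩ => ?_) (measure_iUnion_null fun i => measure_iUnion_null (r₂ i))
    by_contra c
    have d : ∀ j (g : Γ), f j (fa g (Ψ q)) ≠ r j := fun j g e => c (mem_iUnion₂.2 ⟨j, g, a, e⟩)
    have e : ∀ j, ∀ g ∈ B, fa g (Ψ q) ∉ V j := fun j g hg e => b ⟨j, g, hg,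
      mem_interior_iff_mem_nhds.2 ((loc j _ fun j' g' => cov_mul g' g (Ψ q) ▸ d j' _).mono
        fun _ l => l.2 e)⟩
    obtain ⟨i, hi⟩ := hc q a
    exact e i 1 h1 ((cov_one (Γ := Γ) (Ψ q)).symm ▸ (hV i _).2
      ⟨hi.trans (r₁ i).1, fun j _ => e j⟩)

theorem cov_rounds [Countable Γ] (hB : B.Finite) (h1 : 1 ∈ B) (hs : ∀ g ∈ B, g⁻¹ ∈ B)
    (hf : ∀ i, Continuous (f i)) (hη : ∀ i, 0 < η i) (k : ℕ) {K : Set P}
    (hL : ∀ i (g : Γ), ∃ L, LipschitzOnWith L (fun q => f i (fa g (Ψ q))) K)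
    (hc : ∀ q ∈ K, ∃ i, f i (Ψ q) < η i / 2) (hK : hct k K = 0) :
    ∃ O : Fin k → Fin m → Set (T → ℝ), (∀ c i, IsOpen (O c i) ∧ ∀ z ∈ O c i, f i z < η i) ∧
      (∀ c i j, ∀ g ∈ B, ∀ z ∈ O c i, fa g z ∈ O c j → i = j) ∧
      ∀ q ∈ K, ∃ c i, ∃ g ∈ B, fa g (Ψ q) ∈ O c i := by
  induction k generalizing K with
  | zero => exact ⟨Fin.elim0, fun c => c.elim0, fun c => c.elim0, by simp [hct_zero hK]⟩
  | succ k ih =>
    obtain ⟨O, a, b, c⟩ := cov_round hB h1 hs hf hη hL hc hK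
    obtain ⟨O', a', b', c'⟩ := ih (fun i g => (hL i g).imp fun _ h => h.mono (sep_subset _ _))
      (fun q h => hc q h.1) c
    refine ⟨Fin.cons O O', Fin.cases a a', Fin.cases b b', fun q hq => ?_⟩
    by_cases e : ∃ i, ∃ g ∈ B, fa g (Ψ q) ∈ O i
    · exact ⟨0, e⟩
    · obtain ⟨c, e⟩ := c' q ⟨hq, e⟩
      exact ⟨c.succ, e⟩

/-- The cover lemma. -/
theorem cov_main [Countable Γ] {A : Set P} (hA : IsCompact A)
    (hΨ : ∀ t, ∃ L, LipschitzOnWith L (fun q => Ψ q t) A) {n : ℕ} (hn : hct n A = 0)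
    (hB : B.Finite) (h1 : 1 ∈ B) (hs : ∀ g ∈ B, g⁻¹ ∈ B) (W : P → Set (T → ℝ))
    (hW : ∀ p ∈ A, W p ∈ 𝓝 (Ψ p)) :
    ∃ (m : ℕ) (p : Fin m → P) (O : Fin n → Fin m → Set (T → ℝ)) (T₀ : Finset T) (ε : ℝ),
      0 < ε ∧ (∀ i, p i ∈ A) ∧ (∀ c i, O c i ⊆ W (p i)) ∧
      (∀ c i j, ∀ g ∈ B, ∀ z ∈ O c i, fa g z ∈ O c j → i = j ∧ fa g (Ψ (p i)) = Ψ (p i)) ∧
      ∀ q ∈ A, ∃ c i, ∃ g ∈ B, ∀ z, (∀ t ∈ T₀, |z t - Ψ q t| < ε) → fa g z ∈ O c i := by
  classical
  have hc : ContinuousOn Ψ A := continuousOn_pi.2 fun t => (hΨ t).elim fun _ h => h.continuousOn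
  have sep : ∀ p (g : Γ), ∃ N ∈ 𝓝 (Ψ p), ∀ z ∈ N, fa g z ∈ N → fa g (Ψ p) = Ψ p := fun p g => by
    by_cases e : fa g (Ψ p) = Ψ p
    · exact ⟨univ, univ_mem, fun _ _ _ => e⟩
    obtain ⟨u, v, hu, hv, a, b, d⟩ := t2_separation e
    exact ⟨v ∩ fa g ⁻¹' u, inter_mem (hv.mem_nhds b) ((cov_cont g).continuousAt (hu.mem_nhds a)),
      fun z x y => (disjoint_left.1 d x.2 y.1).elim⟩
  choose N N₁ N₂ using sep
  choose! S η η₁ η₂ using fun p (hp : p ∈ A) => cov_box (inter_mem (hW p hp)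
    ((biInter_mem hB).2 fun g _ => N₁ p g))
  have cf : ∀ p, Continuous fun z : T → ℝ => ∑ t ∈ S p, |z t - Ψ p t| := fun p => by fun_prop
  obtain ⟨s, s₁, s₂⟩ := hA.elim_nhdsWithin_subcover
    (fun p => {q | ∑ t ∈ S p, |Ψ q t - Ψ p t| < η p / 2}) fun p hp =>
      ((cf p).comp_continuousOn hc p hp).eventually (Iio_mem_nhds (by simpa using η₁ p hp))
  let e : Fin s.card → P := fun i => s.equivFin.symm i
  have e₁ : ∀ i, e i ∈ A := fun i => s₁ _ (s.equivFin.symm i).2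
  have l₁ : ∀ i (g : Γ), ∃ L, LipschitzOnWith L
      (fun q => ∑ t ∈ S (e i), |fa g (Ψ q) t - Ψ (e i) t|) A := fun i g => by
    choose L hL using hΨ
    refine ⟨∑ t ∈ S (e i), L (g⁻¹ • t), LipschitzOnWith.of_dist_le_mul fun x hx y hy => ?_⟩
    rw [NNReal.coe_sum, Finset.sum_mul]
    refine (dist_sum_sum_le _ _ _).trans (Finset.sum_le_sum fun t _ => ?_)
    refine le_trans ?_ ((hL (g⁻¹ • t)).dist_le_mul x hx y hy)
    rw [Real.dist_eq, Real.dist_eq]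
    exact (abs_abs_sub_abs_le_abs_sub _ _).trans (le_of_eq (by simp [fa]))
  have l₂ : ∀ q ∈ A, ∃ i, ∑ t ∈ S (e i), |Ψ q t - Ψ (e i) t| < η (e i) / 2 := fun q hq => by
    obtain ⟨p, hp, l⟩ := mem_iUnion₂.1 (s₂ hq)
    exact ⟨s.equivFin ⟨p, hp⟩, by simpa [e] using l⟩
  obtain ⟨O, a, b, c⟩ := cov_rounds (Ψ := Ψ) (f := fun i z => ∑ t ∈ S (e i), |z t - Ψ (e i) t|)
    (η := fun i => η (e i)) hB h1 hs (fun i => cf _) (fun i => η₁ _ (e₁ i)) n (K := A)
    l₁ l₂ hn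
  · have a' : ∀ c i, ∀ z ∈ O c i, z ∈ W (e i) ∩ ⋂ g ∈ B, N (e i) g := fun c i z hz =>
      η₂ _ (e₁ i) z fun t ht => (Finset.single_le_sum (f := fun t => |z t - Ψ (e i) t|)
        (fun _ _ => abs_nonneg _) ht).trans_lt ((a c i).2 z hz)
    have c₁ : ∀ q ∈ A, ∃ (S' : Finset T) (ε : ℝ), 0 < ε ∧ ∃ c i, ∃ g ∈ B, ∀ z,
        (∀ t ∈ S', |z t - Ψ q t| < ε) → fa g z ∈ O c i := fun q hq => by
      obtain ⟨c', i, g, g₁, g₂⟩ := c q hq
      obtain ⟨S', ε, ε₁, ε₂⟩ := cov_box ((cov_cont g).continuousAt ((a c' i).1.mem_nhds g₂))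
      exact ⟨S', ε, ε₁, c', i, g, g₁, ε₂⟩
    choose! S' ε ε₁ ε₂ using c₁
    obtain ⟨u, u₁, u₂⟩ := hA.elim_nhdsWithin_subcover
      (fun p => {q | ∀ t ∈ S' p, |Ψ q t - Ψ p t| < ε p / 2}) fun p hp =>
        (eventually_all_finset _).2 fun t _ => (((continuous_apply t).comp_continuousOn hc p hp).sub
          continuousWithinAt_const).abs.eventually (Iio_mem_nhds (by simpa using ε₁ p hp))
    obtain ⟨δ, δ₁, δ₂⟩ := (((eventually_all_finset u).2 fun p hp => nhdsWithin_le_nhds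
      (Iio_mem_nhds (half_pos (ε₁ p (u₁ p hp))))).and
        (self_mem_nhdsWithin (s := Ioi (0 : ℝ)))).exists
    refine ⟨_, e, O, u.biUnion S', δ, δ₂, e₁, fun c i z hz => (a' c i z hz).1,
      fun c i j g hg z x y => ?_, fun q hq => ?_⟩
    · obtain rfl := b c i j g hg z x y
      exact ⟨rfl, N₂ _ g z (mem_iInter₂.1 (a' c i z x).2 g hg) (mem_iInter₂.1 (a' c i _ y).2 g hg)⟩
    · obtain ⟨p, hp, l⟩ := mem_iUnion₂.1 (u₂ hq)
      obtain ⟨c', i, g, g₁, g₂⟩ := ε₂ p (u₁ p hp)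
      refine ⟨c', i, g, g₁, fun z hz => g₂ z fun t ht => ?_⟩
      have x := hz t (Finset.mem_biUnion.2 ⟨p, hp, ht⟩)
      have y : δ < ε p / 2 := δ₁ p hp
      linarith [abs_sub_le (z t) (Ψ q t) (Ψ p t), l t ht]

end Cover

end Pool.Agent.Lib.MP_5d3e93_al.Lq
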