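import Pool.Agent.Lib.MP_5d3e93_al.Lq.Red
import Pool.Agent.Lib.MP_5d3e93_al.Lq.Def2

/-! The product formula, chains of subspaces, entries of the groups. -/

open Matrix Module

namespace Pool.Agent.Lib.MP_5d3e93_al.Lq

variable {M N : ℕ}

/-- The product of the absolute values. -/
noncomputable def cuF (N : ℕ) (q : ℚ) : ℝ := |(q : ℝ)| * ∏ p ∈ N.primeFactors, (padicNorm p q : ℝ)

theorem cuF_mul (a b : ℚ) : cuF N (a * b) = cuF N a * cuF N b := by
  rw [cuF, cuF, cuF, Rat.cast_mul, abs_mul, mul_mul_mul_comm, ← Finset.prod_mul_distrib]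
  congr 1
  refine Finset.prod_congr rfl fun p a => ?_
  have : Fact p.Prime := ⟨Nat.prime_of_mem_primeFactors a⟩
  rw [padicNorm.mul, Rat.cast_mul]

theorem cuF_prime {l : ℕ} (hl : l.Prime) :
    1 ≤ cuF N l ∧ (l ∈ N.primeFactors → cuF N l = 1) := by
  have q (p) (a : p ∈ N.primeFactors) (b : p ≠ l) : (padicNorm p l : ℝ) = 1 := by
    simpa using red_nq (Nat.prime_of_mem_primeFactors a) hl b 1
  have e (h : l ∈ N.primeFactors) : cuF N l = 1 := by
    have : (padicNorm l l : ℝ) = (l : ℝ)⁻¹ := by simpa using red_np hl 1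
    rw [cuF, Finset.prod_eq_single_of_mem l h q, this, Rat.cast_natCast, Nat.abs_cast,
      mul_inv_cancel₀ (by exact_mod_cast hl.ne_zero)]
  refine ⟨?_, e⟩
  by_cases h : l ∈ N.primeFactors
  · exact (e h).ge
  · rw [cuF, Finset.prod_eq_one fun p a => q p a fun b => h (b ▸ a), mul_one, Rat.cast_natCast,
      Nat.abs_cast]
    exact_mod_cast hl.one_le

theorem cuF_nat (hN : N ≠ 0) (n : ℕ) : n ≠ 0 →
    1 ≤ cuF N n ∧ ((∀ l : ℕ, l.Prime → l ∣ n → l ∣ N) → cuF N n = 1) := by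
  induction n using induction_on_primes with
  | zero => exact fun h => (h rfl).elim
  | one => exact fun _ => by simp [cuF]
  | prime_mul l n hl ih =>
    intro h
    obtain ⟨a, b⟩ := ih (right_ne_zero_of_mul h)
    obtain ⟨c, d⟩ := cuF_prime (N := N) hl
    rw [Nat.cast_mul, cuF_mul]
    exact ⟨one_le_mul_of_one_le_of_one_le c a, fun e => by
      rw [d (Nat.mem_primeFactors.2 ⟨hl, e l hl (dvd_mul_right ..), hN⟩),
        b fun p u w => e p u (w.mul_left _), one_mul]⟩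

/-- The product formula. -/
theorem cuF_zs (hN : N ≠ 0) {q : ℚ} (h : q ∈ Zs N) (h0 : q ≠ 0) : 1 ≤ cuF N q := by
  obtain ⟨k, n, e⟩ := h
  have n0 : n ≠ 0 := fun a => by
    rw [a, Int.cast_zero] at e
    exact mul_ne_zero (pow_ne_zero _ (by exact_mod_cast hN)) h0 e
  have a := (cuF_nat hN (N ^ k) (pow_ne_zero _ hN)).2 fun l u w => u.dvd_of_dvd_pow w
  have b := (cuF_nat hN n.natAbs (Int.natAbs_ne_zero.2 n0)).1
  have c : cuF N n.natAbs = cuF N n := by
    rcases Int.natAbs_eq n with d | d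
    · rw [d]; simp
    · rw [d]; simp [cuF, padicNorm.neg]
  rwa [c, ← e, cuF_mul, ← Nat.cast_pow, a, one_mul] at b

theorem cu_chain {m : ℕ} {E : ℕ → Submodule ℚ (Fin (m + 1) → ℚ)} (h : Monotone E) (h0 : E 0 ≠ ⊥) :
    (∃ j, E j = E (j + 1) ∧ E j ≠ ⊤) ∨ E m = ⊤ := by
  by_contra c
  rw [not_or, not_exists] at c
  have k (j : ℕ) : j ≤ m → j + 1 ≤ finrank ℚ (E j) := by
    induction j with
    | zero => exact fun _ => Nat.pos_of_ne_zero fun a => h0 (Submodule.finrank_eq_zero.1 a)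
    | succ j ih =>
      intro a
      have b : j ≤ m := Nat.le_of_succ_le a
      exact (Nat.succ_le_succ (ih b)).trans (Submodule.finrank_lt_finrank_of_lt
        ((h j.le_succ).lt_of_ne fun e => c.1 j ⟨e, fun u => c.2 (top_le_iff.1 (u ▸ h b))⟩))
  exact c.2 (Submodule.eq_top_of_finrank_eq
    ((Submodule.finrank_le _).antisymm (by simpa using k m le_rfl)))

theorem cu_basis {S : Set (Fin M → ℚ)} (h : Submodule.span ℚ S = ⊤) :
    ∃ v : Fin M → Fin M → ℚ, LinearIndependent ℚ v ∧ ∀ k, v k ∈ S := by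
  obtain ⟨f, a, -, b⟩ := Submodule.exists_fun_fin_finrank_span_eq ℚ S
  have e : M = finrank ℚ (Submodule.span ℚ S) := by rw [h]; simp
  exact ⟨f ∘ Fin.cast e, b.comp _ (Fin.cast_injective e), fun _ => a _⟩

theorem cu_rank {m : ℕ} (U : Sb (m + 1)) : ∃ k : Fin m, finrank ℚ U.1 = k + 1 := by
  have a : finrank ℚ U.1 ≠ 0 := fun a => U.2.1 (Submodule.finrank_eq_zero.1 a)
  have b : finrank ℚ U.1 < m + 1 := by simpa using Submodule.finrank_lt U.2.2
  exact ⟨⟨finrank ℚ U.1 - 1, by omega⟩, by simp only; omega⟩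

theorem cu_mem {g : GL (Fin M) ℚ} (h : ∀ i j, g.1 i j ∈ Zs N ∧ g⁻¹.1 i j ∈ Zs N) : g ∈ Gn M N := by
  have e {q : ℚ} (a : q ∈ Zs N) : ∀ᶠ k : ℕ in Filter.atTop, ∃ z : ℤ, (N : ℚ) ^ k * q = z := by
    obtain ⟨k, n, b⟩ := a
    refine (Filter.eventually_ge_atTop k).mono fun l c => ?_
    obtain ⟨d, rfl⟩ := Nat.exists_eq_add_of_le c
    exact ⟨N ^ d * n, by push_cast; rw [← b]; ring⟩
  exact (Filter.eventually_all.2 fun i => Filter.eventually_all.2 fun j =>
    (e (h i j).1).and (e (h i j).2)).exists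

theorem cu_act (g : Gn M N) {t : Fin M → ℚ} (h : ∀ i, t i ∈ Zs N) (i) : (g.1.1 *ᵥ t) i ∈ Zs N := by
  obtain ⟨k, a⟩ := g.2
  change ∑ j, g.1.1 i j * t j ∈ Zs N
  exact sum_mem fun j _ => mul_mem (show g.1.1 i j ∈ Zs N from ⟨k, (a i j).1⟩) (h j)

end Pool.Agent.Lib.MP_5d3e93_al.Lq
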