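import Pool.Agent.Lib.MP_5d3e93_al.Lq.CuA
import Pool.Agent.Lib.MP_5d3e93_al.Lq.Ag

/-! Norms on rational vectors, the height, the first minimum. -/

open Matrix Module

namespace Pool.Agent.Lib.MP_5d3e93_al.Lq

variable {P : Pl} {M N m : ℕ}

/-- Rational vectors at a place. -/
noncomputable def cuV (P : Pl) (t : Fin M → ℚ) : Fin M → P.K := fun l => t l

theorem cuV_add (a b : Fin M → ℚ) : cuV P (a + b) = cuV P a + cuV P b :=
  funext fun l => Rat.cast_add (a l) (b l)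

theorem cuV_smul (c : ℚ) (a : Fin M → ℚ) : cuV P (c • a) = (c : P.K) • cuV P a :=
  funext fun l => Rat.cast_mul c (a l)

theorem cuV_act (g : GL (Fin M) ℚ) (a : Fin M → ℚ) :
    (GeneralLinearGroup.map (Rat.castHom P.K) g).1 *ᵥ cuV P a = cuV P (g.1 *ᵥ a) :=
  funext fun l => ((Rat.castHom P.K).map_mulVec g.1 a l).symm

theorem cuV_ne {a : Fin M → ℚ} (h : a ≠ 0) : cuV P a ≠ 0 := fun e =>
  h (funext fun l => Rat.cast_eq_zero.1 (congrFun e l))

theorem cuN_add (α : Nm P M) (a b) : α.1 (a + b) ≤ α.1 a + α.1 b := by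
  obtain ⟨f, w, -, h, e⟩ := α.2
  rw [e]
  exact nm_add (fun k => (h k).le) a b

theorem cuN_smul (α : Nm P M) (c : P.K) (a) : α.1 (c • a) = ‖c‖ * α.1 a := by
  obtain ⟨f, w, -, h, e⟩ := α.2
  rw [e]
  exact nm_smul c a

theorem cuN_le (he : P.e = false) {f : Matrix (Fin M) (Fin M) P.K} {w t} {c : ℝ} (hc : 0 ≤ c)
    (h : ∀ k, |w k * ‖(f *ᵥ t) k‖| ≤ c) : nm f w t ≤ c := by
  rw [nm, he]
  exact (pi_norm_le_iff_of_nonneg hc).2 h

theorem cuN_max (he : P.e = false) (hu : ∀ a b : P.K, ‖a + b‖ ≤ max ‖a‖ ‖b‖) (α : Nm P M) (a b) :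
    α.1 (a + b) ≤ max (α.1 a) (α.1 b) := by
  obtain ⟨f, w, -, h, e⟩ := α.2
  rw [e]
  refine cuN_le he (le_max_of_le_left (nm_nonneg _)) fun k => ?_
  rw [abs_of_nonneg (mul_nonneg (h k).le (norm_nonneg _)), mulVec_add]
  refine (mul_le_mul_of_nonneg_left (hu _ _) (h k).le).trans ?_
  rw [mul_max_of_nonneg _ _ (h k).le]
  exact max_le_max (le_nm k a) (le_nm k b)

theorem cuN_cont (α : Nm P M) : Continuous α.1 := by
  obtain ⟨f, w, -, -, e⟩ := α.2
  rw [e]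
  exact continuous_ag.comp (continuous_pi fun k => continuous_const.mul
    ((continuous_apply k).comp (continuous_const.matrix_mulVec continuous_id)).norm)

theorem cuN_dense (hd : DenseRange (Rat.cast : ℚ → P.K)) {α β : Nm P M} {c : ℝ}
    (h : ∀ t, α.1 (cuV P t) ≤ c * β.1 (cuV P t)) (t) : α.1 t ≤ c * β.1 t :=
  (DenseRange.piMap fun _ => hd).induction_on t
    (isClosed_le (cuN_cont α) (continuous_const.mul (cuN_cont β))) h

/-- Multiples of a norm. -/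
noncomputable def cuS (θ : ℝ) (h : 0 < θ) (α : Nm P M) : Nm P M := ⟨fun t => θ * α.1 t, by
  obtain ⟨f, w, a, b, e⟩ := α.2
  refine ⟨f, fun k => θ * w k, a, fun k => mul_pos h (b k), funext fun t => ?_⟩
  rw [e, nm, nm, ← ag_smul h.le]
  simp only [mul_assoc]⟩

theorem cu_std (t : Fin M → P.K) (j) : ‖t j‖ ≤ (Nm.std P M).1 t := by
  simpa [Nm.std] using le_nm (f := 1) (a := fun _ => 1) j t

theorem cu_std' (t : Fin M → P.K) {c : ℝ} (h : ∀ j, ‖t j‖ ≤ c) : (Nm.std P M).1 t ≤ M * c :=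
  (ag_le ..).trans ((Finset.sum_le_card_nsmul _ _ c fun j _ => by simpa using h j).trans_eq
    (by simp))

theorem pv_dense (i) : DenseRange (Rat.cast : ℚ → (pv N i).K) := by
  cases i with
  | none => exact Rat.denseRange_cast (𝕜 := ℝ)
  | some p => exact @Padic.denseRange_ratCast p ⟨Nat.prime_of_mem_primeFactors p.2⟩

theorem pv_none (c : ℚ) : ‖(c : (pv N none).K)‖ = |(c : ℝ)| := rfl

theorem pv_some (p : N.primeFactors) (c : ℚ) : ‖(c : (pv N (some p)).K)‖ = padicNorm p c :=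
  @Padic.eq_padicNorm p ⟨Nat.prime_of_mem_primeFactors p.2⟩ c

theorem pv_max (p : N.primeFactors) (a b : (pv N (some p)).K) : ‖a + b‖ ≤ max ‖a‖ ‖b‖ :=
  @Padic.nonarchimedean p ⟨Nat.prime_of_mem_primeFactors p.2⟩ a b

variable (y y' : Xr (pr (m + 1) N))

/-- The height. -/
noncomputable def cuH (t : Fin (m + 1) → ℚ) : ℝ := ∏ i, (y i).1 (cuV _ t)

/-- The norms at the primes. -/
noncomputable def cuZ (p : ℕ) (t : Fin (m + 1) → ℚ) : ℝ :=
  if h : p ∈ N.primeFactors then (y (some ⟨p, h⟩)).1 (cuV _ t) else 0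

theorem cu_ht (t) : Ht N (fun t => (y none).1 (cuV _ t)) (cuZ y) t = cuH y t := by
  rw [Ht, cuH, Fintype.prod_option, ← Finset.prod_coe_sort]
  exact congrArg _ (Finset.prod_congr rfl fun p _ => dif_pos p.2)

theorem cu_snr : SnR fun t => (y none).1 (cuV _ t) :=
  ⟨fun a b => by rw [cuV_add]; exact cuN_add _ _ _, fun c a => by rw [cuV_smul, cuN_smul, pv_none]⟩

theorem cu_snp (p) (h : p ∈ N.primeFactors) : SnP p (cuZ y p) :=
  ⟨fun a b => by
    simp only [cuZ, dif_pos h]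
    rw [cuV_add]
    exact cuN_max rfl (pv_max _) _ _ _, fun c a => by
    simp only [cuZ, dif_pos h]
    rw [cuV_smul, cuN_smul, pv_some]⟩

theorem cu_place (g : Gn (m + 1) N) (i t) :
    ((g • y) i).1 (cuV _ (g.1.1 *ᵥ t)) = (y i).1 (cuV _ t) := by
  change (y i).1 (((pr (m + 1) N i g)⁻¹).1 *ᵥ _) = _
  rw [← cuV_act]
  change (y i).1 (_ *ᵥ ((pr (m + 1) N i g).1 *ᵥ _)) = _
  rw [mulVec_mulVec, Units.inv_mul, one_mulVec]

theorem cuH_act (g : Gn (m + 1) N) (t) : cuH (g • y) (g.1.1 *ᵥ t) = cuH y t :=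
  Finset.prod_congr rfl fun i _ => cu_place y g i t

theorem cuH_nonneg (t) : 0 ≤ cuH y t := Finset.prod_nonneg fun i _ => (y i).nonneg _

variable {y y'} in
theorem cu_cl {d : ℝ} (h : dist y y' ≤ d) (i) : Cl d (y i).1 (y' i).1 :=
  (Nm.dist_le (dist_nonneg.trans h)).1 ((dist_le_pi_dist y y' i).trans h)

variable {y y'} in
theorem cuH_lip {d : ℝ} (h : dist y y' ≤ d) (t) :
    cuH y t ≤ Real.exp d ^ Fintype.card (Option N.primeFactors) * cuH y' t := by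
  rw [cuH, cuH, ← Finset.card_univ, ← Finset.prod_const, ← Finset.prod_mul_distrib]
  exact Finset.prod_le_prod (fun i _ => (y i).nonneg _) fun i _ => (cu_cl h i _).1

theorem cuH_std (hN : N ≠ 0) {t : Fin (m + 1) → ℚ} (h : ∀ i, t i ∈ Zs N) (h0 : t ≠ 0) :
    1 ≤ cuH (x0 (pr (m + 1) N)) t := by
  obtain ⟨j, hj⟩ := Function.ne_iff.1 h0
  refine (cuF_zs hN (h j) hj).trans (Eq.trans_le ?_ (Finset.prod_le_prod
    (f := fun i => ‖(t j : (pv N i).K)‖) (fun _ _ => norm_nonneg _) fun i _ => cu_std (cuV _ t) j))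
  rw [cuF, Fintype.prod_option, ← Finset.prod_coe_sort, pv_none]
  exact congrArg _ (Finset.prod_congr rfl fun p _ => (pv_some p _).symm)

/-- The values of the height. -/
def cuT : Set ℝ := cuH y '' {t | (∀ i, t i ∈ Zs N) ∧ t ≠ 0}

theorem cuT_ne : (cuT y).Nonempty := ⟨_, fun _ => 1, ⟨fun _ => one_mem _, one_ne_zero⟩, rfl⟩

/-- The first minimum. -/
noncomputable def cuM : ℝ := sInf (cuT y)

theorem cuM_le {t : Fin (m + 1) → ℚ} (h : ∀ i, t i ∈ Zs N) (h0 : t ≠ 0) : cuM y ≤ cuH y t :=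
  csInf_le ⟨0, fun _ ⟨t, _, e⟩ => e ▸ cuH_nonneg y t⟩ ⟨t, ⟨h, h0⟩, rfl⟩

variable {y y'} in
theorem cuM_lip {d : ℝ} (h : dist y y' ≤ d) :
    cuM y ≤ Real.exp d ^ Fintype.card (Option N.primeFactors) * cuM y' := by
  rw [← div_le_iff₀' (by positivity)]
  refine le_csInf (cuT_ne y') fun _ ⟨t, a, e⟩ => ?_
  rw [div_le_iff₀' (by positivity), ← e]
  exact (cuM_le y a.1 a.2).trans (cuH_lip h t)

theorem cuM_pos (hN : N ≠ 0) : 0 < cuM y := by
  have a : 1 ≤ cuM (x0 (pr (m + 1) N)) :=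
    le_csInf (cuT_ne _) fun _ ⟨t, a, e⟩ => e ▸ cuH_std hN a.1 a.2
  have b := zero_lt_one.trans_le (a.trans (cuM_lip (y' := y) le_rfl))
  exact (mul_pos_iff_of_pos_left (by positivity)).1 b

theorem cu_inv (g : Gn M N) (t : Fin M → ℚ) : g.1.1 *ᵥ ((g⁻¹).1.1 *ᵥ t) = t := by
  rw [mulVec_mulVec, Subgroup.coe_inv, Units.mul_inv, one_mulVec]

theorem cuM_act (g : Gn (m + 1) N) : cuM (g • y) = cuM y := by
  have e (y : Xr (pr (m + 1) N)) (g : Gn (m + 1) N) : cuM (g • y) ≤ cuM y :=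
    le_csInf (cuT_ne y) fun _ ⟨t, a, e⟩ => by
      rw [← e, ← cuH_act y g]
      refine cuM_le _ (cu_act g a.1) fun b => a.2 ?_
      have := cu_inv g⁻¹ t
      rw [inv_inv, b, mulVec_zero] at this
      exact this.symm
  exact (e y g).antisymm (by simpa using e (g • y) g⁻¹)

end Pool.Agent.Lib.MP_5d3e93_al.Lq
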