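import Mathlib

/-! Splittable norms at a place, data of two norms, flats, transfer data. -/

open Matrix Set

namespace Pool.Agent.Lib.MP_5d3e93_al.Lq

universe w w'

/-- The binary operation: Euclidean or maximum. -/
noncomputable def op (e : Bool) (a b : ℝ) : ℝ := bif e then √(a ^ 2 + b ^ 2) else max a b

/-- The Euclidean norm or the maximum norm. -/
noncomputable def ag (e : Bool) {M : ℕ} (u : Fin M → ℝ) : ℝ := bif e then √(∑ k, u k ^ 2) else ‖u‖

theorem ag_nonneg (e : Bool) {M : ℕ} (u : Fin M → ℝ) : 0 ≤ ag e u := by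
  cases e <;> simp [ag]

theorem le_ag (e : Bool) {M : ℕ} (u : Fin M → ℝ) (k : Fin M) : |u k| ≤ ag e u := by
  cases e
  · exact norm_le_pi_norm u k
  · exact Real.abs_le_sqrt (Finset.single_le_sum (fun i _ => sq_nonneg (u i)) (Finset.mem_univ k))

theorem ag_le (e : Bool) {M : ℕ} (u : Fin M → ℝ) : ag e u ≤ ∑ k, |u k| := by
  have h : 0 ≤ ∑ k, |u k| := Finset.sum_nonneg fun _ _ => abs_nonneg _
  have l (k) : |u k| ≤ ∑ k, |u k| :=
    Finset.single_le_sum (fun i _ => abs_nonneg (u i)) (Finset.mem_univ k)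
  cases e
  · exact (pi_norm_le_iff_of_nonneg h).2 l
  · refine Real.sqrt_le_iff.2 ⟨h, ?_⟩
    rw [sq (∑ k, |u k|), Finset.sum_mul]
    exact Finset.sum_le_sum fun k _ => by
      rw [← sq_abs, sq]; exact mul_le_mul_of_nonneg_left (l k) (abs_nonneg _)

/-- Locally compact normed fields with a choice of the operation. -/
structure Pl where
  K : Type
  [nf : NontriviallyNormedField K]
  [ps : ProperSpace K]
  [ch : CharZero K]
  e : Bool

attribute [instance] Pl.nf Pl.ps Pl.ch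

/-- The real place. -/
noncomputable def Pl.real : Pl := ⟨ℝ, true⟩

/-- The finite places. -/
noncomputable def Pl.padic (p : ℕ) [Fact p.Prime] : Pl := ⟨ℚ_[p], false⟩

/-- Comparable functions. -/
def Cl {V : Type*} (r : ℝ) (α β : V → ℝ) : Prop :=
  ∀ t, α t ≤ Real.exp r * β t ∧ β t ≤ Real.exp r * α t

variable {P : Pl} {M m : ℕ}

/-- The seminorm with coordinates `f` and weights `a`. -/
noncomputable def nm (f : Matrix (Fin M) (Fin M) P.K) (a : Fin M → ℝ) (t : Fin M → P.K) : ℝ :=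
  ag P.e fun k => a k * ‖(f *ᵥ t) k‖

variable (P M) in
/-- Splittable norms. -/
def Nm : Type := {α : (Fin M → P.K) → ℝ // ∃ f a, IsUnit f ∧ (∀ k, 0 < a k) ∧ α = nm f a}

namespace Nm

theorem nonneg (α : Nm P M) (t) : 0 ≤ α.1 t := by
  obtain ⟨f, a, -, -, h⟩ := α.2
  rw [h]; exact ag_nonneg ..

theorem le_mul (α β : Nm P M) : ∃ C, ∀ t, α.1 t ≤ C * β.1 t := by
  obtain ⟨f, a, -, ha, h⟩ := α.2
  obtain ⟨g, b, ⟨g, rfl⟩, hb, k⟩ := β.2
  refine ⟨∑ i, ∑ j, a i * ‖(f * (g⁻¹).1) i j‖ / b j, fun t => ?_⟩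
  rw [h, Finset.sum_mul]
  refine (ag_le ..).trans (Finset.sum_le_sum fun i _ => ?_)
  have e : (f *ᵥ t) i = ∑ j, (f * (g⁻¹).1) i j * (g.1 *ᵥ t) j := by
    have : f *ᵥ t = (f * (g⁻¹).1) *ᵥ (g.1 *ᵥ t) := by
      rw [mulVec_mulVec, Matrix.mul_assoc, Units.inv_mul, Matrix.mul_one]
    rw [this]; rfl
  rw [abs_of_nonneg (mul_nonneg (ha i).le (norm_nonneg _)), e, Finset.sum_mul]
  refine (mul_le_mul_of_nonneg_left (norm_sum_le ..) (ha i).le).trans ?_
  rw [Finset.mul_sum]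
  refine Finset.sum_le_sum fun j _ => ?_
  have l : b j * ‖(g.1 *ᵥ t) j‖ ≤ β.1 t := by
    rw [k]; exact (le_abs_self _).trans (le_ag P.e (fun k => b k * ‖(g.1 *ᵥ t) k‖) j)
  have p := hb j
  calc a i * ‖(f * (g⁻¹).1) i j * (g.1 *ᵥ t) j‖
      = a i * ‖(f * (g⁻¹).1) i j‖ / b j * (b j * ‖(g.1 *ᵥ t) j‖) := by
        rw [norm_mul]; field_simp
    _ ≤ _ := mul_le_mul_of_nonneg_left l
        (div_nonneg (mul_nonneg (ha i).le (norm_nonneg _)) p.le)

theorem ex_cl (α β : Nm P M) : ∃ r, 0 ≤ r ∧ Cl r α.1 β.1 := by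
  obtain ⟨C, h⟩ := α.le_mul β
  obtain ⟨D, k⟩ := β.le_mul α
  have e : |C| + |D| ≤ Real.exp (|C| + |D|) := by linarith [Real.add_one_le_exp (|C| + |D|)]
  exact ⟨|C| + |D|, by positivity, fun t =>
    ⟨(h t).trans (mul_le_mul_of_nonneg_right
      (by linarith [le_abs_self C, abs_nonneg D]) (β.nonneg t)),
    (k t).trans (mul_le_mul_of_nonneg_right
      (by linarith [le_abs_self D, abs_nonneg C]) (α.nonneg t))⟩⟩

theorem bdd (α β : Nm P M) : BddBelow {r | 0 ≤ r ∧ Cl r α.1 β.1} := ⟨0, fun _ h => h.1⟩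

noncomputable instance : PseudoMetricSpace (Nm P M) where
  dist α β := sInf {r | 0 ≤ r ∧ Cl r α.1 β.1}
  dist_self α := le_antisymm (csInf_le (bdd α α) ⟨le_rfl, fun t => by simp⟩)
    (le_csInf (ex_cl α α) fun _ h => h.1)
  dist_comm α β := by
    have : ∀ r, Cl r α.1 β.1 ↔ Cl r β.1 α.1 := fun r => forall_congr' fun t => and_comm
    simp only [this]
  dist_triangle α β γ := by
    refine sub_le_iff_le_add.1 (le_csInf (ex_cl α β) fun r h => sub_le_comm.1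
      (le_csInf (ex_cl β γ) fun s k => sub_le_iff_le_add'.2 (csInf_le (bdd α γ)
        ⟨add_nonneg h.1 k.1, fun t => ⟨?_, ?_⟩⟩)))
    · rw [Real.exp_add, mul_assoc]
      exact (h.2 t).1.trans (mul_le_mul_of_nonneg_left (k.2 t).1 (Real.exp_pos _).le)
    · rw [add_comm, Real.exp_add, mul_assoc]
      exact (k.2 t).2.trans (mul_le_mul_of_nonneg_left (h.2 t).2 (Real.exp_pos _).le)

instance : MulAction (GL (Fin M) P.K) (Nm P M) where
  smul g α := ⟨fun t => α.1 ((g⁻¹).1 *ᵥ t), by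
    obtain ⟨f, a, h, k, e⟩ := α.2
    exact ⟨f * (g⁻¹).1, a, h.mul (g⁻¹).isUnit, k, funext fun t => by
      rw [e]; simp only [nm, mulVec_mulVec]⟩⟩
  one_smul α := Subtype.ext (funext fun t => show α.1 (((1 : GL (Fin M) P.K)⁻¹).1 *ᵥ t) = _ by simp)
  mul_smul g h α := Subtype.ext (funext fun t =>
    show α.1 (((g * h)⁻¹).1 *ᵥ t) = α.1 ((h⁻¹).1 *ᵥ ((g⁻¹).1 *ᵥ t)) by
      rw [mulVec_mulVec, _root_.mul_inv_rev, Units.val_mul])

variable (P M) in
/-- The standard norm. -/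
noncomputable def std : Nm P M := ⟨nm 1 fun _ => 1, 1, _, isUnit_one, fun _ => one_pos, rfl⟩

end Nm

/-- Local doubling at the scales up to one. -/
def Ld (X : Type*) [PseudoMetricSpace X] (D : ℕ) : Prop :=
  ∀ (x : X) (r : ℝ), 0 < r → r ≤ 1 → ∃ s : Finset X, s.card ≤ D ∧
    ∀ y, dist x y ≤ r → ∃ z ∈ s, dist z y ≤ r / 2

/-- Good places. -/
structure Pl.Ok (P : Pl) : Prop where
  spl : ∀ M (α β : Nm P M), ∃ f a b, IsUnit f ∧ (∀ k, 0 < a k) ∧ (∀ k, 0 < b k) ∧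
    α.1 = nm f a ∧ β.1 = nm f b
  ld : ∀ M, ∃ D, Ld (Nm P M) D

/-- Contractions along which distances do not grow. -/
structure Bi (X : Type*) [PseudoMetricSpace X] where
  c : ℝ → X → X → X
  c0 : ∀ x a, c 0 x a = x
  c1 : ∀ x a, c 1 x a = a
  diag : ∀ t ∈ Icc (0 : ℝ) 1, ∀ x, c t x x = x
  lip : ∀ t ∈ Icc (0 : ℝ) 1, ∀ x y a b, dist (c t x a) (c t y b) ≤ max (dist x y) (dist a b)
  cont : ∀ x a, ContinuousOn (fun t => c t x a) (Icc 0 1)

/-- Convex sets. -/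
def Bi.Cv {X : Type*} [PseudoMetricSpace X] (B : Bi X) (K : Set X) : Prop :=
  ∀ t ∈ Icc (0 : ℝ) 1, ∀ x ∈ K, ∀ a ∈ K, B.c t x a ∈ K

variable (P m) in
/-- Two norms in common sorted coordinates. -/
structure Dt where
  f : Matrix (Fin (m + 1)) (Fin (m + 1)) P.K
  a : Fin (m + 1) → ℝ
  b : Fin (m + 1) → ℝ
  unit : IsUnit f
  ha : ∀ k, 0 < a k
  hb : ∀ k, 0 < b k
  anti : Antitone fun k => Real.log (b k / a k)

/-- Positions at which a block starts. -/
def St (J : Finset (Fin m)) (i : Fin (m + 1)) : Prop := i = 0 ∨ ∃ l ∈ J, i = l.succ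

open Classical in
/-- Weights cut off below a position. -/
noncomputable def ct (i : Fin M) (b : Fin M → ℝ) (k : Fin M) : ℝ := if i ≤ k then b k else 0

namespace Dt

variable (D : Dt P m)

/-- The first norm. -/
noncomputable def x : Nm P (m + 1) := ⟨nm D.f D.a, _, _, D.unit, D.ha, rfl⟩

/-- The second norm. -/
noncomputable def ξ : Nm P (m + 1) := ⟨nm D.f D.b, _, _, D.unit, D.hb, rfl⟩

/-- The logarithmic ratios. -/
noncomputable def lam (k : Fin (m + 1)) : ℝ := Real.log (D.b k / D.a k)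

/-- The gaps. -/
noncomputable def gam (l : Fin m) : ℝ := D.lam l.castSucc - D.lam l.succ

/-- The scaling factors that cut the gaps in `J` to `τ`. -/
noncomputable def mu (J : Finset (Fin m)) (τ : ℝ) (k : Fin (m + 1)) : ℝ :=
  Real.exp (-D.lam 0 + ∑ l ∈ J with l.succ ≤ k, (D.gam l - τ))

/-- The weights of the intermediate norm. -/
noncomputable def u (J : Finset (Fin m)) (τ : ℝ) (k : Fin (m + 1)) : ℝ := D.mu J τ k * D.b k

/-- The intermediate norm. -/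
noncomputable def y (J : Finset (Fin m)) (τ : ℝ) : Nm P (m + 1) :=
  ⟨nm D.f (D.u J τ), _, _, D.unit, fun k => mul_pos (Real.exp_pos _) (D.hb k), rfl⟩

open Classical in
/-- The weights of the seminorms. -/
noncomputable def w (J : Finset (Fin m)) (τ : ℝ) (i : Fin (m + 1)) : Fin (m + 1) → ℝ :=
  if St J i then ct i fun k => D.mu J τ i * D.b k else 0

/-- The seminorms. -/
noncomputable def s (J : Finset (Fin m)) (τ : ℝ) (i : Fin (m + 1)) : (Fin (m + 1) → P.K) → ℝ :=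
  nm D.f (D.w J τ i)

/-- The cone of the norms with shortened gaps. -/
def Kc (σ : ℝ) : Set (Nm P (m + 1)) := {α | ∃ Θ : Fin (m + 1) → ℝ, (∀ k, 0 < Θ k) ∧
  (∀ l : Fin m, Θ l.castSucc ≤ Θ l.succ ∧
    Θ l.succ ≤ Real.exp (max (D.gam l - σ) 0) * Θ l.castSucc) ∧
  α.1 = nm D.f fun k => Θ k * D.b k}

open Classical in
/-- All gaps cut to `σ`. -/
noncomputable def rho (σ : ℝ) : Nm P (m + 1) := D.y (Finset.univ.filter fun l => σ < D.gam l) σ

/-- Translation. -/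
def act (g : GL (Fin (m + 1)) P.K) : Dt P m :=
  ⟨D.f * (g⁻¹).1, D.a, D.b, D.unit.mul (g⁻¹).isUnit, D.ha, D.hb, D.anti⟩

end Dt

/-- Close frames. -/
def Rel {V I : Type*} (β ε : ℝ) (y y' : V → ℝ) (s s' : I → V → ℝ) : Prop :=
  Cl β y y' ∧ ∀ i, ∃ ν, 0 < ν ∧ ν ≤ Real.exp β ∧ ∀ t, |ν * s' i t - s i t| ≤ ε * y t

/-- Admissible weights. -/
structure Ad (J : Finset (Fin m)) (C : ℝ) (w : Fin (m + 1) → Fin (m + 1) → ℝ)
    (u : Fin (m + 1) → ℝ) : Prop where
  pos : ∀ k, 0 < u k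
  zero : ∀ i k, k < i ∨ ¬ St J i → w i k = 0
  nn : ∀ i k, 0 ≤ w i k
  le : ∀ i k, w i k ≤ C * u k
  eq : ∀ i k, St J i → i ≤ k → (∀ j, St J j → j ≤ k → j ≤ i) → w i k = u k

end Pool.Agent.Lib.MP_5d3e93_al.Lq
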