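import Pool.Agent.Lib.MP_5d3e93_al.Lq.Defs

/-! Local doubling of the space of Euclidean norms. -/

open Matrix Set

namespace Pool.Agent.Lib.MP_5d3e93_al.Lq

variable {M : ℕ}

theorem ldr_pig {X T : Type} [Fintype T] [Nonempty X] (A : Set X) (φ : X → T → ℝ) (N : ℕ)
    (h : ∀ y ∈ A, ∀ i, |φ y i| ≤ N) :
    ∃ s : Finset X, s.card ≤ (2 * N + 1) ^ Fintype.card T ∧
      ∀ y ∈ A, ∃ z ∈ s, z ∈ A ∧ ∀ i, |φ z i - φ y i| ≤ 1 := by
  classical
  let c : X → T → ℤ := fun y i => ⌊φ y i⌋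
  refine ⟨(Fintype.piFinset fun _ : T => Finset.Icc (-N : ℤ) N).image (Function.invFunOn c A),
    Finset.card_image_le.trans (le_of_eq ?_), fun y hy => ⟨Function.invFunOn c A (c y),
      Finset.mem_image_of_mem _ (Fintype.mem_piFinset.2 fun i => ?_),
      Function.invFunOn_apply_mem hy, fun i => ?_⟩⟩
  · rw [Fintype.card_piFinset, Finset.prod_const, Int.card_Icc, Finset.card_univ]
    congr 1
    omega
  · have := abs_le.1 (h y hy i)
    refine Finset.mem_Icc.2 ⟨Int.le_floor.2 (by push_cast; exact this.1), ?_⟩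
    have k := (Int.floor_le (φ y i)).trans this.2
    exact_mod_cast k
  · exact (Int.abs_sub_lt_one_of_floor_eq_floor
      (congrFun (Function.invFunOn_apply_eq (f := c) hy) i)).le

theorem ldr_nm (f : Matrix (Fin M) (Fin M) ℝ) (a : Fin M → ℝ) (t : Fin M → ℝ) :
    nm (P := .real) f a t ^ 2 = (diagonal a * f) *ᵥ t ⬝ᵥ (diagonal a * f) *ᵥ t := by
  change √(∑ k, (a k * ‖(f *ᵥ t) k‖) ^ 2) ^ 2 = _
  rw [Real.sq_sqrt (by positivity), ← mulVec_mulVec, dotProduct]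
  refine Finset.sum_congr rfl fun k _ => ?_
  rw [mulVec_diagonal, mul_pow, Real.norm_eq_abs, sq_abs]
  ring

theorem ldr_mat (y : Nm .real M) : ∃ B : Matrix (Fin M) (Fin M) ℝ, IsUnit B ∧
    ∀ t : Fin M → ℝ, y.1 t ^ 2 = B *ᵥ t ⬝ᵥ B *ᵥ t := by
  obtain ⟨f, a, hf, ha, e⟩ := y.2
  refine ⟨diagonal a * (show Matrix (Fin M) (Fin M) ℝ from f), IsUnit.mul ?_ hf, fun t => ?_⟩
  · rw [isUnit_diagonal, Pi.isUnit_iff]
    exact fun k => (ha k).ne'.isUnit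
  · rw [e]; exact ldr_nm f a t

theorem ldr_cl {P : Pl} {x y : Nm P M} {r : ℝ} (h0 : 0 < r) (h1 : r ≤ 1) (h : dist x y ≤ r) (t) :
    x.1 t ^ 2 ≤ (1 + 80 * r) * y.1 t ^ 2 := by
  obtain ⟨s, ⟨s0, hs⟩, sl⟩ := exists_lt_of_csInf_lt (Nm.ex_cl x y)
    (lt_of_le_of_lt h (by linarith : r < 2 * r))
  have e1 : Real.exp s ≤ Real.exp r ^ 2 := by
    rw [sq, ← Real.exp_add]; exact Real.exp_le_exp.2 (by linarith)
  have e2 : Real.exp r ≤ 1 + 2 * r := by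
    have := Real.abs_exp_sub_one_le (x := r) (by rwa [abs_of_pos h0])
    rw [abs_of_pos h0] at this
    linarith [(abs_le.1 this).2]
  have e3 : Real.exp r ^ 2 ≤ 1 + 8 * r :=
    (pow_le_pow_left₀ (Real.exp_pos r).le e2 2).trans (by nlinarith)
  have e4 : Real.exp s ^ 2 ≤ 1 + 80 * r :=
    (pow_le_pow_left₀ (Real.exp_pos s).le (e1.trans e3) 2).trans (by nlinarith)
  calc x.1 t ^ 2 ≤ (Real.exp s * y.1 t) ^ 2 := pow_le_pow_left₀ (x.nonneg t) (hs t).1 2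
    _ = Real.exp s ^ 2 * y.1 t ^ 2 := mul_pow ..
    _ ≤ _ := mul_le_mul_of_nonneg_right e4 (sq_nonneg _)

theorem ldr_pol (A : Matrix (Fin M) (Fin M) ℝ) {K : ℝ}
    (h : ∀ c, |A *ᵥ c ⬝ᵥ A *ᵥ c - c ⬝ᵥ c| ≤ K * (c ⬝ᵥ c)) (i j : Fin M) :
    |(Aᵀ * A - 1) i j| ≤ K := by
  have a := abs_le.1 (h (Pi.single i 1 + Pi.single j 1))
  have b := abs_le.1 (h (Pi.single i 1 - Pi.single j 1))
  have e1 : A *ᵥ Pi.single i 1 ⬝ᵥ A *ᵥ Pi.single j 1 = (Aᵀ * A) i j := by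
    simp [mul_apply, dotProduct]
  have e2 : (Pi.single i 1 : Fin M → ℝ) ⬝ᵥ Pi.single j 1 = (1 : Matrix (Fin M) (Fin M) ℝ) i j := by
    simp [one_apply, Pi.single_apply, eq_comm]
  have e3 (k : Fin M) : (Pi.single k 1 : Fin M → ℝ) ⬝ᵥ Pi.single k 1 = 1 := by simp
  simp only [mulVec_add, mulVec_sub, add_dotProduct, dotProduct_add, sub_dotProduct,
    dotProduct_sub, dotProduct_comm (A *ᵥ Pi.single j 1) (A *ᵥ Pi.single i 1),
    dotProduct_comm (Pi.single j (1 : ℝ) : Fin M → ℝ) (Pi.single i 1), e3] at a b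
  rw [Matrix.sub_apply, ← e1, ← e2, abs_le]
  constructor <;> linarith [a.1, a.2, b.1, b.2]

theorem ldr_sum (S : Matrix (Fin M) (Fin M) ℝ) {δ : ℝ} (h : ∀ i j, |S i j| ≤ δ)
    (c : Fin M → ℝ) : c ⬝ᵥ S *ᵥ c ≤ δ * M * (c ⬝ᵥ c) := by
  have e : δ * M * (c ⬝ᵥ c) = ∑ i, ∑ j, δ * (c i * c i + c j * c j) / 2 := by
    simp only [mul_add, add_div, Finset.sum_add_distrib, Finset.sum_const, Finset.card_univ,
      Fintype.card_fin, nsmul_eq_mul, dotProduct, ← Finset.mul_sum, ← Finset.sum_div]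
    ring
  rw [e, dotProduct]
  refine Finset.sum_le_sum fun i _ => ?_
  rw [mulVec, dotProduct, Finset.mul_sum]
  refine Finset.sum_le_sum fun j _ => ?_
  have := abs_le.1 (h i j)
  nlinarith [mul_nonneg (sub_nonneg.2 this.2) (sq_nonneg (c i + c j)),
    mul_nonneg (sub_nonneg.2 this.1) (sq_nonneg (c i - c j))]

theorem ldr_gram (A : Matrix (Fin M) (Fin M) ℝ) (c : Fin M → ℝ) :
    c ⬝ᵥ (Aᵀ * A) *ᵥ c = A *ᵥ c ⬝ᵥ A *ᵥ c := by
  rw [← mulVec_mulVec, dotProduct_mulVec, vecMul_transpose]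

theorem Pl.ld_real (M : ℕ) : ∃ D, Ld (Nm Pl.real M) D := by
  choose B hB eB using ldr_mat (M := M)
  refine ⟨(2 * (6480 * (M + 1)) + 1) ^ Fintype.card (Fin M × Fin M), fun x r h0 h1 => ?_⟩
  obtain ⟨g, hg⟩ := hB x
  have : Nonempty (Nm Pl.real M) := ⟨x⟩
  have hM : (0 : ℝ) < M + 1 := by positivity
  obtain ⟨δ, d0, hδ⟩ : ∃ δ : ℝ, 0 < δ ∧ r = 81 * (M + 1) * δ :=
    ⟨r / (81 * (M + 1)), by positivity, by field_simp⟩
  let A : Nm Pl.real M → Matrix (Fin M) (Fin M) ℝ := fun y => B y * (g⁻¹).1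
  have eA (y : Nm Pl.real M) (t : Fin M → ℝ) : A y *ᵥ (g.1 *ᵥ t) = B y *ᵥ t := by
    rw [mulVec_mulVec, Matrix.mul_assoc, Units.inv_mul, Matrix.mul_one]
  have su (c : Fin M → ℝ) : ∃ t : Fin M → ℝ, g.1 *ᵥ t = c :=
    ⟨(g⁻¹).1 *ᵥ c, by rw [mulVec_mulVec, Units.mul_inv, one_mulVec]⟩
  obtain ⟨s, hs, k⟩ := ldr_pig {y | dist x y ≤ r}
    (fun y (p : Fin M × Fin M) => ((A y)ᵀ * A y - 1) p.1 p.2 / δ) (6480 * (M + 1))
    fun y hy p => by
      rw [abs_div, abs_of_pos d0, div_le_iff₀ d0]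
      refine (ldr_pol (A y) (K := 80 * r) (fun c => ?_) p.1 p.2).trans
        (le_of_eq (by rw [hδ]; push_cast; ring))
      obtain ⟨t, rfl⟩ := su c
      have a := ldr_cl h0 h1 hy t
      have b := ldr_cl h0 h1 ((dist_comm y x).trans_le hy) t
      rw [eA, ← eB, hg, ← eB, abs_le]
      refine ⟨?_, by linarith⟩
      refine le_of_mul_le_mul_left ?_ (by positivity : 0 < 1 + 80 * r)
      nlinarith [mul_nonneg (sq_nonneg r) (sq_nonneg (x.1 t))]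
  refine ⟨s, hs, fun y hy => ?_⟩
  obtain ⟨z, zs, hz, l⟩ := k y hy
  have m (u v : Nm Pl.real M) (hv : dist x v ≤ r)
      (l : ∀ i j, |((A u)ᵀ * A u - (A v)ᵀ * A v) i j| ≤ δ) (t : Fin M → ℝ) :
      u.1 t ≤ Real.exp (r / 2) * v.1 t := by
    have a := ldr_sum _ l (g.1 *ᵥ t)
    rw [sub_mulVec, dotProduct_sub, ldr_gram, ldr_gram, eA, eA, ← eB, ← eB, hg, ← eB] at a
    have b := ldr_cl h0 h1 hv t
    have e : Real.exp (r / 2) ^ 2 = Real.exp r := by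
      rw [sq, ← Real.exp_add, add_halves]
    refine (pow_le_pow_iff_left₀ (u.nonneg t) (mul_nonneg (Real.exp_pos _).le (v.nonneg t))
      two_ne_zero).1 ?_
    rw [mul_pow, e]
    have c : x.1 t ^ 2 ≤ 81 * v.1 t ^ 2 := b.trans
      (mul_le_mul_of_nonneg_right (by linarith) (sq_nonneg _))
    have d := mul_le_mul_of_nonneg_left c (by positivity : 0 ≤ δ * M)
    have f := mul_le_mul_of_nonneg_right (Real.add_one_le_exp r) (sq_nonneg (v.1 t))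
    have n := mul_nonneg d0.le (sq_nonneg (v.1 t))
    rw [hδ] at f ⊢
    nlinarith
  have l' (i j) : |((A z)ᵀ * A z - (A y)ᵀ * A y) i j| ≤ δ := by
    have := l (i, j)
    rw [← sub_div, abs_div, abs_of_pos d0, div_le_one d0] at this
    simpa [Matrix.sub_apply] using this
  refine ⟨z, zs, csInf_le (Nm.bdd z y) ⟨by positivity, fun t => ⟨m z y hy l' t, m y z hz ?_ t⟩⟩⟩
  intro i j
  rw [Matrix.sub_apply, abs_sub_comm]
  exact l' i j

end Pool.Agent.Lib.MP_5d3e93_al.Lq
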