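import Pool.Agent.Lib.MP_5d3e93_al.Lq.RedA

/-! Reduction theory over `Z[1/N]`. -/

open Matrix

namespace Pool.Agent.Lib.MP_5d3e93_al.Lq

variable {V : Type*} [AddCommGroup V] [Module ℚ V]

/-- Seminorms for the real absolute value. -/
structure SnR (y : V → ℝ) : Prop where
  add : ∀ a b, y (a + b) ≤ y a + y b
  smul : ∀ (c : ℚ) a, y (c • a) = |(c : ℝ)| * y a

/-- Ultrametric seminorms for the `p`-adic absolute value. -/
structure SnP (p : ℕ) (z : V → ℝ) : Prop where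
  add : ∀ a b, z (a + b) ≤ max (z a) (z b)
  smul : ∀ (c : ℚ) a, z (c • a) = padicNorm p c * z a

section Sn
variable {y z : V → ℝ} {p : ℕ}

theorem SnR.zero (h : SnR y) : y 0 = 0 := by simpa using h.smul 0 0

theorem SnR.neg (h : SnR y) (a : V) : y (-a) = y a := by simpa using h.smul (-1) a

theorem SnR.nonneg (h : SnR y) (a : V) : 0 ≤ y a := by
  have := h.add a (-a)
  rw [add_neg_cancel, h.zero, h.neg] at this
  linarith

theorem SnR.sum (h : SnR y) {ι : Type*} (s : Finset ι) (f : ι → V) :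
    y (∑ i ∈ s, f i) ≤ ∑ i ∈ s, y (f i) := Finset.le_sum_of_subadditive y h.zero.le h.add s f

theorem SnP.zero (h : SnP p z) : z 0 = 0 := by simpa using h.smul 0 0

theorem SnP.neg (h : SnP p z) (a : V) : z (-a) = z a := by simpa using h.smul (-1) a

theorem SnP.nonneg (h : SnP p z) (a : V) : 0 ≤ z a := by
  have := h.add a (-a)
  rwa [add_neg_cancel, h.zero, h.neg, max_self] at this

theorem SnP.sum (h : SnP p z) {ι : Type*} (s : Finset ι) (f : ι → V) {c : ℝ} (h0 : 0 ≤ c)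
    (k : ∀ i ∈ s, z (f i) ≤ c) : z (∑ i ∈ s, f i) ≤ c :=
  Finset.sum_induction f (z · ≤ c) (fun a b p q => (h.add a b).trans (max_le p q))
    (h.zero.trans_le h0) k

end Sn

variable {M N : ℕ}

theorem red_cols (B : Matrix (Fin M) (Fin M) ℚ) (a : Fin M → ℚ) :
    B *ᵥ a = ∑ i, a i • B *ᵥ Pi.single i 1 := by
  ext j
  simp [mulVec, dotProduct, mul_comm]

theorem SnR.mulVec {y : (Fin M → ℚ) → ℝ} (h : SnR y) (B : Matrix (Fin M) (Fin M) ℚ) {c : ℝ}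
    (k : ∀ i, y (B *ᵥ Pi.single i 1) ≤ c) (a : Fin M → ℚ) : y (B *ᵥ a) ≤ M * c * ‖a‖ := by
  rw [red_cols]
  refine (h.sum _ _).trans ((Finset.sum_le_card_nsmul _ _ (c * ‖a‖) fun i _ => ?_).trans_eq
    (by simp [mul_assoc]))
  rw [h.smul, mul_comm]
  exact mul_le_mul (k i) (norm_le_pi_norm a i) (abs_nonneg _) ((h.nonneg _).trans (k i))

theorem SnP.mulVec {p : ℕ} {z : (Fin M → ℚ) → ℝ} (h : SnP p z) (B : Matrix (Fin M) (Fin M) ℚ)
    (k : ∀ i, z (B *ᵥ Pi.single i 1) ≤ 1) (a : Fin M → ℚ) {c : ℝ} (h0 : 0 ≤ c)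
    (l : ∀ i, (padicNorm p (a i) : ℝ) ≤ c) : z (B *ᵥ a) ≤ c := by
  rw [red_cols]
  refine h.sum _ _ h0 fun i _ => ?_
  rw [h.smul]
  exact (mul_le_mul (l i) (k i) (h.nonneg _) h0).trans_eq (mul_one c)

/-- The height. -/
def Ht (N : ℕ) (y : V → ℝ) (z : ℕ → V → ℝ) (t : V) : ℝ := y t * ∏ p ∈ N.primeFactors, z p t

variable {y : (Fin M → ℚ) → ℝ} {z : ℕ → (Fin M → ℚ) → ℝ}

/-- The lattice. -/
def redL (hz : ∀ p ∈ N.primeFactors, SnP p (z p)) : AddSubgroup (Fin M → ℚ) where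
  carrier := {t | (∀ i, t i ∈ Zs N) ∧ ∀ p ∈ N.primeFactors, z p t ≤ 1}
  add_mem' a b := ⟨fun i => add_mem (a.1 i) (b.1 i), fun p h =>
    ((hz p h).add _ _).trans (max_le (a.2 p h) (b.2 p h))⟩
  zero_mem' := ⟨fun _ => zero_mem _, fun p h => (hz p h).zero.trans_le zero_le_one⟩
  neg_mem' a := ⟨fun i => neg_mem (a.1 i), fun p h => ((hz p h).neg _).trans_le (a.2 p h)⟩

/-- Scaling by a unit. -/
theorem red_unit (hy : SnR y) (hz : ∀ p ∈ N.primeFactors, SnP p (z p)) {t : Fin M → ℚ}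
    (ht : ∀ i, t i ∈ Zs N) (h : 0 < Ht N y z t) : ∃ u : ℚ, u ≠ 0 ∧ u • t ∈ redL hz ∧
      y (u • t) ≤ (∏ p ∈ N.primeFactors, (p : ℝ)) * Ht N y z t := by
  have pr : ∀ p ∈ N.primeFactors, p.Prime := fun p => Nat.prime_of_mem_primeFactors
  have one : ∀ p ∈ N.primeFactors, (1 : ℝ) < p := fun p a => by exact_mod_cast (pr p a).one_lt
  have e : ∀ p ∈ N.primeFactors, ∃ k : ℤ, z p t ∈ Set.Ioc ((p : ℝ) ^ k) ((p : ℝ) ^ (k + 1)) :=
    fun p a => exists_mem_Ioc_zpow (((hz p a).nonneg t).lt_of_ne fun q => h.ne' (by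
      rw [Ht, Finset.prod_eq_zero a q.symm, mul_zero])) (one p a)
  choose! k hk using e
  refine ⟨∏ q ∈ N.primeFactors, (q : ℚ) ^ (k q + 1), Finset.prod_ne_zero_iff.2 fun q a =>
    zpow_ne_zero _ (by exact_mod_cast (pr q a).ne_zero), ⟨fun i => mul_mem (prod_mem fun q a =>
      Zs_zpow (Nat.dvd_of_mem_primeFactors a) _) (ht i), fun p a => ?_⟩, ?_⟩
  · rw [(hz p a).smul, red_nprod pr (fun q => k q + 1) a, _root_.zpow_neg]
    exact (inv_mul_le_one₀ (zpow_pos (zero_lt_one.trans (one p a)) _)).2 (hk p a).2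
  · rw [hy.smul, Ht, mul_comm (y t), ← mul_assoc, ← Finset.prod_mul_distrib]
    refine mul_le_mul_of_nonneg_right ?_ (hy.nonneg t)
    push_cast
    rw [Finset.abs_prod]
    refine Finset.prod_le_prod (fun _ _ => abs_nonneg _) fun p a => ?_
    have p0 := zero_lt_one.trans (one p a)
    rw [abs_of_pos (zpow_pos p0 _), zpow_add_one₀ p0.ne', mul_comm]
    exact mul_le_mul_of_nonneg_left (hk p a).1.le p0.le

theorem red_pow (hz : ∀ p ∈ N.primeFactors, SnP p (z p)) {t : Fin M → ℚ}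
    (ht : ∀ i, t i ∈ Zs N) : ∃ k : ℕ, (N : ℚ) ^ k • t ∈ redL hz := by
  have e : ∀ᶠ k : ℕ in Filter.atTop, ∀ p ∈ N.primeFactors, z p ((N : ℚ) ^ k • t) ≤ 1 := by
    refine (Filter.eventually_all_finset _).2 fun p a => ?_
    have : Fact p.Prime := ⟨Nat.prime_of_mem_primeFactors a⟩
    have l : (padicNorm p N : ℝ) < 1 := by
      exact_mod_cast (padicNorm.nat_lt_one_iff N).2 (Nat.dvd_of_mem_primeFactors a)
    have l' : (0 : ℝ) ≤ padicNorm p N := by exact_mod_cast padicNorm.nonneg _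
    have := (tendsto_pow_atTop_nhds_zero_of_lt_one l' l).mul_const (z p t)
    rw [zero_mul] at this
    refine (this.eventually_le_const zero_lt_one).mono fun k b => ?_
    rwa [(hz p a).smul, ← Rat.AbsoluteValue.padic_eq_padicNorm, map_pow]
  obtain ⟨k, hk⟩ := e.exists
  exact ⟨k, fun i => mul_mem (pow_mem (natCast_mem _ N) k) (ht i), hk⟩

/-- Lower bound at a prime for a basis of the lattice. -/
theorem red_low (hz : ∀ p ∈ N.primeFactors, SnP p (z p)) {γ : Matrix (Fin M) (Fin M) ℚ}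
    (h : ∀ t, γ *ᵥ t ∈ redL hz ↔ ∃ n, t = iv n) {p : ℕ} (hp : p ∈ N.primeFactors)
    (t : Fin M → ℚ) (j : Fin M) : (padicNorm p (t j) : ℝ) ≤ p * z p (γ *ᵥ t) := by
  have pr := Nat.prime_of_mem_primeFactors hp
  have : Fact p.Prime := ⟨pr⟩
  have one : (1 : ℝ) < p := by exact_mod_cast pr.one_lt
  have p0 := zero_lt_one.trans one
  have key : ∀ t, z p (γ *ᵥ t) ≤ 1 → (padicNorm p (t j) : ℝ) ≤ 1 := fun t ht => by
    obtain ⟨⟨d, hd⟩, hn⟩ := IsLocalization.exist_integer_multiples_of_finite (nonZeroDivisors ℤ) t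
    choose n hn using hn
    obtain ⟨b, e, hb⟩ := (FiniteMultiplicity.of_prime_left (Nat.prime_iff_prime_int.1 pr)
      (nonZeroDivisors.ne_zero hd)).exists_eq_pow_mul_and_not_dvd
    generalize multiplicity (p : ℤ) d = k at e
    have q0 : (p : ℚ) ≠ 0 := by exact_mod_cast pr.ne_zero
    have r : (b : ℚ) • t = (p : ℚ) ^ (-k : ℤ) • iv n := funext fun i => by
      have : (n i : ℚ) = p ^ k * b * t i := by simpa [e] using hn i
      simp [iv, this, mul_assoc, q0]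
    have nb : (padicNorm p b : ℝ) = 1 := by exact_mod_cast (padicNorm.int_eq_one_iff b).2 hb
    have m := (h (iv n)).2 ⟨n, rfl⟩
    obtain ⟨c, hc⟩ := (h ((b : ℚ) • t)).1 ⟨fun i => by
      rw [r, mulVec_smul]
      exact mul_mem (Zs_zpow (Nat.dvd_of_mem_primeFactors hp) _) (m.1 i), fun q a => by
      by_cases w : q = p
      · rw [w, mulVec_smul, (hz p hp).smul, nb, one_mul]
        exact ht
      · rw [r, mulVec_smul, (hz q a).smul, red_nq (Nat.prime_of_mem_primeFactors a) pr w, one_mul]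
        exact m.2 q a⟩
    have s : (padicNorm p (b * t j) : ℝ) ≤ 1 := by
      rw [show b * t j = (c j : ℚ) from congrFun hc j]
      exact_mod_cast padicNorm.of_int _
    rwa [padicNorm.mul, Rat.cast_mul, nb, one_mul] at s
  have sc (k : ℤ) (a : z p (γ *ᵥ t) ≤ (p : ℝ) ^ k) : (padicNorm p (t j) : ℝ) ≤ (p : ℝ) ^ k := by
    have := key ((p : ℚ) ^ k • t) (by
      rw [mulVec_smul, (hz p hp).smul, red_np pr, _root_.zpow_neg]
      exact (inv_mul_le_one₀ (zpow_pos p0 _)).2 a)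
    rw [Pi.smul_apply, smul_eq_mul, padicNorm.mul, Rat.cast_mul, red_np pr, _root_.zpow_neg] at this
    exact (inv_mul_le_one₀ (zpow_pos p0 _)).1 this
  rcases ((hz p hp).nonneg (γ *ᵥ t)).eq_or_lt with e | e
  · rw [← e, mul_zero]
    refine le_of_not_gt fun a => ?_
    obtain ⟨k, hk⟩ := exists_mem_Ioc_zpow a one
    exact (sc k (e ▸ (zpow_pos p0 k).le)).not_gt hk.1
  · obtain ⟨k, hk⟩ := exists_mem_Ioc_zpow e one
    refine (sc _ hk.2).trans ?_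
    rw [zpow_add_one₀ p0.ne', mul_comm]
    exact mul_le_mul_of_nonneg_left hk.1.le p0.le

theorem red_min (hy : SnR y) (hz : ∀ p ∈ N.primeFactors, SnP p (z p)) {t : Fin M → ℚ}
    (h : t ∈ redL hz) : Ht N y z t ≤ y t := mul_le_of_le_one_right (hy.nonneg t)
  (Finset.prod_le_one (fun p a => (hz p a).nonneg t) h.2)

theorem red_int {L : AddSubgroup (Fin M → ℚ)} {W : Matrix (Fin M) (Fin M) ℚ}
    (h : ∀ i, W *ᵥ Pi.single i 1 ∈ L) (n : Fin M → ℤ) : W *ᵥ iv n ∈ L := by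
  rw [red_cols]
  exact sum_mem fun i _ => by
    rw [iv, Int.cast_smul_eq_zsmul]
    exact zsmul_mem (h i) (n i)

/-- The two uses of the pigeonhole principle. -/
theorem red_two (hy : SnR y) {L : AddSubgroup (Fin M → ℚ)} {m c : ℝ} (hm : 0 < m)
    (hL : ∀ t ∈ L, t ≠ 0 → m ≤ y t) {W : Matrix (Fin M) (Fin M) ℚ} (hW : IsUnit W)
    (h : ∀ i, W *ᵥ Pi.single i 1 ∈ L) (hc : ∀ a, y (W *ᵥ a) ≤ c * m * ‖a‖) {Q : ℕ} (hQ : 0 < Q)
    (hQ' : 2 * c ≤ Q) (c0 : 0 ≤ c) (a : Fin M → ℚ) :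
    (W *ᵥ a ∈ L → ∃ n, ((Q ^ M).factorial : ℚ) • a = iv n) ∧ m * ‖a‖ ≤ 2 * Q ^ M * y (W *ᵥ a) := by
  have inj := Matrix.mulVec_injective_iff_isUnit.2 hW
  have q : (0 : ℝ) < Q := by exact_mod_cast hQ
  have d (a : Fin M → ℚ) : ∃ k : ℕ, 0 < k ∧ k ≤ Q ^ M ∧ ∃ n, (∀ i, |k * a i - n i| < 1) ∧
      y (W *ᵥ ((k : ℚ) • a - iv n)) ≤ m / 2 := by
    obtain ⟨k, k0, k1, n, hn⟩ := red_dir a hQ
    refine ⟨k, k0, by simpa using k1, n, fun i => (hn i).trans_le ?_, (hc _).trans ?_⟩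
    · exact div_le_one_of_le₀ (by exact_mod_cast hQ) (Nat.cast_nonneg _)
    have : ‖(k : ℚ) • a - iv n‖ ≤ 1 / Q := (pi_norm_le_iff_of_nonneg (by positivity)).2 fun i => by
      have := (Rat.cast_le (K := ℝ)).2 (hn i).le
      rw [← Rat.norm_cast_real, Real.norm_eq_abs]
      simpa [iv] using this
    refine (mul_le_mul_of_nonneg_left this (by positivity)).trans ?_
    rw [mul_one_div, div_le_div_iff₀ q two_pos]
    nlinarith
  constructor
  · intro b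
    obtain ⟨k, k0, k1, n, -, e⟩ := d a
    have : W *ᵥ ((k : ℚ) • a - iv n) = 0 := by
      by_contra r
      refine (hL _ ?_ r).not_gt (e.trans_lt (half_lt_self hm))
      rw [mulVec_sub, mulVec_smul, Nat.cast_smul_eq_nsmul]
      exact sub_mem (nsmul_mem b k) (red_int h n)
    have r := sub_eq_zero.1 (inj (this.trans (mulVec_zero W).symm))
    obtain ⟨l, hl⟩ := Nat.dvd_factorial k0 k1
    refine ⟨(l : ℤ) • n, ?_⟩
    rw [hl, Nat.cast_mul, mul_comm, mul_smul, r]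
    ext i
    simp [iv]
  rw [← le_div_iff₀' hm]
  have y0 := hy.nonneg (W *ᵥ a)
  refine (pi_norm_le_iff_of_nonneg (by positivity)).2 fun i => ?_
  rcases eq_or_ne (a i) 0 with r | r
  · rw [r, norm_zero]
    positivity
  obtain ⟨k, k0, k1, n, hn, e⟩ := d ((a i)⁻¹ • a)
  have n0 : W *ᵥ iv n ≠ 0 := fun s => by
    have s' : (n i : ℚ) = 0 := congrFun (inj (s.trans (mulVec_zero W).symm)) i
    have := hn i
    rw [s', Pi.smul_apply, smul_eq_mul, inv_mul_cancel₀ r, mul_one, sub_zero, Nat.abs_cast] at this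
    exact k0.ne' (Nat.lt_one_iff.1 (by exact_mod_cast this))
  have h1 := hL _ (red_int h n) n0
  have h2 := hy.add (W *ᵥ ((k : ℚ) • (a i)⁻¹ • a)) (-(W *ᵥ ((k : ℚ) • (a i)⁻¹ • a - iv n)))
  rw [hy.neg, mulVec_sub, ← sub_eq_add_neg, sub_sub_cancel, ← mulVec_sub, mulVec_smul, mulVec_smul,
    hy.smul, hy.smul] at h2
  have a0 : (0 : ℝ) < |(a i : ℝ)| := abs_pos.2 (by exact_mod_cast r)
  have k2 : (k : ℝ) ≤ Q ^ M := by exact_mod_cast k1
  have h3 : m / 2 ≤ Q ^ M * (|(a i : ℝ)|⁻¹ * y (W *ᵥ a)) := by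
    rw [Rat.cast_natCast, Nat.abs_cast, Rat.cast_inv, abs_inv] at h2
    have := mul_le_mul_of_nonneg_right k2 (mul_nonneg (inv_nonneg.2 a0.le) y0)
    linarith
  rw [← Rat.norm_cast_real, Real.norm_eq_abs, le_div_iff₀ hm]
  have := mul_le_mul_of_nonneg_left h3 a0.le
  rw [mul_left_comm, mul_inv_cancel_left₀ a0.ne'] at this
  linarith

/-- If the successive minima are comparable, the norms are close to a translate of the standard
norms. -/
theorem red (M N : ℕ) (C : ℝ) : ∃ D : ℝ, 1 ≤ D ∧ ∀ (y : (Fin M → ℚ) → ℝ)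
    (z : ℕ → (Fin M → ℚ) → ℝ) (m : ℝ), 0 < m → SnR y → (∀ p ∈ N.primeFactors, SnP p (z p)) →
    (∀ t, (∀ i, t i ∈ Zs N) → t ≠ 0 → m ≤ Ht N y z t) → ∀ v : Fin M → Fin M → ℚ,
    LinearIndependent ℚ v → (∀ k i, v k i ∈ Zs N) → (∀ k, Ht N y z (v k) ≤ C * m) →
    ∃ γ : GL (Fin M) ℚ, (∀ i j, γ.1 i j ∈ Zs N ∧ γ⁻¹.1 i j ∈ Zs N) ∧ ∀ t,
      (m * ‖t‖ ≤ D * y (γ.1 *ᵥ t) ∧ y (γ.1 *ᵥ t) ≤ D * m * ‖t‖) ∧ ∀ p ∈ N.primeFactors,
        (∀ j, (padicNorm p (t j) : ℝ) ≤ p * z p (γ.1 *ᵥ t)) ∧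
          ∀ c : ℝ, 0 ≤ c → (∀ j, (padicNorm p (t j) : ℝ) ≤ c) → z p (γ.1 *ᵥ t) ≤ c := by
  let P : ℝ := ∏ p ∈ N.primeFactors, (p : ℝ)
  have P0 : 0 ≤ P := Finset.prod_nonneg fun _ _ => Nat.cast_nonneg _
  let c : ℝ := M * (P * |C|)
  have c0 : 0 ≤ c := by positivity
  let Q := ⌈2 * c⌉₊ + 1
  obtain ⟨K, K0, hK⟩ := red_lat M (Q ^ M).factorial_pos
  have e₁ : 0 ≤ c * K := by positivity
  have e₂ : 0 ≤ K * (2 * Q ^ M) := by positivity
  refine ⟨1 + c * K + K * (2 * Q ^ M), by linarith, fun y z m hm hy hz hmin v hv hv' hC => ?_⟩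
  choose u u0 u1 u2 using fun k => red_unit hy hz (hv' k) (hm.trans_le (hmin _ (hv' k) (hv.ne_zero k)))
  let W : Matrix (Fin M) (Fin M) ℚ := .of fun i k => (u k • v k) i
  have w (k) : W *ᵥ Pi.single k 1 = u k • v k := by
    ext i
    simp [W]
  have hW : IsUnit W := Matrix.linearIndependent_cols_iff_isUnit.1
    (hv.units_smul fun k => Units.mk0 (u k) (u0 k))
  have up (a) : y (W *ᵥ a) ≤ c * m * ‖a‖ := (hy.mulVec W (c := P * |C| * m) (fun k => by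
    rw [w, mul_assoc]
    exact (u2 k).trans (mul_le_mul_of_nonneg_left ((hC k).trans
      (mul_le_mul_of_nonneg_right (le_abs_self C) hm.le)) P0)) a).trans_eq (by ring)
  have w1 (k) : W *ᵥ Pi.single k 1 ∈ redL hz := w k ▸ u1 k
  have two := red_two (L := redL hz) hy hm (fun t a b => (hmin t a.1 b).trans (red_min hy hz a)) hW w1 up
    (Q := Q) (Nat.succ_pos _) ((Nat.le_ceil _).trans (by simp [Q])) c0
  obtain ⟨B, X, h1, h2, h3⟩ := hK ((redL hz).comap W.mulVecLin.toAddMonoidHom) (red_int w1)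
    fun a => (two a).1
  have h1' := mul_eq_one_comm.1 h1
  have xb (t) : X *ᵥ (B *ᵥ t) = t := by rw [mulVec_mulVec, h1', one_mulVec]
  let γ : GL (Fin M) ℚ := hW.unit * ⟨B, X, h1, h1'⟩
  have g (t) : γ.1 *ᵥ t = W *ᵥ (B *ᵥ t) := (mulVec_mulVec t W B).symm
  have m (t) : γ.1 *ᵥ t ∈ redL hz ↔ ∃ n, t = iv n := by
    rw [g]
    exact (h2 (B *ᵥ t)).trans (exists_congr fun n =>
      ⟨fun e => by rw [← xb t, e, xb], fun e => by rw [e]⟩)
  have s (j : Fin M) : γ.1 *ᵥ Pi.single j 1 ∈ redL hz := (m _).2 ⟨Pi.single j 1, by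
    ext i
    simp [iv, Pi.single_apply]⟩
  refine ⟨γ, fun i j => ⟨by simpa using (s j).1 i, ?_⟩, fun t => ⟨⟨?_, ?_⟩, fun p a =>
    ⟨red_low hz m a t, fun c => (hz p a).mulVec _ (fun j => (s j).2 p a) t⟩⟩⟩
  · obtain ⟨k, hk⟩ := red_pow hz (t := Pi.single j 1) fun i => by
      rw [Pi.single_apply]
      split_ifs
      exacts [one_mem _, zero_mem _]
    obtain ⟨n, hn⟩ := (m ((N : ℚ) ^ k • γ⁻¹.1 *ᵥ Pi.single j 1)).1 (by
      rwa [mulVec_smul, mulVec_mulVec, Units.mul_inv, one_mulVec])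
    exact ⟨k, n i, by simpa [iv] using congrFun hn i⟩
  · have a1 := (h3 (B *ᵥ t)).2
    have a2 := mul_le_mul_of_nonneg_left (two (B *ᵥ t)).2 K0
    have a3 := hy.nonneg (W *ᵥ (B *ᵥ t))
    rw [xb] at a1
    rw [g]
    nlinarith [mul_le_mul_of_nonneg_left a1 hm.le, mul_nonneg e₁ a3]
  · have a1 := mul_le_mul_of_nonneg_left (h3 t).1 (mul_nonneg c0 hm.le)
    have a2 := mul_nonneg hm.le (norm_nonneg t)
    rw [g]
    nlinarith [up (B *ᵥ t), mul_nonneg e₂ a2]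

end Pool.Agent.Lib.MP_5d3e93_al.Lq
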