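import Mathlib

/-! Reduction theory: simultaneous approximation, lattices of bounded index, the ring `Z[1/N]`. -/

open Matrix

namespace Pool.Agent.Lib.MP_5d3e93_al.Lq

/-- Simultaneous approximation. -/
theorem red_dir {ι : Type*} [Fintype ι] (a : ι → ℚ) {Q : ℕ} (hQ : 0 < Q) :
    ∃ k : ℕ, 0 < k ∧ k ≤ Q ^ Fintype.card ι ∧ ∃ n : ι → ℤ, ∀ i, |k * a i - n i| < 1 / Q := by
  classical
  have q : (0 : ℚ) < Q := by exact_mod_cast hQ
  have b (x : ℚ) : ⌊Int.fract x * Q⌋₊ < Q :=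
    (Nat.floor_lt (mul_nonneg (Int.fract_nonneg x) q.le)).2
      (mul_lt_of_lt_one_left q (Int.fract_lt_one x))
  let f : Fin (Q ^ Fintype.card ι + 1) → ι → Fin Q := fun k i => ⟨_, b ((k : ℕ) * a i)⟩
  have key : ∀ k l : Fin (Q ^ Fintype.card ι + 1), k < l → f k = f l → ∃ k : ℕ, 0 < k ∧
      k ≤ Q ^ Fintype.card ι ∧ ∃ n : ι → ℤ, ∀ i, |k * a i - n i| < 1 / Q := fun k l h e => by
    have h' : (k : ℕ) < l := h
    refine ⟨l - k, by omega, by omega, fun i => ⌊(l : ℕ) * a i⌋ - ⌊(k : ℕ) * a i⌋, fun i => ?_⟩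
    have e' : ⌊Int.fract ((k : ℕ) * a i) * Q⌋₊ = ⌊Int.fract ((l : ℕ) * a i) * Q⌋₊ :=
      congrArg Fin.val (congrFun e i)
    have p (x : ℚ) : 0 ≤ Int.fract x * Q := mul_nonneg (Int.fract_nonneg x) q.le
    have a1 := Nat.floor_le (p ((k : ℕ) * a i))
    have a2 := Nat.lt_floor_add_one (Int.fract ((k : ℕ) * a i) * Q)
    have a3 := Nat.floor_le (p ((l : ℕ) * a i))
    have a4 := Nat.lt_floor_add_one (Int.fract ((l : ℕ) * a i) * Q)
    rw [e'] at a1 a2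
    have r : ((l - k : ℕ) : ℚ) * a i - ((⌊(l : ℕ) * a i⌋ - ⌊(k : ℕ) * a i⌋ : ℤ) : ℚ) =
        Int.fract ((l : ℕ) * a i) - Int.fract ((k : ℕ) * a i) := by
      rw [Nat.cast_sub h'.le, Int.fract, Int.fract]
      push_cast
      ring
    rw [r, lt_div_iff₀ q, ← abs_of_pos q, ← abs_mul, abs_lt]
    constructor <;> linarith
  obtain ⟨k, l, h, e⟩ := Fintype.exists_ne_map_eq_of_card_lt f (by simp)
  rcases lt_or_gt_of_ne h with h | h
  exacts [key k l h e, key l k h e.symm]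

variable {M : ℕ}

/-- Integral vectors. -/
def iv (n : Fin M → ℤ) : Fin M → ℚ := fun i => n i

theorem iv_mulVec (B : Matrix (Fin M) (Fin M) ℤ) (n : Fin M → ℤ) :
    iv (B *ᵥ n) = B.map Int.cast *ᵥ iv n := by
  ext i
  simp [iv, mulVec, dotProduct]

theorem red_basis {I : ℕ} (hI : 0 < I) (A : Submodule ℤ (Fin M → ℤ)) (h : ∀ n, (I : ℤ) • n ∈ A) :
    ∃ B X : Matrix (Fin M) (Fin M) ℤ, B * X = (I : ℤ) • 1 ∧ ∀ a, a ∈ A ↔ ∃ n, a = B *ᵥ n := by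
  have i : (I : ℤ) ≠ 0 := by exact_mod_cast hI.ne'
  let s : (Fin M → ℤ) →ₗ[ℤ] A := LinearMap.codRestrict A ((I : ℤ) • LinearMap.id) h
  have e : Module.finrank ℤ A = M := le_antisymm (A.finrank_le.trans_eq (by simp)) (by
    simpa using LinearMap.finrank_le_finrank_of_injective (f := s) fun a b k =>
      smul_right_injective _ i (congrArg Subtype.val k))
  let b := Module.finBasisOfFinrankEq ℤ A e
  let B : Matrix (Fin M) (Fin M) ℤ := .of fun i j => (b j).1 i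
  have k (n) : B *ᵥ n = (b.equivFun.symm n).1 := by
    ext i
    simp [B, mulVec, dotProduct, mul_comm]
  have m (a) : a ∈ A ↔ ∃ n, a = B *ᵥ n :=
    ⟨fun q => ⟨b.equivFun ⟨a, q⟩, by rw [k, LinearEquiv.symm_apply_apply]⟩,
      fun ⟨n, q⟩ => by rw [q, k]; exact Subtype.prop _⟩
  choose x hx using fun j => (m _).1 (h (Pi.single j 1))
  refine ⟨B, .of fun i j => x j i, ?_, m⟩
  ext i j
  have := congrFun (hx j) i
  simpa [mul_apply, mulVec, dotProduct, one_apply, Pi.single_apply] using this.symm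

theorem red_op (B : Matrix (Fin M) (Fin M) ℚ) : ∃ K : ℝ, 0 ≤ K ∧ ∀ t, ‖B *ᵥ t‖ ≤ K * ‖t‖ :=
  letI := @Matrix.linftyOpSeminormedAddCommGroup (Fin M) (Fin M) ℚ _ _ _
  ⟨‖B‖, norm_nonneg _, Matrix.linfty_opNorm_mulVec B⟩

/-- Lattices between `Z^M` and `Z^M / I` have bases of bounded size. -/
theorem red_lat (M : ℕ) {I : ℕ} (hI : 0 < I) : ∃ K : ℝ, 0 ≤ K ∧ ∀ A : AddSubgroup (Fin M → ℚ),
    (∀ n, iv n ∈ A) → (∀ a ∈ A, ∃ n, (I : ℚ) • a = iv n) → ∃ B X : Matrix (Fin M) (Fin M) ℚ,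
      B * X = 1 ∧ (∀ a, a ∈ A ↔ ∃ n, a = B *ᵥ iv n) ∧ ∀ t, ‖B *ᵥ t‖ ≤ K * ‖t‖ ∧ ‖X *ᵥ t‖ ≤ K * ‖t‖ := by
  have i : (I : ℚ) ≠ 0 := by exact_mod_cast hI.ne'
  have : NeZero I := ⟨hI.ne'⟩
  let π : (Fin M → ℤ) →+ (Fin M → ZMod I) := (Int.castAddHom (ZMod I)).compLeft _
  choose B X h1 h2 using fun H : AddSubgroup (Fin M → ZMod I) =>
    red_basis hI (H.comap π).toIntSubmodule fun n => by
      have : π ((I : ℤ) • n) = 0 := by ext j; simp [π]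
      exact (congrArg (· ∈ H) this).mpr H.zero_mem
  choose K₁ p₁ k₁ using fun H => red_op ((I : ℚ)⁻¹ • (B H).map Int.cast)
  choose K₂ p₂ k₂ using fun H => red_op ((X H).map Int.cast)
  obtain ⟨K, hK⟩ := (Set.finite_range fun H => K₁ H + K₂ H).bddAbove
  have hK' (H) : K₁ H + K₂ H ≤ K := hK ⟨H, rfl⟩
  refine ⟨K, (add_nonneg (p₁ ⊥) (p₂ ⊥)).trans (hK' ⊥), fun A a b => ?_⟩
  let s : (Fin M → ℤ) →+ (Fin M → ℚ) := AddMonoidHom.mk' (fun n => (I : ℚ)⁻¹ • iv n) fun n n' => by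
    ext j
    simp [iv, mul_add]
  let H := (A.comap s).map π
  have e : H.comap π = A.comap s := AddSubgroup.comap_map_eq_self fun n k => by
    choose c hc using fun j => (ZMod.intCast_zmod_eq_zero_iff_dvd (n j) I).1 (congrFun k j)
    have : s n = iv c := funext fun j => by simp [s, iv, hc j, i]
    exact (congrArg (· ∈ A) this).mpr (a c)
  have m (n) : (I : ℚ)⁻¹ • iv n ∈ A ↔ ∃ c, n = B H *ᵥ c := by
    rw [← h2 H n]
    exact (SetLike.ext_iff.1 e n).symm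
  refine ⟨(I : ℚ)⁻¹ • (B H).map Int.cast, (X H).map Int.cast, ?_, fun x => ⟨fun q => ?_, ?_⟩,
    fun t => ⟨(k₁ H t).trans ?_, (k₂ H t).trans ?_⟩⟩
  · have := congrArg (Int.castRingHom ℚ).mapMatrix (h1 H)
    rw [map_mul, map_zsmul, map_one] at this
    rw [Matrix.smul_mul]
    exact (congrArg ((I : ℚ)⁻¹ • ·) this).trans (by
      rw [← Int.cast_smul_eq_zsmul ℚ, smul_smul, Int.cast_natCast, inv_mul_cancel₀ i, one_smul])
  · obtain ⟨n, r⟩ := b x q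
    have r' : x = (I : ℚ)⁻¹ • iv n := by rw [← r, inv_smul_smul₀ i]
    obtain ⟨c, rfl⟩ := (m n).1 (r' ▸ q)
    exact ⟨c, by rw [r', smul_mulVec, iv_mulVec]⟩
  · rintro ⟨c, rfl⟩
    rw [smul_mulVec, ← iv_mulVec]
    exact (m _).2 ⟨c, rfl⟩
  · exact mul_le_mul_of_nonneg_right (by linarith [hK' H, p₂ H]) (norm_nonneg _)
  · exact mul_le_mul_of_nonneg_right (by linarith [hK' H, p₁ H]) (norm_nonneg _)

/-- The ring `Z[1/N]`. -/
def Zs (N : ℕ) : Subring ℚ where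
  carrier := {q | ∃ (k : ℕ) (n : ℤ), (N : ℚ) ^ k * q = n}
  mul_mem' := by
    rintro a b ⟨k, n, h⟩ ⟨l, m, h'⟩
    exact ⟨k + l, n * m, by push_cast; rw [← h, ← h']; ring⟩
  one_mem' := ⟨0, 1, by simp⟩
  add_mem' := by
    rintro a b ⟨k, n, h⟩ ⟨l, m, h'⟩
    exact ⟨k + l, N ^ l * n + N ^ k * m, by push_cast; rw [← h, ← h']; ring⟩
  zero_mem' := ⟨0, 0, by simp⟩
  neg_mem' := by
    rintro a ⟨k, n, h⟩
    exact ⟨k, -n, by push_cast; rw [← h]; ring⟩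

theorem Zs_inv {N d : ℕ} (h : d ∣ N) : (d : ℚ)⁻¹ ∈ Zs N := by
  obtain ⟨c, rfl⟩ := h
  rcases eq_or_ne d 0 with rfl | n
  · simp
  · exact ⟨1, c, by push_cast; field_simp⟩

theorem Zs_zpow {N d : ℕ} (h : d ∣ N) (k : ℤ) : (d : ℚ) ^ k ∈ Zs N := by
  cases k with
  | ofNat k => simpa using pow_mem (natCast_mem (Zs N) d) k
  | negSucc k => simpa using pow_mem (Zs_inv h) (k + 1)

theorem red_np {p : ℕ} (hp : p.Prime) (k : ℤ) :
    (padicNorm p ((p : ℚ) ^ k) : ℝ) = (p : ℝ) ^ (-k) := by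
  have : Fact p.Prime := ⟨hp⟩
  rw [← Rat.AbsoluteValue.padic_eq_padicNorm, map_zpow₀, Rat.AbsoluteValue.padic_eq_padicNorm,
    padicNorm.padicNorm_p_of_prime]
  simp

theorem red_nq {p q : ℕ} (hp : p.Prime) (hq : q.Prime) (h : p ≠ q) (k : ℤ) :
    (padicNorm p ((q : ℚ) ^ k) : ℝ) = 1 := by
  have : Fact p.Prime := ⟨hp⟩
  have : Fact q.Prime := ⟨hq⟩
  rw [← Rat.AbsoluteValue.padic_eq_padicNorm, map_zpow₀, Rat.AbsoluteValue.padic_eq_padicNorm,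
    padicNorm.padicNorm_of_prime_of_ne h]
  simp

theorem red_nprod {S : Finset ℕ} (hS : ∀ p ∈ S, p.Prime) (k : ℕ → ℤ) {p : ℕ} (hp : p ∈ S) :
    (padicNorm p (∏ q ∈ S, (q : ℚ) ^ k q) : ℝ) = (p : ℝ) ^ (-k p) := by
  have : Fact p.Prime := ⟨hS p hp⟩
  rw [← Rat.AbsoluteValue.padic_eq_padicNorm, map_prod]
  exact (Finset.prod_eq_single_of_mem p hp
    fun q a b => red_nq (hS p hp) (hS q a) b.symm _).trans (red_np (hS p hp) _)

end Pool.Agent.Lib.MP_5d3e93_al.Lq
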